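import Mathlib

/-!
The constants of the moments of the partial sums of zeta, Gaussian side: definitions.

The coefficients `c_n` of `exp (∑_j z_j X^j / √j)`, `z_j` independent standard complex Gaussian
variables, are `∑ ee α z` over the multi-indices `α` of degree `dg α = ∑ j α_j = n`, where
`ee α z = ∏_j (z_j / √j)^(α_j) / α_j!`.
-/

set_option autoImplicit false

namespace Pool.Agent.Lib.RM

open MeasureTheory ProbabilityTheory Set Filter Topology Complex
open scoped ComplexConjugate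

/-- the standard complex Gaussian measure: independent real and imaginary parts of variance `1/2` -/
noncomputable def sg1 : Measure ℂ :=
  ((gaussianReal 0 (1 / 2)).prod (gaussianReal 0 (1 / 2))).map fun p => (p.1 : ℂ) + I * p.2

instance instProbSg1 : IsProbabilityMeasure sg1 := by
  unfold sg1
  exact Measure.isProbabilityMeasure_map (by fun_prop)

/-- independent standard complex Gaussian variables `z 0, z 1, ...` -/
noncomputable def Gm : Measure (ℕ → ℂ) := Measure.infinitePi fun _ => sg1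

instance instProbGm : IsProbabilityMeasure Gm := by
  unfold Gm
  infer_instance

/-- degree of a multi-index -/
def dg (α : ℕ →₀ ℕ) : ℕ := α.sum fun j a => j * a

/-- the monomial -/
noncomputable def ee (α : ℕ →₀ ℕ) (z : ℕ → ℂ) : ℂ :=
  α.prod fun j a => (z j / (Real.sqrt j : ℂ)) ^ a / (a.factorial : ℂ)

/-- the weight of a multi-index -/
noncomputable def ww (s : ℝ) (α : ℕ →₀ ℕ) : ℝ := α.prod fun j a => (s / j) ^ a / (a.factorial : ℝ)

/-- the multi-indices supported in `D` with entries less than `M` -/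
noncomputable def bx (D : Finset ℕ) (M : ℕ) : Finset (ℕ →₀ ℕ) := D.finsupp fun _ => Finset.range M

/-- Gaussian polynomials -/
noncomputable def PG (f : (ℕ →₀ ℕ) → ℂ) (B : Finset (ℕ →₀ ℕ)) (z : ℕ → ℂ) : ℂ := ∑ α ∈ B, f α * ee α z

/-- weighted partial sums; for `D ⊆ [1, L]` and `u` vanishing beyond `L` this is the sum of
`u n * c_n` over all `n`, `c_n` the coefficients of `exp (∑_(j in D) z_j X^j / √j)` -/
noncomputable def SG (u : ℕ → ℂ) (D : Finset ℕ) (L : ℕ) (z : ℕ → ℂ) : ℂ :=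
  PG (fun α => u (dg α)) (bx D (L + 1)) z

/-- the exponential of the sum over `D` -/
noncomputable def EX (D : Finset ℕ) (z : ℕ → ℂ) : ℂ := cexp (∑ j ∈ D, z j / (Real.sqrt j : ℂ))

/-- moments -/
noncomputable def MM (k : ℝ) (F : (ℕ → ℂ) → ℂ) : ENNReal := ∫⁻ z, ENNReal.ofReal (‖F z‖ ^ (2 * k)) ∂Gm

/-- the ramp: `0` for `x ≤ 1 - τ`, `1` for `x ≥ 1`, linear in between -/
noncomputable def rp (τ x : ℝ) : ℝ := max 0 (min 1 ((x - (1 - τ)) / τ))

/-- the Lipschitz cut-off -/
noncomputable def wc (τ x : ℝ) : ℂ := ((1 - rp τ x : ℝ) : ℂ)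

/-- the edge weight -/
noncomputable def ed (τ : ℝ) (L n : ℕ) : ℂ := if n ≤ L then ((rp τ ((n : ℝ) / L) : ℝ) : ℂ) else 0

/-- the form of one level -/
noncomputable def LF (q : ℕ) (u : ℕ → ℂ) (L M : ℕ) (y : ℝ) : ℝ :=
  ∑ α ∈ bx (Finset.Ioc ⌊y / 2⌋₊ ⌊y⌋₊) M, ∑ β ∈ bx (Finset.Ioc ⌊y⌋₊ L) (L + 1),
    ‖u (dg α + dg β) - u (dg β)‖ ^ 2 * (ww q α * ww q β)

/-! ### elementary facts -/

lemma dg_zero : dg 0 = 0 := by simp [dg]

lemma dg_add (α β : ℕ →₀ ℕ) : dg (α + β) = dg α + dg β := by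
  unfold dg
  exact Finsupp.sum_add_index' (fun _ => by simp) (fun _ _ _ => by ring)

lemma dg_single (j a : ℕ) : dg (Finsupp.single j a) = j * a := by simp [dg]

lemma mul_le_dg (α : ℕ →₀ ℕ) (j : ℕ) : j * α j ≤ dg α := by
  by_cases h : α j = 0
  · simp [h]
  · unfold dg Finsupp.sum
    exact Finset.single_le_sum (f := fun j => j * α j) (fun _ _ => Nat.zero_le _)
      (Finsupp.mem_support_iff.mpr h)

lemma mem_bx {D : Finset ℕ} {M : ℕ} {α : ℕ →₀ ℕ} :
    α ∈ bx D M ↔ α.support ⊆ D ∧ ∀ j ∈ D, α j < M := by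
  unfold bx
  rw [Finset.mem_finsupp_iff]
  simp only [Finset.mem_range]

lemma ee_eq_prod {D : Finset ℕ} {α : ℕ →₀ ℕ} (h : α.support ⊆ D) (z : ℕ → ℂ) :
    ee α z = ∏ j ∈ D, (z j / (Real.sqrt j : ℂ)) ^ α j / ((α j).factorial : ℂ) := by
  unfold ee
  exact Finsupp.prod_of_support_subset _ h _ (fun j _ => by simp)

lemma ww_eq_prod {D : Finset ℕ} {α : ℕ →₀ ℕ} (h : α.support ⊆ D) (s : ℝ) :
    ww s α = ∏ j ∈ D, (s / j) ^ α j / ((α j).factorial : ℝ) := by
  unfold ww
  exact Finsupp.prod_of_support_subset _ h _ (fun j _ => by simp)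

lemma ee_zero (z : ℕ → ℂ) : ee 0 z = 1 := by simp [ee]

lemma ww_zero (s : ℝ) : ww s 0 = 1 := by simp [ww]

lemma ww_nonneg {s : ℝ} (hs : 0 ≤ s) (α : ℕ →₀ ℕ) : 0 ≤ ww s α := by
  unfold ww Finsupp.prod
  exact Finset.prod_nonneg fun j _ => by positivity

lemma ee_add {α β : ℕ →₀ ℕ} (h : Disjoint α.support β.support) (z : ℕ → ℂ) :
    ee (α + β) z = ee α z * ee β z := Finsupp.prod_add_index_of_disjoint h _

lemma ww_add {α β : ℕ →₀ ℕ} (h : Disjoint α.support β.support) (s : ℝ) :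
    ww s (α + β) = ww s α * ww s β := Finsupp.prod_add_index_of_disjoint h _

/-- sums over boxes -/
lemma sum_bx_prod {R : Type} [CommSemiring R] (D : Finset ℕ) (M : ℕ) (c : ℕ → ℕ → R) :
    ∑ α ∈ bx D M, ∏ j ∈ D, c j (α j) = ∏ j ∈ D, ∑ a ∈ Finset.range M, c j a := by
  classical
  unfold bx Finset.finsupp
  rw [Finset.sum_map, Finset.prod_sum]
  have e : ∀ i1 i2 : DecidableEq ℕ, @Finset.pi ℕ (fun _ => ℕ) i1 D (fun _ => Finset.range M)
      = @Finset.pi ℕ (fun _ => ℕ) i2 D (fun _ => Finset.range M) := by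
    intro i1 i2
    rw [Subsingleton.elim i1 i2]
  refine Finset.sum_congr (e _ _) fun p hp => ?_
  rw [← Finset.prod_attach D]
  refine Finset.prod_congr rfl fun j _ => ?_
  simp

lemma sum_bx_ee (D : Finset ℕ) (M : ℕ) (z : ℕ → ℂ) : ∑ α ∈ bx D M, ee α z
    = ∏ j ∈ D, ∑ a ∈ Finset.range M, (z j / (Real.sqrt j : ℂ)) ^ a / (a.factorial : ℂ) := by
  rw [← sum_bx_prod D M fun j a => (z j / (Real.sqrt j : ℂ)) ^ a / (a.factorial : ℂ)]
  exact Finset.sum_congr rfl fun α hα => ee_eq_prod (mem_bx.mp hα).1 z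

/-- sums of products over arbitrary finite sets of multi-indices -/
lemma sum_prod_le_exp (D : Finset ℕ) (s : ℕ → ℝ) (hs : ∀ j ∈ D, 0 ≤ s j) (B : Finset (ℕ →₀ ℕ))
    (hB : ∀ α ∈ B, α.support ⊆ D) :
    ∑ α ∈ B, ∏ j ∈ D, s j ^ α j / ((α j).factorial : ℝ) ≤ Real.exp (∑ j ∈ D, s j) := by
  classical
  obtain ⟨M, hM⟩ : ∃ M : ℕ, ∀ α ∈ B, ∀ j, α j < M := by
    refine ⟨(B.sup fun α => α.support.sup α) + 1, fun α hα j => ?_⟩
    by_cases h : α j = 0
    · omega
    · have h1 : α j ≤ α.support.sup α := Finset.le_sup (f := α) (Finsupp.mem_support_iff.mpr h)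
      have h2 : α.support.sup α ≤ B.sup fun α => α.support.sup α :=
        Finset.le_sup (f := fun α : ℕ →₀ ℕ => α.support.sup α) hα
      omega
  have hsub : B ⊆ bx D M := fun α hα => mem_bx.mpr ⟨hB α hα, fun j _ => hM α hα j⟩
  refine (Finset.sum_le_sum_of_subset_of_nonneg hsub fun α _ _ =>
    Finset.prod_nonneg fun j hj => div_nonneg (pow_nonneg (hs j hj) _) (Nat.cast_nonneg _)).trans ?_
  rw [sum_bx_prod D M fun j a => s j ^ a / (a.factorial : ℝ), Real.exp_sum]
  refine Finset.prod_le_prod (fun j hj => Finset.sum_nonneg fun a _ =>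
    div_nonneg (pow_nonneg (hs j hj) _) (Nat.cast_nonneg _)) fun j hj => ?_
  exact Real.sum_le_exp_of_nonneg (hs j hj) M

lemma sum_ww_le (D : Finset ℕ) {s : ℝ} (hs : 0 ≤ s) (B : Finset (ℕ →₀ ℕ))
    (hB : ∀ α ∈ B, α.support ⊆ D) : ∑ α ∈ B, ww s α ≤ Real.exp (∑ j ∈ D, s / j) := by
  have h := sum_prod_le_exp D (fun j => s / j) (fun j _ => by positivity) B hB
  refine le_trans (le_of_eq ?_) h
  exact Finset.sum_congr rfl fun α hα => ww_eq_prod (hB α hα) s

/-- boxes over disjoint sets -/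
lemma sum_bx_union {R : Type} [AddCommMonoid R] {D D' : Finset ℕ} (h : Disjoint D D') (M : ℕ)
    (F : (ℕ →₀ ℕ) → R) :
    ∑ γ ∈ bx (D ∪ D') M, F γ = ∑ α ∈ bx D M, ∑ β ∈ bx D' M, F (α + β) := by
  classical
  rw [← Finset.sum_product']
  symm
  refine Finset.sum_bij' (fun p _ => p.1 + p.2)
    (fun γ _ => (γ.filter (· ∈ D), γ.filter (· ∈ D'))) ?_ ?_ ?_ ?_ ?_
  · rintro ⟨α, β⟩ hp
    obtain ⟨h1, h2⟩ := Finset.mem_product.mp hp
    rw [mem_bx] at h1 h2 ⊢
    refine ⟨fun j hj => ?_, fun j hj => ?_⟩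
    · rcases Finset.mem_union.mp (Finsupp.support_add hj) with h3 | h3
      · exact Finset.mem_union_left _ (h1.1 h3)
      · exact Finset.mem_union_right _ (h2.1 h3)
    · rw [Finsupp.add_apply]
      rcases Finset.mem_union.mp hj with h3 | h3
      · have h4 : β j = 0 := by
          by_contra h5
          exact (Finset.disjoint_left.mp h h3) (h2.1 (Finsupp.mem_support_iff.mpr h5))
        rw [h4, add_zero]
        exact h1.2 j h3
      · have h4 : α j = 0 := by
          by_contra h5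
          exact (Finset.disjoint_left.mp h (h1.1 (Finsupp.mem_support_iff.mpr h5))) h3
        rw [h4, zero_add]
        exact h2.2 j h3
  · intro γ hγ
    rw [mem_bx] at hγ
    refine Finset.mem_product.mpr ⟨mem_bx.mpr ⟨fun j hj => ?_, fun j hj => ?_⟩,
      mem_bx.mpr ⟨fun j hj => ?_, fun j hj => ?_⟩⟩
    · rw [Finsupp.support_filter] at hj
      exact (Finset.mem_filter.mp hj).2
    · change (γ.filter (· ∈ D)) j < M
      rw [Finsupp.filter_apply, if_pos hj]
      exact hγ.2 j (Finset.mem_union_left _ hj)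
    · rw [Finsupp.support_filter] at hj
      exact (Finset.mem_filter.mp hj).2
    · change (γ.filter (· ∈ D')) j < M
      rw [Finsupp.filter_apply, if_pos hj]
      exact hγ.2 j (Finset.mem_union_right _ hj)
  · rintro ⟨α, β⟩ hp
    obtain ⟨h1, h2⟩ := Finset.mem_product.mp hp
    rw [mem_bx] at h1 h2
    refine Prod.ext ?_ ?_
    · ext j
      change ((α + β).filter (· ∈ D)) j = α j
      rw [Finsupp.filter_apply, Finsupp.add_apply]
      split_ifs with hj
      · have h4 : β j = 0 := by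
          by_contra h5
          exact (Finset.disjoint_left.mp h hj) (h2.1 (Finsupp.mem_support_iff.mpr h5))
        rw [h4, add_zero]
      · by_contra h5
        exact hj (h1.1 (Finsupp.mem_support_iff.mpr (Ne.symm h5)))
    · ext j
      change ((α + β).filter (· ∈ D')) j = β j
      rw [Finsupp.filter_apply, Finsupp.add_apply]
      split_ifs with hj
      · have h4 : α j = 0 := by
          by_contra h5
          exact (Finset.disjoint_left.mp h (h1.1 (Finsupp.mem_support_iff.mpr h5))) hj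
        rw [h4, zero_add]
      · by_contra h5
        exact hj (h2.1 (Finsupp.mem_support_iff.mpr (Ne.symm h5)))
  · intro γ hγ
    rw [mem_bx] at hγ
    ext j
    change (γ.filter (· ∈ D) + γ.filter (· ∈ D')) j = γ j
    rw [Finsupp.add_apply, Finsupp.filter_apply, Finsupp.filter_apply]
    by_cases h1 : j ∈ D
    · rw [if_pos h1, if_neg (Finset.disjoint_left.mp h h1), add_zero]
    · rw [if_neg h1, zero_add]
      split_ifs with h2
      · rfl
      · by_contra h5
        rcases Finset.mem_union.mp (hγ.1 (Finsupp.mem_support_iff.mpr (Ne.symm h5))) with h3 | h3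
        · exact h1 h3
        · exact h2 h3
  · intro p _
    rfl

/-! ### continuity -/

lemma continuous_ee (α : ℕ →₀ ℕ) : Continuous (ee α) := by
  unfold ee Finsupp.prod
  refine continuous_finsetProd _ fun j _ => ?_
  exact (((continuous_apply j).div_const _).pow _).div_const _

lemma continuous_PG (f : (ℕ →₀ ℕ) → ℂ) (B : Finset (ℕ →₀ ℕ)) : Continuous (PG f B) := by
  unfold PG
  exact continuous_finsetSum _ fun α _ => continuous_const.mul (continuous_ee α)

lemma continuous_SG (u : ℕ → ℂ) (D : Finset ℕ) (L : ℕ) : Continuous (SG u D L) := continuous_PG _ _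

lemma continuous_EX (D : Finset ℕ) : Continuous (EX D) := by
  unfold EX
  refine Complex.continuous_exp.comp (continuous_finsetSum _ fun j _ => ?_)
  exact (continuous_apply j).div_const _

lemma dependsOn_ee {D : Finset ℕ} {α : ℕ →₀ ℕ} (h : α.support ⊆ D) : DependsOn (ee α) (D : Set ℕ) := by
  intro x y hxy
  rw [ee_eq_prod h, ee_eq_prod h]
  exact Finset.prod_congr rfl fun j hj => by rw [hxy j hj]

lemma dependsOn_PG {D : Finset ℕ} {f : (ℕ →₀ ℕ) → ℂ} {B : Finset (ℕ →₀ ℕ)}
    (h : ∀ α ∈ B, α.support ⊆ D) : DependsOn (PG f B) (D : Set ℕ) := by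
  intro x y hxy
  unfold PG
  exact Finset.sum_congr rfl fun α hα => by rw [dependsOn_ee (h α hα) hxy]

lemma dependsOn_SG (u : ℕ → ℂ) (D : Finset ℕ) (L : ℕ) : DependsOn (SG u D L) (D : Set ℕ) :=
  dependsOn_PG fun _ hα => (mem_bx.mp hα).1

lemma dependsOn_EX (D : Finset ℕ) : DependsOn (EX D) (D : Set ℕ) := by
  intro x y hxy
  unfold EX
  congr 1
  exact Finset.sum_congr rfl fun j hj => by rw [hxy j hj]

end Pool.Agent.Lib.RM
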