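import Mathlib
import Pool.Agent.Lib.MP_f9aece_nt_rm.Defs

/-!
The constants of the moments of the partial sums of zeta, Gaussian side: statements of the modules.
Module `X` proves `theorem x : X`; modules using `X` take it as a hypothesis.
-/

set_option autoImplicit false

namespace Pool.Agent.Lib.RM

open MeasureTheory ProbabilityTheory Set Filter Topology Complex
open scoped ComplexConjugate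

/-! ### Gaussian variables -/

/-- A1: one variable: absolute moments, characteristic function, exponential moments -/
def OneA : Prop := (∀ p : ℕ, Integrable (fun z : ℂ => ‖z‖ ^ p) sg1) ∧
  (∀ ξ : ℂ, ∫ z, cexp (I * ((ξ * z).re : ℂ)) ∂sg1 = (Real.exp (-(‖ξ‖ ^ 2) / 4) : ℂ)) ∧
  (∀ s : ℝ, ∫⁻ z, ENNReal.ofReal (Real.exp (2 * s * z.re)) ∂sg1 = ENNReal.ofReal (Real.exp (s ^ 2)))

/-- A2: one variable: mixed moments -/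
def OneB : Prop := ∀ a b : ℕ, ∫ z, z ^ a * conj z ^ b ∂sg1 = if a = b then (a.factorial : ℂ) else 0

/-- A3: product formulas -/
def ProdF : Prop := (∀ (D : Finset ℕ) (φ : ℕ → ℂ → ℂ), (∀ j, Measurable (φ j)) →
    ∫ z, ∏ j ∈ D, φ j (z j) ∂Gm = ∏ j ∈ D, ∫ x, φ j x ∂sg1) ∧
  (∀ (D : Finset ℕ) (φ : ℕ → ℂ → ENNReal), (∀ j, Measurable (φ j)) →
    ∫⁻ z, ∏ j ∈ D, φ j (z j) ∂Gm = ∏ j ∈ D, ∫⁻ x, φ j x ∂sg1)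

/-- A4: independence -/
def IndL : Prop := ∀ (S T : Finset ℕ) (F G : (ℕ → ℂ) → ENNReal), Disjoint S T → Measurable F →
  Measurable G → DependsOn F (S : Set ℕ) → DependsOn G (T : Set ℕ) →
  ∫⁻ z, F z * G z ∂Gm = (∫⁻ z, F z ∂Gm) * ∫⁻ z, G z ∂Gm

/-- A5: orthogonality, all moments are finite -/
def Orth : Prop := ∀ B : Finset (ℕ →₀ ℕ), (∀ α ∈ B, α 0 = 0) →
  (∀ (f : (ℕ →₀ ℕ) → ℂ) (p : ℝ), 0 ≤ p → Integrable (fun z => ‖PG f B z‖ ^ p) Gm) ∧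
  (∀ f g : (ℕ →₀ ℕ) → ℂ, ∫ z, PG f B z * conj (PG g B z) ∂Gm
    = ∑ α ∈ B, f α * conj (g α) * (ww 1 α : ℂ))

/-- A6: the product of two polynomials -/
def MulP : Prop := ∀ (B B' : Finset (ℕ →₀ ℕ)) (f g : (ℕ →₀ ℕ) → ℂ), (∀ α ∈ B, α 0 = 0) →
  (∀ α ∈ B', α 0 = 0) → ∃ (B'' : Finset (ℕ →₀ ℕ)) (h : (ℕ →₀ ℕ) → ℂ), (∀ α ∈ B'', α 0 = 0) ∧
  (∀ z, PG h B'' z = PG f B z * PG g B' z) ∧
  ∀ s t t' : ℝ, 0 ≤ s → 0 < t → 0 < t' → 1 / t + 1 / t' ≤ 1 →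
    ∑ α ∈ B'', ‖h α‖ ^ 2 * ww s α
      ≤ (∑ α ∈ B, ‖f α‖ ^ 2 * ww (s * t) α) * ∑ α ∈ B', ‖g α‖ ^ 2 * ww (s * t') α

/-- A7: moments of a polynomial -/
def Hyp : Prop := ∀ (q : ℕ) (k : ℝ), 1 ≤ q → 0 < k → k ≤ q → ∀ (B : Finset (ℕ →₀ ℕ))
  (f : (ℕ →₀ ℕ) → ℂ), (∀ α ∈ B, α 0 = 0) →
  MM k (PG f B) ≤ ENNReal.ofReal ((∑ α ∈ B, ‖f α‖ ^ 2 * ww q α) ^ k)

/-! ### sums of the weights -/

/-- A8: multi-indices with large entries, degree in a window -/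
def WSum : Prop := ∀ q : ℕ, 1 ≤ q → ∃ C : ℝ, 1 ≤ C ∧ ∀ y x x' : ℝ, 1 ≤ y → x ≤ x' → 0 ≤ x' →
  ∀ B : Finset (ℕ →₀ ℕ), (∀ α ∈ B, (∀ j ∈ α.support, y < j) ∧ x < dg α ∧ (dg α : ℝ) ≤ x') →
  ∑ α ∈ B, ww q α ≤ C * (1 + (x' - x + 1) * x' ^ (q - 1) / y ^ q)

/-- A9: multi-indices of one group -/
def ASum : Prop := ∀ q : ℕ, ∃ C : ℝ, 1 ≤ C ∧ ∀ y : ℝ, 1 ≤ y → ∀ B : Finset (ℕ →₀ ℕ),
  (∀ α ∈ B, ∀ j ∈ α.support, y / 2 < j ∧ (j : ℝ) ≤ y) →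
  ∑ α ∈ B, ww q α * (1 + dg α / y) ^ 2 ≤ C

/-! ### the levels -/

/-- B1: one level -/
def LevBd : Prop := ∀ (q : ℕ) (k : ℝ), 1 ≤ q → 0 < k → k ≤ q → ∀ (u : ℕ → ℂ) (L : ℕ) (y T : ℝ),
  (∀ n, L < n → u n = 0) → 1 ≤ y → y ≤ L → (∀ M, LF q u L M y ≤ T) →
  MM k (fun z => SG u (Finset.Ioc ⌊y / 2⌋₊ L) L z
    - EX (Finset.Ioc ⌊y / 2⌋₊ ⌊y⌋₊) z * SG u (Finset.Ioc ⌊y⌋₊ L) L z) ≤ ENNReal.ofReal (T ^ k)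

/-- B2: the form of one level for Lipschitz weights -/
def LipLev : Prop := ∀ (q : ℕ) (Lam : ℝ) (w : ℝ → ℂ), 1 ≤ q → 0 ≤ Lam →
  (∀ x y, ‖w x - w y‖ ≤ Lam * |x - y|) → (∀ x, 1 ≤ x → w x = 0) → ∃ C : ℝ, 1 ≤ C ∧
  ∀ (L M : ℕ) (y : ℝ), 1 ≤ y → y ≤ L →
  LF q (fun n => w ((n : ℝ) / L)) L M y ≤ C * ((L : ℝ) / y) ^ (q - 1)

/-- B3: the form of one level for the edge weight -/
def EdgeLev : Prop := ∀ q : ℕ, 1 ≤ q → ∃ C : ℝ, 1 ≤ C ∧ ∀ (τ : ℝ) (L M : ℕ) (y : ℝ), 0 < τ → τ ≤ 1 →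
  1 ≤ y → y ≤ τ * L → LF q (ed τ L) L M y ≤ C * ((L : ℝ) / y) ^ (q - 1)

/-- B4: moments of the exponential -/
def ExpM : Prop := ∀ (k : ℝ) (n : ℕ), 0 < k → MM k (EX (Finset.Icc 1 n))
  = ENNReal.ofReal (Real.exp (k ^ 2 * ∑ j ∈ Finset.Icc 1 n, (1 : ℝ) / j))

/-- B0: powers of sums (`MP2.PowSum`) -/
def PowS : Prop := ∀ p η : ℝ, 0 < p → 0 < η → ∃ C : ℝ, 1 ≤ C ∧ ∀ (n : ℕ) (z : ℕ → ℂ),
  ‖∑ j ∈ Finset.range n, z j‖ ^ p ≤ C * ∑ j ∈ Finset.range n, (2 : ℝ) ^ (η * j) * ‖z j‖ ^ p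

/-- B5: all levels -/
def Tel : Prop := ∀ (q : ℕ) (k : ℝ), 1 ≤ q → 0 < k → (q : ℝ) - 1 < k → k ≤ q → ∃ C : ℝ, 1 ≤ C ∧
  ∀ (u : ℕ → ℂ) (L : ℕ) (y0 C1 : ℝ), (∀ n, L < n → u n = 0) → 1 ≤ y0 → y0 ≤ L → 0 ≤ C1 →
  (∀ (M : ℕ) (y : ℝ), 1 ≤ y → y ≤ y0 → LF q u L M y ≤ C1 * ((L : ℝ) / y) ^ (q - 1)) →
  MM k (fun z => SG u (Finset.Icc 1 L) L z
    - EX (Finset.Icc 1 ⌊y0⌋₊) z * SG u (Finset.Ioc ⌊y0⌋₊ L) L z)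
    ≤ ENNReal.ofReal (C * C1 ^ k * ((L : ℝ) ^ (k ^ 2) * (y0 / L) ^ (k * (k - q + 1))))

/-- B6: the window at the edge -/
def GTail : Prop := ∀ (q : ℕ) (k : ℝ), 1 ≤ q → 0 < k → (q : ℝ) - 1 < k → k ≤ q → ∃ C : ℝ, 1 ≤ C ∧
  ∀ τ : ℝ, 0 < τ → τ ≤ 1 → ∃ L0 : ℕ, ∀ L : ℕ, L0 ≤ L →
  MM k (SG (ed τ L) (Finset.Icc 1 L) L)
    ≤ ENNReal.ofReal (C * (τ ^ (k * (k - q + 1)) * (L : ℝ) ^ (k ^ 2)))

/-! ### symmetric sums and the recursion -/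

/-- C1: symmetric sums -/
def SymSum : Prop := ∀ (D : Finset ℕ) (r : ℕ) (G : (ℕ →₀ ℕ) → ℂ) (x : ℕ → ℂ),
  ((r.factorial : ℂ))⁻¹ * ∑ j ∈ Fintype.piFinset (fun _ : Fin r => D),
      G (∑ i, Finsupp.single (j i) 1) * ∏ i, x (j i)
    = ∑ α ∈ (bx D (r + 1)).filter (fun α => (α.sum fun _ a => a) = r),
      G α * ∏ l ∈ D, x l ^ α l / ((α l).factorial : ℂ)

/-- C8: the recursion of the coefficients -/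
def Rec : Prop := ∀ c z : ℕ → ℂ, c 0 = 1 → (∀ n : ℕ, ((n : ℂ) + 1) * c (n + 1)
    = ∑ j ∈ Finset.range (n + 1), (Real.sqrt ((j : ℝ) + 1) : ℂ) * z (j + 1) * c (n - j)) →
  ∀ L : ℕ, ∑ n ∈ Finset.range (L + 1), c n
    = SG (fun n => if n ≤ L then 1 else 0) (Finset.Icc 1 L) L z

end Pool.Agent.Lib.RM
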