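import Mathlib
import Pool.Agent.Lib.MP_f9aece_nt_rm.StmtsG
import Pool.Agent.Lib.MP_f9aece_nt_mt.StmtsT
import Pool.Agent.Lib.MP_f9aece_nt_nl.Q

/-!
The constants of the moments of the partial sums of zeta: statements of the modules, second part.
Module `X` proves `theorem x : X`; modules using `X` take it as a hypothesis.
-/

set_option autoImplicit false

namespace Pool.Agent.Lib.RM

open MeasureTheory ProbabilityTheory Set Filter Topology Complex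
open scoped ComplexConjugate

/-! ### the rough part -/

/-- the block sums -/
noncomputable def Zb (K : ℝ) (m L : ℕ) (z : ℕ → ℂ) (l : Fin m) : ℂ :=
  ∑ j ∈ (Finset.Icc 1 L).filter (fun j : ℕ => (L : ℝ) / K * MT.uj K m l < j ∧
    (j : ℝ) ≤ (L : ℝ) / K * MT.uj K m (l + 1)), z j / (Real.sqrt j : ℂ)

/-- C2: the rough part and the polynomial of the block sums -/
def RPM : Prop := ∀ (k B Lam : ℝ) (w : ℝ → ℂ), 0 < k → MT.CutC B Lam w → ∀ K : ℝ, 1 < K →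
  ∃ C : ℝ, 0 ≤ C ∧ ∀ m L : ℕ, 1 ≤ m → K ≤ L →
  MM k (SG (fun n => w ((n : ℝ) / L)) (Finset.Ioc ⌊(L : ℝ) / K⌋₊ L) L) ≤ ENNReal.ofReal C ∧
  MM k (fun z => SG (fun n => w ((n : ℝ) / L)) (Finset.Ioc ⌊(L : ℝ) / K⌋₊ L) L z
    - MT.PM w K m (Zb K m L z)) ≤ ENNReal.ofReal (C * (1 / m) ^ (2 * k))

/-- C3: limit of the moments of the polynomial of the block sums -/
def PMLim : Prop := ∀ (k B Lam : ℝ) (w : ℝ → ℂ), 0 < k → MT.CutC B Lam w → ∀ (K : ℝ) (m : ℕ), 1 < K →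
  1 ≤ m → (∀ L : ℕ, Integrable (fun z => ‖MT.PM w K m (Zb K m L z)‖ ^ (2 * k)) Gm) ∧
  Tendsto (fun L : ℕ => ∫ z, ‖MT.PM w K m (Zb K m L z)‖ ^ (2 * k) ∂Gm) atTop
    (𝓝 (∫ z, ‖MT.PM w K m z‖ ^ (2 * k) ∂(MT.gam m fun j => MT.sg K m j)))

/-- C4: the limit of the rough part is the limit of the Gaussian integrals -/
def DecPM : Prop := ∀ (k B Lam : ℝ) (w : ℝ → ℂ), 0 < k → MT.CutC B Lam w → ∀ K g : ℝ, 1 < K →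
  MT.Dec k w K g → ∀ ε : ℝ, 0 < ε → ∃ m0 : ℕ, ∀ m : ℕ, m0 ≤ m →
  |∫ z, ‖MT.PM w K m z‖ ^ (2 * k) ∂(MT.gam m fun j => MT.sg K m j) - g| ≤ ε

/-- C5: the limit of the rough part of the Gaussian model -/
def RLim : Prop := ∀ (k B Lam : ℝ) (w : ℝ → ℂ), 0 < k → MT.CutC B Lam w → ∀ K g : ℝ, 1 < K →
  MT.Dec k w K g → Tendsto (fun L : ℕ => ∫ z,
    ‖SG (fun n => w ((n : ℝ) / L)) (Finset.Ioc ⌊(L : ℝ) / K⌋₊ L) L z‖ ^ (2 * k) ∂Gm) atTop (𝓝 g)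

/-! ### limits -/

/-- the prime-free limit -/
def Ell (k : ℝ) (w : ℝ → ℂ) (l : ℝ) : Prop := ∀ ε : ℝ, 0 < ε → ∃ v1 : ℕ, ∀ v : ℕ, v1 ≤ v → ∀ g : ℝ,
  1 ≤ g → MT.Dec k w (Real.exp (2 * v)) g → |g * Real.exp (-(2 * v * k ^ 2)) - l| ≤ ε

/-- limit of the moments of the Gaussian model -/
def GLm (k : ℝ) (u : ℕ → ℕ → ℂ) (h : ℝ) : Prop :=
  Tendsto (fun L : ℕ => (∫ z, ‖SG (u L) (Finset.Icc 1 L) L z‖ ^ (2 * k) ∂Gm) / (L : ℝ) ^ (k ^ 2))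
    atTop (𝓝 h)

/-- limit of the moments of the sums over the integers -/
def NT (k : ℝ) (w : ℝ → ℂ) (c : ℝ) : Prop := ∀ ε : ℝ, 0 < ε → ∃ N : ℝ, 1 ≤ N ∧
  ∀ (L X η : ℝ) (ν : Measure ℝ), N ≤ L → MS.MVP ν X η → Real.exp (N * L) ≤ X → 0 ≤ η → η * N ≤ 1 →
  |∫ t, ‖MS.ZS w L t‖ ^ (2 * k) ∂ν - c * L ^ (k ^ 2)| ≤ ε * L ^ (k ^ 2)

/-- C6: the Gaussian model with a Lipschitz weight -/
def GMain : Prop := ∀ (k B Lam : ℝ) (w : ℝ → ℂ), 0 < k → MT.CutC B Lam w → w 0 = 1 → ∀ l : ℝ,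
  Ell k w l → GLm k (fun L n => w ((n : ℝ) / L)) (Real.exp (k ^ 2 * Real.eulerMascheroniConstant) * l)

/-- C7: the Gaussian model without weight -/
def GSharp : Prop := ∀ k : ℝ, 0 < k → ∀ (h : ℝ) (hh : ℝ → ℝ),
  (∀ τ : ℝ, 0 < τ → τ ≤ 1 → GLm k (fun L n => wc τ ((n : ℝ) / L)) (hh τ)) →
  Tendsto hh (𝓝[>] 0) (𝓝 h) → GLm k (fun L n => if n ≤ L then 1 else 0) h

/-! ### the primes -/

/-- the arithmetic constant -/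
noncomputable def AI (M1 k : ℝ) : ℝ := NL.ak k * Real.exp (k ^ 2 * M1)

/-- D1a: Mertens' theorem for the groups, with the constant -/
def VLimX (M0 : ℝ) : Prop := ∀ p0 : ℕ, 1 ≤ p0 → ∀ ε : ℝ, 0 < ε → ∃ N : ℝ, 1 ≤ N ∧ ∀ A : MS.Par, A.Ok →
  A.p0 = p0 → N ≤ A.Y →
  |A.V 0 - Real.log A.Y - (M0 - ∑ p ∈ (Finset.Icc 1 p0).filter Nat.Prime, (p : ℝ)⁻¹)| ≤ ε

/-- D1b: the small primes -/
def ArLim (M0 M1 : ℝ) : Prop := ∀ k ε : ℝ, 0 < k → 0 < ε → ∃ p1 : ℕ, ∀ p0 : ℕ, p1 ≤ p0 → ∃ K1 : ℕ,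
  ∀ Kb : ℕ, K1 ≤ Kb → |NL.F0 k Kb p0 1
    * Real.exp (k ^ 2 * (M0 - ∑ p ∈ (Finset.Icc 1 p0).filter Nat.Prime, (p : ℝ)⁻¹)) - AI M1 k| ≤ ε

/-- D1: the constants -/
def ConstX : Prop := ∃ M0 M1 : ℝ, VLimX M0 ∧ ArLim M0 M1

/-- D2: size of the main term, with the constant -/
def MainX (M1 : ℝ) : Prop := ∀ (q : ℕ) (k ε : ℝ), 1 ≤ q → 0 < k → (q : ℝ) - 1 < k → k ≤ q → 0 < ε →
  ∃ p1 : ℕ, 1000 ≤ p1 ∧ ∀ p0 : ℕ, p1 ≤ p0 → ∃ v1 : ℕ, 4 ≤ v1 ∧ ∀ v : ℕ, v1 ≤ v →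
  ∀ (w : ℝ → ℂ) (g : ℝ), 1 ≤ g → MT.Dec k w (Real.exp (2 * v)) g → ∃ N : ℝ, 1 ≤ N ∧
  ∀ (A : MS.Par) (L X η : ℝ) (ν : Measure ℝ), MT.Std q v p0 N A L X η ν →
  |∫ t, ‖MT.Mn w A L t‖ ^ (2 * k) ∂ν - AI M1 k * g * MT.sz k v L|
    ≤ ε * (AI M1 k * g * MT.sz k v L)

/-- D3: the limit and the prime-free limit -/
def EllX (M1 : ℝ) : Prop := ∀ (k B Lam : ℝ) (w : ℝ → ℂ), 0 < k → MT.CutC B Lam w → w 0 = 1 → ∀ c : ℝ,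
  NT k w c → Ell k w (c / AI M1 k)

/-- D4: the partial sums as limit of the smoothed sums -/
def NSharp : Prop := ∀ k : ℝ, 0 < k → ∀ c : ℝ, NT k (fun _ => 1) c → ∀ cc : ℝ → ℝ,
  (∀ τ : ℝ, 0 < τ → τ ≤ 1 → NT k (wc τ) (cc τ)) → Tendsto cc (𝓝[>] 0) (𝓝 c)

/-- D5: the second moment -/
def OneEq : Prop := ∀ c h : ℝ, NT 1 (wc (1 / 2)) c → GLm 1 (fun L n => wc (1 / 2) ((n : ℝ) / L)) h →
  c = h ∧ 0 < c

end Pool.Agent.Lib.RM
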