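import Mathlib
import Pool.Agent.Lib.MP_f9aece_nt_rm.StmtsG

/-!
The constants of the moments of the partial sums of zeta, module A1.

`sg1` is the law of `X + i Y`, `X, Y` independent `N(0, 1/2)`.
-/

set_option autoImplicit false

namespace Pool.Agent.Lib.RM

open MeasureTheory ProbabilityTheory Set Filter Topology Complex
open scoped ComplexConjugate

private lemma memLp1 (p : ℕ) : MemLp (fun z : ℂ => z) p sg1 := by
  unfold sg1
  rw [memLp_map_measure_iff (by fun_prop) (by fun_prop)]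
  have h : MemLp (fun x : ℝ => (x : ℂ)) p (gaussianReal 0 (1 / 2)) := by
    have h0 := memLp_id_gaussianReal' (μ := 0) (v := 1 / 2) (p : ENNReal) (by simp)
    exact h0.ofReal
  have h1 := h.comp_fst (gaussianReal 0 (1 / 2))
  have h2 := (h.comp_snd (gaussianReal 0 (1 / 2))).const_mul I
  exact h1.add h2

private lemma gauss_int (c : ℝ) :
    ∫ x : ℝ, cexp (I * ((c * x : ℝ) : ℂ)) ∂(gaussianReal 0 (1 / 2))
      = cexp (-((c ^ 2 / 4 : ℝ) : ℂ)) := by
  have h := charFun_gaussianReal (μ := 0) (v := 1 / 2) c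
  rw [charFun_apply_real] at h
  have e : ∀ x : ℝ, cexp (I * ((c * x : ℝ) : ℂ)) = cexp (c * x * I) := by
    intro x
    congr 1
    push_cast
    ring
  simp_rw [e]
  rw [h]
  congr 1
  push_cast
  ring

private lemma char1 (ξ : ℂ) : ∫ z, cexp (I * ((ξ * z).re : ℂ)) ∂sg1
    = (Real.exp (-(‖ξ‖ ^ 2) / 4) : ℂ) := by
  unfold sg1
  rw [integral_map (by fun_prop) (by fun_prop)]
  have e : ∀ p : ℝ × ℝ, cexp (I * ((ξ * ((p.1 : ℂ) + I * p.2)).re : ℂ))
      = cexp (I * ((ξ.re * p.1 : ℝ) : ℂ)) * cexp (I * (((-ξ.im) * p.2 : ℝ) : ℂ)) := by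
    intro p
    rw [← Complex.exp_add, ← mul_add, ← Complex.ofReal_add]
    congr 3
    simp [Complex.mul_re, Complex.add_re, Complex.add_im]
    try ring
  simp_rw [e]
  rw [integral_prod_mul (fun x : ℝ => cexp (I * ((ξ.re * x : ℝ) : ℂ)))
    (fun y : ℝ => cexp (I * (((-ξ.im) * y : ℝ) : ℂ))), gauss_int, gauss_int,
    ← Complex.exp_add, Complex.ofReal_exp]
  congr 1
  rw [← Complex.ofReal_neg, ← Complex.ofReal_neg, ← Complex.ofReal_add]
  congr 1
  rw [← Complex.normSq_eq_norm_sq, Complex.normSq_apply]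
  ring

private lemma expo1 (s : ℝ) : ∫⁻ z, ENNReal.ofReal (Real.exp (2 * s * z.re)) ∂sg1
    = ENNReal.ofReal (Real.exp (s ^ 2)) := by
  unfold sg1
  rw [lintegral_map (by fun_prop) (by fun_prop), lintegral_prod _ (by fun_prop)]
  have e : ∀ x y : ℝ, ENNReal.ofReal (Real.exp (2 * s * ((x : ℂ) + I * (y : ℂ)).re))
      = ENNReal.ofReal (Real.exp (2 * s * x)) := by
    intro x y
    simp
  simp_rw [e, lintegral_const, measure_univ, mul_one]
  rw [← ofReal_integral_eq_lintegral_ofReal (integrable_exp_mul_gaussianReal (2 * s))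
    (Filter.Eventually.of_forall fun x => (Real.exp_pos _).le)]
  have h := congrFun (mgf_id_gaussianReal (μ := 0) (v := 1 / 2)) (2 * s)
  have h1 : ∫ x, Real.exp (2 * s * x) ∂(gaussianReal 0 (1 / 2)) = Real.exp (s ^ 2) := by
    have h2 : mgf id (gaussianReal 0 (1 / 2)) (2 * s) =
      ∫ x, Real.exp (2 * s * x) ∂(gaussianReal 0 (1 / 2)) := rfl
    rw [← h2, h]
    congr 1
    push_cast
    ring
  rw [h1]

theorem oneA : OneA :=
  ⟨fun p => (memLp1 p).integrable_norm_pow', char1, expo1⟩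

end Pool.Agent.Lib.RM
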