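import Mathlib
import Pool.Agent.Lib.MP_f9aece_nt_rm.StmtsG

/-!
The constants of the moments of the partial sums of zeta, module A2.

Mixed moments of one standard complex Gaussian variable, by polar coordinates.
-/

set_option autoImplicit false

namespace Pool.Agent.Lib.RM

open MeasureTheory ProbabilityTheory Set Filter Topology Complex
open scoped ComplexConjugate

private lemma a2_pdf (r θ : ℝ) :
    gaussianPDFReal 0 (1 / 2) (r * Real.cos θ) * gaussianPDFReal 0 (1 / 2) (r * Real.sin θ)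
      = Real.pi⁻¹ * Real.exp (-r ^ (2 : ℝ)) := by
  unfold gaussianPDFReal
  have e1 : (2 * Real.pi * (((1 / 2 : NNReal)) : ℝ)) = Real.pi := by push_cast; ring
  have e2 : ∀ x : ℝ, -(x - 0) ^ 2 / (2 * (((1 / 2 : NNReal)) : ℝ)) = -x ^ 2 := by
    intro x; push_cast; ring
  rw [e1, e2, e2, mul_mul_mul_comm, ← Real.exp_add, ← mul_inv, Real.mul_self_sqrt Real.pi_pos.le]
  congr 2
  rw [Real.rpow_two]
  have h := Real.sin_sq_add_cos_sq θ
  linear_combination (-r ^ 2) * h

private lemma a2_F (r θ : ℝ) (a b : ℕ) :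
    (((r * Real.cos θ : ℝ) : ℂ) + I * ((r * Real.sin θ : ℝ) : ℂ)) ^ a *
      conj (((r * Real.cos θ : ℝ) : ℂ) + I * ((r * Real.sin θ : ℝ) : ℂ)) ^ b
      = ((r ^ (a + b) : ℝ) : ℂ) * cexp (I * (((a : ℤ) - b : ℤ) : ℂ) * θ) := by
  have h1 : ((r * Real.cos θ : ℝ) : ℂ) + I * ((r * Real.sin θ : ℝ) : ℂ) = (r : ℂ) * cexp (I * θ) := by
    rw [mul_comm I (θ : ℂ), Complex.exp_mul_I]
    push_cast
    ring
  have h2 : conj ((r : ℂ) * cexp (I * θ)) = (r : ℂ) * cexp (-(I * θ)) := by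
    rw [map_mul, Complex.conj_ofReal, ← Complex.exp_conj, map_mul, Complex.conj_I,
      Complex.conj_ofReal]
    congr 2
    ring
  rw [h1, h2, mul_pow, mul_pow, ← Complex.exp_nat_mul, ← Complex.exp_nat_mul, mul_mul_mul_comm,
    ← pow_add, ← Complex.exp_add]
  push_cast
  congr 2
  ring

private lemma a2_ang (n : ℤ) : ∫ θ in Ioo (-Real.pi) Real.pi, cexp (I * (n : ℂ) * θ)
    = if n = 0 then 2 * (Real.pi : ℂ) else 0 := by
  rw [← integral_Ioc_eq_integral_Ioo, ← intervalIntegral.integral_of_le (by linarith [Real.pi_pos])]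
  split_ifs with h
  · subst h
    simp
    ring
  · have hn : (I * (n : ℂ)) ≠ 0 := mul_ne_zero Complex.I_ne_zero (by exact_mod_cast h)
    rw [integral_exp_mul_complex hn]
    have h1 : cexp (I * (n : ℂ) * (Real.pi : ℂ)) = cexp (I * (n : ℂ) * ((-Real.pi : ℝ) : ℂ)) := by
      rw [Complex.exp_eq_exp_iff_exists_int]
      refine ⟨n, ?_⟩
      push_cast
      ring
    rw [h1]
    simp

private lemma a2_rad (a : ℕ) : ∫ r in Ioi (0 : ℝ), r * (Real.exp (-r ^ (2 : ℝ)) * r ^ (a + a))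
    = (a.factorial : ℝ) / 2 := by
  have h := _root_.integral_rpow_mul_exp_neg_rpow (p := 2) (q := 2 * a + 1) (by norm_num)
    (by have : (0 : ℝ) ≤ a := Nat.cast_nonneg a
        linarith)
  have e : (2 * (a : ℝ) + 1 + 1) / 2 = a + 1 := by ring
  rw [e, Real.Gamma_nat_eq_factorial] at h
  rw [show (a.factorial : ℝ) / 2 = 1 / 2 * (a.factorial : ℝ) by ring, ← h]
  refine setIntegral_congr_fun measurableSet_Ioi fun r hr => ?_
  have hr' : (0 : ℝ) < r := hr
  have e2 : r ^ (2 * (a : ℝ) + 1) = r ^ (a + a) * r := by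
    rw [Real.rpow_add_one hr'.ne', show (2 * (a : ℝ)) = ((a + a : ℕ) : ℝ) by push_cast; ring,
      Real.rpow_natCast]
  simp only [e2]
  ring

theorem oneB : OneB := by
  intro a b
  have hm : Measurable fun p : ℝ × ℝ => (p.1 : ℂ) + I * p.2 := by fun_prop
  unfold sg1
  rw [integral_map hm.aemeasurable (by fun_prop)]
  have hd : (gaussianReal 0 (1 / 2)).prod (gaussianReal 0 (1 / 2)) =
      (volume : Measure (ℝ × ℝ)).withDensity (fun p => ENNReal.ofReal
        (gaussianPDFReal 0 (1 / 2) p.1 * gaussianPDFReal 0 (1 / 2) p.2)) := by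
    rw [gaussianReal_of_var_ne_zero 0 (by norm_num : (1 / 2 : NNReal) ≠ 0)]
    rw [prod_withDensity (measurable_gaussianPDF _ _) (measurable_gaussianPDF _ _)]
    rw [← Measure.volume_eq_prod]
    congr 1
    funext p
    rw [gaussianPDF, gaussianPDF, ENNReal.ofReal_mul (gaussianPDFReal_nonneg _ _ _)]
  rw [hd, integral_withDensity_eq_integral_toReal_smul (by fun_prop)
    (Eventually.of_forall fun p => ENNReal.ofReal_lt_top)]
  rw [← integral_comp_polarCoord_symm]
  have hcong : ∀ p : ℝ × ℝ, p.1 • ((ENNReal.ofReal (gaussianPDFReal 0 (1 / 2) (polarCoord.symm p).1 *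
      gaussianPDFReal 0 (1 / 2) (polarCoord.symm p).2)).toReal •
        ((((polarCoord.symm p).1 : ℂ) + I * ((polarCoord.symm p).2 : ℂ)) ^ a *
          conj (((polarCoord.symm p).1 : ℂ) + I * ((polarCoord.symm p).2 : ℂ)) ^ b)) =
      (((Real.pi⁻¹ * (p.1 * (Real.exp (-p.1 ^ (2 : ℝ)) * p.1 ^ (a + b))) : ℝ)) : ℂ) *
        cexp (I * (((a : ℤ) - b : ℤ) : ℂ) * p.2) := by
    intro p
    rw [ENNReal.toReal_ofReal (mul_nonneg (gaussianPDFReal_nonneg _ _ _)
      (gaussianPDFReal_nonneg _ _ _))]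
    simp only [polarCoord_symm_apply]
    rw [a2_pdf, a2_F]
    simp only [Complex.real_smul]
    push_cast
    ring
  simp only [hcong]
  rw [polarCoord_target, Measure.volume_eq_prod, setIntegral_prod_mul
    (fun r : ℝ => (((Real.pi⁻¹ * (r * (Real.exp (-r ^ (2 : ℝ)) * r ^ (a + b))) : ℝ)) : ℂ))
    (fun θ : ℝ => cexp (I * (((a : ℤ) - b : ℤ) : ℂ) * θ)), a2_ang]
  by_cases h : a = b
  · subst h
    rw [if_pos (by ring), if_pos rfl, integral_complex_ofReal, integral_const_mul, a2_rad]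
    push_cast
    have : (Real.pi : ℂ) ≠ 0 := by exact_mod_cast Real.pi_ne_zero
    field_simp
  · rw [if_neg (by omega), if_neg h, mul_zero]

end Pool.Agent.Lib.RM
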