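import Mathlib
import Pool.Agent.Lib.MP_f9aece_nt_rm.StmtsG

/-!
The constants of the moments of the partial sums of zeta, module A3: product formulas for finitely
many coordinates of `Gm = Measure.infinitePi (fun _ => sg1)`.
-/

set_option autoImplicit false

namespace Pool.Agent.Lib.RM

open MeasureTheory ProbabilityTheory Set Filter Topology Complex
open scoped ComplexConjugate

theorem prodF : ProdF := by
  refine ⟨fun D φ hφ => ?_, fun D φ hφ => ?_⟩
  · have hm : Measurable (fun y : (i : D) → ℂ => ∏ i : D, φ i (y i)) :=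
      Finset.measurable_fun_prod _ fun i _ => (hφ i).comp (measurable_pi_apply i)
    have h1 : ∀ z : ℕ → ℂ, ∏ j ∈ D, φ j (z j)
        = (fun y : (i : D) → ℂ => ∏ i : D, φ i (y i)) (D.restrict z) := by
      intro z
      exact (Finset.prod_coe_sort D fun j => φ j (z j)).symm
    have h2 : ∫ z, (fun y : (i : D) → ℂ => ∏ i : D, φ i (y i)) (D.restrict z) ∂Gm
        = ∫ y, ∏ i : D, φ i (y i) ∂(Measure.pi fun _ : D => sg1) := by
      unfold Gm
      exact integral_restrict_infinitePi (fun _ : ℕ => sg1) hm.aestronglyMeasurable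
    rw [integral_congr_ae (Eventually.of_forall h1), h2,
      integral_fintype_prod_eq_prod (fun (i : D) (x : ℂ) => φ i x)]
    exact Finset.prod_coe_sort D fun j => ∫ x, φ j x ∂sg1
  · have hI : iIndepFun (fun (j : ℕ) (z : ℕ → ℂ) => φ j (z j)) Gm := by
      unfold Gm
      exact iIndepFun_infinitePi (fun j => hφ j)
    refine (lintegral_prod_eq_prod_lintegral_of_indepFun D (fun (j : ℕ) (z : ℕ → ℂ) => φ j (z j)) hI
      fun j => (hφ j).comp (measurable_pi_apply j)).trans ?_
    refine Finset.prod_congr rfl fun j _ => ?_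
    have h3 : Measure.map (fun z : ℕ → ℂ => z j) Gm = sg1 := by
      unfold Gm
      exact Measure.infinitePi_map_eval (fun _ : ℕ => sg1) j
    rw [← h3, lintegral_map (hφ j) (measurable_pi_apply j)]

end Pool.Agent.Lib.RM
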