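import Mathlib
import Pool.Agent.Lib.MP_f9aece_nt_rm.StmtsG

/-!
The constants of the moments of the partial sums of zeta, module A4.

Functions of disjoint finite sets of coordinates are independent. `F z = F' (restriction of z to S)` where `F' x = F (x extended
by 0)` by `DependsOn` (`F'` is measurable: `measurable_pi_lambda`, case distinction on `j ∈ S`). `iIndepFun_infinitePi`
(the coordinates are independent under `infinitePi`), `iIndepFun.indepFun_finset S T`, `IndepFun.comp`,
`lintegral_mul_eq_lintegral_mul_lintegral_of_indepFun`.
-/

set_option autoImplicit false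

namespace Pool.Agent.Lib.RM

open MeasureTheory ProbabilityTheory Set Filter Topology Complex
open scoped ComplexConjugate

open Classical in
/-- extension by zero -/
private noncomputable def ext0 (D : Finset ℕ) (x : (i : D) → ℂ) (j : ℕ) : ℂ :=
  if h : j ∈ D then x ⟨j, h⟩ else 0

private lemma measurable_ext0 (D : Finset ℕ) : Measurable (ext0 D) := by
  refine measurable_pi_lambda _ fun j => ?_
  unfold ext0
  by_cases h : j ∈ D
  · simp only [h, dif_pos]
    exact measurable_pi_apply _
  · simp only [h, dif_neg, not_false_iff]
    exact measurable_const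

private lemma ext0_eq {D : Finset ℕ} {F : (ℕ → ℂ) → ENNReal} (h : DependsOn F (D : Set ℕ))
    (z : ℕ → ℂ) : F (ext0 D fun i => z i) = F z := by
  refine h fun j hj => ?_
  unfold ext0
  rw [dif_pos (Finset.mem_coe.1 hj)]

theorem indL : IndL := by
  intro S T F G hST hF hG hFS hGT
  have hind : iIndepFun (fun (i : ℕ) (z : ℕ → ℂ) => z i) Gm :=
    iIndepFun_infinitePi (P := fun _ : ℕ => sg1) (X := fun _ z => z) (fun _ => measurable_id)
  have h1 := hind.indepFun_finset S T hST (fun i => measurable_pi_apply i)
  have h2 := h1.comp (hF.comp (measurable_ext0 S)) (hG.comp (measurable_ext0 T))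
  have h3 := lintegral_mul_eq_lintegral_mul_lintegral_of_indepFun''
    ((hF.comp (measurable_ext0 S)).comp (measurable_pi_lambda _ fun i : S =>
      measurable_pi_apply (i : ℕ))).aemeasurable
    ((hG.comp (measurable_ext0 T)).comp (measurable_pi_lambda _ fun i : T =>
      measurable_pi_apply (i : ℕ))).aemeasurable h2
  simp only [Function.comp_apply] at h3
  simp only [ext0_eq hFS, ext0_eq hGT] at h3
  exact h3

end Pool.Agent.Lib.RM
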