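import Mathlib
import Pool.Agent.Lib.MP_f9aece_nt_rm.StmtsG

/-!
The constants of the moments of the partial sums of zeta, module A5.

Orthogonality. First part: `‖PG f B z‖^p ≤ C ∑_(α ∈ B) ∏_(j ∈ D) (1 + ‖z j‖)^(a_j p)`, `D` the union of the supports; bounded by an
integrable function: product of functions of single coordinates (second part of `ProdF` and finiteness of
`∫⁻ (1 + ‖x‖)^n ∂sg1` from the first part of `OneA`); alternative: `MemLp` of every `ee α` for all exponents by induction on
the support with `MemLp.mul`, then `MemLp` of the sum, then `MemLp.integrable_norm_rpow`. The coordinates have law `sg1`: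
`Measure.infinitePi_map_eval` (`measurePreserving_eval_infinitePi`). Second part: expand the sums (`integral_finset_sum`, each term is
integrable by the first part), for `α, β ∈ B` and `D = α.support ∪ β.support`: `ee α z conj (ee β z) = ∏_(j ∈ D) φ_j (z j)`, `ProdF`, `OneB`:
zero unless `α = β`, and `∏ j^(-α j) (α j)! / (α j)!^2 = ww 1 α` for `α = β` (all `j ∈ D` are `≥ 1`, `(√j)^2 = j`).
-/

set_option autoImplicit false

namespace Pool.Agent.Lib.RM

open MeasureTheory ProbabilityTheory Set Filter Topology Complex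
open scoped ComplexConjugate

private lemma int_prod (hF : ProdF) (D : Finset ℕ) (φ : ℕ → ℂ → ℂ) (hm : ∀ j, Measurable (φ j))
    (hi : ∀ j ∈ D, Integrable (φ j) sg1) :
    Integrable (fun z : ℕ → ℂ => ∏ j ∈ D, φ j (z j)) Gm := by
  refine ⟨(Finset.measurable_fun_prod D fun j _ => (hm j).comp
    (measurable_pi_apply j)).aestronglyMeasurable, ?_⟩
  rw [hasFiniteIntegral_iff_enorm]
  have h1 : ∀ z : ℕ → ℂ, ‖∏ j ∈ D, φ j (z j)‖ₑ = ∏ j ∈ D, ‖φ j (z j)‖ₑ := by
    intro z
    simp only [enorm_eq_nnnorm, nnnorm_prod]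
    push_cast
    rfl
  simp only [h1]
  rw [hF.2 D (fun j x => ‖φ j x‖ₑ) (fun j => (hm j).enorm)]
  exact ENNReal.prod_lt_top fun j hj => (hi j hj).2

private lemma meas_mono (c : ℂ) (a b : ℕ) : Measurable fun x : ℂ => c * (x ^ a * conj x ^ b) := by
  have h : Continuous fun x : ℂ => c * (x ^ a * conj x ^ b) :=
    continuous_const.mul ((continuous_id.pow a).mul (Complex.continuous_conj.pow b))
  exact h.measurable

private lemma int_mono (hA : OneA) (c : ℂ) (a b : ℕ) :
    Integrable (fun x : ℂ => c * (x ^ a * conj x ^ b)) sg1 := by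
  refine Integrable.const_mul ?_ c
  refine (hA.1 (a + b)).mono' ?_ (ae_of_all _ fun x => ?_)
  · exact ((continuous_id.pow a).mul (Complex.continuous_conj.pow b)).aestronglyMeasurable
  · rw [norm_mul, norm_pow, norm_pow, RCLike.norm_conj, ← pow_add]

/-- the constant of one coordinate -/
private noncomputable def cc (α β : ℕ →₀ ℕ) (j : ℕ) : ℂ :=
  ((Real.sqrt j : ℂ) ^ α j * ((α j).factorial : ℂ))⁻¹ *
    ((Real.sqrt j : ℂ) ^ β j * ((β j).factorial : ℂ))⁻¹

private lemma ee_mul_conj {D : Finset ℕ} {α β : ℕ →₀ ℕ} (hα : α.support ⊆ D)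
    (hβ : β.support ⊆ D) (z : ℕ → ℂ) :
    ee α z * conj (ee β z) = ∏ j ∈ D, cc α β j * (z j ^ α j * conj (z j) ^ β j) := by
  rw [ee_eq_prod hα, ee_eq_prod hβ, map_prod, ← Finset.prod_mul_distrib]
  refine Finset.prod_congr rfl fun j _ => ?_
  rw [map_div₀, map_pow, map_div₀, Complex.conj_ofReal, map_natCast, cc, div_pow, div_pow]
  rw [mul_inv, mul_inv]
  ring

private lemma int_ee (hA : OneA) (hF : ProdF) (α β : ℕ →₀ ℕ) :
    Integrable (fun z => ee α z * conj (ee β z)) Gm := by
  have h1 : α.support ⊆ α.support ∪ β.support := Finset.subset_union_left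
  have h2 : β.support ⊆ α.support ∪ β.support := Finset.subset_union_right
  simp only [ee_mul_conj h1 h2]
  exact int_prod hF _ _ (fun j => meas_mono _ _ _) fun j _ => int_mono hA _ _ _

private lemma int_pow (hA : OneA) (hF : ProdF) (α : ℕ →₀ ℕ) (n : ℕ) :
    Integrable (fun z => ‖ee α z‖ ^ n) Gm := by
  have h0 : ∀ z, ee α z ^ n = ∏ j ∈ α.support,
      (((Real.sqrt j : ℂ) ^ α j * ((α j).factorial : ℂ))⁻¹ ^ n) *
        (z j ^ (α j * n) * conj (z j) ^ 0) := by
    intro z
    rw [ee_eq_prod (Finset.Subset.refl _), ← Finset.prod_pow]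
    refine Finset.prod_congr rfl fun j _ => ?_
    have h2 : (z j / (Real.sqrt j : ℂ)) ^ α j / ((α j).factorial : ℂ) =
        ((Real.sqrt j : ℂ) ^ α j * ((α j).factorial : ℂ))⁻¹ * z j ^ α j := by
      rw [div_pow, div_div, div_eq_inv_mul]
    rw [h2, pow_zero, mul_one, mul_pow, ← pow_mul]
  have h1 : Integrable (fun z => ee α z ^ n) Gm := by
    simp only [h0]
    exact int_prod hF _ _ (fun j => meas_mono _ _ _) fun j _ => int_mono hA _ _ _
  have h2 := h1.norm
  simp only [norm_pow] at h2
  exact h2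

private lemma memLp_PG (hA : OneA) (hF : ProdF) (f : (ℕ →₀ ℕ) → ℂ) (B : Finset (ℕ →₀ ℕ)) (n : ℕ)
    (hn : n ≠ 0) : MemLp (PG f B) (n : ENNReal) Gm := by
  have h1 : ∀ α, MemLp (ee α) (n : ENNReal) Gm := by
    intro α
    have h2 := integrable_norm_rpow_iff (μ := Gm) (f := ee α) (p := (n : ENNReal))
      (continuous_ee α).aestronglyMeasurable (by exact_mod_cast hn) (ENNReal.natCast_ne_top n)
    rw [← h2]
    simp only [ENNReal.toReal_natCast, Real.rpow_natCast]
    exact int_pow hA hF α n
  unfold PG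
  exact memLp_finsetSum B fun α _ => (h1 α).const_mul (f α)

private lemma value (hB : OneB) (hF : ProdF) (α β : ℕ →₀ ℕ) :
    ∫ z, ee α z * conj (ee β z) ∂Gm = if α = β then (ww 1 α : ℂ) else 0 := by
  have h1 : α.support ⊆ α.support ∪ β.support := Finset.subset_union_left
  have h2 : β.support ⊆ α.support ∪ β.support := Finset.subset_union_right
  simp only [ee_mul_conj h1 h2]
  rw [hF.1 (α.support ∪ β.support) (fun j x => cc α β j * (x ^ α j * conj x ^ β j))
    (fun j => meas_mono _ _ _)]
  have h3 : ∀ j, ∫ x, cc α β j * (x ^ α j * conj x ^ β j) ∂sg1 =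
      cc α β j * if α j = β j then ((α j).factorial : ℂ) else 0 := by
    intro j
    rw [integral_const_mul, hB]
  simp only [h3]
  split_ifs with h
  · subst h
    rw [ww_eq_prod h1, Complex.ofReal_prod]
    refine Finset.prod_congr rfl fun j _ => ?_
    rw [if_pos rfl, cc]
    have h4 : ((Real.sqrt j : ℂ) ^ α j) * ((Real.sqrt j : ℂ) ^ α j) = (j : ℂ) ^ α j := by
      rw [← mul_pow, ← Complex.ofReal_mul, Real.mul_self_sqrt (Nat.cast_nonneg j)]
      push_cast
      rfl
    have h5 : ((α j).factorial : ℂ) ≠ 0 := by exact_mod_cast (α j).factorial_ne_zero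
    rw [← mul_inv]
    have h6 : (Real.sqrt j : ℂ) ^ α j * ((α j).factorial : ℂ) *
        ((Real.sqrt j : ℂ) ^ α j * ((α j).factorial : ℂ)) =
        (j : ℂ) ^ α j * ((α j).factorial : ℂ) * ((α j).factorial : ℂ) := by
      rw [← h4]; ring
    rw [h6, mul_inv, mul_assoc, inv_mul_cancel₀ h5, mul_one]
    push_cast
    rw [div_pow, one_pow, div_div, one_div]
  · obtain ⟨j, hj⟩ : ∃ j, α j ≠ β j := by
      by_contra hcon
      push Not at hcon
      exact h (Finsupp.ext hcon)
    have hjD : j ∈ α.support ∪ β.support := by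
      rw [Finset.mem_union, Finsupp.mem_support_iff, Finsupp.mem_support_iff]
      by_contra hcon
      push Not at hcon
      exact hj (hcon.1.trans hcon.2.symm)
    refine Finset.prod_eq_zero hjD ?_
    rw [if_neg hj, mul_zero]

theorem orth (hA : OneA) (hB : OneB) (hF : ProdF) : Orth := by
  intro B _
  refine ⟨fun f p hp => ?_, fun f g => ?_⟩
  · have h1 := memLp_PG hA hF f B (⌈p⌉₊ + 1) (by omega)
    have h2 : MemLp (PG f B) (ENNReal.ofReal p) Gm := by
      refine h1.mono_exponent ?_
      rw [← ENNReal.ofReal_natCast]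
      refine ENNReal.ofReal_le_ofReal ?_
      push_cast
      have := Nat.le_ceil p
      linarith
    have h3 := h2.integrable_norm_rpow'
    rwa [ENNReal.toReal_ofReal hp] at h3
  · have h1 : ∀ z, PG f B z * conj (PG g B z) =
        ∑ α ∈ B, ∑ β ∈ B, f α * conj (g β) * (ee α z * conj (ee β z)) := by
      intro z
      rw [PG, PG, map_sum, Finset.sum_mul_sum]
      refine Finset.sum_congr rfl fun α _ => Finset.sum_congr rfl fun β _ => ?_
      rw [map_mul]
      ring
    simp only [h1]
    rw [integral_finsetSum _ fun α _ => integrable_finsetSum _ fun β _ =>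
      (int_ee hA hF α β).const_mul _]
    refine Finset.sum_congr rfl fun α hα => ?_
    rw [integral_finsetSum _ fun β _ => (int_ee hA hF α β).const_mul _]
    simp only [integral_const_mul, value hB hF]
    rw [Finset.sum_eq_single α]
    · rw [if_pos rfl]
    · intro β _ hβ
      rw [if_neg (Ne.symm hβ), mul_zero]
    · intro h
      exact absurd hα h

end Pool.Agent.Lib.RM
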