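import Mathlib
import Pool.Agent.Lib.MP_f9aece_nt_rm.StmtsG

/-!
The constants of the moments of the partial sums of zeta, module A6.

The product of two polynomials. `ee α ee β = b(α, β) ee (α + β)`, `b(α, β) = ∏_j binom(α_j + β_j, α_j)` (product over
a finite set containing both supports), so `B'' = image of B ×ˢ B' under addition`, `h γ = ∑ over (α, β) ∈ B × B' with
α + β = γ of f α g β b(α, β)` (this works for arbitrary `B, B'`; `α 0 = 0` is only inherited). Cauchy-Schwarz with the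
weights `b t^(-|α|) t'^(-|β|)`, `|α| = ∑ α_j`: `‖h γ‖^2 ≤ (∑ b t^(-|α|) t'^(-|β|)) (∑ b t^|α| t'^|β| ‖f α‖^2 ‖g β‖^2)`; the first sum is at
most the sum over all `α ≤ γ`, `β = γ - α`, equal to `∏_j ∑_(a ≤ γ_j) binom(γ_j, a) t^(-a) t'^(-(γ_j - a)) = (1/t + 1/t')^|γ| ≤ 1`
(`Finset.prod_sum` style, or `sum_bx_prod`, `add_pow`). Finally `ww s (α + β) b(α, β) = ww s α ww s β` and `t^|α| ww s α = ww (s t) α`, sum
over `γ` with `Finset.sum_fiberwise_of_maps_to`.
-/

set_option autoImplicit false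

namespace Pool.Agent.Lib.RM

open MeasureTheory ProbabilityTheory Set Filter Topology Complex
open scoped ComplexConjugate

private noncomputable def bb (D : Finset ℕ) (α β : ℕ →₀ ℕ) : ℝ :=
  ∏ j ∈ D, (((α j + β j).choose (α j) : ℕ) : ℝ)

private lemma bb_nonneg (D : Finset ℕ) (α β : ℕ →₀ ℕ) : 0 ≤ bb D α β :=
  Finset.prod_nonneg fun _ _ => Nat.cast_nonneg _

private lemma supp_add {D : Finset ℕ} {α β : ℕ →₀ ℕ} (hα : α.support ⊆ D) (hβ : β.support ⊆ D) :
    (α + β).support ⊆ D := fun j hj => by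
  rcases Finset.mem_union.mp (Finsupp.support_add hj) with h | h
  · exact hα h
  · exact hβ h

private lemma fact_id (a b : ℕ) {K : Type} [Field K] [CharZero K] (x : K) :
    x ^ a / (a.factorial : K) * (x ^ b / (b.factorial : K)) =
      (((a + b).choose a : ℕ) : K) * (x ^ (a + b) / ((a + b).factorial : K)) := by
  have h1 : (((a + b).choose a : ℕ) : K) * a.factorial * b.factorial = (a + b).factorial := by
    have := Nat.choose_mul_factorial_mul_factorial (show a ≤ a + b by omega)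
    rw [Nat.add_sub_cancel_left] at this
    exact_mod_cast this
  have ha : (a.factorial : K) ≠ 0 := by exact_mod_cast a.factorial_ne_zero
  have hb : (b.factorial : K) ≠ 0 := by exact_mod_cast b.factorial_ne_zero
  have hab : ((a + b).factorial : K) ≠ 0 := by exact_mod_cast (a + b).factorial_ne_zero
  rw [pow_add, div_mul_div_comm, ← mul_div_assoc, div_eq_div_iff (mul_ne_zero ha hb) hab, ← h1]
  ring

private lemma ee_mul {D : Finset ℕ} {α β : ℕ →₀ ℕ} (hα : α.support ⊆ D) (hβ : β.support ⊆ D)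
    (z : ℕ → ℂ) : ee α z * ee β z = (bb D α β : ℂ) * ee (α + β) z := by
  have h1 : (bb D α β : ℂ) = ∏ j ∈ D, (((α j + β j).choose (α j) : ℕ) : ℂ) := by
    rw [bb, Complex.ofReal_prod]
    exact Finset.prod_congr rfl fun j _ => by norm_cast
  rw [ee_eq_prod hα, ee_eq_prod hβ, ee_eq_prod (supp_add hα hβ), h1]
  rw [← Finset.prod_mul_distrib, ← Finset.prod_mul_distrib]
  refine Finset.prod_congr rfl fun j _ => ?_
  rw [Finsupp.add_apply]
  exact fact_id (α j) (β j) _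

private lemma ww_mul {D : Finset ℕ} {α β : ℕ →₀ ℕ} (hα : α.support ⊆ D) (hβ : β.support ⊆ D)
    (s : ℝ) : ww s α * ww s β = bb D α β * ww s (α + β) := by
  rw [ww_eq_prod hα, ww_eq_prod hβ, ww_eq_prod (supp_add hα hβ), bb]
  rw [← Finset.prod_mul_distrib, ← Finset.prod_mul_distrib]
  refine Finset.prod_congr rfl fun j _ => ?_
  rw [Finsupp.add_apply]
  exact fact_id (α j) (β j) _

private lemma ww_scale {D : Finset ℕ} {α : ℕ →₀ ℕ} (hα : α.support ⊆ D) (s t : ℝ) :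
    ww (s * t) α = (∏ j ∈ D, t ^ α j) * ww s α := by
  rw [ww_eq_prod hα, ww_eq_prod hα, ← Finset.prod_mul_distrib]
  refine Finset.prod_congr rfl fun j _ => ?_
  rw [← mul_div_assoc, ← mul_pow]
  congr 2
  ring

/-- The binomial theorem for multi-indices. -/
private lemma sum_bb_le {D : Finset ℕ} {B B' : Finset (ℕ →₀ ℕ)} (hB : ∀ α ∈ B, α.support ⊆ D)
    (γ : ℕ →₀ ℕ) {t t' : ℝ} (ht : 0 < t) (ht' : 0 < t') (htt : 1 / t + 1 / t' ≤ 1) :
    ∑ p ∈ (B ×ˢ B').filter (fun p => p.1 + p.2 = γ),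
      bb D p.1 p.2 * ((∏ j ∈ D, (1 / t) ^ p.1 j) * ∏ j ∈ D, (1 / t') ^ p.2 j) ≤ 1 := by
  classical
  obtain ⟨c, hc⟩ : ∃ c : ℕ → ℕ → ℝ, c = fun j a =>
    (((γ j).choose a : ℕ) : ℝ) * ((1 / t) ^ a * (1 / t') ^ (γ j - a)) := ⟨_, rfl⟩
  have hc0 : ∀ j a, 0 ≤ c j a := by
    intro j a
    rw [hc]
    positivity
  obtain ⟨M, hM⟩ : ∃ M : ℕ, ∀ j, γ j < M := by
    refine ⟨γ.support.sup γ + 1, fun j => ?_⟩
    by_cases h : γ j = 0
    · omega
    · have h1 : γ j ≤ γ.support.sup γ := Finset.le_sup (f := γ) (Finsupp.mem_support_iff.mpr h)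
      omega
  have h1 : ∑ p ∈ (B ×ˢ B').filter (fun p => p.1 + p.2 = γ),
      bb D p.1 p.2 * ((∏ j ∈ D, (1 / t) ^ p.1 j) * ∏ j ∈ D, (1 / t') ^ p.2 j) =
      ∑ α ∈ ((B ×ˢ B').filter (fun p => p.1 + p.2 = γ)).image Prod.fst, ∏ j ∈ D, c j (α j) := by
    rw [Finset.sum_image]
    · refine Finset.sum_congr rfl fun p hp => ?_
      have h2 := (Finset.mem_filter.mp hp).2
      rw [bb, ← Finset.prod_mul_distrib, ← Finset.prod_mul_distrib]
      refine Finset.prod_congr rfl fun j _ => ?_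
      have h3 : γ j = p.1 j + p.2 j := by rw [← h2, Finsupp.add_apply]
      rw [hc]
      simp only
      rw [h3, Nat.add_sub_cancel_left]
    · intro p hp p' hp' h
      have h2 := (Finset.mem_filter.mp hp).2
      have h2' := (Finset.mem_filter.mp hp').2
      refine Prod.ext h ?_
      rw [← h2', h] at h2
      exact add_left_cancel h2
  rw [h1]
  have hsub : ((B ×ˢ B').filter (fun p => p.1 + p.2 = γ)).image Prod.fst ⊆ bx D M := by
    intro α hα
    obtain ⟨p, hp, rfl⟩ := Finset.mem_image.mp hα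
    obtain ⟨hp1, hp2⟩ := Finset.mem_filter.mp hp
    refine mem_bx.mpr ⟨hB _ (Finset.mem_product.mp hp1).1, fun j _ => ?_⟩
    have h3 : γ j = p.1 j + p.2 j := by rw [← hp2, Finsupp.add_apply]
    have := hM j
    omega
  refine (Finset.sum_le_sum_of_subset_of_nonneg hsub fun α _ _ =>
    Finset.prod_nonneg fun j _ => hc0 j _).trans ?_
  rw [sum_bx_prod D M c]
  refine Finset.prod_le_one (fun j _ => Finset.sum_nonneg fun a _ => hc0 j a) fun j _ => ?_
  have h4 : ∑ a ∈ Finset.range M, c j a = ∑ a ∈ Finset.range (γ j + 1), c j a := by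
    symm
    refine Finset.sum_subset (Finset.range_subset_range.mpr (hM j)) fun a _ ha => ?_
    rw [Finset.mem_range, not_lt] at ha
    rw [hc]
    simp only
    rw [Nat.choose_eq_zero_of_lt (by omega)]
    simp
  rw [h4]
  have h5 : ∑ a ∈ Finset.range (γ j + 1), c j a = (1 / t + 1 / t') ^ γ j := by
    rw [add_pow]
    refine Finset.sum_congr rfl fun a _ => ?_
    rw [hc]
    simp only
    ring
  rw [h5]
  exact pow_le_one₀ (by positivity) htt

theorem mulP : MulP := by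
  classical
  intro B B' f g hB0 hB0'
  obtain ⟨D, hD⟩ : ∃ D : Finset ℕ, D = (B.biUnion fun α => α.support) ∪
    (B'.biUnion fun α => α.support) := ⟨_, rfl⟩
  have hB : ∀ α ∈ B, α.support ⊆ D := fun α hα j hj => by
    rw [hD]
    exact Finset.mem_union_left _ (Finset.mem_biUnion.mpr ⟨α, hα, hj⟩)
  have hB' : ∀ α ∈ B', α.support ⊆ D := fun α hα j hj => by
    rw [hD]
    exact Finset.mem_union_right _ (Finset.mem_biUnion.mpr ⟨α, hα, hj⟩)
  refine ⟨(B ×ˢ B').image fun p => p.1 + p.2, fun γ =>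
    ∑ p ∈ (B ×ˢ B').filter (fun p => p.1 + p.2 = γ), f p.1 * g p.2 * (bb D p.1 p.2 : ℂ),
    ?_, ?_, ?_⟩
  · intro γ hγ
    obtain ⟨p, hp, rfl⟩ := Finset.mem_image.mp hγ
    obtain ⟨h1, h2⟩ := Finset.mem_product.mp hp
    rw [Finsupp.add_apply, hB0 _ h1, hB0' _ h2]
  · intro z
    unfold PG
    have h1 : ∀ γ, (∑ p ∈ (B ×ˢ B').filter (fun p => p.1 + p.2 = γ),
        f p.1 * g p.2 * (bb D p.1 p.2 : ℂ)) * ee γ z =
        ∑ p ∈ (B ×ˢ B').filter (fun p => p.1 + p.2 = γ),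
          (f p.1 * ee p.1 z) * (g p.2 * ee p.2 z) := by
      intro γ
      rw [Finset.sum_mul]
      refine Finset.sum_congr rfl fun p hp => ?_
      obtain ⟨hp1, hp2⟩ := Finset.mem_filter.mp hp
      obtain ⟨h1, h2⟩ := Finset.mem_product.mp hp1
      have h3 := ee_mul (hB _ h1) (hB' _ h2) z
      rw [← hp2]
      calc f p.1 * g p.2 * (bb D p.1 p.2 : ℂ) * ee (p.1 + p.2) z =
            f p.1 * g p.2 * ((bb D p.1 p.2 : ℂ) * ee (p.1 + p.2) z) := by ring
        _ = _ := by rw [← h3]; ring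
    rw [Finset.sum_congr rfl fun γ _ => h1 γ,
      Finset.sum_fiberwise_of_maps_to (fun p hp => Finset.mem_image_of_mem _ hp),
      Finset.sum_product, Finset.sum_mul_sum]
  · intro s t t' hs ht ht' htt
    obtain ⟨W, hW⟩ : ∃ W : (ℕ →₀ ℕ) × (ℕ →₀ ℕ) → ℝ, W = fun p =>
      bb D p.1 p.2 * (((∏ j ∈ D, t ^ p.1 j) * ‖f p.1‖ ^ 2) *
        ((∏ j ∈ D, t' ^ p.2 j) * ‖g p.2‖ ^ 2)) := ⟨_, rfl⟩
    have hT : ∀ (x : ℝ), 0 < x → ∀ α : ℕ →₀ ℕ, 0 < ∏ j ∈ D, x ^ α j := fun x hx α =>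
      Finset.prod_pos fun j _ => pow_pos hx _
    have hW0 : ∀ p, 0 ≤ W p := by
      intro p
      rw [hW]
      have h1 := bb_nonneg D p.1 p.2
      have h2 := (hT t ht p.1).le
      have h3 := (hT t' ht' p.2).le
      positivity
    have h1 : ∀ γ, ‖∑ p ∈ (B ×ˢ B').filter (fun p => p.1 + p.2 = γ),
        f p.1 * g p.2 * (bb D p.1 p.2 : ℂ)‖ ^ 2 ≤
        ∑ p ∈ (B ×ˢ B').filter (fun p => p.1 + p.2 = γ), W p := by
      intro γ
      have h2 : ‖∑ p ∈ (B ×ˢ B').filter (fun p => p.1 + p.2 = γ),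
          f p.1 * g p.2 * (bb D p.1 p.2 : ℂ)‖ ≤
          ∑ p ∈ (B ×ˢ B').filter (fun p => p.1 + p.2 = γ),
            ‖f p.1‖ * ‖g p.2‖ * bb D p.1 p.2 := by
        refine (norm_sum_le _ _).trans (le_of_eq (Finset.sum_congr rfl fun p _ => ?_))
        rw [norm_mul, norm_mul, Complex.norm_real, Real.norm_of_nonneg (bb_nonneg D _ _)]
      have h3 := Finset.sum_sq_le_sum_mul_sum_of_sq_le_mul
        ((B ×ˢ B').filter (fun p => p.1 + p.2 = γ))
        (r := fun p => ‖f p.1‖ * ‖g p.2‖ * bb D p.1 p.2)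
        (f := fun p => bb D p.1 p.2 * ((∏ j ∈ D, (1 / t) ^ p.1 j) * ∏ j ∈ D, (1 / t') ^ p.2 j))
        (g := W) (fun p _ => mul_nonneg (bb_nonneg D _ _)
          (mul_nonneg (hT _ (by positivity) _).le (hT _ (by positivity) _).le))
        (fun p _ => hW0 p) (fun p _ => le_of_eq <| by
          have e1 : ∀ (x : ℝ), 0 < x → ∀ α : ℕ →₀ ℕ,
              (∏ j ∈ D, (1 / x) ^ α j) * ∏ j ∈ D, x ^ α j = 1 := by
            intro x hx α
            rw [← Finset.prod_mul_distrib]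
            refine Finset.prod_eq_one fun j _ => ?_
            rw [← mul_pow, one_div, inv_mul_cancel₀ hx.ne', one_pow]
          rw [hW]
          simp only
          calc (‖f p.1‖ * ‖g p.2‖ * bb D p.1 p.2) ^ 2 =
              bb D p.1 p.2 ^ 2 * (‖f p.1‖ ^ 2 * ‖g p.2‖ ^ 2) * (1 * 1) := by ring
            _ = bb D p.1 p.2 ^ 2 * (‖f p.1‖ ^ 2 * ‖g p.2‖ ^ 2) *
              (((∏ j ∈ D, (1 / t) ^ p.1 j) * ∏ j ∈ D, t ^ p.1 j) *
                ((∏ j ∈ D, (1 / t') ^ p.2 j) * ∏ j ∈ D, t' ^ p.2 j)) := by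
                rw [e1 t ht, e1 t' ht']
            _ = _ := by ring)
      have h4 := sum_bb_le (B' := B') hB γ ht ht' htt
      calc _ ≤ (∑ p ∈ (B ×ˢ B').filter (fun p => p.1 + p.2 = γ),
            ‖f p.1‖ * ‖g p.2‖ * bb D p.1 p.2) ^ 2 := pow_le_pow_left₀ (norm_nonneg _) h2 2
        _ ≤ _ := h3
        _ ≤ 1 * ∑ p ∈ (B ×ˢ B').filter (fun p => p.1 + p.2 = γ), W p :=
          mul_le_mul_of_nonneg_right h4 (Finset.sum_nonneg fun p _ => hW0 p)
        _ = _ := one_mul _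
    have h5 : ∀ γ, ‖∑ p ∈ (B ×ˢ B').filter (fun p => p.1 + p.2 = γ),
        f p.1 * g p.2 * (bb D p.1 p.2 : ℂ)‖ ^ 2 * ww s γ ≤
        ∑ p ∈ (B ×ˢ B').filter (fun p => p.1 + p.2 = γ),
          (‖f p.1‖ ^ 2 * ww (s * t) p.1) * (‖g p.2‖ ^ 2 * ww (s * t') p.2) := by
      intro γ
      refine (mul_le_mul_of_nonneg_right (h1 γ) (ww_nonneg hs γ)).trans (le_of_eq ?_)
      rw [Finset.sum_mul]
      refine Finset.sum_congr rfl fun p hp => ?_
      obtain ⟨hp1, hp2⟩ := Finset.mem_filter.mp hp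
      obtain ⟨h6, h7⟩ := Finset.mem_product.mp hp1
      rw [ww_scale (hB _ h6), ww_scale (hB' _ h7), ← hp2, hW]
      simp only
      have h8 := ww_mul (hB _ h6) (hB' _ h7) s
      calc _ = (((∏ j ∈ D, t ^ p.1 j) * ‖f p.1‖ ^ 2) *
          ((∏ j ∈ D, t' ^ p.2 j) * ‖g p.2‖ ^ 2)) * (bb D p.1 p.2 * ww s (p.1 + p.2)) := by ring
        _ = _ := by rw [← h8]; ring
    refine (Finset.sum_le_sum fun γ _ => h5 γ).trans (le_of_eq ?_)
    rw [Finset.sum_fiberwise_of_maps_to (fun p hp => Finset.mem_image_of_mem _ hp),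
      Finset.sum_product, Finset.sum_mul_sum]

end Pool.Agent.Lib.RM
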