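import Mathlib
import Pool.Agent.Lib.MP_f9aece_nt_rm.StmtsG

/-!
The constants of the moments of the partial sums of zeta, module A7.

Moments of a polynomial. Step 1, by induction on `q ≥ 1`: there are `B_q, h_q` (indices with `α 0 = 0`) with `PG h_q B_q z = (PG f B z)^q`
and for all `s ≥ 0`: `∑ ‖h_q α‖^2 ww s α ≤ (∑_(α ∈ B) ‖f α‖^2 ww (s q) α)^q`: `q = 1` trivial; `q → q + 1`: `MulP` with `t = (q+1)/q`, `t' = q + 1`
(`1/t + 1/t' = 1`) and the induction hypothesis at `s t`. Step 2: `∫ ‖PG f B z‖^(2q) ∂Gm = ∫ ‖PG h_q B_q‖^2 = ∑ ‖h_q‖^2 ww 1 ≤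
(∑ ‖f‖^2 ww q)^q` by `Orth`. Step 3: Jensen `∫ ‖P‖^(2k) ≤ (∫ ‖P‖^(2q))^(k/q)` (e.g. `lintegral_rpow_le...`, `ENNReal.lintegral_rpow...`,
`eLpNorm_le_eLpNorm_of_exponent_le` on the probability measure `Gm`, or `ConcaveOn`), `MM` is a lintegral:
`ofReal_integral_eq_lintegral_ofReal`.
-/

set_option autoImplicit false

namespace Pool.Agent.Lib.RM

open MeasureTheory ProbabilityTheory Set Filter Topology Complex
open scoped ComplexConjugate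

private lemma pow_poly (hM : MulP) (B : Finset (ℕ →₀ ℕ)) (f : (ℕ →₀ ℕ) → ℂ)
    (hB : ∀ α ∈ B, α 0 = 0) (q : ℕ) : ∃ (B' : Finset (ℕ →₀ ℕ)) (h : (ℕ →₀ ℕ) → ℂ),
    (∀ α ∈ B', α 0 = 0) ∧ (∀ z, PG h B' z = PG f B z ^ (q + 1)) ∧
    ∀ s : ℝ, 0 ≤ s → ∑ α ∈ B', ‖h α‖ ^ 2 * ww s α ≤
      (∑ α ∈ B, ‖f α‖ ^ 2 * ww (s * (q + 1 : ℕ)) α) ^ (q + 1) := by
  induction q with
  | zero =>
    refine ⟨B, f, hB, fun z => by simp, fun s _ => ?_⟩
    simp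
  | succ q ih =>
    obtain ⟨B', h, h1, h2, h3⟩ := ih
    obtain ⟨B'', h', h4, h5, h6⟩ := hM B' B h f h1 hB
    refine ⟨B'', h', h4, fun z => ?_, fun s hs => ?_⟩
    · rw [h5, h2, ← pow_succ]
    · have hq : (0 : ℝ) < (q + 1 : ℕ) := by positivity
      have hq' : (0 : ℝ) < (q + 1 + 1 : ℕ) := by positivity
      have ht : (0 : ℝ) < ((q + 1 + 1 : ℕ) : ℝ) / (q + 1 : ℕ) := div_pos hq' hq
      have h7 := h6 s (((q + 1 + 1 : ℕ) : ℝ) / (q + 1 : ℕ)) ((q + 1 + 1 : ℕ) : ℝ) hs ht hq'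
        (le_of_eq (by push_cast; field_simp))
      have h8 := h3 (s * (((q + 1 + 1 : ℕ) : ℝ) / (q + 1 : ℕ))) (mul_nonneg hs ht.le)
      have e1 : s * (((q + 1 + 1 : ℕ) : ℝ) / (q + 1 : ℕ)) * (q + 1 : ℕ) =
          s * ((q + 1 + 1 : ℕ) : ℝ) := by
        field_simp
      rw [e1] at h8
      have h9 : 0 ≤ ∑ α ∈ B, ‖f α‖ ^ 2 * ww (s * (q + 1 + 1 : ℕ)) α :=
        Finset.sum_nonneg fun α _ => mul_nonneg (sq_nonneg _)
          (ww_nonneg (mul_nonneg hs hq'.le) α)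
      calc _ ≤ _ := h7
        _ ≤ (∑ α ∈ B, ‖f α‖ ^ 2 * ww (s * (q + 1 + 1 : ℕ)) α) ^ (q + 1) *
            ∑ α ∈ B, ‖f α‖ ^ 2 * ww (s * (q + 1 + 1 : ℕ)) α :=
          mul_le_mul_of_nonneg_right h8 h9
        _ = _ := (pow_succ _ _).symm

private lemma second_moment (hO : Orth) (B : Finset (ℕ →₀ ℕ)) (f : (ℕ →₀ ℕ) → ℂ)
    (hB : ∀ α ∈ B, α 0 = 0) :
    ∫⁻ z, ENNReal.ofReal (‖PG f B z‖ ^ 2) ∂Gm =
      ENNReal.ofReal (∑ α ∈ B, ‖f α‖ ^ 2 * ww 1 α) := by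
  obtain ⟨h1, h2⟩ := hO B hB
  have h3 : Integrable (fun z => ‖PG f B z‖ ^ 2) Gm := by
    have h4 := h1 f 2 (by norm_num)
    have e : (fun z => ‖PG f B z‖ ^ (2 : ℝ)) = fun z => ‖PG f B z‖ ^ 2 := by
      funext z
      exact Real.rpow_two _
    rwa [e] at h4
  rw [← ofReal_integral_eq_lintegral_ofReal h3 (Filter.Eventually.of_forall fun z => sq_nonneg _)]
  congr 1
  have h5 := h2 f f
  have e1 : ∀ z, PG f B z * conj (PG f B z) = ((‖PG f B z‖ ^ 2 : ℝ) : ℂ) := by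
    intro z
    rw [Complex.mul_conj, Complex.normSq_eq_norm_sq]
  have e2 : ∑ α ∈ B, f α * conj (f α) * (ww 1 α : ℂ) =
      ((∑ α ∈ B, ‖f α‖ ^ 2 * ww 1 α : ℝ) : ℂ) := by
    rw [Complex.ofReal_sum]
    refine Finset.sum_congr rfl fun α _ => ?_
    rw [Complex.mul_conj, Complex.normSq_eq_norm_sq]
    push_cast
    ring
  rw [integral_congr_ae (Filter.Eventually.of_forall e1), integral_complex_ofReal, e2] at h5
  exact_mod_cast h5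

theorem hyp (hM : MulP) (hO : Orth) : Hyp := by
  intro q k hq hk hkq B f hB
  obtain ⟨m, rfl⟩ : ∃ m, q = m + 1 := ⟨q - 1, by omega⟩
  obtain ⟨B', h, h1, h2, h3⟩ := pow_poly hM B f hB m
  obtain ⟨A, hA⟩ : ∃ A, A = ∑ α ∈ B, ‖f α‖ ^ 2 * ww (m + 1 : ℕ) α := ⟨_, rfl⟩
  have hA0 : 0 ≤ A := by
    rw [hA]
    exact Finset.sum_nonneg fun α _ => mul_nonneg (sq_nonneg _) (ww_nonneg (Nat.cast_nonneg _) α)
  have hq0 : (0 : ℝ) < (m + 1 : ℕ) := by positivity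
  have e1 : ∀ r : ℝ, 0 < r → ∫⁻ z, ENNReal.ofReal (‖PG f B z‖ ^ (2 * r)) ∂Gm =
      eLpNorm' (PG f B) (2 * r) Gm ^ (2 * r) := by
    intro r hr
    rw [← lintegral_rpow_enorm_eq_rpow_eLpNorm' (by positivity)]
    refine lintegral_congr fun z => ?_
    rw [← ofReal_norm, ENNReal.ofReal_rpow_of_nonneg (norm_nonneg _) (by positivity)]
  have h4 : eLpNorm' (PG f B) (2 * k) Gm ≤ eLpNorm' (PG f B) (2 * (m + 1 : ℕ)) Gm :=
    eLpNorm'_le_eLpNorm'_of_exponent_le (by positivity) (by linarith) Gm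
      (continuous_PG f B).measurable.aestronglyMeasurable
  have h5 : ∫⁻ z, ENNReal.ofReal (‖PG f B z‖ ^ (2 * ((m + 1 : ℕ) : ℝ))) ∂Gm ≤
      ENNReal.ofReal (A ^ (m + 1)) := by
    have e2 : ∀ z, ENNReal.ofReal (‖PG f B z‖ ^ (2 * ((m + 1 : ℕ) : ℝ))) =
        ENNReal.ofReal (‖PG h B' z‖ ^ 2) := by
      intro z
      rw [h2, norm_pow, ← pow_mul, mul_comm (m + 1) 2, ← Real.rpow_natCast]
      push_cast
      rfl
    rw [lintegral_congr e2, second_moment hO B' h h1]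
    refine ENNReal.ofReal_le_ofReal ?_
    have h6 := h3 1 zero_le_one
    rwa [one_mul, ← hA] at h6
  rw [← hA]
  unfold MM
  rw [e1 k hk]
  rw [e1 _ hq0] at h5
  have e3 : 2 * k = (2 * ((m + 1 : ℕ) : ℝ)) * (k / (m + 1 : ℕ)) := by
    field_simp
  calc eLpNorm' (PG f B) (2 * k) Gm ^ (2 * k)
      ≤ eLpNorm' (PG f B) (2 * (m + 1 : ℕ)) Gm ^ (2 * k) :=
        ENNReal.rpow_le_rpow h4 (by positivity)
    _ = (eLpNorm' (PG f B) (2 * (m + 1 : ℕ)) Gm ^ (2 * ((m + 1 : ℕ) : ℝ))) ^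
          (k / (m + 1 : ℕ)) := by
        rw [← ENNReal.rpow_mul, ← e3]
    _ ≤ ENNReal.ofReal (A ^ (m + 1)) ^ (k / (m + 1 : ℕ)) :=
        ENNReal.rpow_le_rpow h5 (by positivity)
    _ = ENNReal.ofReal (A ^ k) := by
        rw [ENNReal.ofReal_rpow_of_nonneg (by positivity) (by positivity), ← Real.rpow_natCast,
          ← Real.rpow_mul hA0]
        congr 2
        field_simp

end Pool.Agent.Lib.RM
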