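import Mathlib
import Pool.Agent.Lib.MP_f9aece_nt_rm.StmtsG

/-!
The constants of the moments of the partial sums of zeta, module A8.

For a finite set `B` of multi-indices of degree `n ≥ 1` with support in `(y, ∞)`:
`n ∑_(α ∈ B) ww q α = ∑_α ∑_(j ∈ supp α) j α_j ww q α = q ∑_(α, j) ww q (α - δ_j)`; the map
`(α, j) ↦ α - δ_j` is injective (`j = n - dg (α - δ_j)`), so the sum is at most
`q exp (∑_(y < j ≤ n) q / j)` (`sum_ww_le`), and `∑_(y < j ≤ n) 1/j ≤ 1 + log (n/y)`: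
each degree contributes at most `q e^q n^(q-1) / y^q`. The multi-index `0` contributes `1`, and
there are at most `x' - x + 1` degrees in the window.
-/

set_option autoImplicit false

namespace Pool.Agent.Lib.RM

open MeasureTheory ProbabilityTheory Set Filter Topology Complex
open scoped ComplexConjugate

private lemma sub_add_single (α : ℕ →₀ ℕ) {j : ℕ} (hj : j ∈ α.support) :
    (α - Finsupp.single j 1) + Finsupp.single j 1 = α := by
  ext i
  rw [Finsupp.add_apply, Finsupp.tsub_apply]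
  by_cases h : i = j
  · subst h
    have h1 : α i ≠ 0 := Finsupp.mem_support_iff.mp hj
    rw [Finsupp.single_eq_same]
    omega
  · rw [Finsupp.single_eq_of_ne h]
    omega

/-- the degree after removing one -/
private lemma dg_sub (α : ℕ →₀ ℕ) {j : ℕ} (hj : j ∈ α.support) :
    dg (α - Finsupp.single j 1) + j = dg α := by
  conv_rhs => rw [← sub_add_single α hj, dg_add, dg_single, mul_one]

/-- the weight after removing one -/
private lemma ww_sub (q : ℝ) (α : ℕ →₀ ℕ) {j : ℕ} (hj : j ∈ α.support) (hj0 : 0 < j) :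
    (j : ℝ) * α j * ww q α = q * ww q (α - Finsupp.single j 1) := by
  classical
  have hβj : (α - Finsupp.single j 1 : ℕ →₀ ℕ) j = α j - 1 := by
    rw [Finsupp.tsub_apply, Finsupp.single_eq_same]
  have hβi : ∀ i, i ≠ j → (α - Finsupp.single j 1 : ℕ →₀ ℕ) i = α i := by
    intro i hi
    rw [Finsupp.tsub_apply, Finsupp.single_eq_of_ne hi, tsub_zero]
  generalize α - Finsupp.single j 1 = β at hβj hβi
  have hsub : β.support ⊆ α.support := by
    intro i hi
    rw [Finsupp.mem_support_iff] at hi ⊢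
    by_cases h : i = j
    · subst h
      omega
    · rwa [hβi i h] at hi
  rw [ww_eq_prod (Finset.Subset.refl α.support), ww_eq_prod hsub, ← Finset.mul_prod_erase _ _ hj,
    ← Finset.mul_prod_erase α.support _ hj]
  have h1 : ∏ i ∈ α.support.erase j, (q / (i : ℝ)) ^ β i / ((β i).factorial : ℝ)
      = ∏ i ∈ α.support.erase j, (q / (i : ℝ)) ^ α i / ((α i).factorial : ℝ) :=
    Finset.prod_congr rfl fun i hi => by rw [hβi i (Finset.ne_of_mem_erase hi)]
  rw [h1, hβj]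
  have h4 : α j ≠ 0 := Finsupp.mem_support_iff.mp hj
  obtain ⟨m, hm⟩ := Nat.exists_eq_succ_of_ne_zero h4
  rw [hm, Nat.succ_eq_add_one, Nat.add_sub_cancel, Nat.factorial_succ, pow_succ]
  have h5 : (j : ℝ) ≠ 0 := by positivity
  have h6 : ((m.factorial : ℕ) : ℝ) ≠ 0 := by positivity
  push_cast
  field_simp

/-- one degree -/
private lemma one_degree (q : ℕ) (y : ℝ) (hy : 1 ≤ y) (n : ℕ) (B : Finset (ℕ →₀ ℕ))
    (hB : ∀ α ∈ B, (∀ j ∈ α.support, y < j) ∧ dg α = n) :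
    (n : ℝ) * ∑ α ∈ B, ww q α ≤ q * Real.exp (∑ j ∈ Finset.Ioc ⌊y⌋₊ n, (q : ℝ) / j) := by
  classical
  have h1 : (n : ℝ) * ∑ α ∈ B, ww q α
      = ∑ p ∈ B.sigma fun α => α.support, (q : ℝ) * ww q (p.1 - Finsupp.single p.2 1) := by
    rw [Finset.sum_sigma, Finset.mul_sum]
    refine Finset.sum_congr rfl fun α hα => ?_
    obtain ⟨h2, h3⟩ := hB α hα
    have h4 : (n : ℝ) = ∑ j ∈ α.support, (j : ℝ) * α j := by
      rw [← h3]
      unfold dg Finsupp.sum
      push_cast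
      rfl
    rw [h4, Finset.sum_mul]
    refine Finset.sum_congr rfl fun j hj => ?_
    have h5 : 0 < j := by
      have := h2 j hj
      have h6 : (0 : ℝ) < j := by linarith
      exact_mod_cast h6
    exact ww_sub q α hj h5
  have hinj : Set.InjOn (fun p : (_ : ℕ →₀ ℕ) × ℕ => p.1 - Finsupp.single p.2 1)
      (B.sigma fun α => α.support : Finset ((_ : ℕ →₀ ℕ) × ℕ)) := by
    rintro ⟨α, i⟩ hp ⟨β, j⟩ hr heq
    simp only [Finset.coe_sigma, Set.mem_sigma_iff, Finset.mem_coe] at hp hr heq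
    have h2 := dg_sub α hp.2
    have h3 := dg_sub β hr.2
    rw [(hB α hp.1).2] at h2
    rw [(hB β hr.1).2] at h3
    rw [heq] at h2
    have h4 : i = j := by omega
    subst h4
    have h5 : α = β := by
      rw [← sub_add_single α hp.2, ← sub_add_single β hr.2, heq]
    subst h5
    rfl
  rw [h1, ← Finset.mul_sum, ← Finset.sum_image (f := fun α => ww q α)
    (g := fun p : (_ : ℕ →₀ ℕ) × ℕ => p.1 - Finsupp.single p.2 1) (s := B.sigma fun α => α.support)
    hinj]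
  refine mul_le_mul_of_nonneg_left (sum_ww_le _ (Nat.cast_nonneg q) _ ?_) (Nat.cast_nonneg q)
  intro γ hγ
  rw [Finset.mem_image] at hγ
  obtain ⟨⟨α, i⟩, hp, rfl⟩ := hγ
  rw [Finset.mem_sigma] at hp
  intro j hj
  simp only at hp hj
  have h2 : j ∈ α.support := by
    rw [Finsupp.mem_support_iff, Finsupp.tsub_apply] at hj
    rw [Finsupp.mem_support_iff]
    omega
  rw [Finset.mem_Ioc]
  refine ⟨(Nat.floor_lt (by linarith)).mpr ((hB α hp.1).1 j h2), ?_⟩
  have h3 := mul_le_dg α j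
  rw [(hB α hp.1).2] at h3
  have h4 : 1 ≤ α j := Nat.one_le_iff_ne_zero.mpr (Finsupp.mem_support_iff.mp h2)
  exact (Nat.le_mul_of_pos_right j h4).trans h3

private lemma harm_le (m n : ℕ) (h : m ≤ n) :
    ∑ j ∈ Finset.Ioc m n, (1 : ℝ) / j ≤ 1 + Real.log n - Real.log (m + 1) := by
  have h1 : ∀ k : ℕ, ∑ j ∈ Finset.Ioc 0 k, (1 : ℝ) / j = (harmonic k : ℝ) := by
    intro k
    rw [harmonic_eq_sum_Icc]
    push_cast
    refine Finset.sum_congr ?_ fun j _ => by rw [one_div]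
    ext j
    simp [Finset.mem_Icc, Finset.mem_Ioc]
    omega
  have h2 : ∑ j ∈ Finset.Ioc 0 m, (1 : ℝ) / j + ∑ j ∈ Finset.Ioc m n, (1 : ℝ) / j
      = ∑ j ∈ Finset.Ioc 0 n, (1 : ℝ) / j := Finset.sum_Ioc_consecutive _ (Nat.zero_le m) h
  rw [h1, h1] at h2
  have h3 := harmonic_le_one_add_log n
  have h4 := log_add_one_le_harmonic m
  push_cast at h4
  linarith

/-- one degree, the bound -/
private lemma one_degree' (q : ℕ) (hq : 1 ≤ q) (y : ℝ) (hy : 1 ≤ y) (n : ℕ) (hn : 1 ≤ n)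
    (B : Finset (ℕ →₀ ℕ)) (hB : ∀ α ∈ B, (∀ j ∈ α.support, y < j) ∧ dg α = n) :
    ∑ α ∈ B, ww q α ≤ q * Real.exp q * (n : ℝ) ^ (q - 1) / y ^ q := by
  have hy0 : 0 < y := by linarith
  have hn0 : (0 : ℝ) < n := by exact_mod_cast hn
  rcases B.eq_empty_or_nonempty with rfl | ⟨α, hα⟩
  · simp only [Finset.sum_empty]
    positivity
  have hyn : y < n := by
    obtain ⟨h1, h2⟩ := hB α hα
    have h3 : α.support.Nonempty := by
      rw [Finsupp.support_nonempty_iff]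
      rintro rfl
      rw [dg_zero] at h2
      omega
    obtain ⟨j, hj⟩ := h3
    refine (h1 j hj).trans_le ?_
    have h4 := mul_le_dg α j
    rw [h2] at h4
    have h5 : 1 ≤ α j := Nat.one_le_iff_ne_zero.mpr (Finsupp.mem_support_iff.mp hj)
    exact_mod_cast (Nat.le_mul_of_pos_right j h5).trans h4
  have h1 := one_degree q y hy n B hB
  have h2 : ∑ j ∈ Finset.Ioc ⌊y⌋₊ n, (q : ℝ) / j ≤ q * (1 + Real.log (n / y)) := by
    have h3 : ∑ j ∈ Finset.Ioc ⌊y⌋₊ n, (q : ℝ) / j = q * ∑ j ∈ Finset.Ioc ⌊y⌋₊ n, (1 : ℝ) / j := by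
      rw [Finset.mul_sum]
      refine Finset.sum_congr rfl fun j _ => ?_
      ring
    rw [h3]
    refine mul_le_mul_of_nonneg_left ?_ (Nat.cast_nonneg q)
    have h4 := harm_le ⌊y⌋₊ n (Nat.floor_le_of_le hyn.le)
    have h5 : Real.log y ≤ Real.log ((⌊y⌋₊ : ℝ) + 1) :=
      Real.log_le_log hy0 (Nat.lt_floor_add_one y).le
    rw [Real.log_div hn0.ne' hy0.ne']
    linarith
  have h3 : Real.exp (∑ j ∈ Finset.Ioc ⌊y⌋₊ n, (q : ℝ) / j) ≤ Real.exp q * ((n : ℝ) / y) ^ q := by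
    refine (Real.exp_le_exp.mpr h2).trans (le_of_eq ?_)
    rw [mul_add, mul_one, Real.exp_add, Real.exp_nat_mul, Real.exp_log (div_pos hn0 hy0)]
  have h4 : (n : ℝ) * ∑ α ∈ B, ww q α ≤ q * (Real.exp q * ((n : ℝ) / y) ^ q) :=
    h1.trans (mul_le_mul_of_nonneg_left h3 (Nat.cast_nonneg q))
  have h5 : (n : ℝ) ^ q = n * (n : ℝ) ^ (q - 1) := by
    rw [← pow_succ']
    congr 1
    omega
  have h6 : (q : ℝ) * (Real.exp q * ((n : ℝ) / y) ^ q)
      = n * (q * Real.exp q * (n : ℝ) ^ (q - 1) / y ^ q) := by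
    rw [div_pow, h5]
    ring
  rw [h6] at h4
  exact le_of_mul_le_mul_left h4 hn0

theorem wSum : WSum := by
  classical
  intro q hq
  have hq1 : (1 : ℝ) ≤ q := by exact_mod_cast hq
  have hexp : 1 ≤ Real.exp (q : ℝ) := Real.one_le_exp (by positivity)
  have hC : 1 ≤ (q : ℝ) * Real.exp q := by nlinarith
  refine ⟨q * Real.exp q, hC, ?_⟩
  intro y x x' hy hxx hx' B hB
  have hy0 : 0 < y := by linarith
  have hlen : 0 ≤ x' - x + 1 := by linarith
  set S : Finset ℕ := (B.image dg).filter fun n => 1 ≤ n with hS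
  have hSmem : ∀ n ∈ S, 1 ≤ n ∧ x < n ∧ (n : ℝ) ≤ x' := by
    intro n hn
    rw [hS, Finset.mem_filter, Finset.mem_image] at hn
    obtain ⟨⟨α, hα, rfl⟩, h1⟩ := hn
    exact ⟨h1, (hB α hα).2.1, (hB α hα).2.2⟩
  have hcard : (S.card : ℝ) ≤ x' - x + 1 := by
    have h1 : (S.image fun n : ℕ => (n : ℤ)) ⊆ Finset.Ioc ⌊x⌋ ⌊x'⌋ := by
      intro z hz
      rw [Finset.mem_image] at hz
      obtain ⟨n, hn, rfl⟩ := hz
      obtain ⟨_, h2, h3⟩ := hSmem n hn
      rw [Finset.mem_Ioc]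
      refine ⟨Int.floor_lt.mpr (by exact_mod_cast h2), Int.le_floor.mpr (by exact_mod_cast h3)⟩
    have h2 := Finset.card_le_card h1
    rw [Finset.card_image_of_injective _ Nat.cast_injective, Int.card_Ioc] at h2
    have h3 : (0 : ℤ) ≤ ⌊x'⌋ - ⌊x⌋ := sub_nonneg.mpr (Int.floor_le_floor hxx)
    have h4 : ((⌊x'⌋ - ⌊x⌋).toNat : ℝ) = (⌊x'⌋ : ℝ) - ⌊x⌋ := by
      have h5 : (((⌊x'⌋ - ⌊x⌋).toNat : ℤ) : ℝ) = ((⌊x'⌋ - ⌊x⌋ : ℤ) : ℝ) := by
        rw [Int.toNat_of_nonneg h3]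
      push_cast at h5
      exact h5
    have h6 : (S.card : ℝ) ≤ ((⌊x'⌋ - ⌊x⌋).toNat : ℝ) := by exact_mod_cast h2
    have h7 := Int.floor_le x'
    have h8 := Int.lt_floor_add_one x
    rw [h4] at h6
    linarith
  have hsplit : ∑ α ∈ B, ww q α
      = ∑ α ∈ B.filter (fun α => ¬ 1 ≤ dg α), ww q α
        + ∑ n ∈ S, ∑ α ∈ B.filter (fun α => dg α = n), ww q α := by
    rw [← Finset.sum_filter_add_sum_filter_not B (fun α => 1 ≤ dg α), add_comm]
    congr 1
    rw [← Finset.sum_fiberwise_of_maps_to (s := B.filter fun α => 1 ≤ dg α) (t := S) (g := dg)]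
    · refine Finset.sum_congr rfl fun n hn => ?_
      refine Finset.sum_congr ?_ fun _ _ => rfl
      ext α
      simp only [Finset.mem_filter]
      have h1 := (hSmem n hn).1
      constructor
      · rintro ⟨⟨h2, _⟩, h3⟩
        exact ⟨h2, h3⟩
      · rintro ⟨h2, h3⟩
        exact ⟨⟨h2, h3 ▸ h1⟩, h3⟩
    · intro α hα
      rw [Finset.mem_filter] at hα
      rw [hS, Finset.mem_filter]
      exact ⟨Finset.mem_image_of_mem _ hα.1, hα.2⟩
  have hzero : ∑ α ∈ B.filter (fun α => ¬ 1 ≤ dg α), ww q α ≤ 1 := by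
    have h1 : B.filter (fun α => ¬ 1 ≤ dg α) ⊆ {0} := by
      intro α hα
      rw [Finset.mem_filter] at hα
      rw [Finset.mem_singleton]
      by_contra h2
      obtain ⟨j, hj⟩ := Finsupp.support_nonempty_iff.mpr h2
      have h3 := (hB α hα.1).1 j hj
      have h4 := mul_le_dg α j
      have h5 : 1 ≤ α j := Nat.one_le_iff_ne_zero.mpr (Finsupp.mem_support_iff.mp hj)
      have h6 : 1 ≤ j := by
        have : (0 : ℝ) < j := by linarith
        exact_mod_cast this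
      have h7 : j ≤ dg α := (Nat.le_mul_of_pos_right j h5).trans h4
      exact hα.2 (h6.trans h7)
    calc ∑ α ∈ B.filter (fun α => ¬ 1 ≤ dg α), ww q α ≤ ∑ α ∈ {(0 : ℕ →₀ ℕ)}, ww q α :=
          Finset.sum_le_sum_of_subset_of_nonneg h1 fun α _ _ => ww_nonneg (by positivity) α
      _ = 1 := by rw [Finset.sum_singleton, ww_zero]
  have hfib : ∀ n ∈ S, ∑ α ∈ B.filter (fun α => dg α = n), ww q α
      ≤ q * Real.exp q * x' ^ (q - 1) / y ^ q := by
    intro n hn
    obtain ⟨h1, h2, h3⟩ := hSmem n hn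
    refine (one_degree' q hq y hy n h1 _ ?_).trans ?_
    · intro α hα
      rw [Finset.mem_filter] at hα
      exact ⟨(hB α hα.1).1, hα.2⟩
    · have h4 : (n : ℝ) ^ (q - 1) ≤ x' ^ (q - 1) := pow_le_pow_left₀ (Nat.cast_nonneg n) h3 _
      gcongr
  have hx1 : 0 ≤ x' ^ (q - 1) / y ^ q := by positivity
  calc ∑ α ∈ B, ww q α ≤ 1 + ∑ n ∈ S, q * Real.exp q * x' ^ (q - 1) / y ^ q := by
        rw [hsplit]
        exact add_le_add hzero (Finset.sum_le_sum hfib)
    _ = 1 + S.card * (q * Real.exp q * (x' ^ (q - 1) / y ^ q)) := by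
        rw [Finset.sum_const, nsmul_eq_mul, mul_div_assoc]
    _ ≤ 1 + (x' - x + 1) * (q * Real.exp q * (x' ^ (q - 1) / y ^ q)) := by
        have h1 : 0 ≤ q * Real.exp q * (x' ^ (q - 1) / y ^ q) := by positivity
        linarith [mul_le_mul_of_nonneg_right hcard h1]
    _ ≤ q * Real.exp q * (1 + (x' - x + 1) * x' ^ (q - 1) / y ^ q) := by
        rw [mul_add, mul_one]
        refine add_le_add hC (le_of_eq ?_)
        ring

end Pool.Agent.Lib.RM
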