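import Mathlib
import Pool.Agent.Lib.MP_f9aece_nt_rm.StmtsG

/-!
The constants of the moments of the partial sums of zeta, module A9.

`(1 + x)^2 ≤ 2 exp x` for `x ≥ 0`, so the sum is at most
`2 ∑_(α ∈ B) ∏_j (q e^(j/y) / j)^(α_j) / α_j! ≤ 2 exp (∑_(y/2 < j ≤ y) q e^(j/y) / j)`
by `sum_prod_le_exp` with `D = Finset.Ioc ⌊y/2⌋₊ ⌊y⌋₊`, `s j = q / j * exp (j/y)`, and
`∑_(y/2 < j ≤ y) 1/j ≤ (2/y) (y/2 + 1) ≤ 3`. Constant `2 exp (9 q)`.
-/

set_option autoImplicit false

namespace Pool.Agent.Lib.RM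

open MeasureTheory ProbabilityTheory Set Filter Topology Complex
open scoped ComplexConjugate

theorem aSum : ASum := by
  intro q
  refine ⟨2 * Real.exp (9 * q), ?_, ?_⟩
  · have h : 1 ≤ Real.exp (9 * (q : ℝ)) := Real.one_le_exp (by positivity)
    linarith
  intro y hy B hB
  have hy0 : 0 < y := by linarith
  set D := Finset.Ioc ⌊y / 2⌋₊ ⌊y⌋₊ with hD
  have hDmem : ∀ j ∈ D, y / 2 < j ∧ (j : ℝ) ≤ y := by
    intro j hj
    rw [hD, Finset.mem_Ioc] at hj
    refine ⟨(Nat.floor_lt (by positivity)).mp hj.1, ?_⟩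
    exact (Nat.cast_le.mpr hj.2).trans (Nat.floor_le hy0.le)
  have hsupp : ∀ α ∈ B, α.support ⊆ D := by
    intro α hα j hj
    obtain ⟨h1, h2⟩ := hB α hα j hj
    rw [hD, Finset.mem_Ioc]
    exact ⟨(Nat.floor_lt (by positivity)).mpr h1, Nat.le_floor h2⟩
  have hterm : ∀ α ∈ B, ww q α * (1 + dg α / y) ^ 2
      ≤ 2 * ∏ j ∈ D, ((q : ℝ) / j * Real.exp (j / y)) ^ α j / ((α j).factorial : ℝ) := by
    intro α hα
    have hx : 0 ≤ (dg α : ℝ) / y := by positivity
    have h1 : (1 + (dg α : ℝ) / y) ^ 2 ≤ 2 * Real.exp ((dg α : ℝ) / y) := by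
      have := Real.quadratic_le_exp_of_nonneg hx
      nlinarith
    have h2 : Real.exp ((dg α : ℝ) / y) = ∏ j ∈ D, Real.exp ((j : ℝ) / y) ^ α j := by
      have h3 : (dg α : ℝ) = ∑ j ∈ D, (j : ℝ) * α j := by
        unfold dg
        rw [Finsupp.sum_of_support_subset _ (hsupp α hα) _ (fun _ _ => by simp)]
        push_cast
        rfl
      rw [h3, Finset.sum_div, Real.exp_sum]
      refine Finset.prod_congr rfl fun j _ => ?_
      rw [← Real.exp_nat_mul]
      congr 1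
      ring
    calc ww q α * (1 + dg α / y) ^ 2 ≤ ww q α * (2 * Real.exp ((dg α : ℝ) / y)) :=
          mul_le_mul_of_nonneg_left h1 (ww_nonneg (by positivity) α)
      _ = 2 * ∏ j ∈ D, ((q : ℝ) / j * Real.exp (j / y)) ^ α j / ((α j).factorial : ℝ) := by
          rw [h2, ww_eq_prod (hsupp α hα), mul_left_comm, ← Finset.prod_mul_distrib]
          congr 1
          refine Finset.prod_congr rfl fun j _ => ?_
          rw [mul_pow]
          ring
  have hs : ∀ j ∈ D, 0 ≤ (q : ℝ) / j * Real.exp (j / y) := fun j _ => by positivity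
  have hsum : ∑ j ∈ D, (q : ℝ) / j * Real.exp (j / y) ≤ 9 * q := by
    have h1 : ∀ j ∈ D, (q : ℝ) / j * Real.exp (j / y) ≤ (q : ℝ) * (2 / y) * 3 := by
      intro j hj
      obtain ⟨h2, h3⟩ := hDmem j hj
      have hj0 : (0 : ℝ) < j := by linarith [half_pos hy0]
      have h4 : (q : ℝ) / j ≤ q * (2 / y) := by
        rw [div_eq_mul_inv]
        refine mul_le_mul_of_nonneg_left ?_ (Nat.cast_nonneg q)
        rw [inv_eq_one_div, div_le_div_iff₀ hj0 hy0]
        linarith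
      have h5 : Real.exp ((j : ℝ) / y) ≤ 3 := by
        have h6 : (j : ℝ) / y ≤ 1 := by rwa [div_le_one hy0]
        calc Real.exp ((j : ℝ) / y) ≤ Real.exp 1 := Real.exp_le_exp.mpr h6
          _ ≤ 3 := by linarith [Real.exp_one_lt_d9]
      exact mul_le_mul h4 h5 (Real.exp_pos _).le (by positivity)
    have h2 : (D.card : ℝ) ≤ y / 2 + 1 := by
      rw [hD, Nat.card_Ioc, Nat.cast_sub (Nat.floor_le_floor (by linarith))]
      have h3 := Nat.floor_le hy0.le
      have h4 := Nat.lt_floor_add_one (y / 2)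
      linarith
    calc ∑ j ∈ D, (q : ℝ) / j * Real.exp (j / y) ≤ ∑ j ∈ D, (q : ℝ) * (2 / y) * 3 :=
          Finset.sum_le_sum h1
      _ = D.card * ((q : ℝ) * (2 / y) * 3) := by rw [Finset.sum_const, nsmul_eq_mul]
      _ ≤ (y / 2 + 1) * ((q : ℝ) * (2 / y) * 3) :=
          mul_le_mul_of_nonneg_right h2 (by positivity)
      _ = q * 3 * (1 + 2 / y) := by field_simp
      _ ≤ q * 3 * 3 := by
          refine mul_le_mul_of_nonneg_left ?_ (by positivity)
          have : 2 / y ≤ 2 := by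
            rw [div_le_iff₀ hy0]
            linarith
          linarith
      _ = 9 * q := by ring
  calc ∑ α ∈ B, ww q α * (1 + dg α / y) ^ 2
      ≤ ∑ α ∈ B, 2 * ∏ j ∈ D, ((q : ℝ) / j * Real.exp (j / y)) ^ α j / ((α j).factorial : ℝ) :=
        Finset.sum_le_sum hterm
    _ = 2 * ∑ α ∈ B, ∏ j ∈ D, ((q : ℝ) / j * Real.exp (j / y)) ^ α j / ((α j).factorial : ℝ) := by
        rw [Finset.mul_sum]
    _ ≤ 2 * Real.exp (∑ j ∈ D, (q : ℝ) / j * Real.exp (j / y)) :=
        mul_le_mul_of_nonneg_left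
          (sum_prod_le_exp D (fun j => (q : ℝ) / j * Real.exp (j / y)) hs B hsupp) (by norm_num)
    _ ≤ 2 * Real.exp (9 * q) :=
        mul_le_mul_of_nonneg_left (Real.exp_le_exp.mpr hsum) (by norm_num)

end Pool.Agent.Lib.RM
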