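import Mathlib
import Pool.Agent.Lib.MP_f9aece_nt_rm.StmtsG

/-!
The constants of the moments of the partial sums of zeta, module B2: the form of one level for
Lipschitz weights.
-/

set_option autoImplicit false

namespace Pool.Agent.Lib.RM

open MeasureTheory ProbabilityTheory Set Filter Topology Complex
open scoped ComplexConjugate

theorem lipLev (h8 : WSum) (h9 : ASum) : LipLev := by
  classical
  intro q Lam w hq hLam hlip hw
  obtain ⟨C, hC1, hC⟩ := h8 q hq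
  obtain ⟨C', hC'1, hC'⟩ := h9 q
  refine ⟨1 + 4 * Lam ^ 2 * C * C', ?_, ?_⟩
  · have : 0 ≤ 4 * Lam ^ 2 * C * C' := by positivity
    linarith
  intro L M y hy hyL
  have hy0 : 0 < y := by linarith
  have hL1 : (1 : ℝ) ≤ L := hy.trans hyL
  have hL0 : (0 : ℝ) < L := by linarith
  have hr : 1 ≤ (L : ℝ) / y := (one_le_div hy0).mpr hyL
  -- the sets
  set A := bx (Finset.Ioc ⌊y / 2⌋₊ ⌊y⌋₊) M with hA
  set B := bx (Finset.Ioc ⌊y⌋₊ L) (L + 1) with hB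
  set B' := B.filter fun β => dg β ≤ L with hB'
  have hwn : ∀ α : ℕ →₀ ℕ, 0 ≤ ww (q : ℝ) α := fun α => ww_nonneg (Nat.cast_nonneg q) α
  -- termwise bound
  have hterm : ∀ α ∈ A, ∀ β ∈ B,
      ‖w (((dg α + dg β : ℕ) : ℝ) / L) - w ((dg β : ℝ) / L)‖ ^ 2 * (ww q α * ww q β)
        ≤ if dg β ≤ L then (Lam ^ 2 * ((dg α : ℝ) / L) ^ 2) * ww q α * ww q β else 0 := by
    intro α _ β _
    split_ifs with h
    · have h1 : ‖w (((dg α + dg β : ℕ) : ℝ) / L) - w ((dg β : ℝ) / L)‖ ≤ Lam * ((dg α : ℝ) / L) := by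
        refine (hlip _ _).trans (le_of_eq ?_)
        have h2 : ((dg α + dg β : ℕ) : ℝ) / L - (dg β : ℝ) / L = (dg α : ℝ) / L := by
          push_cast
          ring
        rw [h2, abs_of_nonneg (by positivity)]
      have h3 : ‖w (((dg α + dg β : ℕ) : ℝ) / L) - w ((dg β : ℝ) / L)‖ ^ 2
          ≤ Lam ^ 2 * ((dg α : ℝ) / L) ^ 2 := by
        rw [← mul_pow]
        exact pow_le_pow_left₀ (norm_nonneg _) h1 2
      have h4 := mul_le_mul_of_nonneg_right h3 (mul_nonneg (hwn α) (hwn β))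
      refine h4.trans (le_of_eq ?_)
      ring
    · have hβ : (L : ℝ) ≤ dg β := by exact_mod_cast (not_le.mp h).le
      have h5 : w (((dg α + dg β : ℕ) : ℝ) / L) = 0 := by
        apply hw
        rw [one_le_div hL0]
        push_cast
        have : (0 : ℝ) ≤ dg α := Nat.cast_nonneg _
        linarith
      have h6 : w ((dg β : ℝ) / L) = 0 := hw _ ((one_le_div hL0).mpr hβ)
      rw [h5, h6]
      simp
  have hsum : LF q (fun n => w ((n : ℝ) / L)) L M y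
      ≤ ∑ α ∈ A, ∑ β ∈ B, if dg β ≤ L then (Lam ^ 2 * ((dg α : ℝ) / L) ^ 2) * ww q α * ww q β
        else 0 := by
    unfold LF
    exact Finset.sum_le_sum fun α hα => Finset.sum_le_sum fun β hβ => hterm α hα β hβ
  have hprod : ∑ α ∈ A, ∑ β ∈ B, (if dg β ≤ L then (Lam ^ 2 * ((dg α : ℝ) / L) ^ 2) * ww q α
        * ww q β else 0)
      = (∑ α ∈ A, (Lam ^ 2 * ((dg α : ℝ) / L) ^ 2) * ww q α) * ∑ β ∈ B', ww q β := by
    rw [Finset.sum_mul]
    refine Finset.sum_congr rfl fun α _ => ?_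
    rw [Finset.mul_sum, hB', Finset.sum_filter]
  -- the sum over `β`
  have hBs : ∑ β ∈ B', ww (q : ℝ) β ≤ 4 * C * ((L : ℝ) / y) ^ q := by
    have h1 := hC y (-1) L hy (by linarith) hL0.le B' (by
      intro β hβ
      rw [hB', Finset.mem_filter, hB, mem_bx] at hβ
      refine ⟨fun j hj => ?_, ?_, ?_⟩
      · exact Nat.lt_of_floor_lt (Finset.mem_Ioc.mp (hβ.1.1 hj)).1
      · have : (0 : ℝ) ≤ dg β := Nat.cast_nonneg _
        linarith
      · exact_mod_cast hβ.2)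
    refine h1.trans ?_
    have hyq : 0 < y ^ q := by positivity
    have h2 : ((L : ℝ) - -1 + 1) * (L : ℝ) ^ (q - 1) / y ^ q ≤ 3 * ((L : ℝ) / y) ^ q := by
      have h3 : ((L : ℝ) - -1 + 1) * (L : ℝ) ^ (q - 1) ≤ 3 * (L : ℝ) ^ q := by
        have h4 : (L : ℝ) ^ q = L * (L : ℝ) ^ (q - 1) := by
          rw [← pow_succ', Nat.sub_add_cancel hq]
        rw [h4]
        have h5 : (0 : ℝ) ≤ (L : ℝ) ^ (q - 1) := by positivity
        nlinarith
      rw [div_pow, ← mul_div_assoc]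
      exact div_le_div_of_nonneg_right h3 hyq.le
    have h6 : 1 ≤ ((L : ℝ) / y) ^ q := one_le_pow₀ hr
    have hC0 : 0 ≤ C := by linarith
    have h7 : 1 + ((L : ℝ) - -1 + 1) * (L : ℝ) ^ (q - 1) / y ^ q ≤ 4 * ((L : ℝ) / y) ^ q := by
      linarith
    calc C * (1 + ((L : ℝ) - -1 + 1) * (L : ℝ) ^ (q - 1) / y ^ q)
        ≤ C * (4 * ((L : ℝ) / y) ^ q) := mul_le_mul_of_nonneg_left h7 hC0
      _ = 4 * C * ((L : ℝ) / y) ^ q := by ring
  -- the sum over `α`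
  have hAs : ∑ α ∈ A, (Lam ^ 2 * ((dg α : ℝ) / L) ^ 2) * ww (q : ℝ) α
      ≤ Lam ^ 2 * (y / L) ^ 2 * C' := by
    have h1 := hC' y hy A (by
      intro α hα j hj
      rw [hA, mem_bx] at hα
      have h2 := Finset.mem_Ioc.mp (hα.1 hj)
      exact ⟨Nat.lt_of_floor_lt h2.1, (Nat.cast_le.mpr h2.2).trans (Nat.floor_le hy0.le)⟩)
    have h3 : 0 ≤ Lam ^ 2 * (y / L) ^ 2 := by positivity
    refine le_trans ?_ (mul_le_mul_of_nonneg_left h1 h3)
    rw [Finset.mul_sum]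
    refine Finset.sum_le_sum fun α _ => ?_
    have h4 : (dg α : ℝ) / L = (y / L) * ((dg α : ℝ) / y) := by
      field_simp
    have h5 : ((dg α : ℝ) / y) ^ 2 ≤ (1 + (dg α : ℝ) / y) ^ 2 := by
      have : 0 ≤ (dg α : ℝ) / y := by positivity
      exact pow_le_pow_left₀ this (by linarith) 2
    rw [h4, mul_pow]
    have h6 := mul_le_mul_of_nonneg_left h5 (mul_nonneg h3 (hwn α))
    calc Lam ^ 2 * ((y / ↑L) ^ 2 * ((dg α : ℝ) / y) ^ 2) * ww (q : ℝ) α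
        = Lam ^ 2 * (y / ↑L) ^ 2 * ww (q : ℝ) α * ((dg α : ℝ) / y) ^ 2 := by ring
      _ ≤ Lam ^ 2 * (y / ↑L) ^ 2 * ww (q : ℝ) α * (1 + (dg α : ℝ) / y) ^ 2 := h6
      _ = Lam ^ 2 * (y / ↑L) ^ 2 * (ww (q : ℝ) α * (1 + (dg α : ℝ) / y) ^ 2) := by ring
  have hB0 : 0 ≤ ∑ β ∈ B', ww (q : ℝ) β := Finset.sum_nonneg fun β _ => hwn β
  have hfin : LF q (fun n => w ((n : ℝ) / L)) L M y
      ≤ (Lam ^ 2 * (y / L) ^ 2 * C') * (4 * C * ((L : ℝ) / y) ^ q) := by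
    rw [hprod] at hsum
    refine hsum.trans ?_
    exact mul_le_mul hAs hBs hB0 (by positivity)
  refine hfin.trans ?_
  have h8 : ((L : ℝ) / y) ^ q = ((L : ℝ) / y) ^ (q - 1) * ((L : ℝ) / y) := by
    rw [← pow_succ, Nat.sub_add_cancel hq]
  have h9 : (y / L) ^ 2 * ((L : ℝ) / y) = y / L := by
    field_simp
  have h10 : y / (L : ℝ) ≤ 1 := (div_le_one hL0).mpr hyL
  have h11 : 0 ≤ ((L : ℝ) / y) ^ (q - 1) := by positivity
  have h12 : (Lam ^ 2 * (y / L) ^ 2 * C') * (4 * C * ((L : ℝ) / y) ^ q)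
      = (4 * Lam ^ 2 * C * C') * ((L : ℝ) / y) ^ (q - 1) * (y / L) := by
    rw [h8]
    calc (Lam ^ 2 * (y / L) ^ 2 * C') * (4 * C * (((L : ℝ) / y) ^ (q - 1) * ((L : ℝ) / y)))
        = (4 * Lam ^ 2 * C * C') * ((L : ℝ) / y) ^ (q - 1) * ((y / L) ^ 2 * ((L : ℝ) / y)) := by ring
      _ = _ := by rw [h9]
  rw [h12]
  have h13 : 0 ≤ (4 * Lam ^ 2 * C * C') * ((L : ℝ) / y) ^ (q - 1) := by positivity
  nlinarith

end Pool.Agent.Lib.RM
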