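import Mathlib
import Pool.Agent.Lib.MP_f9aece_nt_rm.StmtsG

/-!
The constants of the moments of the partial sums of zeta, module B3.

`a = dg α`, `b = dg β`, `u = ed τ L`. `‖u (a+b) - u b‖^2` is: zero if `b > L`; if `b ≤ L < a + b`: at most `1` (`0 ≤ rp ≤ 1`), window `L - a < b ≤ L`;
if `a + b ≤ L`: at most `min 1 (a/(τL))^2` (`rp τ` is `1/τ`-Lipschitz, see `R10` in `Pool/Agent/Lib/MP_f9aece_nt_ps/R10.lean` for the
proofs about `rp`), and zero unless `a + b > (1-τ) L`, window `(1-τ) L - a < b ≤ L`. `WSum` (entries of `β` are `> y`) for fixed `α`, with `A = a/y`: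
second window `≤ C (1 + (a + 1) L^(q-1)/y^q) ≤ C (L/y)^(q-1) (2 + A)`; first window times `min 1 (a/(τL))^2`: `≤ C (1 + (τL + a + 1) L^(q-1)/y^q) min(1, (a/(τL))^2)`,
and `y ≤ τL` gives `(a/(τL))^2 ≤ A^2`, `τL (a/(τL))^2 = a^2/(τL) ≤ A^2 y`, `a min(..) ≤ A y`, `1 ≤ y`: `≤ C (L/y)^(q-1) (1 + A + A^2 + A^2 ...)`. Total
`≤ 10 C (L/y)^(q-1) (1 + A)^2` (any constant), then `ASum`.
-/

set_option autoImplicit false

namespace Pool.Agent.Lib.RM

open MeasureTheory ProbabilityTheory Set Filter Topology Complex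
open scoped ComplexConjugate

private lemma rp_nonneg (τ x : ℝ) : 0 ≤ rp τ x := le_max_left _ _

private lemma rp_le_one (τ x : ℝ) : rp τ x ≤ 1 := max_le zero_le_one (min_le_left _ _)

private lemma rp_mono {τ x y : ℝ} (hτ : 0 < τ) (h : x ≤ y) : rp τ x ≤ rp τ y := by
  unfold rp
  refine max_le_max le_rfl (min_le_min le_rfl ?_)
  exact div_le_div_of_nonneg_right (by linarith) hτ.le

private lemma rp_sub_le {τ x y : ℝ} (hτ : 0 < τ) (h : x ≤ y) :
    rp τ y - rp τ x ≤ (y - x) / τ := by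
  have h0 : 0 ≤ (y - x) / τ := div_nonneg (by linarith) hτ.le
  have h1 : (y - (1 - τ)) / τ = (x - (1 - τ)) / τ + (y - x) / τ := by ring
  unfold rp
  rw [h1]
  set s := (x - (1 - τ)) / τ
  set t := (y - x) / τ
  have h2 : max 0 (min 1 (s + t)) ≤ max 0 (min 1 s) + t := by
    refine max_le ?_ ?_
    · have := le_max_left 0 (min 1 s)
      linarith
    · rcases le_total 1 s with h3 | h3
      · rw [min_eq_left h3]
        have h4 := le_max_right (0 : ℝ) 1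
        have h5 := min_le_left 1 (s + t)
        linarith
      · rw [min_eq_right h3]
        have h4 := le_max_right 0 s
        have h5 := min_le_right 1 (s + t)
        linarith
  linarith

private lemma rp_eq_zero {τ x : ℝ} (hτ : 0 < τ) (h : x ≤ 1 - τ) : rp τ x = 0 := by
  unfold rp
  refine max_eq_left ((min_le_right _ _).trans ?_)
  exact div_nonpos_of_nonpos_of_nonneg (by linarith) hτ.le

/-- the difference of the edge weights -/
private lemma ed_diff {τ : ℝ} {L : ℕ} (hτ : 0 < τ) (hL : 0 < L) (a b : ℕ) :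
    ‖ed τ L (a + b) - ed τ L b‖ ^ 2
      ≤ (if (L : ℝ) - a < b ∧ (b : ℝ) ≤ L then 1 else 0)
        + (if (1 - τ) * (L : ℝ) - a < b ∧ (b : ℝ) ≤ L then (min 1 (a / (τ * L))) ^ 2 else 0) := by
  have hL' : (0 : ℝ) < L := by exact_mod_cast hL
  have hi : ∀ (P : Prop) [Decidable P] (c : ℝ), 0 ≤ c → 0 ≤ if P then c else 0 := by
    intro P _ c hc
    split_ifs
    · exact hc
    · exact le_rfl
  have hsq : (0 : ℝ) ≤ (min 1 ((a : ℝ) / (τ * L))) ^ 2 := sq_nonneg _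
  unfold ed
  by_cases h1 : b ≤ L
  · have h1' : (b : ℝ) ≤ L := by exact_mod_cast h1
    by_cases h2 : a + b ≤ L
    · rw [if_pos h2, if_pos h1]
      by_cases h3 : (1 - τ) * (L : ℝ) - a < b
      · rw [if_pos (⟨h3, h1'⟩ : (1 - τ) * (L : ℝ) - a < b ∧ (b : ℝ) ≤ L)]
        have h4 : ((b : ℝ) / L) ≤ ((a + b : ℕ) : ℝ) / L := by
          refine div_le_div_of_nonneg_right ?_ hL'.le
          exact_mod_cast Nat.le_add_left b a
        have h5 : 0 ≤ rp τ (((a + b : ℕ) : ℝ) / L) - rp τ ((b : ℝ) / L) :=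
          sub_nonneg.2 (rp_mono hτ h4)
        have h6 : rp τ (((a + b : ℕ) : ℝ) / L) - rp τ ((b : ℝ) / L) ≤ min 1 (a / (τ * L)) := by
          refine le_min ?_ ?_
          · have := rp_le_one τ (((a + b : ℕ) : ℝ) / L)
            have := rp_nonneg τ ((b : ℝ) / L)
            linarith
          · refine (rp_sub_le hτ h4).trans (le_of_eq ?_)
            push_cast
            field_simp
            ring
        have h7 : ‖((rp τ (((a + b : ℕ) : ℝ) / L) : ℝ) : ℂ) - ((rp τ ((b : ℝ) / L) : ℝ) : ℂ)‖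
            = rp τ (((a + b : ℕ) : ℝ) / L) - rp τ ((b : ℝ) / L) := by
          rw [← Complex.ofReal_sub, Complex.norm_real, Real.norm_eq_abs, abs_of_nonneg h5]
        rw [h7]
        have h8 := hi ((L : ℝ) - a < b ∧ (b : ℝ) ≤ L) 1 zero_le_one
        have h9 := pow_le_pow_left₀ h5 h6 2
        linarith
      · have h4 : ((a + b : ℕ) : ℝ) / L ≤ 1 - τ := by
          rw [div_le_iff₀ hL']
          push_cast
          linarith [not_lt.1 h3]
        have h5 : (b : ℝ) / L ≤ 1 - τ := by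
          refine le_trans (div_le_div_of_nonneg_right ?_ hL'.le) h4
          exact_mod_cast Nat.le_add_left b a
        rw [rp_eq_zero hτ h4, rp_eq_zero hτ h5, sub_self, norm_zero]
        have h8 := hi ((L : ℝ) - a < b ∧ (b : ℝ) ≤ L) 1 zero_le_one
        have h9 := hi ((1 - τ) * (L : ℝ) - a < b ∧ (b : ℝ) ≤ L) _ hsq
        have h10 : (0 : ℝ) ^ 2 = 0 := by norm_num
        rw [h10]
        linarith
    · rw [if_neg h2, if_pos h1, zero_sub, norm_neg]
      have h3 : (L : ℝ) - a < b := by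
        have : (L : ℝ) < a + b := by exact_mod_cast not_le.1 h2
        linarith
      rw [if_pos (⟨h3, h1'⟩ : (L : ℝ) - a < b ∧ (b : ℝ) ≤ L)]
      have h9 := hi ((1 - τ) * (L : ℝ) - a < b ∧ (b : ℝ) ≤ L) _ hsq
      have h7 : ‖((rp τ ((b : ℝ) / L) : ℝ) : ℂ)‖ ≤ 1 := by
        rw [Complex.norm_real, Real.norm_eq_abs, abs_of_nonneg (rp_nonneg _ _)]
        exact rp_le_one _ _
      have h8 := pow_le_pow_left₀ (norm_nonneg _) h7 2
      rw [one_pow] at h8
      linarith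
  · have h2 : ¬ a + b ≤ L := by omega
    rw [if_neg h2, if_neg h1, sub_self, norm_zero]
    have h8 := hi ((L : ℝ) - a < b ∧ (b : ℝ) ≤ L) 1 zero_le_one
    have h9 := hi ((1 - τ) * (L : ℝ) - a < b ∧ (b : ℝ) ≤ L) _ hsq
    have h10 : (0 : ℝ) ^ 2 = 0 := by norm_num
    rw [h10]
    linarith

/-- the final estimate -/
private lemma real_est {C R τL A a y m : ℝ} (hC : 1 ≤ C) (hR : 1 ≤ R) (hy : 1 ≤ y)
    (hyL : y ≤ τL) (ha : 0 ≤ a) (hA : A = a / y) (hm0 : 0 ≤ m) (hm1 : m ≤ 1)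
    (hm2 : m ≤ a / τL) :
    C * (1 + (a + 1) * (R / y)) + m ^ 2 * (C * (1 + (τL + a + 1) * (R / y)))
      ≤ 4 * C * R * (1 + A) ^ 2 := by
  have hy0 : 0 < y := by linarith
  have hτ0 : 0 < τL := by linarith
  have hA0 : 0 ≤ A := by rw [hA]; exact div_nonneg ha hy0.le
  have haA : a / y = A := hA.symm
  have hR0 : 0 ≤ R := by linarith
  have hC0 : 0 ≤ C := by linarith
  have h1y : 1 / y ≤ 1 := by rw [div_le_one hy0]; exact hy
  have h1y0 : 0 ≤ 1 / y := by positivity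
  have e1 : (a + 1) * (R / y) = R * (A + 1 / y) := by rw [hA]; ring
  have e2 : (τL + a + 1) * (R / y) = R * (τL / y + A + 1 / y) := by rw [hA]; ring
  have hm3 : m ^ 2 ≤ 1 := by nlinarith
  have hm4 : m ^ 2 * (τL / y) ≤ A ^ 2 := by
    have h1 : m ^ 2 ≤ (a / τL) ^ 2 := pow_le_pow_left₀ hm0 hm2 2
    have h2 : m ^ 2 * (τL / y) ≤ (a / τL) ^ 2 * (τL / y) :=
      mul_le_mul_of_nonneg_right h1 (by positivity)
    refine h2.trans ?_
    rw [hA]
    have h3 : (a / τL) ^ 2 * (τL / y) = a ^ 2 / (τL * y) := by field_simp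
    rw [h3, div_pow]
    refine div_le_div_of_nonneg_left (sq_nonneg a) (by positivity) ?_
    nlinarith
  rw [e1, e2]
  have hm5 : 0 ≤ m ^ 2 := sq_nonneg m
  have h1 : C * (1 + R * (A + 1 / y)) ≤ C * (R * (2 + A)) := by
    refine mul_le_mul_of_nonneg_left ?_ hC0
    nlinarith [mul_le_mul_of_nonneg_left h1y hR0]
  have h2 : m ^ 2 * (C * (1 + R * (τL / y + A + 1 / y))) ≤ C * (R * (2 + A + A ^ 2)) := by
    have h3 : m ^ 2 * (C * (1 + R * (τL / y + A + 1 / y)))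
        = C * (m ^ 2 + R * (m ^ 2 * (τL / y) + m ^ 2 * (A + 1 / y))) := by ring
    rw [h3]
    refine mul_le_mul_of_nonneg_left ?_ hC0
    have h4 : m ^ 2 * (A + 1 / y) ≤ A + 1 := by
      have h5 : m ^ 2 * (A + 1 / y) ≤ 1 * (A + 1 / y) :=
        mul_le_mul_of_nonneg_right hm3 (by positivity)
      linarith
    have h6 : R * (m ^ 2 * (τL / y) + m ^ 2 * (A + 1 / y)) ≤ R * (A ^ 2 + (A + 1)) :=
      mul_le_mul_of_nonneg_left (by linarith) hR0
    nlinarith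
  have h7 : C * (R * (2 + A)) + C * (R * (2 + A + A ^ 2)) ≤ 4 * C * R * (1 + A) ^ 2 := by
    have h8 : 0 ≤ C * R := mul_nonneg hC0 hR0
    have h9 : 4 * C * R * (1 + A) ^ 2 - (C * (R * (2 + A)) + C * (R * (2 + A + A ^ 2)))
        = C * R * (6 * A + 3 * A ^ 2) := by ring
    have h10 : 0 ≤ C * R * (6 * A + 3 * A ^ 2) := mul_nonneg h8 (by positivity)
    linarith
  linarith

theorem edgeLev (h8 : WSum) (h9 : ASum) : EdgeLev := by
  classical
  intro q hq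
  obtain ⟨C1, hC1, hW⟩ := h8 q hq
  obtain ⟨C2, hC2, hA⟩ := h9 q
  refine ⟨4 * C1 * C2, by nlinarith, ?_⟩
  intro τ L M y hτ hτ1 hy hyL
  have hy0 : 0 < y := by linarith
  have hLr : (0 : ℝ) < L := by
    by_contra hcon
    have h1 : (L : ℝ) ≤ 0 := not_lt.1 hcon
    nlinarith
  have hL : 0 < L := by exact_mod_cast hLr
  have hyL' : y ≤ L := by nlinarith
  set R : ℝ := ((L : ℝ) / y) ^ (q - 1) with hRdef
  have hR : 1 ≤ R := one_le_pow₀ ((one_le_div hy0).2 hyL')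
  have hRy : (L : ℝ) ^ (q - 1) / y ^ q = R / y := by
    rw [hRdef, div_pow, div_div]
    congr 1
    rw [← pow_succ]
    congr 1
    omega
  have hwq : ∀ α : ℕ →₀ ℕ, 0 ≤ ww (q : ℝ) α := ww_nonneg (Nat.cast_nonneg q)
  have hlevel : ∀ α : ℕ →₀ ℕ, ∑ β ∈ bx (Finset.Ioc ⌊y⌋₊ L) (L + 1),
      ‖ed τ L (dg α + dg β) - ed τ L (dg β)‖ ^ 2 * (ww q α * ww q β)
      ≤ ww q α * (4 * C1 * R * (1 + dg α / y) ^ 2) := by
    intro α
    set m : ℝ := min 1 ((dg α : ℝ) / (τ * L)) with hm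
    set S := bx (Finset.Ioc ⌊y⌋₊ L) (L + 1) with hS
    have hsupp : ∀ β ∈ S, ∀ j ∈ β.support, y < j := by
      intro β hβ j hj
      have h1 := Finset.mem_Ioc.1 ((mem_bx.1 hβ).1 hj)
      exact (Nat.floor_lt hy0.le).1 h1.1
    have hS1 := hW y ((L : ℝ) - dg α) L hy (by
        have : (0 : ℝ) ≤ dg α := Nat.cast_nonneg _
        linarith) hLr.le
      (S.filter fun β => (L : ℝ) - dg α < dg β ∧ (dg β : ℝ) ≤ L) (fun β hβ => by
        obtain ⟨h1, h2⟩ := Finset.mem_filter.1 hβ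
        exact ⟨hsupp β h1, h2⟩)
    have hS2 := hW y ((1 - τ) * (L : ℝ) - dg α) L hy (by
        have : (0 : ℝ) ≤ dg α := Nat.cast_nonneg _
        nlinarith) hLr.le
      (S.filter fun β => (1 - τ) * (L : ℝ) - dg α < dg β ∧ (dg β : ℝ) ≤ L) (fun β hβ => by
        obtain ⟨h1, h2⟩ := Finset.mem_filter.1 hβ
        exact ⟨hsupp β h1, h2⟩)
    have e1 : ((L : ℝ) - ((L : ℝ) - dg α) + 1) * (L : ℝ) ^ (q - 1) / y ^ q
        = ((dg α : ℝ) + 1) * (R / y) := by
      rw [← hRy]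
      ring
    have e2 : ((L : ℝ) - ((1 - τ) * (L : ℝ) - dg α) + 1) * (L : ℝ) ^ (q - 1) / y ^ q
        = (τ * L + (dg α : ℝ) + 1) * (R / y) := by
      rw [← hRy]
      ring
    rw [e1] at hS1
    rw [e2] at hS2
    have hpt : ∀ β ∈ S, ‖ed τ L (dg α + dg β) - ed τ L (dg β)‖ ^ 2 * (ww q α * ww q β)
        ≤ ww q α * ((if (L : ℝ) - dg α < dg β ∧ (dg β : ℝ) ≤ L then ww q β else 0)
          + m ^ 2 * (if (1 - τ) * (L : ℝ) - dg α < dg β ∧ (dg β : ℝ) ≤ L then ww q β else 0)) := by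
      intro β hβ
      have h1 := ed_diff hτ hL (dg α) (dg β)
      have h2 := mul_le_mul_of_nonneg_right h1 (mul_nonneg (hwq α) (hwq β))
      refine h2.trans (le_of_eq ?_)
      rw [← hm]
      split_ifs <;> ring
    refine (Finset.sum_le_sum hpt).trans ?_
    rw [← Finset.mul_sum]
    refine mul_le_mul_of_nonneg_left ?_ (hwq α)
    rw [Finset.sum_add_distrib, ← Finset.mul_sum, ← Finset.sum_filter, ← Finset.sum_filter]
    have hm0 : 0 ≤ m := le_min zero_le_one (by positivity)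
    have hm2 : 0 ≤ m ^ 2 := sq_nonneg m
    refine (add_le_add hS1 (mul_le_mul_of_nonneg_left hS2 hm2)).trans ?_
    exact real_est hC1 hR hy hyL (Nat.cast_nonneg _) rfl hm0 (min_le_left _ _) (min_le_right _ _)
  unfold LF
  refine (Finset.sum_le_sum fun α _ => hlevel α).trans ?_
  have h1 := hA y hy (bx (Finset.Ioc ⌊y / 2⌋₊ ⌊y⌋₊) M) (fun α hα j hj => by
    have h1 := Finset.mem_Ioc.1 ((mem_bx.1 hα).1 hj)
    exact ⟨(Nat.floor_lt (by positivity)).1 h1.1, (Nat.le_floor_iff hy0.le).1 h1.2⟩)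
  have h2 : ∑ α ∈ bx (Finset.Ioc ⌊y / 2⌋₊ ⌊y⌋₊) M, ww q α * (4 * C1 * R * (1 + dg α / y) ^ 2)
      = 4 * C1 * R * ∑ α ∈ bx (Finset.Ioc ⌊y / 2⌋₊ ⌊y⌋₊) M, ww q α * (1 + dg α / y) ^ 2 := by
    rw [Finset.mul_sum]
    exact Finset.sum_congr rfl fun α _ => by ring
  rw [h2]
  have h3 : 0 ≤ 4 * C1 * R := by nlinarith
  calc 4 * C1 * R * ∑ α ∈ bx (Finset.Ioc ⌊y / 2⌋₊ ⌊y⌋₊) M, ww q α * (1 + dg α / y) ^ 2
      ≤ 4 * C1 * R * C2 := mul_le_mul_of_nonneg_left h1 h3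
    _ = 4 * C1 * C2 * R := by ring

end Pool.Agent.Lib.RM
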