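import Mathlib
import Pool.Agent.Lib.MP_f9aece_nt_rm.StmtsG

/-!
The constants of the moments of the partial sums of zeta, module B4.

`‖EX D z‖^(2k) = exp (2 k Re ∑ z_j/√j) = ∏_(j ∈ D) exp (2 (k/√j) Re z_j)`, second part of `ProdF`, third part of `OneA` with `s = k/√j`: the
product of `exp (k^2/j)`.
-/

set_option autoImplicit false

namespace Pool.Agent.Lib.RM

open MeasureTheory ProbabilityTheory Set Filter Topology Complex
open scoped ComplexConjugate

theorem expM (hA : OneA) (hF : ProdF) : ExpM := by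
  intro k n _
  have h1 : ∀ z : ℕ → ℂ, ENNReal.ofReal (‖EX (Finset.Icc 1 n) z‖ ^ (2 * k)) =
      ∏ j ∈ Finset.Icc 1 n, ENNReal.ofReal (Real.exp (2 * (k / Real.sqrt j) * (z j).re)) := by
    intro z
    rw [← ENNReal.ofReal_prod_of_nonneg (fun j _ => (Real.exp_pos _).le), ← Real.exp_sum]
    congr 1
    unfold EX
    rw [Complex.norm_exp, ← Real.exp_mul, Complex.re_sum, Finset.sum_mul]
    congr 1
    refine Finset.sum_congr rfl fun j _ => ?_
    rw [Complex.div_ofReal_re]
    ring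
  unfold MM
  rw [lintegral_congr h1]
  have h2 := hF.2 (Finset.Icc 1 n)
    (fun j x => ENNReal.ofReal (Real.exp (2 * (k / Real.sqrt j) * x.re))) (fun j => by fun_prop)
  rw [h2]
  have h3 : ∀ j ∈ Finset.Icc 1 n, ∫⁻ x : ℂ, ENNReal.ofReal (Real.exp (2 * (k / Real.sqrt j) * x.re)) ∂sg1 =
      ENNReal.ofReal (Real.exp (k ^ 2 * ((1 : ℝ) / j))) := by
    intro j hj
    rw [hA.2.2 (k / Real.sqrt j)]
    congr 2
    rw [div_pow, Real.sq_sqrt (Nat.cast_nonneg j)]
    ring
  rw [Finset.prod_congr rfl h3, ← ENNReal.ofReal_prod_of_nonneg (fun j _ => (Real.exp_pos _).le), ← Real.exp_sum,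
    Finset.mul_sum]

end Pool.Agent.Lib.RM
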