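import Mathlib
import Pool.Agent.Lib.MP_f9aece_nt_rm.StmtsG

/-!
The constants of the moments of the partial sums of zeta, module B5.

`y_i = y0 / 2^i`, `R_i = SG u (Ioc ⌊y_i⌋₊ L) L`, `E_i = EX (Icc 1 ⌊y_i⌋₊)`, `J` the first index with `y_J < 1` (so `⌊y_J⌋₊ = 0`, `E_J = 1`, `R_J = SG u (Icc 1 L) L`
as `Ioc 0 L = Icc 1 L`), `y_i ≥ 1` for `i < J`. `D_i = R_(i+1) - EX (Ioc ⌊y_(i+1)⌋₊ ⌊y_i⌋₊) R_i` (note `y_i / 2 = y_(i+1)`): `LevBd` gives
`MM k D_i ≤ (C1 (L/y_i)^(q-1))^k`. `E_(i+1) EX (Ioc ⌊y_(i+1)⌋₊ ⌊y_i⌋₊) = E_i`, so `S - E_0 R_0 = ∑_(i < J) E_(i+1) D_i` (telescoping). Independence (`IndL`, `D_i` depends on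
the coordinates `> ⌊y_(i+1)⌋₊`, `dependsOn_SG`, `dependsOn_EX`): `MM k (E_(i+1) D_i) = MM k E_(i+1) MM k D_i`, `ExpM` and `H_n ≤ 1 + log n`:
`MM k E_(i+1) ≤ e^(k^2) y_i^(k^2)`. With `δ = k (k - q + 1) > 0`: `MM k (E_(i+1) D_i) ≤ e^(k^2) C1^k L^(k^2) (y_i/L)^δ = e^(k^2) C1^k L^(k^2) (y0/L)^δ 2^(-iδ)`.
`PowS` with `p = 2k`, `η = δ/2` and the geometric series.
-/

set_option autoImplicit false

namespace Pool.Agent.Lib.RM

open MeasureTheory ProbabilityTheory Set Filter Topology Complex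
open scoped ComplexConjugate

private lemma EX_Ioc_mul {a b : ℕ} (h : a ≤ b) (z : ℕ → ℂ) :
    EX (Finset.Ioc 0 a) z * EX (Finset.Ioc a b) z = EX (Finset.Ioc 0 b) z := by
  unfold EX
  rw [← Complex.exp_add, Finset.sum_Ioc_consecutive _ (Nat.zero_le a) h]

private lemma Icc_one (n : ℕ) : Finset.Icc 1 n = Finset.Ioc 0 n := by
  ext j
  rw [Finset.mem_Icc, Finset.mem_Ioc]
  omega

private lemma MM_mul (hI : IndL) {k : ℝ} (hk : 0 < k) {S T : Finset ℕ} (hST : Disjoint S T)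
    {F G : (ℕ → ℂ) → ℂ} (hF : Continuous F) (hG : Continuous G) (hFS : DependsOn F (S : Set ℕ))
    (hGT : DependsOn G (T : Set ℕ)) : MM k (fun z => F z * G z) = MM k F * MM k G := by
  unfold MM
  have h3 : Continuous fun x : ℂ => ENNReal.ofReal (‖x‖ ^ (2 * k)) :=
    ENNReal.continuous_ofReal.comp (continuous_norm.rpow_const fun _ => Or.inr (by positivity))
  rw [← hI S T (fun z => ENNReal.ofReal (‖F z‖ ^ (2 * k))) (fun z => ENNReal.ofReal (‖G z‖ ^ (2 * k)))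
    hST (h3.comp hF).measurable (h3.comp hG).measurable ?_ ?_]
  · refine lintegral_congr fun z => ?_
    rw [norm_mul, Real.mul_rpow (norm_nonneg _) (norm_nonneg _), ENNReal.ofReal_mul (by positivity)]
  · intro x y hxy
    simp only [hFS hxy]
  · intro x y hxy
    simp only [hGT hxy]

private lemma MM_EX_le (hE : ExpM) {k : ℝ} (hk : 0 < k) {n : ℕ} {y : ℝ} (hy : 1 ≤ y)
    (hn : (n : ℝ) ≤ y) : MM k (EX (Finset.Icc 1 n))
      ≤ ENNReal.ofReal (Real.exp (k ^ 2) * y ^ (k ^ 2)) := by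
  rw [hE k n hk]
  refine ENNReal.ofReal_le_ofReal ?_
  have h1 : ∑ j ∈ Finset.Icc 1 n, (1 : ℝ) / j ≤ 1 + Real.log y := by
    have h2 : n ≤ ⌊y⌋₊ := Nat.le_floor hn
    have h3 := harmonic_floor_le_one_add_log y hy
    rw [harmonic_eq_sum_Icc] at h3
    push_cast at h3
    refine le_trans ?_ h3
    simp only [one_div]
    exact Finset.sum_le_sum_of_subset_of_nonneg (Finset.Icc_subset_Icc_right h2)
      fun _ _ _ => by positivity
  have h2 : Real.exp (k ^ 2) * y ^ (k ^ 2) = Real.exp (k ^ 2 * (1 + Real.log y)) := by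
    rw [Real.rpow_def_of_pos (by linarith), ← Real.exp_add]
    congr 1
    ring
  rw [h2]
  exact Real.exp_le_exp.2 (mul_le_mul_of_nonneg_left h1 (by positivity))

theorem tel (hL : LevBd) (hE : ExpM) (hI : IndL) (hP : PowS) : Tel := by
  intro q k hq hk hqk hkq
  set δ : ℝ := k * (k - q + 1) with hδ
  have hδ0 : 0 < δ := mul_pos hk (by linarith)
  obtain ⟨C, hC1, hC⟩ := hP (2 * k) (δ / 2) (by positivity) (by positivity)
  set r : ℝ := (2 : ℝ) ^ (-(δ / 2)) with hr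
  have hr0 : 0 < r := by positivity
  have hr1 : r < 1 := Real.rpow_lt_one_of_one_lt_of_neg (by norm_num) (by linarith)
  have hgeo : ∀ J : ℕ, ∑ i ∈ Finset.range J, r ^ i ≤ (1 - r)⁻¹ := fun J => by
    rw [← tsum_geometric_of_lt_one hr0.le hr1]
    exact (summable_geometric_of_lt_one hr0.le hr1).sum_le_tsum _ fun _ _ => by positivity
  have hinv : 1 ≤ (1 - r)⁻¹ := by
    rw [one_le_inv₀ (by linarith)]
    linarith
  have hexp : 1 ≤ Real.exp (k ^ 2) := Real.one_le_exp (by positivity)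
  refine ⟨C * Real.exp (k ^ 2) * (1 - r)⁻¹, ?_, ?_⟩
  · exact one_le_mul_of_one_le_of_one_le (one_le_mul_of_one_le_of_one_le hC1 hexp) hinv
  intro u L y0 C1 hu hy0 hyL hC1' hLF
  have hL0 : (0 : ℝ) < L := by linarith
  obtain ⟨J0, hJ0⟩ : ∃ i : ℕ, y0 / 2 ^ i < 1 := by
    obtain ⟨i, hi⟩ := pow_unbounded_of_one_lt y0 (one_lt_two : (1 : ℝ) < 2)
    exact ⟨i, by rwa [div_lt_one (by positivity)]⟩
  classical
  have hex : ∃ i : ℕ, y0 / 2 ^ i < 1 := ⟨J0, hJ0⟩
  set J := Nat.find hex with hJ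
  have hJ1 : y0 / 2 ^ J < 1 := Nat.find_spec hex
  have hJ2 : ∀ i < J, 1 ≤ y0 / 2 ^ i := fun i hi => not_lt.1 (Nat.find_min hex hi)
  let n : ℕ → ℕ := fun i => ⌊y0 / 2 ^ i⌋₊
  have hn1 : ∀ i, n (i + 1) ≤ n i := by
    intro i
    refine Nat.floor_le_floor ?_
    rw [pow_succ]
    exact div_le_div_of_nonneg_left (by linarith) (by positivity)
      (by nlinarith [pow_pos (zero_lt_two (α := ℝ)) i])
  have hnJ : n J = 0 := Nat.floor_eq_zero.2 hJ1
  let Dl : ℕ → (ℕ → ℂ) → ℂ := fun i z => SG u (Finset.Ioc (n (i + 1)) L) L z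
    - EX (Finset.Ioc (n (i + 1)) (n i)) z * SG u (Finset.Ioc (n i) L) L z
  let G : ℕ → (ℕ → ℂ) → ℂ := fun i z => EX (Finset.Icc 1 (n (i + 1))) z * Dl i z
  have hDlc : ∀ i, Continuous (Dl i) := fun i =>
    (continuous_SG _ _ _).sub ((continuous_EX _).mul (continuous_SG _ _ _))
  have hGc : ∀ i, Continuous (G i) := fun i => (continuous_EX _).mul (hDlc i)
  -- telescoping
  have htel : ∀ z, SG u (Finset.Icc 1 L) L z
      - EX (Finset.Icc 1 ⌊y0⌋₊) z * SG u (Finset.Ioc ⌊y0⌋₊ L) L z = ∑ i ∈ Finset.range J, G i z := by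
    intro z
    have h1 : ∀ i, G i z = EX (Finset.Ioc 0 (n (i + 1))) z * SG u (Finset.Ioc (n (i + 1)) L) L z -
        EX (Finset.Ioc 0 (n i)) z * SG u (Finset.Ioc (n i) L) L z := by
      intro i
      show EX (Finset.Icc 1 (n (i + 1))) z * (SG u (Finset.Ioc (n (i + 1)) L) L z
        - EX (Finset.Ioc (n (i + 1)) (n i)) z * SG u (Finset.Ioc (n i) L) L z) = _
      rw [Icc_one, ← EX_Ioc_mul (hn1 i) z]
      ring
    rw [Finset.sum_congr rfl fun i _ => h1 i, Finset.sum_range_sub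
      (fun i => EX (Finset.Ioc 0 (n i)) z * SG u (Finset.Ioc (n i) L) L z) J, hnJ]
    have h2 : EX (Finset.Ioc 0 0) z = 1 := by simp [EX]
    have h3 : n 0 = ⌊y0⌋₊ := by
      show ⌊y0 / 2 ^ 0⌋₊ = _
      rw [pow_zero, div_one]
    rw [h2, h3, one_mul, Icc_one, Icc_one]
  -- one level
  have hlev : ∀ i ∈ Finset.range J, MM k (G i) ≤ ENNReal.ofReal (Real.exp (k ^ 2) * C1 ^ k *
      ((L : ℝ) ^ (k ^ 2) * (y0 / L) ^ δ) * (2 : ℝ) ^ (-(δ * i))) := by
    intro i hi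
    rw [Finset.mem_range] at hi
    have hy1 := hJ2 i hi
    have hyle : y0 / 2 ^ i ≤ y0 := div_le_self (by linarith) (one_le_pow₀ (by norm_num))
    have h1 : MM k (G i) = MM k (EX (Finset.Icc 1 (n (i + 1)))) * MM k (Dl i) := by
      refine MM_mul hI hk (S := Finset.Icc 1 (n (i + 1))) (T := Finset.Ioc (n (i + 1)) L) ?_
        (continuous_EX _) (hDlc i) (dependsOn_EX _) ?_
      · rw [Finset.disjoint_left]
        intro j h1 h2
        rw [Finset.mem_Icc] at h1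
        rw [Finset.mem_Ioc] at h2
        omega
      · intro x y hxy
        have hsub1 : Finset.Ioc (n (i + 1)) (n i) ⊆ Finset.Ioc (n (i + 1)) L := by
          refine Finset.Ioc_subset_Ioc_right ?_
          exact Nat.floor_le_of_le (hyle.trans hyL)
        have hsub2 : Finset.Ioc (n i) L ⊆ Finset.Ioc (n (i + 1)) L :=
          Finset.Ioc_subset_Ioc_left (hn1 i)
        show SG u (Finset.Ioc (n (i + 1)) L) L x
          - EX (Finset.Ioc (n (i + 1)) (n i)) x * SG u (Finset.Ioc (n i) L) L x =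
          SG u (Finset.Ioc (n (i + 1)) L) L y
          - EX (Finset.Ioc (n (i + 1)) (n i)) y * SG u (Finset.Ioc (n i) L) L y
        rw [dependsOn_SG u _ L hxy,
          dependsOn_EX (Finset.Ioc (n (i + 1)) (n i)) (fun j hj => hxy j (hsub1 hj)),
          dependsOn_SG u (Finset.Ioc (n i) L) L (fun j hj => hxy j (hsub2 hj))]
    have h2 : MM k (EX (Finset.Icc 1 (n (i + 1)))) ≤
        ENNReal.ofReal (Real.exp (k ^ 2) * (y0 / 2 ^ i) ^ (k ^ 2)) := by
      refine MM_EX_le hE hk hy1 ?_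
      calc ((n (i + 1) : ℕ) : ℝ) ≤ (n i : ℝ) := by exact_mod_cast hn1 i
        _ ≤ y0 / 2 ^ i := Nat.floor_le (by linarith)
    have h3 : MM k (Dl i) ≤ ENNReal.ofReal ((C1 * ((L : ℝ) / (y0 / 2 ^ i)) ^ (q - 1)) ^ k) := by
      have h4 := hL q k hq hk hkq u L (y0 / 2 ^ i) (C1 * ((L : ℝ) / (y0 / 2 ^ i)) ^ (q - 1)) hu hy1
        (hyle.trans hyL) fun M => hLF M _ hy1 hyle
      have h5 : ⌊y0 / 2 ^ i / 2⌋₊ = n (i + 1) := by
        show _ = ⌊y0 / 2 ^ (i + 1)⌋₊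
        rw [pow_succ, div_div]
      rw [h5] at h4
      exact h4
    rw [h1]
    refine (mul_le_mul' h2 h3).trans ?_
    rw [← ENNReal.ofReal_mul (by positivity)]
    refine ENNReal.ofReal_le_ofReal (le_of_eq ?_)
    set y : ℝ := y0 / 2 ^ i with hy
    have hy0' : 0 < y := by linarith
    have h6 : (C1 * ((L : ℝ) / y) ^ (q - 1)) ^ k = C1 ^ k * ((L : ℝ) / y) ^ (((q : ℝ) - 1) * k) := by
      rw [Real.mul_rpow hC1' (by positivity), ← Real.rpow_natCast, ← Real.rpow_mul (by positivity),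
        Nat.cast_sub hq, Nat.cast_one]
    have h7 : (y0 / L) ^ δ * (2 : ℝ) ^ (-(δ * i)) = (y / L) ^ δ := by
      have h8 : y / L = (y0 / L) * ((2 : ℝ) ^ i)⁻¹ := by rw [hy]; field_simp
      have h9 : (2 : ℝ) ^ (-(δ * i)) = (((2 : ℝ) ^ i)⁻¹) ^ δ := by
        rw [Real.inv_rpow (by positivity), ← Real.rpow_natCast, ← Real.rpow_mul (by norm_num),
          ← Real.rpow_neg (by norm_num)]
        congr 1
        ring
      rw [h8, Real.mul_rpow (by positivity) (by positivity), h9]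
    have h10 : y ^ (k ^ 2) * ((L : ℝ) / y) ^ (((q : ℝ) - 1) * k) =
        (L : ℝ) ^ (k ^ 2) * (y / L) ^ δ := by
      rw [Real.div_rpow hL0.le hy0'.le, Real.div_rpow hy0'.le hL0.le]
      have h11 : y ^ (k ^ 2) = y ^ δ * y ^ (((q : ℝ) - 1) * k) := by
        rw [← Real.rpow_add hy0']
        congr 1
        rw [hδ]; ring
      have h12 : (L : ℝ) ^ (k ^ 2) = (L : ℝ) ^ δ * (L : ℝ) ^ (((q : ℝ) - 1) * k) := by
        rw [← Real.rpow_add hL0]
        congr 1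
        rw [hδ]; ring
      rw [h11, h12]
      field_simp
    rw [h6]
    calc Real.exp (k ^ 2) * y ^ (k ^ 2) * (C1 ^ k * ((L : ℝ) / y) ^ (((q : ℝ) - 1) * k))
        = Real.exp (k ^ 2) * C1 ^ k * (y ^ (k ^ 2) * ((L : ℝ) / y) ^ (((q : ℝ) - 1) * k)) := by ring
      _ = Real.exp (k ^ 2) * C1 ^ k * ((L : ℝ) ^ (k ^ 2) * (y / L) ^ δ) := by rw [h10]
      _ = Real.exp (k ^ 2) * C1 ^ k * ((L : ℝ) ^ (k ^ 2) * ((y0 / L) ^ δ * (2 : ℝ) ^ (-(δ * i)))) := by
          rw [h7]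
      _ = _ := by ring
  -- the sum
  have hmeas : ∀ i, Measurable fun z => ENNReal.ofReal (‖G i z‖ ^ (2 * k)) := by
    intro i
    have h1 : Continuous fun z => ‖G i z‖ ^ (2 * k) :=
      (hGc i).norm.rpow_const fun _ => Or.inr (by positivity)
    exact h1.measurable.ennreal_ofReal
  set B : ℝ := Real.exp (k ^ 2) * C1 ^ k * ((L : ℝ) ^ (k ^ 2) * (y0 / L) ^ δ) with hB
  have hB0 : 0 ≤ B := by positivity
  calc MM k (fun z => SG u (Finset.Icc 1 L) L z
      - EX (Finset.Icc 1 ⌊y0⌋₊) z * SG u (Finset.Ioc ⌊y0⌋₊ L) L z)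
      = ∫⁻ z, ENNReal.ofReal (‖∑ i ∈ Finset.range J, G i z‖ ^ (2 * k)) ∂Gm := by
        unfold MM
        refine lintegral_congr fun z => ?_
        rw [← htel z]
    _ ≤ ∫⁻ z, ∑ i ∈ Finset.range J, ENNReal.ofReal (C * (2 : ℝ) ^ (δ / 2 * i)) *
          ENNReal.ofReal (‖G i z‖ ^ (2 * k)) ∂Gm := by
        refine lintegral_mono fun z => ?_
        refine (ENNReal.ofReal_le_ofReal (hC J fun i => G i z)).trans (le_of_eq ?_)
        rw [Finset.mul_sum, ENNReal.ofReal_sum_of_nonneg fun i _ => by positivity]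
        refine Finset.sum_congr rfl fun i _ => ?_
        rw [← ENNReal.ofReal_mul (by positivity), mul_assoc]
    _ = ∑ i ∈ Finset.range J, ENNReal.ofReal (C * (2 : ℝ) ^ (δ / 2 * i)) * MM k (G i) := by
        rw [lintegral_finsetSum _ fun i _ => (hmeas i).const_mul _]
        refine Finset.sum_congr rfl fun i _ => ?_
        rw [lintegral_const_mul _ (hmeas i)]
        rfl
    _ ≤ ∑ i ∈ Finset.range J, ENNReal.ofReal (C * (2 : ℝ) ^ (δ / 2 * i)) *
          ENNReal.ofReal (B * (2 : ℝ) ^ (-(δ * i))) :=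
        Finset.sum_le_sum fun i hi => mul_le_mul' le_rfl (hlev i hi)
    _ = ENNReal.ofReal (∑ i ∈ Finset.range J, C * B * r ^ i) := by
        rw [ENNReal.ofReal_sum_of_nonneg fun i _ => by positivity]
        refine Finset.sum_congr rfl fun i _ => ?_
        rw [← ENNReal.ofReal_mul (by positivity)]
        congr 1
        have h1 : r ^ i = (2 : ℝ) ^ (δ / 2 * i) * (2 : ℝ) ^ (-(δ * i)) := by
          rw [hr, ← Real.rpow_natCast, ← Real.rpow_mul (by norm_num),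
            ← Real.rpow_add (by norm_num)]
          congr 1
          ring
        rw [h1]
        ring
    _ ≤ ENNReal.ofReal (C * Real.exp (k ^ 2) * (1 - r)⁻¹ * C1 ^ k *
          ((L : ℝ) ^ (k ^ 2) * (y0 / L) ^ δ)) := by
        refine ENNReal.ofReal_le_ofReal ?_
        rw [← Finset.mul_sum]
        have hCB : 0 ≤ C * B := by positivity
        refine (mul_le_mul_of_nonneg_left (hgeo J) hCB).trans (le_of_eq ?_)
        rw [hB]
        ring

end Pool.Agent.Lib.RM
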