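import Mathlib
import Pool.Agent.Lib.MP_f9aece_nt_rm.StmtsG

/-!
The constants of the moments of the partial sums of zeta, module B6.

`y0 = τ L`, `L0 = ⌈1/τ⌉` so that `1 ≤ τL`. `EdgeLev` gives the hypothesis of `Tel`: `MM k (S - E R) ≤ C L^(k^2) τ^δ`, `δ = k (k - q + 1)`,
`E = EX (Icc 1 ⌊y0⌋₊)`, `R = SG u (Ioc ⌊y0⌋₊ L) L`, `u = ed τ L`. Head: `MM k (E R) = MM k E MM k R` (`IndL`, `dependsOn_SG`, `dependsOn_EX`, continuity),
`MM k E ≤ e^(k^2) (τL)^(k^2)` (`ExpM`, `H_n ≤ 1 + log n`), `MM k R ≤ (∑_β ‖u (dg β)‖^2 ww q β)^k` (`Hyp`) with the sum over `β` of degree in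
`((1-τ)L, L]` (`rp τ x = 0` for `x ≤ 1 - τ`, `rp ≤ 1`), entries `> τL`: `≤ C (1 + (τL + 1) L^(q-1)/(τL)^q) ≤ 3 C τ^(1-q)` (`WSum`). Product:
`C' (τL)^(k^2) τ^(-(q-1) k) = C' τ^δ L^(k^2)`. `‖a + b‖^(2k) ≤ 2^(2k) (‖a‖^(2k) + ‖b‖^(2k))`.
-/

set_option autoImplicit false

namespace Pool.Agent.Lib.RM

open MeasureTheory ProbabilityTheory Set Filter Topology Complex
open scoped ComplexConjugate

private lemma harm_le (n : ℕ) :
    ∑ j ∈ Finset.Icc 1 n, (1 : ℝ) / j ≤ 1 + Real.log n := by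
  have h := harmonic_le_one_add_log n
  rw [harmonic_eq_sum_Icc] at h
  push_cast at h
  refine le_trans (le_of_eq ?_) h
  exact Finset.sum_congr rfl fun j _ => by rw [one_div]

private lemma pow_add_le (k : ℝ) (hk : 0 < k) (a b : ℂ) :
    ‖a + b‖ ^ (2 * k) ≤ 2 ^ (2 * k) * (‖a‖ ^ (2 * k) + ‖b‖ ^ (2 * k)) := by
  have h1 : ‖a + b‖ ≤ 2 * max ‖a‖ ‖b‖ := by
    refine (norm_add_le a b).trans ?_
    have := le_max_left ‖a‖ ‖b‖
    have := le_max_right ‖a‖ ‖b‖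
    linarith
  have hk2 : 0 ≤ 2 * k := by linarith
  have hm : 0 ≤ max ‖a‖ ‖b‖ := le_max_of_le_left (norm_nonneg a)
  calc ‖a + b‖ ^ (2 * k) ≤ (2 * max ‖a‖ ‖b‖) ^ (2 * k) :=
        Real.rpow_le_rpow (norm_nonneg _) h1 hk2
    _ = 2 ^ (2 * k) * (max ‖a‖ ‖b‖) ^ (2 * k) := Real.mul_rpow (by norm_num) hm
    _ ≤ 2 ^ (2 * k) * (‖a‖ ^ (2 * k) + ‖b‖ ^ (2 * k)) := by
        refine mul_le_mul_of_nonneg_left ?_ (by positivity)
        have ha := Real.rpow_nonneg (norm_nonneg a) (2 * k)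
        have hb := Real.rpow_nonneg (norm_nonneg b) (2 * k)
        rcases le_total ‖a‖ ‖b‖ with h | h
        · rw [max_eq_right h]; linarith
        · rw [max_eq_left h]; linarith

private lemma MM_add_le (k : ℝ) (hk : 0 < k) (F G : (ℕ → ℂ) → ℂ) (hF : Continuous F) :
    MM k (fun z => F z + G z) ≤ ENNReal.ofReal (2 ^ (2 * k)) * (MM k F + MM k G) := by
  unfold MM
  have hmF : Measurable fun z => ENNReal.ofReal (‖F z‖ ^ (2 * k)) := by
    refine ENNReal.measurable_ofReal.comp ?_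
    exact (hF.measurable.norm).pow_const _
  rw [← lintegral_add_left hmF, ← lintegral_const_mul' _ _ ENNReal.ofReal_ne_top]
  refine lintegral_mono fun z => ?_
  have h := pow_add_le k hk (F z) (G z)
  have ha := Real.rpow_nonneg (norm_nonneg (F z)) (2 * k)
  have hb := Real.rpow_nonneg (norm_nonneg (G z)) (2 * k)
  rw [← ENNReal.ofReal_add ha hb, ← ENNReal.ofReal_mul (by positivity)]
  exact ENNReal.ofReal_le_ofReal h

private lemma MM_mul (hI : IndL) (k : ℝ) (S T : Finset ℕ) (hST : Disjoint S T)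
    (F G : (ℕ → ℂ) → ℂ) (hF : Continuous F) (hG : Continuous G) (dF : DependsOn F (S : Set ℕ))
    (dG : DependsOn G (T : Set ℕ)) : MM k (fun z => F z * G z) = MM k F * MM k G := by
  unfold MM
  have hmF : Measurable fun z => ENNReal.ofReal (‖F z‖ ^ (2 * k)) :=
    ENNReal.measurable_ofReal.comp ((hF.measurable.norm).pow_const _)
  have hmG : Measurable fun z => ENNReal.ofReal (‖G z‖ ^ (2 * k)) :=
    ENNReal.measurable_ofReal.comp ((hG.measurable.norm).pow_const _)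
  have hdF : DependsOn (fun z => ENNReal.ofReal (‖F z‖ ^ (2 * k))) (S : Set ℕ) := by
    intro x y hxy
    simp only []
    rw [dF hxy]
  have hdG : DependsOn (fun z => ENNReal.ofReal (‖G z‖ ^ (2 * k))) (T : Set ℕ) := by
    intro x y hxy
    simp only []
    rw [dG hxy]
  rw [← hI S T _ _ hST hmF hmG hdF hdG]
  refine lintegral_congr fun z => ?_
  rw [norm_mul, Real.mul_rpow (norm_nonneg _) (norm_nonneg _),
    ENNReal.ofReal_mul (Real.rpow_nonneg (norm_nonneg _) _)]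

private lemma rp_nonneg (τ x : ℝ) : 0 ≤ rp τ x := le_max_left _ _

private lemma rp_le_one (τ x : ℝ) : rp τ x ≤ 1 :=
  max_le zero_le_one (min_le_left _ _)

private lemma rp_zero (τ x : ℝ) (hτ : 0 < τ) (hx : x ≤ 1 - τ) : rp τ x = 0 := by
  unfold rp
  have h : (x - (1 - τ)) / τ ≤ 0 := div_nonpos_of_nonpos_of_nonneg (by linarith) hτ.le
  exact max_eq_left ((min_le_right _ _).trans h)

private lemma ed_sq (τ : ℝ) (L n : ℕ) (hτ : 0 < τ) (hL : (0 : ℝ) < L) :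
    ‖ed τ L n‖ ^ 2 ≤ if (1 - τ) * L < n ∧ (n : ℝ) ≤ L then (1 : ℝ) else 0 := by
  unfold ed
  by_cases hn : n ≤ L
  · rw [if_pos hn, Complex.norm_real, Real.norm_eq_abs, abs_of_nonneg (rp_nonneg _ _)]
    have hn' : (n : ℝ) ≤ L := by exact_mod_cast hn
    by_cases hx : (1 - τ) * L < n
    · rw [if_pos ⟨hx, hn'⟩]
      exact pow_le_one₀ (rp_nonneg _ _) (rp_le_one _ _)
    · rw [if_neg (fun h => hx h.1)]
      rw [rp_zero τ _ hτ]
      · norm_num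
      · rw [div_le_iff₀ hL]
        exact not_lt.1 hx
  · rw [if_neg hn]
    have hn' : ¬ ((n : ℝ) ≤ L) := by
      intro h
      exact hn (by exact_mod_cast h)
    rw [if_neg (fun h => hn' h.2)]
    simp

private lemma head_sum (q : ℕ) (hq : 1 ≤ q) (CW : ℝ) (hCW1 : 1 ≤ CW)
    (hCW : ∀ y x x' : ℝ, 1 ≤ y → x ≤ x' → 0 ≤ x' →
      ∀ B : Finset (ℕ →₀ ℕ), (∀ α ∈ B, (∀ j ∈ α.support, y < j) ∧ x < dg α ∧ (dg α : ℝ) ≤ x') →
      ∑ α ∈ B, ww q α ≤ CW * (1 + (x' - x + 1) * x' ^ (q - 1) / y ^ q))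
    (τ : ℝ) (hτ : 0 < τ) (hτ1 : τ ≤ 1) (L : ℕ) (hL : 1 ≤ τ * L) :
    ∑ α ∈ bx (Finset.Ioc ⌊τ * L⌋₊ L) (L + 1), ‖ed τ L (dg α)‖ ^ 2 * ww q α
      ≤ 3 * CW * (1 / τ) ^ (q - 1) := by
  have hL0 : (0 : ℝ) < L := by
    by_contra h
    have : (L : ℝ) ≤ 0 := not_lt.1 h
    nlinarith
  classical
  have h1 : ∑ α ∈ bx (Finset.Ioc ⌊τ * L⌋₊ L) (L + 1), ‖ed τ L (dg α)‖ ^ 2 * ww q α
      ≤ ∑ α ∈ (bx (Finset.Ioc ⌊τ * L⌋₊ L) (L + 1)).filter
          (fun α => (1 - τ) * L < (dg α : ℝ) ∧ (dg α : ℝ) ≤ L), ww q α := by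
    rw [Finset.sum_filter]
    refine Finset.sum_le_sum fun α _ => ?_
    have h := ed_sq τ L (dg α) hτ hL0
    have hw : 0 ≤ ww q α := ww_nonneg (Nat.cast_nonneg q) α
    split_ifs at h ⊢ with hc
    · calc ‖ed τ L (dg α)‖ ^ 2 * ww q α ≤ 1 * ww q α := mul_le_mul_of_nonneg_right h hw
        _ = ww q α := one_mul _
    · calc ‖ed τ L (dg α)‖ ^ 2 * ww q α ≤ 0 * ww q α := mul_le_mul_of_nonneg_right h hw
        _ = 0 := zero_mul _
  refine h1.trans ?_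
  have h2 := hCW (τ * L) ((1 - τ) * L) L hL (by nlinarith) hL0.le
    ((bx (Finset.Ioc ⌊τ * L⌋₊ L) (L + 1)).filter
          (fun α => (1 - τ) * L < (dg α : ℝ) ∧ (dg α : ℝ) ≤ L)) (by
      intro α hα
      obtain ⟨hα1, hα2⟩ := Finset.mem_filter.1 hα
      refine ⟨fun j hj => ?_, hα2⟩
      have hj1 := (mem_bx.1 hα1).1 hj
      rw [Finset.mem_Ioc] at hj1
      exact Nat.lt_of_floor_lt hj1.1)
  refine h2.trans ?_
  have h3 : (L : ℝ) - (1 - τ) * L + 1 ≤ 2 * (τ * L) := by linarith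
  have hLq : (0 : ℝ) ≤ (L : ℝ) ^ (q - 1) := by positivity
  have hyq : (0 : ℝ) < (τ * L) ^ q := by positivity
  have h4 : ((L : ℝ) - (1 - τ) * L + 1) * (L : ℝ) ^ (q - 1) / (τ * L) ^ q
      ≤ 2 * (1 / τ) ^ (q - 1) := by
    have h5 : ((L : ℝ) - (1 - τ) * L + 1) * (L : ℝ) ^ (q - 1) / (τ * L) ^ q
        ≤ (2 * (τ * L)) * (L : ℝ) ^ (q - 1) / (τ * L) ^ q := by
      refine div_le_div_of_nonneg_right ?_ hyq.le
      exact mul_le_mul_of_nonneg_right h3 hLq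
    refine h5.trans (le_of_eq ?_)
    obtain ⟨r, rfl⟩ : ∃ r, q = r + 1 := ⟨q - 1, by omega⟩
    have hτ0 : τ ≠ 0 := hτ.ne'
    have hL0' : (L : ℝ) ≠ 0 := hL0.ne'
    simp only [Nat.add_sub_cancel]
    rw [mul_pow, one_div, inv_pow]
    field_simp
    ring
  have h6 : (1 : ℝ) ≤ (1 / τ) ^ (q - 1) := one_le_pow₀ (by
    rw [le_div_iff₀ hτ]; linarith)
  have hCW0 : 0 ≤ CW := by linarith
  calc CW * (1 + ((L : ℝ) - (1 - τ) * L + 1) * (L : ℝ) ^ (q - 1) / (τ * L) ^ q)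
      ≤ CW * ((1 / τ) ^ (q - 1) + 2 * (1 / τ) ^ (q - 1)) :=
        mul_le_mul_of_nonneg_left (by linarith) hCW0
    _ = 3 * CW * (1 / τ) ^ (q - 1) := by ring

theorem gTail (hT : Tel) (h3 : EdgeLev) (h4 : ExpM) (hI : IndL) (hH : Hyp) (h8 : WSum) : GTail := by
  intro q k hq hk hqk hkq
  obtain ⟨CT, hCT1, hCT⟩ := hT q k hq hk hqk hkq
  obtain ⟨CE, hCE1, hCE⟩ := h3 q hq
  obtain ⟨CW, hCW1, hCW⟩ := h8 q hq
  set C1 : ℝ := CT * CE ^ k with hC1
  set C2 : ℝ := Real.exp (k ^ 2) * (3 * CW) ^ k with hC2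
  have hC1' : 1 ≤ C1 := by
    have : (1 : ℝ) ≤ CE ^ k := Real.one_le_rpow hCE1 hk.le
    nlinarith
  have hC2' : 0 ≤ C2 := by positivity
  have h2k : (1 : ℝ) ≤ 2 ^ (2 * k) := Real.one_le_rpow (by norm_num) (by linarith)
  refine ⟨2 ^ (2 * k) * (C1 + C2), by nlinarith, fun τ hτ hτ1 => ⟨⌈1 / τ⌉₊, fun L hL => ?_⟩⟩
  have hLτ : 1 ≤ τ * L := by
    have h := (Nat.ceil_le.1 hL)
    rw [div_le_iff₀ hτ] at h
    linarith
  have hL0 : (0 : ℝ) < L := by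
    by_contra h
    have : (L : ℝ) ≤ 0 := not_lt.1 h
    nlinarith
  have hyL : τ * L ≤ L := by nlinarith
  set u : ℕ → ℂ := ed τ L with hu
  set E : (ℕ → ℂ) → ℂ := EX (Finset.Icc 1 ⌊τ * L⌋₊) with hE
  set R : (ℕ → ℂ) → ℂ := SG u (Finset.Ioc ⌊τ * L⌋₊ L) L with hR
  have hTel := hCT u L (τ * L) CE (fun n hn => by
      rw [hu]; unfold ed; rw [if_neg (not_le.2 hn)]) hLτ hyL (by linarith)
      (fun M y hy hy' => hCE τ L M y hτ hτ1 hy hy')
  have hτL : τ * L / L = τ := by field_simp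
  rw [hτL] at hTel
  have hcE : Continuous E := continuous_EX _
  have hcR : Continuous R := continuous_SG _ _ _
  have hprod : MM k (fun z => E z * R z) = MM k E * MM k R := by
    refine MM_mul hI k (Finset.Icc 1 ⌊τ * L⌋₊) (Finset.Ioc ⌊τ * L⌋₊ L) ?_ E R hcE hcR
      (dependsOn_EX _) (dependsOn_SG _ _ _)
    rw [Finset.disjoint_left]
    intro a ha hb
    rw [Finset.mem_Icc] at ha
    rw [Finset.mem_Ioc] at hb
    omega
  have hn1 : 1 ≤ ⌊τ * L⌋₊ := Nat.one_le_floor_iff _ |>.2 hLτ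
  have hME : MM k E ≤ ENNReal.ofReal (Real.exp (k ^ 2) * (τ * L) ^ (k ^ 2)) := by
    rw [hE, h4 k _ hk]
    refine ENNReal.ofReal_le_ofReal ?_
    have h5 := harm_le ⌊τ * L⌋₊
    have hn0 : (0 : ℝ) < (⌊τ * L⌋₊ : ℝ) := by exact_mod_cast hn1
    have h6 : Real.log (⌊τ * L⌋₊ : ℝ) ≤ Real.log (τ * L) :=
      Real.log_le_log hn0 (Nat.floor_le (by linarith))
    have hk2 : 0 ≤ k ^ 2 := sq_nonneg k
    rw [Real.rpow_def_of_pos (by linarith), ← Real.exp_add]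
    refine Real.exp_le_exp.2 ?_
    have h7 : k ^ 2 * ∑ j ∈ Finset.Icc 1 ⌊τ * L⌋₊, (1 : ℝ) / j ≤ k ^ 2 * (1 + Real.log (τ * L)) :=
      mul_le_mul_of_nonneg_left (h5.trans (by linarith)) hk2
    linarith
  have hMR : MM k R ≤ ENNReal.ofReal ((3 * CW * (1 / τ) ^ (q - 1)) ^ k) := by
    have h5 := hH q k hq hk hkq (bx (Finset.Ioc ⌊τ * L⌋₊ L) (L + 1)) (fun α => u (dg α)) (by
      intro α hα
      by_contra h0
      have := (mem_bx.1 hα).1 (Finsupp.mem_support_iff.2 h0)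
      rw [Finset.mem_Ioc] at this
      omega)
    refine h5.trans (ENNReal.ofReal_le_ofReal ?_)
    refine Real.rpow_le_rpow ?_ ?_ hk.le
    · exact Finset.sum_nonneg fun α _ => mul_nonneg (sq_nonneg _) (ww_nonneg (Nat.cast_nonneg q) α)
    · exact head_sum q hq CW hCW1 hCW τ hτ hτ1 L hLτ
  have hhead : MM k (fun z => E z * R z)
      ≤ ENNReal.ofReal (C2 * (τ ^ (k * (k - q + 1)) * (L : ℝ) ^ (k ^ 2))) := by
    rw [hprod]
    refine (mul_le_mul' hME hMR).trans ?_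
    rw [← ENNReal.ofReal_mul (by positivity)]
    refine ENNReal.ofReal_le_ofReal (le_of_eq ?_)
    have h5 : ((3 * CW) * (1 / τ) ^ (q - 1)) ^ k = (3 * CW) ^ k * τ ^ (-(((q : ℝ) - 1) * k)) := by
      rw [Real.mul_rpow (by linarith) (by positivity)]
      congr 1
      rw [← Real.rpow_natCast, ← Real.rpow_mul (by positivity), one_div, Real.inv_rpow hτ.le,
        Real.rpow_neg hτ.le]
      congr 2
      rw [Nat.cast_sub hq]
      simp
    rw [h5, Real.mul_rpow hτ.le hL0.le, hC2]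
    have h6 : τ ^ (k * (k - q + 1)) = τ ^ (k ^ 2) * τ ^ (-(((q : ℝ) - 1) * k)) := by
      rw [← Real.rpow_add hτ]
      congr 1
      ring
    rw [h6]
    ring
  have hsum : MM k (SG u (Finset.Icc 1 L) L)
      ≤ ENNReal.ofReal (2 ^ (2 * k)) * (MM k (fun z => SG u (Finset.Icc 1 L) L z - E z * R z)
        + MM k (fun z => E z * R z)) := by
    have h5 := MM_add_le k hk (fun z => SG u (Finset.Icc 1 L) L z - E z * R z)
      (fun z => E z * R z) ((continuous_SG _ _ _).sub (hcE.mul hcR))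
    simp only [sub_add_cancel] at h5
    exact h5
  refine hsum.trans ?_
  refine (mul_le_mul' le_rfl (add_le_add hTel hhead)).trans ?_
  rw [← ENNReal.ofReal_add (by positivity) (by positivity), ← ENNReal.ofReal_mul (by positivity)]
  refine ENNReal.ofReal_le_ofReal (le_of_eq ?_)
  rw [hC1]
  ring

end Pool.Agent.Lib.RM
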