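import Mathlib
import Pool.Agent.Lib.MP_f9aece_nt_rm.StmtsG

/-!
The constants of the moments of the partial sums of zeta, module C1.

Multinomial theorem with multi-indices. Let `A r G` be the right hand side. Induction on `r`: `(r + 1) A (r+1) G = ∑_(l ∈ D) x l A r (fun α => G (α + single l 1))`
since `∑_l α_l = r + 1` on the index set and `α_l x^α/α! = x_l x^(α - δ_l)/(α - δ_l)!` (bijection between pairs `(l, α)` with `α_l ≥ 1`, `|α| = r + 1` and
pairs `(l, α')` with `|α'| = r`; an entry of `α` with `|α| = r` is `≤ r < r + 1`, so the boxes are no restriction). The same recursion for the left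
hand side: split off the first coordinate of `j` (`Fin.consEquiv`, `Fin.prod_univ_succ`, `Fin.sum_univ_succ`, `Fintype.piFinset` and `Fin.cons`).
Alternatively use `Finset.sum_pow_eq_sum_piAntidiag`-like lemmas or `Multiset`/`Sym` counting.
-/

set_option autoImplicit false

namespace Pool.Agent.Lib.RM

open MeasureTheory ProbabilityTheory Set Filter Topology Complex
open scoped ComplexConjugate

/-- the left hand side without the factor -/
private noncomputable def LL (D : Finset ℕ) (r : ℕ) (G : (ℕ →₀ ℕ) → ℂ) (x : ℕ → ℂ) : ℂ :=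
  ∑ j ∈ Fintype.piFinset (fun _ : Fin r => D),
      G (∑ i, Finsupp.single (j i) 1) * ∏ i, x (j i)

private lemma LL_succ (D : Finset ℕ) (r : ℕ) (G : (ℕ →₀ ℕ) → ℂ) (x : ℕ → ℂ) :
    LL D (r + 1) G x = ∑ l ∈ D, x l * LL D r (fun α => G (α + Finsupp.single l 1)) x := by
  unfold LL
  simp only [Finset.mul_sum]
  rw [← Finset.sum_product']
  symm
  refine Finset.sum_nbij' (fun p => (Fin.cons p.1 p.2 : Fin (r + 1) → ℕ))
    (fun j => (j 0, Fin.tail j)) ?_ ?_ ?_ ?_ ?_
  · rintro ⟨l, j⟩ hp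
    rw [Finset.mem_product] at hp
    rw [Fintype.mem_piFinset]
    intro i
    refine Fin.cases ?_ (fun i => ?_) i
    · simpa using hp.1
    · simpa using Fintype.mem_piFinset.1 hp.2 i
  · intro j hj
    rw [Fintype.mem_piFinset] at hj
    exact Finset.mem_product.2 ⟨hj 0, Fintype.mem_piFinset.2 fun i => hj i.succ⟩
  · rintro ⟨l, j⟩ _
    simp
  · intro j _
    simp
  · rintro ⟨l, j⟩ _
    simp only [Fin.prod_univ_succ, Fin.sum_univ_succ, Fin.cons_zero, Fin.cons_succ]
    rw [add_comm (Finsupp.single l 1)]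
    ring

private lemma sum_eq {D : Finset ℕ} {α : ℕ →₀ ℕ} (h : α.support ⊆ D) :
    (α.sum fun _ a => a) = ∑ l ∈ D, α l := by
  rw [Finsupp.sum_of_support_subset _ h _ (fun _ _ => rfl)]

private lemma mem_A {D : Finset ℕ} {r : ℕ} {α : ℕ →₀ ℕ} :
    α ∈ (bx D (r + 1)).filter (fun α => (α.sum fun _ a => a) = r) ↔
      α.support ⊆ D ∧ (α.sum fun _ a => a) = r := by
  rw [Finset.mem_filter, mem_bx]
  constructor
  · exact fun h => ⟨h.1.1, h.2⟩
  · rintro ⟨h1, h2⟩
    refine ⟨⟨h1, fun j hj => ?_⟩, h2⟩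
    rw [sum_eq h1] at h2
    have h3 : α j ≤ ∑ l ∈ D, α l := Finset.single_le_sum (fun _ _ => Nat.zero_le _) hj
    omega

/-- the right hand side -/
private noncomputable def RR (D : Finset ℕ) (r : ℕ) (G : (ℕ →₀ ℕ) → ℂ) (x : ℕ → ℂ) : ℂ :=
  ∑ α ∈ (bx D (r + 1)).filter (fun α => (α.sum fun _ a => a) = r),
      G α * ∏ l ∈ D, x l ^ α l / ((α l).factorial : ℂ)

private lemma prod_step {D : Finset ℕ} {l : ℕ} (hl : l ∈ D) (x : ℕ → ℂ) (α : ℕ →₀ ℕ) :
    (((α + Finsupp.single l 1 : ℕ →₀ ℕ) l : ℕ) : ℂ) *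
      ∏ j ∈ D, x j ^ (α + Finsupp.single l 1 : ℕ →₀ ℕ) j / (((α + Finsupp.single l 1 : ℕ →₀ ℕ) j).factorial : ℂ) =
      x l * ∏ j ∈ D, x j ^ α j / ((α j).factorial : ℂ) := by
  rw [← Finset.mul_prod_erase D _ hl, ← Finset.mul_prod_erase D
    (fun j => x j ^ α j / ((α j).factorial : ℂ)) hl]
  have h1 : ∏ j ∈ D.erase l, x j ^ (α + Finsupp.single l 1 : ℕ →₀ ℕ) j /
      (((α + Finsupp.single l 1 : ℕ →₀ ℕ) j).factorial : ℂ) =
      ∏ j ∈ D.erase l, x j ^ α j / ((α j).factorial : ℂ) := by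
    refine Finset.prod_congr rfl fun j hj => ?_
    have h2 : (α + Finsupp.single l 1 : ℕ →₀ ℕ) j = α j := by
      rw [Finsupp.add_apply, Finsupp.single_eq_of_ne (Finset.ne_of_mem_erase hj), add_zero]
    rw [h2]
  rw [h1]
  have h3 : (α + Finsupp.single l 1 : ℕ →₀ ℕ) l = α l + 1 := by
    rw [Finsupp.add_apply, Finsupp.single_eq_same]
  rw [h3, Nat.factorial_succ]
  have h4 : ((α l).factorial : ℂ) ≠ 0 := by exact_mod_cast (α l).factorial_ne_zero
  have h5 : (((α l + 1 : ℕ)) : ℂ) ≠ 0 := Nat.cast_ne_zero.2 (Nat.succ_ne_zero (α l))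
  rw [Nat.cast_mul]
  field_simp
  ring

private lemma RR_succ (D : Finset ℕ) (r : ℕ) (G : (ℕ →₀ ℕ) → ℂ) (x : ℕ → ℂ) :
    ((r : ℂ) + 1) * RR D (r + 1) G x =
      ∑ l ∈ D, x l * RR D r (fun α => G (α + Finsupp.single l 1)) x := by
  unfold RR
  have h1 : ((r : ℂ) + 1) * ∑ α ∈ (bx D (r + 1 + 1)).filter
      (fun α => (α.sum fun _ a => a) = r + 1), G α * ∏ l ∈ D, x l ^ α l / ((α l).factorial : ℂ) =
      ∑ l ∈ D, ∑ α ∈ (bx D (r + 1 + 1)).filter (fun α => (α.sum fun _ a => a) = r + 1),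
        (α l : ℂ) * (G α * ∏ j ∈ D, x j ^ α j / ((α j).factorial : ℂ)) := by
    rw [Finset.sum_comm, Finset.mul_sum]
    refine Finset.sum_congr rfl fun α hα => ?_
    rw [mem_A] at hα
    have h2 := hα.2
    rw [sum_eq hα.1] at h2
    rw [← Finset.sum_mul]
    congr 1
    rw [← Nat.cast_sum, h2]
    push_cast
    ring
  rw [h1]
  refine Finset.sum_congr rfl fun l hl => ?_
  rw [← Finset.sum_filter_add_sum_filter_not ((bx D (r + 1 + 1)).filter
    (fun α => (α.sum fun _ a => a) = r + 1)) (fun α => α l ≠ 0)]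
  have h0 : ∑ α ∈ ((bx D (r + 1 + 1)).filter
      (fun α => (α.sum fun _ a => a) = r + 1)).filter (fun α => ¬ α l ≠ 0),
      (α l : ℂ) * (G α * ∏ j ∈ D, x j ^ α j / ((α j).factorial : ℂ)) = 0 := by
    refine Finset.sum_eq_zero fun α hα => ?_
    have h2 := (Finset.mem_filter.1 hα).2
    rw [not_not] at h2
    rw [h2, Nat.cast_zero, zero_mul]
  rw [h0, add_zero, Finset.mul_sum]
  symm
  refine Finset.sum_nbij' (fun α => α + Finsupp.single l 1) (fun α => α - Finsupp.single l 1)
    ?_ ?_ ?_ ?_ ?_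
  · intro α hα
    rw [mem_A] at hα
    have hsub : (α + Finsupp.single l 1).support ⊆ D := by
      refine Finsupp.support_add.trans (Finset.union_subset hα.1 ?_)
      refine Finsupp.support_single_subset.trans ?_
      exact Finset.singleton_subset_iff.2 hl
    refine Finset.mem_filter.2 ⟨mem_A.2 ⟨hsub, ?_⟩, ?_⟩
    · rw [Finsupp.sum_add_index' (fun _ => rfl) (fun _ _ _ => rfl), hα.2,
        Finsupp.sum_single_index rfl]
    · rw [Finsupp.add_apply, Finsupp.single_eq_same]
      omega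
  · intro α hα
    obtain ⟨h2, h3⟩ := Finset.mem_filter.1 hα
    rw [mem_A] at h2
    have hle : Finsupp.single l 1 ≤ α := by
      rw [Finsupp.single_le_iff]
      omega
    have h4 : α - Finsupp.single l 1 + Finsupp.single l 1 = α := tsub_add_cancel_of_le hle
    refine mem_A.2 ⟨?_, ?_⟩
    · exact Finsupp.support_tsub.trans h2.1
    · have h5 := h2.2
      rw [← h4, Finsupp.sum_add_index' (fun _ => rfl) (fun _ _ _ => rfl),
        Finsupp.sum_single_index rfl] at h5
      omega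
  · intro α _
    exact add_tsub_cancel_right _ _
  · intro α hα
    obtain ⟨h2, h3⟩ := Finset.mem_filter.1 hα
    have hle : Finsupp.single l 1 ≤ α := by
      rw [Finsupp.single_le_iff]
      omega
    exact tsub_add_cancel_of_le hle
  · intro α _
    have h2 := prod_step hl x α
    beta_reduce
    rw [mul_left_comm, mul_left_comm (((α + Finsupp.single l 1 : ℕ →₀ ℕ) l : ℕ) : ℂ), h2]

theorem symSum : SymSum := by
  intro D r G x
  change ((r.factorial : ℂ))⁻¹ * LL D r G x = RR D r G x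
  induction r generalizing G with
  | zero =>
    have h1 : (bx D (0 + 1)).filter (fun α => (α.sum fun _ a => a) = 0) = {0} := by
      ext α
      rw [mem_A, Finset.mem_singleton]
      constructor
      · rintro ⟨h2, h3⟩
        rw [sum_eq h2, Finset.sum_eq_zero_iff] at h3
        ext j
        by_cases hj : j ∈ D
        · exact h3 j hj
        · by_contra h4
          exact hj (h2 (Finsupp.mem_support_iff.2 h4))
      · rintro rfl
        exact ⟨by simp, by simp⟩
    unfold LL RR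
    rw [h1]
    simp
  | succ r ih =>
    have h1 : ((r : ℂ) + 1) ≠ 0 := by exact_mod_cast Nat.succ_ne_zero r
    have h2 := RR_succ D r G x
    rw [LL_succ]
    have h3 : RR D (r + 1) G x = ((r : ℂ) + 1)⁻¹ *
        ∑ l ∈ D, x l * RR D r (fun α => G (α + Finsupp.single l 1)) x := by
      rw [← h2, inv_mul_cancel_left₀ h1]
    rw [h3, Nat.factorial_succ, Nat.cast_mul, mul_inv, mul_assoc]
    push_cast
    congr 1
    rw [Finset.mul_sum]
    refine Finset.sum_congr rfl fun l _ => ?_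
    rw [← ih, mul_left_comm]

end Pool.Agent.Lib.RM
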