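import Mathlib
import Pool.Agent.Lib.MP_f9aece_nt_rm.Stmts

/-!
The constants of the moments of the partial sums of zeta, module C2.

`D = Ioc ⌊L/K⌋₊ L = {j : L/K < j ≤ L}` is the disjoint union of the blocks `D_l = {j : (L/K) u_l < j ≤ (L/K) u_(l+1)}`, `u_l = MT.uj K m l`, `u_0 = 1`, `u_m = K`
(see `mt/T10BlVV.lean`, `mt/T13aApCoef.lean` for the same partition). With `b : D → Fin m` the block of `j`: `PM w K m (Zb ..) = ∑_(r ≤ ⌊K⌋₊) (1/r!) ∑_(h ∈ D^r)
w ((∑_i u_(b (h_i)))/K) ∏ z_(h_i)/√(h_i)` (expand the products of sums: `Finset.prod_univ_sum`, sum over the fibres of `b`), equal by `SymSum` to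
`PG f B'` with `f α = w ((∑_j α_j u_(b j))/K)`, `B' = {α : support in D, |α| ≤ ⌊K⌋₊}`. `SG` is `PG g B'` with `g α = w (dg α / L)`: for `|α| > ⌊K⌋₊` we have
`dg α > |α| L/K > L` and `w = 0`. For `α ∈ B'`: `|dg α/L - (∑ α_j u_(b j))/K| ≤ |α| (K-1)/(mK) ≤ K/m` (`j/L ∈ (u_l/K, u_(l+1)/K]`), so `‖f α - g α‖ ≤ Lam K/m`.
`Hyp` with `q = ⌈k⌉₊`, `sum_ww_le` and `∑_(j ∈ D) 1/j ≤ L (K/L) = K`: `MM k ≤ ((Lam K/m)^2 exp (q K))^k` and `≤ (B^2 exp (q K))^k`.
-/

set_option autoImplicit false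

namespace Pool.Agent.Lib.RM

open MeasureTheory ProbabilityTheory Set Filter Topology Complex
open scoped ComplexConjugate

/-- the total degree -/
private def td (α : ℕ →₀ ℕ) : ℕ := α.sum fun _ a => a

private lemma le_td (α : ℕ →₀ ℕ) (j : ℕ) : α j ≤ td α := by
  by_cases h : α j = 0
  · omega
  · unfold td Finsupp.sum
    exact Finset.single_le_sum (f := fun j => α j) (fun _ _ => Nat.zero_le _)
      (Finsupp.mem_support_iff.mpr h)

/-- the block of `j` -/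
private noncomputable def bk (K : ℝ) (m L j : ℕ) : ℕ := ⌈((j : ℝ) * K / L - 1) * m / (K - 1)⌉₊ - 1

private lemma mem_D {K : ℝ} {L j : ℕ} (hK : 1 < K) : j ∈ Finset.Ioc ⌊(L : ℝ) / K⌋₊ L ↔
    (L : ℝ) / K < j ∧ j ≤ L := by
  rw [Finset.mem_Ioc, Nat.floor_lt (by positivity)]

private lemma one_le_uj {K : ℝ} {m l : ℕ} (hK : 1 < K) : 1 ≤ MT.uj K m l := by
  unfold MT.uj
  have : 0 ≤ (K - 1) * l / m := by
    have : 0 < K - 1 := by linarith
    positivity
  linarith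

private lemma bk_spec {K : ℝ} {m L j : ℕ} (hK : 1 < K) (hm : 1 ≤ m) (hL : K ≤ L)
    (hj : j ∈ Finset.Ioc ⌊(L : ℝ) / K⌋₊ L) :
    bk K m L j < m ∧ (L : ℝ) / K * MT.uj K m (bk K m L j) < j ∧
      (j : ℝ) ≤ (L : ℝ) / K * MT.uj K m (bk K m L j + 1) := by
  obtain ⟨h1, h2⟩ := (mem_D hK).mp hj
  have hK0 : 0 < K := by linarith
  have hK1 : 0 < K - 1 := by linarith
  have hL0 : (0 : ℝ) < L := by linarith
  have hm0 : (0 : ℝ) < m := by exact_mod_cast hm
  set y : ℝ := ((j : ℝ) * K / L - 1) * m / (K - 1) with hy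
  have hx : 1 < (j : ℝ) * K / L := by
    rw [lt_div_iff₀ hL0]
    rw [div_lt_iff₀ hK0] at h1
    linarith
  have hx2 : (j : ℝ) * K / L ≤ K := by
    rw [div_le_iff₀ hL0]
    have : (j : ℝ) ≤ L := by exact_mod_cast h2
    nlinarith
  have hy0 : 0 < y := by
    rw [hy]
    have : 0 < (j : ℝ) * K / L - 1 := by linarith
    positivity
  have hym : y ≤ m := by
    rw [hy, div_le_iff₀ hK1]
    nlinarith
  have hc1 : 0 < ⌈y⌉₊ := Nat.ceil_pos.mpr hy0
  have hc2 : ⌈y⌉₊ ≤ m := Nat.ceil_le.mpr hym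
  have hb : bk K m L j = ⌈y⌉₊ - 1 := rfl
  have hb1 : bk K m L j + 1 = ⌈y⌉₊ := by omega
  have hjy : (j : ℝ) = L / K * (1 + (K - 1) * y / m) := by
    rw [hy]
    field_simp
    ring
  refine ⟨by omega, ?_, ?_⟩
  · have h3 : ((bk K m L j : ℕ) : ℝ) < y := by
      have : bk K m L j < ⌈y⌉₊ := by omega
      exact Nat.lt_ceil.mp this
    conv_rhs => rw [hjy]
    unfold MT.uj
    gcongr
  · have h3 : y ≤ ((bk K m L j + 1 : ℕ) : ℝ) := by
      rw [hb1]
      exact Nat.le_ceil y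
    conv_lhs => rw [hjy]
    unfold MT.uj
    gcongr

private lemma uj_lt {K : ℝ} {m l l' : ℕ} (hK : 1 < K) (hm : 1 ≤ m)
    (h : MT.uj K m l < MT.uj K m l') : l < l' := by
  by_contra h1
  have h2 : (l' : ℝ) ≤ l := by exact_mod_cast not_lt.mp h1
  have hm0 : (0 : ℝ) < m := by exact_mod_cast hm
  have hK1 : 0 < K - 1 := by linarith
  have : MT.uj K m l' ≤ MT.uj K m l := by
    unfold MT.uj
    gcongr
  linarith

/-- the block of `j` as an element of `Fin m` -/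
private noncomputable def bf (K : ℝ) (m L : ℕ) (hm : 1 ≤ m) (j : ℕ) : Fin m :=
  ⟨bk K m L j % m, Nat.mod_lt _ hm⟩

private lemma bf_val {K : ℝ} {m L j : ℕ} (hK : 1 < K) (hm : 1 ≤ m) (hL : K ≤ L)
    (hj : j ∈ Finset.Ioc ⌊(L : ℝ) / K⌋₊ L) : ((bf K m L hm j : Fin m) : ℕ) = bk K m L j := by
  unfold bf
  exact Nat.mod_eq_of_lt (bk_spec hK hm hL hj).1

private lemma mem_blk {K : ℝ} {m L : ℕ} (hK : 1 < K) (hm : 1 ≤ m) (hL : K ≤ L) (l : Fin m) (j : ℕ) :
    j ∈ (Finset.Icc 1 L).filter (fun j : ℕ => (L : ℝ) / K * MT.uj K m l < j ∧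
      (j : ℝ) ≤ (L : ℝ) / K * MT.uj K m (l + 1)) ↔
    j ∈ Finset.Ioc ⌊(L : ℝ) / K⌋₊ L ∧ bf K m L hm j = l := by
  have hK0 : 0 < K := by linarith
  have hL0 : (0 : ℝ) < L := by linarith
  have hLK : 0 < (L : ℝ) / K := by positivity
  rw [Finset.mem_filter]
  constructor
  · rintro ⟨h1, h2, h3⟩
    have hj : j ∈ Finset.Ioc ⌊(L : ℝ) / K⌋₊ L := by
      rw [mem_D hK]
      refine ⟨lt_of_le_of_lt ?_ h2, (Finset.mem_Icc.mp h1).2⟩
      nlinarith [one_le_uj (m := m) (l := l) hK]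
    refine ⟨hj, Fin.ext ?_⟩
    rw [bf_val hK hm hL hj]
    obtain ⟨_, h5, h6⟩ := bk_spec hK hm hL hj
    have e1 := uj_lt hK hm (lt_of_mul_lt_mul_left (h5.trans_le h3) hLK.le)
    have e2 := uj_lt hK hm (lt_of_mul_lt_mul_left (h2.trans_le h6) hLK.le)
    omega
  · rintro ⟨hj, rfl⟩
    rw [bf_val hK hm hL hj]
    refine ⟨Finset.mem_Icc.mpr ⟨?_, (Finset.mem_Ioc.mp hj).2⟩, (bk_spec hK hm hL hj).2⟩
    have := (Finset.mem_Ioc.mp hj).1
    omega

private lemma Zb_eq {K : ℝ} {m L : ℕ} (hK : 1 < K) (hm : 1 ≤ m) (hL : K ≤ L) (z : ℕ → ℂ) (l : Fin m) :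
    Zb K m L z l = ∑ j ∈ (Finset.Ioc ⌊(L : ℝ) / K⌋₊ L).filter (fun j => bf K m L hm j = l),
      z j / (Real.sqrt j : ℂ) := by
  unfold Zb
  refine Finset.sum_congr ?_ fun _ _ => rfl
  ext j
  rw [mem_blk hK hm hL, Finset.mem_filter]

/-- the weight of a multi-index in the polynomial of the block sums -/
private noncomputable def us (K : ℝ) (m L : ℕ) (α : ℕ →₀ ℕ) : ℝ :=
  α.sum fun j a => (a : ℝ) * MT.uj K m (bk K m L j)

private lemma us_single {K : ℝ} {m L r : ℕ} (h : Fin r → ℕ) :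
    us K m L (∑ i, Finsupp.single (h i) 1) = ∑ i, MT.uj K m (bk K m L (h i)) := by
  unfold us
  rw [← Finsupp.sum_finsetSum_index (fun _ => by simp) (fun _ _ _ => by push_cast; ring)]
  refine Finset.sum_congr rfl fun i _ => ?_
  rw [Finsupp.sum_single_index (by simp)]
  simp

/-- the multi-indices of total degree at most `⌊K⌋` -/
private noncomputable def BB (K : ℝ) (L : ℕ) : Finset (ℕ →₀ ℕ) :=
  (bx (Finset.Ioc ⌊(L : ℝ) / K⌋₊ L) (⌊K⌋₊ + 1)).filter fun α => td α ≤ ⌊K⌋₊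

private lemma PM_eq (hS : SymSum) (w : ℝ → ℂ) {K : ℝ} {m L : ℕ} (hK : 1 < K) (hm : 1 ≤ m) (hL : K ≤ L)
    (z : ℕ → ℂ) : MT.PM w K m (Zb K m L z) = PG (fun α => w (us K m L α / K)) (BB K L) z := by
  classical
  set D := Finset.Ioc ⌊(L : ℝ) / K⌋₊ L with hD
  have step : ∀ r : ℕ, ((r.factorial : ℂ))⁻¹ *
      ∑ j : Fin r → Fin m, w ((∑ i, MT.uj K m (j i)) / K) * ∏ i, Zb K m L z (j i)
      = ∑ α ∈ (bx D (r + 1)).filter (fun α => td α = r), w (us K m L α / K) * ee α z := by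
    intro r
    have h1 : ∑ j : Fin r → Fin m, w ((∑ i, MT.uj K m (j i)) / K) * ∏ i, Zb K m L z (j i)
        = ∑ h ∈ Fintype.piFinset (fun _ : Fin r => D),
          w (us K m L (∑ i, Finsupp.single (h i) 1) / K) * ∏ i, (z (h i) / (Real.sqrt (h i) : ℂ)) := by
      rw [← Finset.sum_fiberwise (Fintype.piFinset (fun _ : Fin r => D))
        (fun h : Fin r → ℕ => fun i => bf K m L hm (h i))]
      refine Finset.sum_congr rfl fun l _ => ?_
      simp_rw [Zb_eq hK hm hL]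
      rw [Finset.prod_univ_sum, Finset.mul_sum]
      refine Finset.sum_congr ?_ ?_
      · ext h
        simp only [Fintype.mem_piFinset, Finset.mem_filter, funext_iff]
        exact forall_and
      · intro h hh
        have h2 : ∀ i, h i ∈ D ∧ bf K m L hm (h i) = l i := by
          intro i
          obtain ⟨h3, h4⟩ := Finset.mem_filter.mp hh
          exact ⟨Fintype.mem_piFinset.mp h3 i, congrFun h4 i⟩
        congr 2
        rw [us_single]
        congr 1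
        refine Finset.sum_congr rfl fun i _ => ?_
        rw [← (h2 i).2, bf_val hK hm hL (h2 i).1]
    rw [h1, hS D r (fun α => w (us K m L α / K)) (fun j => z j / (Real.sqrt j : ℂ))]
    refine Finset.sum_congr rfl fun α hα => ?_
    rw [ee_eq_prod (mem_bx.mp (Finset.mem_filter.mp hα).1).1]
  unfold MT.PM PG
  rw [Finset.sum_congr rfl fun r _ => step r,
    ← Finset.sum_fiberwise_of_maps_to (s := BB K L) (t := Finset.range (⌊K⌋₊ + 1)) (g := td)]
  · refine Finset.sum_congr rfl fun r hr => ?_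
    refine Finset.sum_congr ?_ fun _ _ => rfl
    have hr' : r ≤ ⌊K⌋₊ := Nat.lt_succ_iff.mp (Finset.mem_range.mp hr)
    ext α
    unfold BB
    simp only [Finset.mem_filter, mem_bx]
    constructor
    · rintro ⟨⟨h1, h2⟩, h3⟩
      exact ⟨⟨⟨h1, fun j hj => (h2 j hj).trans_le (by omega)⟩, by omega⟩, h3⟩
    · rintro ⟨⟨⟨h1, h2⟩, h3⟩, h4⟩
      exact ⟨⟨h1, fun j _ => by have := le_td α j; omega⟩, h4⟩
  · intro α hα
    have := (Finset.mem_filter.mp hα).2
    exact Finset.mem_range.mpr (by omega)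

private lemma dg_eq_sum {D : Finset ℕ} {α : ℕ →₀ ℕ} (h : α.support ⊆ D) :
    (dg α : ℝ) = ∑ j ∈ D, (j : ℝ) * α j := by
  unfold dg
  rw [Finsupp.sum_of_support_subset _ h _ (fun j _ => by simp)]
  push_cast
  rfl

private lemma td_eq_sum {D : Finset ℕ} {α : ℕ →₀ ℕ} (h : α.support ⊆ D) :
    (td α : ℝ) = ∑ j ∈ D, (α j : ℝ) := by
  unfold td
  rw [Finsupp.sum_of_support_subset _ h _ (fun j _ => by simp)]
  push_cast
  rfl

private lemma us_eq_sum {K : ℝ} {m L : ℕ} {D : Finset ℕ} {α : ℕ →₀ ℕ} (h : α.support ⊆ D) :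
    us K m L α = ∑ j ∈ D, (α j : ℝ) * MT.uj K m (bk K m L j) := by
  unfold us
  rw [Finsupp.sum_of_support_subset _ h _ (fun j _ => by simp)]

private lemma SG_eq {B Lam : ℝ} {w : ℝ → ℂ} (hw : MT.CutC B Lam w) {K : ℝ} {L : ℕ} (hK : 1 < K)
    (hL : K ≤ L) (z : ℕ → ℂ) :
    SG (fun n => w ((n : ℝ) / L)) (Finset.Ioc ⌊(L : ℝ) / K⌋₊ L) L z
      = PG (fun α => w ((dg α : ℝ) / L)) (BB K L) z := by
  have hK0 : 0 < K := by linarith
  have hL0 : (0 : ℝ) < L := by linarith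
  unfold SG PG
  symm
  refine Finset.sum_subset ?_ ?_
  · intro α hα
    unfold BB at hα
    rw [Finset.mem_filter, mem_bx] at hα
    rw [mem_bx]
    refine ⟨hα.1.1, fun j _ => ?_⟩
    have h1 := le_td α j
    have h2 : ⌊K⌋₊ ≤ L := Nat.floor_le_of_le hL
    omega
  · intro α hα hα2
    rw [mem_bx] at hα
    have h1 : ⌊K⌋₊ < td α := by
      by_contra h2
      apply hα2
      unfold BB
      rw [Finset.mem_filter, mem_bx]
      exact ⟨⟨hα.1, fun j _ => by have := le_td α j; omega⟩, by omega⟩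
    have h3 : K < td α := (Nat.floor_lt hK0.le).mp h1
    have h4 : (L : ℝ) / K * td α ≤ dg α := by
      rw [dg_eq_sum hα.1, td_eq_sum hα.1, Finset.mul_sum]
      refine Finset.sum_le_sum fun j hj => ?_
      have h5 := ((mem_D hK).mp hj).1
      gcongr
    have h6 : (L : ℝ) ≤ dg α := by
      refine le_trans ?_ h4
      rw [div_mul_eq_mul_div, le_div_iff₀ hK0]
      nlinarith
    change w ((dg α : ℝ) / L) * ee α z = 0
    rw [hw.zero _ (by rw [le_div_iff₀ hL0]; linarith), zero_mul]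

private lemma diff_le {B Lam : ℝ} {w : ℝ → ℂ} (hw : MT.CutC B Lam w) {K : ℝ} {m L : ℕ} (hK : 1 < K)
    (hm : 1 ≤ m) (hL : K ≤ L) {α : ℕ →₀ ℕ} (hα : α ∈ BB K L) :
    ‖w ((dg α : ℝ) / L) - w (us K m L α / K)‖ ≤ Lam * K * (1 / m) := by
  have hK0 : 0 < K := by linarith
  have hK1 : 0 < K - 1 := by linarith
  have hL0 : (0 : ℝ) < L := by linarith
  have hm0 : (0 : ℝ) < m := by exact_mod_cast hm
  have hLam : 0 ≤ Lam := by
    have := (norm_nonneg _).trans (hw.lip 1 0)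
    simpa using this
  unfold BB at hα
  rw [Finset.mem_filter, mem_bx] at hα
  have h1 : |(dg α : ℝ) / L - us K m L α / K| ≤ td α * ((K - 1) / (m * K)) := by
    rw [dg_eq_sum hα.1.1, us_eq_sum hα.1.1, td_eq_sum hα.1.1, Finset.sum_div, Finset.sum_div,
      ← Finset.sum_sub_distrib, Finset.sum_mul]
    refine (Finset.abs_sum_le_sum_abs _ _).trans (Finset.sum_le_sum fun j hj => ?_)
    obtain ⟨_, h2, h3⟩ := bk_spec hK hm hL hj
    have e : (j : ℝ) * α j / L - α j * MT.uj K m (bk K m L j) / K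
        = α j * ((j : ℝ) / L - MT.uj K m (bk K m L j) / K) := by ring
    rw [e, abs_mul, Nat.abs_cast]
    refine mul_le_mul_of_nonneg_left ?_ (Nat.cast_nonneg _)
    have e1 : MT.uj K m (bk K m L j + 1) = MT.uj K m (bk K m L j) + (K - 1) / m := by
      unfold MT.uj
      push_cast
      ring
    rw [e1] at h3
    have e2 : (j : ℝ) / L ≤ (MT.uj K m (bk K m L j) + (K - 1) / m) / K := by
      rw [div_le_iff₀ hL0]
      refine h3.trans (le_of_eq (by ring))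
    have e3 : MT.uj K m (bk K m L j) / K ≤ (j : ℝ) / L := by
      rw [le_div_iff₀ hL0]
      refine le_trans (le_of_eq (by ring)) h2.le
    have e4 : (MT.uj K m (bk K m L j) + (K - 1) / m) / K
        = MT.uj K m (bk K m L j) / K + (K - 1) / (m * K) := by
      field_simp
    rw [e4] at e2
    rw [abs_le]
    constructor <;> linarith
  have h2 : (td α : ℝ) ≤ K := le_trans (by exact_mod_cast hα.2) (Nat.floor_le hK0.le)
  have h3 : (td α : ℝ) * ((K - 1) / (m * K)) ≤ K * (1 / m) := by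
    have e5 : K * ((K - 1) / (m * K)) = (K - 1) * (1 / m) := by
      field_simp
    have e6 : (td α : ℝ) * ((K - 1) / (m * K)) ≤ K * ((K - 1) / (m * K)) := by gcongr
    have e7 : (K - 1) * (1 / m) ≤ K * (1 / (m : ℝ)) := by
      gcongr
      linarith
    linarith
  calc ‖w ((dg α : ℝ) / L) - w (us K m L α / K)‖ ≤ Lam * |(dg α : ℝ) / L - us K m L α / K| := hw.lip _ _
    _ ≤ Lam * (K * (1 / m)) := by
        refine mul_le_mul_of_nonneg_left (h1.trans h3) hLam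
    _ = Lam * K * (1 / m) := by ring

private lemma bound (hH : Hyp) {k : ℝ} (hk : 0 < k) {K : ℝ} {L : ℕ} (hK : 1 < K) (hL : K ≤ L)
    (f : (ℕ →₀ ℕ) → ℂ) (T : ℝ) (hf : ∀ α ∈ BB K L, ‖f α‖ ≤ T) :
    MM k (PG f (BB K L)) ≤ ENNReal.ofReal ((T ^ 2 * Real.exp (⌈k⌉₊ * K)) ^ k) := by
  have hK0 : 0 < K := by linarith
  have hL0 : (0 : ℝ) < L := by linarith
  have hB : ∀ α ∈ BB K L, α.support ⊆ Finset.Ioc ⌊(L : ℝ) / K⌋₊ L := by
    intro α hα
    unfold BB at hα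
    exact (mem_bx.mp (Finset.mem_filter.mp hα).1).1
  have h0 : ∀ α ∈ BB K L, α 0 = 0 := by
    intro α hα
    by_contra h
    have h1 := hB α hα (Finsupp.mem_support_iff.mpr h)
    have h2 := (Finset.mem_Ioc.mp h1).1
    omega
  refine (hH ⌈k⌉₊ k (Nat.ceil_pos.mpr hk) hk (Nat.le_ceil k) _ f h0).trans
    (ENNReal.ofReal_le_ofReal (Real.rpow_le_rpow ?_ ?_ hk.le))
  · exact Finset.sum_nonneg fun α _ => mul_nonneg (by positivity) (ww_nonneg (by positivity) α)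
  · calc ∑ α ∈ BB K L, ‖f α‖ ^ 2 * ww (⌈k⌉₊ : ℝ) α
        ≤ ∑ α ∈ BB K L, T ^ 2 * ww (⌈k⌉₊ : ℝ) α := by
          refine Finset.sum_le_sum fun α hα => ?_
          refine mul_le_mul_of_nonneg_right ?_ (ww_nonneg (by positivity) α)
          exact pow_le_pow_left₀ (norm_nonneg _) (hf α hα) 2
      _ = T ^ 2 * ∑ α ∈ BB K L, ww (⌈k⌉₊ : ℝ) α := by rw [Finset.mul_sum]
      _ ≤ T ^ 2 * Real.exp (∑ j ∈ Finset.Ioc ⌊(L : ℝ) / K⌋₊ L, (⌈k⌉₊ : ℝ) / j) := by
          refine mul_le_mul_of_nonneg_left ?_ (sq_nonneg T)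
          exact sum_ww_le _ (Nat.cast_nonneg _) _ hB
      _ ≤ T ^ 2 * Real.exp (⌈k⌉₊ * K) := by
          refine mul_le_mul_of_nonneg_left (Real.exp_le_exp.mpr ?_) (sq_nonneg T)
          calc ∑ j ∈ Finset.Ioc ⌊(L : ℝ) / K⌋₊ L, (⌈k⌉₊ : ℝ) / j
              ≤ ∑ j ∈ Finset.Ioc ⌊(L : ℝ) / K⌋₊ L, (⌈k⌉₊ : ℝ) * (K / L) := by
                refine Finset.sum_le_sum fun j hj => ?_
                have h5 := ((mem_D hK).mp hj).1
                have h6 : (0 : ℝ) < j := lt_trans (by positivity) h5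
                rw [div_eq_mul_one_div]
                refine mul_le_mul_of_nonneg_left ?_ (Nat.cast_nonneg _)
                rw [div_le_div_iff₀ h6 hL0]
                rw [div_lt_iff₀ hK0] at h5
                linarith
            _ = ((L - ⌊(L : ℝ) / K⌋₊ : ℕ) : ℝ) * ((⌈k⌉₊ : ℝ) * (K / L)) := by
                rw [Finset.sum_const, Nat.card_Ioc, nsmul_eq_mul]
            _ ≤ (L : ℝ) * ((⌈k⌉₊ : ℝ) * (K / L)) := by
                refine mul_le_mul_of_nonneg_right ?_ (by positivity)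
                exact_mod_cast Nat.sub_le _ _
            _ = ⌈k⌉₊ * K := by field_simp

theorem rPM (hH : Hyp) (hS : SymSum) : RPM := by
  intro k B Lam w hk hw K hK
  have hK0 : 0 < K := by linarith
  refine ⟨(B ^ 2 * Real.exp (⌈k⌉₊ * K)) ^ k + ((Lam * K) ^ 2 * Real.exp (⌈k⌉₊ * K)) ^ k,
    by positivity, fun m L hm hL => ⟨?_, ?_⟩⟩
  · have e : SG (fun n => w ((n : ℝ) / L)) (Finset.Ioc ⌊(L : ℝ) / K⌋₊ L) L
        = PG (fun α => w ((dg α : ℝ) / L)) (BB K L) := funext fun z => SG_eq hw hK hL z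
    rw [e]
    refine (bound hH hk hK hL _ B fun α _ => hw.bd _).trans (ENNReal.ofReal_le_ofReal ?_)
    have : 0 ≤ ((Lam * K) ^ 2 * Real.exp (⌈k⌉₊ * K)) ^ k := by positivity
    linarith
  · have e : (fun z => SG (fun n => w ((n : ℝ) / L)) (Finset.Ioc ⌊(L : ℝ) / K⌋₊ L) L z
        - MT.PM w K m (Zb K m L z))
        = PG (fun α => w ((dg α : ℝ) / L) - w (us K m L α / K)) (BB K L) := by
      funext z
      rw [SG_eq hw hK hL, PM_eq hS w hK hm hL]
      unfold PG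
      rw [← Finset.sum_sub_distrib]
      exact Finset.sum_congr rfl fun α _ => by ring
    rw [e]
    refine (bound hH hk hK hL _ _ fun α hα => diff_le hw hK hm hL hα).trans
      (ENNReal.ofReal_le_ofReal ?_)
    have hm0 : (0 : ℝ) < m := by exact_mod_cast hm
    have e1 : ((Lam * K * (1 / m)) ^ 2 * Real.exp (⌈k⌉₊ * K)) ^ k
        = ((Lam * K) ^ 2 * Real.exp (⌈k⌉₊ * K)) ^ k * (1 / m) ^ (2 * k) := by
      rw [show (Lam * K * (1 / (m : ℝ))) ^ 2 * Real.exp (⌈k⌉₊ * K)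
        = ((Lam * K) ^ 2 * Real.exp (⌈k⌉₊ * K)) * (1 / (m : ℝ)) ^ 2 by ring,
        Real.mul_rpow (by positivity) (by positivity)]
      congr 1
      rw [Real.rpow_mul (by positivity)]
      norm_cast
    rw [e1]
    refine mul_le_mul_of_nonneg_right ?_ (by positivity)
    have : 0 ≤ (B ^ 2 * Real.exp (⌈k⌉₊ * K)) ^ k := by positivity
    linarith

end Pool.Agent.Lib.RM
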