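import Mathlib
import Pool.Agent.Lib.MP_f9aece_nt_rm.Stmts

/-!
The constants of the moments of the partial sums of zeta, module C3.

The law of `Zb K m L` under `Gm` (`μ_L = Gm.map (Zb K m L)`; continuous, `measurable_pi_lambda`) converges to `MT.gam m (sg K m)`. Characteristic function: `∑_l ξ_l Zb_l = ∑_j (ξ_(b j)/√j) z_j`
(the blocks are disjoint), `ProdF` (first part) and `OneA` (second part): `exp (-∑_l ‖ξ_l‖^2 V_l / 4)`, `V_l = ∑_(j in block l) 1/j → log (u_(l+1)/u_l) = MT.sg K m l` as `L → ∞`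
(`∑_(A < j ≤ B) 1/j = log (B/A) + O(1/A)`; `Real.tendsto_harmonic_sub_log` is one way; the block of `l` is `Ioc ⌊(L/K) u_l⌋₊ ⌊(L/K) u_(l+1)⌋₊` for `u_(l+1) ≤ K`). `GauB` gives the
characteristic function of the limit: `LevyC` gives convergence for bounded continuous functions. Moments: `‖Zb‖^p ≤ ∑_l ‖Zb_l‖^p` (sup norm), `Zb_l = PG` (indices
`single j 1`, or `OneA`/`Orth` directly), bounded uniformly in `L` by `Hyp` (`V_l` is bounded), integrable by `Orth`; `GauA` for the limit. `UnifInt` for `f z = ‖PM w K m z‖^(2k)` (continuous,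
polynomial growth: see `mt/T14DecM.lean`), `integral_map`. Integrability of `‖PM (Zb)‖^(2k)`: growth bound and moments.
-/

set_option autoImplicit false

namespace Pool.Agent.Lib.RM

open MeasureTheory ProbabilityTheory Set Filter Topology Complex
open scoped ComplexConjugate

private lemma PM_cont (w : ℝ → ℂ) (K : ℝ) (m : ℕ) : Continuous (MT.PM w K m) := by
  unfold MT.PM
  refine continuous_finsetSum _ fun r _ => continuous_const.mul ?_
  refine continuous_finsetSum _ fun j _ => continuous_const.mul ?_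
  exact continuous_finsetProd _ fun i _ => continuous_apply _

private lemma PM_bdd (w : ℝ → ℂ) (B : ℝ) (hB : ∀ x, ‖w x‖ ≤ B) (K : ℝ) (m : ℕ) :
    ∃ C : ℝ, 0 ≤ C ∧ ∀ z : Fin m → ℂ, ‖MT.PM w K m z‖ ≤ C * (1 + ‖z‖) ^ (⌊K⌋₊ + 1) := by
  have hB0 : 0 ≤ B := (norm_nonneg _).trans (hB 0)
  refine ⟨∑ r ∈ Finset.range (⌊K⌋₊ + 1), ‖((r.factorial : ℂ))⁻¹‖ * ∑ _j : Fin r → Fin m, B,
    Finset.sum_nonneg fun r _ => mul_nonneg (norm_nonneg _)
      (Finset.sum_nonneg fun _ _ => hB0), fun z => ?_⟩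
  unfold MT.PM
  rw [Finset.sum_mul]
  refine (norm_sum_le _ _).trans (Finset.sum_le_sum fun r hr => ?_)
  rw [norm_mul, mul_assoc]
  refine mul_le_mul_of_nonneg_left ?_ (norm_nonneg _)
  rw [Finset.sum_mul]
  refine (norm_sum_le _ _).trans (Finset.sum_le_sum fun j _ => ?_)
  rw [norm_mul]
  refine mul_le_mul (hB _) ?_ (norm_nonneg _) hB0
  rw [norm_prod]
  have h1 : ∏ i : Fin r, ‖z (j i)‖ ≤ ∏ _i : Fin r, (1 + ‖z‖) := by
    refine Finset.prod_le_prod (fun i _ => norm_nonneg _) fun i _ => ?_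
    have := norm_le_pi_norm z (j i)
    linarith
  refine h1.trans ?_
  rw [Finset.prod_const, Finset.card_univ, Fintype.card_fin]
  refine pow_le_pow_right₀ ?_ ?_
  · have := norm_nonneg z
    linarith
  · exact (Finset.mem_range.mp hr).le

private lemma PM_growth (w : ℝ → ℂ) (B : ℝ) (hB : ∀ x, ‖w x‖ ≤ B) (K : ℝ) (m : ℕ) (k : ℝ)
    (hk : 0 < k) :
    ∃ (C : ℝ) (p : ℕ), ∀ z : Fin m → ℂ, |‖MT.PM w K m z‖ ^ (2 * k)| ≤ C * (1 + ‖z‖) ^ p := by
  obtain ⟨C, hC, h⟩ := PM_bdd w B hB K m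
  refine ⟨C ^ (2 * k), ⌈((⌊K⌋₊ + 1 : ℕ) : ℝ) * (2 * k)⌉₊, fun z => ?_⟩
  have hz : 1 ≤ 1 + ‖z‖ := by
    have := norm_nonneg z
    linarith
  have hz0 : 0 ≤ 1 + ‖z‖ := by linarith
  rw [abs_of_nonneg (Real.rpow_nonneg (norm_nonneg _) _)]
  calc ‖MT.PM w K m z‖ ^ (2 * k)
      ≤ (C * (1 + ‖z‖) ^ (⌊K⌋₊ + 1)) ^ (2 * k) :=
        Real.rpow_le_rpow (norm_nonneg _) (h z) (by positivity)
    _ = C ^ (2 * k) * ((1 + ‖z‖) ^ (⌊K⌋₊ + 1)) ^ (2 * k) :=
        Real.mul_rpow hC (by positivity)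
    _ = C ^ (2 * k) * (1 + ‖z‖) ^ (((⌊K⌋₊ + 1 : ℕ) : ℝ) * (2 * k)) := by
        rw [← Real.rpow_natCast, ← Real.rpow_mul hz0]
    _ ≤ C ^ (2 * k) * (1 + ‖z‖) ^ ((⌈((⌊K⌋₊ + 1 : ℕ) : ℝ) * (2 * k)⌉₊ : ℕ) : ℝ) := by
        refine mul_le_mul_of_nonneg_left ?_ (Real.rpow_nonneg hC _)
        exact Real.rpow_le_rpow_of_exponent_le hz (Nat.le_ceil _)
    _ = C ^ (2 * k) * (1 + ‖z‖) ^ ⌈((⌊K⌋₊ + 1 : ℕ) : ℝ) * (2 * k)⌉₊ := by
        rw [Real.rpow_natCast]

/-- the block -/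
private noncomputable def blk (K : ℝ) (m L : ℕ) (l : ℕ) : Finset ℕ :=
  (Finset.Icc 1 L).filter (fun j : ℕ => (L : ℝ) / K * MT.uj K m l < j ∧
    (j : ℝ) ≤ (L : ℝ) / K * MT.uj K m (l + 1))

private noncomputable def VB (K : ℝ) (m L : ℕ) (l : ℕ) : ℝ := ∑ j ∈ blk K m L l, (1 : ℝ) / j

private lemma Zb_eq (K : ℝ) (m L : ℕ) (z : ℕ → ℂ) (l : Fin m) :
    Zb K m L z l = ∑ j ∈ blk K m L l, z j / (Real.sqrt j : ℂ) := rfl

private lemma Zb_cont (K : ℝ) (m L : ℕ) : Continuous (Zb K m L) := by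
  refine continuous_pi fun l => ?_
  simp only [Zb_eq]
  exact continuous_finsetSum _ fun j _ => (continuous_apply j).div_const _

private lemma uj_mono {K : ℝ} (hK : 1 < K) {m : ℕ} (hm : 1 ≤ m) {a b : ℕ} (h : a ≤ b) :
    MT.uj K m a ≤ MT.uj K m b := by
  unfold MT.uj
  have hm' : (0 : ℝ) < m := by exact_mod_cast hm
  have h' : (a : ℝ) ≤ b := by exact_mod_cast h
  have h1 : (K - 1) * a / m ≤ (K - 1) * b / m :=
    div_le_div_of_nonneg_right (mul_le_mul_of_nonneg_left h' (by linarith)) hm'.le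
  linarith

private lemma uj_pos {K : ℝ} (hK : 1 < K) {m : ℕ} (hm : 1 ≤ m) (a : ℕ) : 0 < MT.uj K m a := by
  unfold MT.uj
  have hm' : (0 : ℝ) < m := by exact_mod_cast hm
  have h1 : 0 ≤ (K - 1) * a / m :=
    div_nonneg (mul_nonneg (by linarith) (Nat.cast_nonneg _)) hm'.le
  linarith

private lemma uj_le {K : ℝ} (hK : 1 < K) {m : ℕ} (hm : 1 ≤ m) {a : ℕ} (h : a ≤ m) :
    MT.uj K m a ≤ K := by
  have h1 := uj_mono hK hm h
  have h2 : MT.uj K m m = K := by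
    unfold MT.uj
    have hm' : (m : ℝ) ≠ 0 := by
      have : m ≠ 0 := by omega
      exact_mod_cast this
    field_simp
    ring
  rwa [h2] at h1

private lemma sg_nonneg {K : ℝ} (hK : 1 < K) {m : ℕ} (hm : 1 ≤ m) (a : ℕ) : 0 ≤ MT.sg K m a := by
  unfold MT.sg
  refine Real.log_nonneg ?_
  rw [one_le_div (uj_pos hK hm a)]
  exact uj_mono hK hm (Nat.le_succ a)

private lemma blk_unique {K : ℝ} (hK : 1 < K) {m : ℕ} (hm : 1 ≤ m) {L j l l' : ℕ}
    (h : j ∈ blk K m L l) (h' : j ∈ blk K m L l') : l = l' := by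
  have key : ∀ a b : ℕ, a < b → j ∈ blk K m L a → j ∈ blk K m L b → False := by
    intro a b hab ha hb
    have h1 := (Finset.mem_filter.1 ha).2.2
    have h2 := (Finset.mem_filter.1 hb).2.1
    have h3 : MT.uj K m (a + 1) ≤ MT.uj K m b := uj_mono hK hm hab
    have h4 : (0 : ℝ) ≤ (L : ℝ) / K := div_nonneg (Nat.cast_nonneg _) (by linarith)
    have h5 := mul_le_mul_of_nonneg_left h3 h4
    linarith
  rcases lt_trichotomy l l' with h1 | h1 | h1
  · exact (key _ _ h1 h h').elim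
  · exact h1
  · exact (key _ _ h1 h' h).elim

private lemma blk_one_le {K : ℝ} {m L l j : ℕ} (h : j ∈ blk K m L l) : 1 ≤ j :=
  (Finset.mem_Icc.1 (Finset.mem_filter.1 h).1).1

private lemma VB_nonneg (K : ℝ) (m L l : ℕ) : 0 ≤ VB K m L l :=
  Finset.sum_nonneg fun j _ => by positivity

/-- the block is an interval -/
private lemma blk_eq {K : ℝ} (hK : 1 < K) {m : ℕ} (hm : 1 ≤ m) {L l : ℕ} (hl : l < m) :
    blk K m L l = Finset.Ioc ⌊MT.uj K m l / K * L⌋₊ ⌊MT.uj K m (l + 1) / K * L⌋₊ := by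
  have hK0 : 0 < K := by linarith
  have e : ∀ a : ℕ, (L : ℝ) / K * MT.uj K m a = MT.uj K m a / K * L := fun a => by ring
  have hn : ∀ a : ℕ, 0 ≤ MT.uj K m a / K * L := fun a =>
    mul_nonneg (div_nonneg (uj_pos hK hm a).le hK0.le) (Nat.cast_nonneg _)
  ext j
  unfold blk
  rw [Finset.mem_filter, Finset.mem_Icc, Finset.mem_Ioc, e, e, Nat.floor_lt (hn l),
    Nat.le_floor_iff (hn (l + 1))]
  constructor
  · rintro ⟨-, h1, h2⟩
    exact ⟨h1, h2⟩
  · rintro ⟨h1, h2⟩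
    refine ⟨⟨?_, ?_⟩, h1, h2⟩
    · have h3 : (0 : ℝ) < j := lt_of_le_of_lt (hn l) h1
      have h4 : 0 < j := by exact_mod_cast h3
      exact h4
    · have h3 : MT.uj K m (l + 1) / K ≤ 1 := (div_le_one hK0).2 (uj_le hK hm hl)
      have h4 : MT.uj K m (l + 1) / K * L ≤ 1 * L :=
        mul_le_mul_of_nonneg_right h3 (Nat.cast_nonneg _)
      have h5 : (j : ℝ) ≤ L := by linarith
      exact_mod_cast h5

private lemma harm_tendsto : Tendsto (fun n : ℕ => ∑ j ∈ Finset.Icc 1 n, (1 : ℝ) / j - Real.log n)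
    atTop (𝓝 Real.eulerMascheroniConstant) := by
  have h := Real.tendsto_harmonic_sub_log
  refine h.congr fun n => ?_
  rw [harmonic_eq_sum_Icc]
  push_cast
  congr 1
  exact Finset.sum_congr rfl fun j _ => (one_div _).symm

private lemma VB_tendsto {K : ℝ} (hK : 1 < K) {m : ℕ} (hm : 1 ≤ m) {l : ℕ} (hl : l < m) :
    Tendsto (fun L : ℕ => VB K m L l) atTop (𝓝 (MT.sg K m l)) := by
  have hK0 : 0 < K := by linarith
  set a : ℝ := MT.uj K m l / K with ha
  set b : ℝ := MT.uj K m (l + 1) / K with hb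
  have ha0 : 0 < a := div_pos (uj_pos hK hm l) hK0
  have hb0 : 0 < b := div_pos (uj_pos hK hm (l + 1)) hK0
  have hab : a ≤ b := div_le_div_of_nonneg_right (uj_mono hK hm (Nat.le_succ l)) hK0.le
  have hfl : ∀ c : ℝ, 0 < c → Tendsto (fun L : ℕ => ⌊c * (L : ℝ)⌋₊) atTop atTop := fun c hc =>
    tendsto_nat_floor_atTop.comp (tendsto_natCast_atTop_atTop.const_mul_atTop hc)
  have hrat : ∀ c : ℝ, 0 < c → Tendsto (fun L : ℕ => Real.log ((⌊c * (L : ℝ)⌋₊ : ℝ) / L)) atTop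
      (𝓝 (Real.log c)) := fun c hc =>
    ((tendsto_nat_floor_mul_div_atTop hc.le).comp tendsto_natCast_atTop_atTop).log hc.ne'
  have h1 : Tendsto (fun L : ℕ =>
      ((∑ j ∈ Finset.Icc 1 ⌊b * (L : ℝ)⌋₊, (1 : ℝ) / j - Real.log (⌊b * (L : ℝ)⌋₊ : ℕ)) -
        (∑ j ∈ Finset.Icc 1 ⌊a * (L : ℝ)⌋₊, (1 : ℝ) / j - Real.log (⌊a * (L : ℝ)⌋₊ : ℕ))) +
      (Real.log ((⌊b * (L : ℝ)⌋₊ : ℝ) / L) - Real.log ((⌊a * (L : ℝ)⌋₊ : ℝ) / L))) atTop
      (𝓝 ((Real.eulerMascheroniConstant - Real.eulerMascheroniConstant) +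
        (Real.log b - Real.log a))) :=
    ((harm_tendsto.comp (hfl b hb0)).sub (harm_tendsto.comp (hfl a ha0))).add
      ((hrat b hb0).sub (hrat a ha0))
  have h2 : (Real.eulerMascheroniConstant - Real.eulerMascheroniConstant) +
      (Real.log b - Real.log a) = MT.sg K m l := by
    unfold MT.sg
    rw [sub_self, zero_add, ← Real.log_div hb0.ne' ha0.ne', ha, hb,
      div_div_div_cancel_right₀ hK0.ne']
  rw [h2] at h1
  refine h1.congr' ?_
  have h3 : ∀ᶠ L : ℕ in atTop, 0 < ⌊a * (L : ℝ)⌋₊ := (hfl a ha0).eventually_gt_atTop 0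
  filter_upwards [h3, eventually_gt_atTop 0] with L hL hL0
  have hLr : (L : ℝ) ≠ 0 := by exact_mod_cast hL0.ne'
  have hle : ⌊a * (L : ℝ)⌋₊ ≤ ⌊b * (L : ℝ)⌋₊ :=
    Nat.floor_mono (mul_le_mul_of_nonneg_right hab (Nat.cast_nonneg _))
  have hA : (⌊a * (L : ℝ)⌋₊ : ℝ) ≠ 0 := by exact_mod_cast hL.ne'
  have hB : (⌊b * (L : ℝ)⌋₊ : ℝ) ≠ 0 := by exact_mod_cast (hL.trans_le hle).ne'
  rw [Real.log_div hA hLr, Real.log_div hB hLr]
  have h4 : VB K m L l = ∑ j ∈ Finset.Icc 1 ⌊b * (L : ℝ)⌋₊, (1 : ℝ) / j -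
      ∑ j ∈ Finset.Icc 1 ⌊a * (L : ℝ)⌋₊, (1 : ℝ) / j := by
    unfold VB
    rw [blk_eq hK hm hl]
    have h5 : Finset.Icc 1 ⌊b * (L : ℝ)⌋₊ = Finset.Icc 1 ⌊a * (L : ℝ)⌋₊ ∪
        Finset.Ioc ⌊a * (L : ℝ)⌋₊ ⌊b * (L : ℝ)⌋₊ := by
      ext j
      simp only [Finset.mem_union, Finset.mem_Icc, Finset.mem_Ioc]
      omega
    rw [h5, Finset.sum_union]
    · ring
    · rw [Finset.disjoint_left]
      intro j hj hj'
      rw [Finset.mem_Icc] at hj
      rw [Finset.mem_Ioc] at hj'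
      omega
  rw [h4]
  ring

/-- the characteristic function -/
private lemma charf (hA : OneA) (hF : ProdF) {K : ℝ} (hK : 1 < K) {m : ℕ} (hm : 1 ≤ m) (L : ℕ)
    (ξ : Fin m → ℂ) : ∫ z, cexp (I * ((∑ l, ξ l * Zb K m L z l).re : ℂ)) ∂Gm =
      (Real.exp (-(∑ l : Fin m, ‖ξ l‖ ^ 2 * VB K m L l) / 4) : ℂ) := by
  classical
  set e : ℕ → ℂ := fun j => ∑ l : Fin m, if j ∈ blk K m L l then ξ l else 0 with he
  set c : ℕ → ℂ := fun j => e j / (Real.sqrt j : ℂ) with hc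
  have h1 : ∀ z : ℕ → ℂ, ∑ l, ξ l * Zb K m L z l = ∑ j ∈ Finset.Icc 1 L, c j * z j := by
    intro z
    have h2 : ∀ l : Fin m, ξ l * Zb K m L z l = ∑ j ∈ Finset.Icc 1 L,
        (if j ∈ blk K m L l then ξ l else 0) * (z j / (Real.sqrt j : ℂ)) := by
      intro l
      rw [Zb_eq, Finset.mul_sum]
      have h3 : blk K m L l = (Finset.Icc 1 L).filter (fun j => j ∈ blk K m L l) := by
        ext j
        rw [Finset.mem_filter]
        exact ⟨fun h => ⟨(Finset.mem_filter.1 h).1, h⟩, fun h => h.2⟩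
      conv_lhs => rw [h3]
      rw [Finset.sum_filter]
      refine Finset.sum_congr rfl fun j _ => ?_
      split_ifs <;> simp
    simp only [h2]
    rw [Finset.sum_comm]
    refine Finset.sum_congr rfl fun j _ => ?_
    rw [← Finset.sum_mul, hc]
    ring
  have h2 : ∀ z : ℕ → ℂ, cexp (I * ((∑ l, ξ l * Zb K m L z l).re : ℂ)) =
      ∏ j ∈ Finset.Icc 1 L, cexp (I * ((c j * z j).re : ℂ)) := by
    intro z
    rw [h1, ← Complex.exp_sum, Complex.re_sum, ← Finset.mul_sum]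
    push_cast
    rfl
  simp only [h2]
  rw [hF.1 (Finset.Icc 1 L) (fun j x => cexp (I * ((c j * x).re : ℂ))) (fun j => by fun_prop)]
  simp only [hA.2.1]
  rw [← Complex.ofReal_prod, ← Real.exp_sum]
  congr 2
  have hcj : ∀ j ∈ Finset.Icc 1 L, -(‖c j‖ ^ 2) / 4 =
      ∑ l : Fin m, if j ∈ blk K m L l then -(‖ξ l‖ ^ 2 * ((1 : ℝ) / j)) / 4 else 0 := by
    intro j hj
    have hj0 : (0 : ℝ) ≤ j := Nat.cast_nonneg _
    have h3 : ‖c j‖ ^ 2 = ‖e j‖ ^ 2 * ((1 : ℝ) / j) := by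
      rw [hc]
      simp only [norm_div, Complex.norm_real, Real.norm_eq_abs, div_pow]
      rw [sq_abs, Real.sq_sqrt hj0]
      ring
    rw [h3]
    by_cases hex : ∃ l : Fin m, j ∈ blk K m L l
    · obtain ⟨l₀, hl₀⟩ := hex
      have hun : ∀ l : Fin m, l ≠ l₀ → j ∉ blk K m L l := fun l hl h =>
        hl (Fin.ext (blk_unique hK hm h hl₀))
      have h4 : e j = ξ l₀ := by
        rw [he]
        simp only
        rw [Finset.sum_eq_single l₀ (fun l _ hl => if_neg (hun l hl))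
          (fun h => absurd (Finset.mem_univ _) h), if_pos hl₀]
      rw [h4, Finset.sum_eq_single l₀ (fun l _ hl => if_neg (hun l hl))
        (fun h => absurd (Finset.mem_univ _) h), if_pos hl₀]
    · push Not at hex
      have h4 : e j = 0 := by
        rw [he]
        exact Finset.sum_eq_zero fun l _ => if_neg (hex l)
      rw [h4, Finset.sum_eq_zero fun l _ => if_neg (hex l)]
      simp
  rw [Finset.sum_congr rfl hcj, Finset.sum_comm]
  have h5 : ∀ l : Fin m, (∑ j ∈ Finset.Icc 1 L,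
      if j ∈ blk K m L l then -(‖ξ l‖ ^ 2 * ((1 : ℝ) / j)) / 4 else 0) =
      -(‖ξ l‖ ^ 2 * VB K m L l) / 4 := by
    intro l
    rw [← Finset.sum_filter]
    have h3 : (Finset.Icc 1 L).filter (fun j => j ∈ blk K m L l) = blk K m L l := by
      ext j
      rw [Finset.mem_filter]
      exact ⟨fun h => h.2, fun h => ⟨(Finset.mem_filter.1 h).1, h⟩⟩
    rw [h3]
    unfold VB
    rw [Finset.mul_sum, ← Finset.sum_neg_distrib, Finset.sum_div]
  simp only [h5]
  rw [← Finset.sum_div, Finset.sum_neg_distrib]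

/-- moments of one block sum -/
private lemma mom_one (hO : Orth) (hH : Hyp) (K : ℝ) (m L : ℕ) (l : Fin m) (p : ℕ) (hp : 1 ≤ p) :
    Integrable (fun z => ‖Zb K m L z l‖ ^ p) Gm ∧
      ∫ z, ‖Zb K m L z l‖ ^ p ∂Gm ≤ (p * VB K m L l) ^ ((p : ℝ) / 2) := by
  classical
  set B : Finset (ℕ →₀ ℕ) := (blk K m L l).image fun j => Finsupp.single j 1 with hB
  have hinj : ∀ a ∈ blk K m L l, ∀ b ∈ blk K m L l,
      Finsupp.single a 1 = Finsupp.single b (1 : ℕ) → a = b := by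
    intro a _ b _ h
    exact Finsupp.single_left_injective one_ne_zero h
  have hB0 : ∀ α ∈ B, α 0 = 0 := by
    intro α hα
    obtain ⟨j, hj, rfl⟩ := Finset.mem_image.1 hα
    have := blk_one_le hj
    rw [Finsupp.single_apply, if_neg (by omega)]
  have hPG : ∀ z, PG (fun _ => 1) B z = Zb K m L z l := by
    intro z
    unfold PG
    rw [hB, Finset.sum_image hinj, Zb_eq]
    refine Finset.sum_congr rfl fun j _ => ?_
    unfold ee
    rw [Finsupp.prod_single_index] <;> simp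
  have hint := (hO B hB0).1 (fun _ => 1) p (Nat.cast_nonneg _)
  simp only [hPG, Real.rpow_natCast] at hint
  refine ⟨hint, ?_⟩
  have hp0 : (0 : ℝ) < p := by exact_mod_cast hp
  have h1 := hH p ((p : ℝ) / 2) hp (by positivity) (by linarith) B (fun _ => 1) hB0
  have h2 : ∑ α ∈ B, ‖(1 : ℂ)‖ ^ 2 * ww p α = p * VB K m L l := by
    rw [hB, Finset.sum_image hinj]
    unfold VB
    rw [Finset.mul_sum]
    refine Finset.sum_congr rfl fun j _ => ?_
    unfold ww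
    rw [Finsupp.prod_single_index] <;> simp
    ring
  rw [h2] at h1
  unfold MM at h1
  have h3 : ∀ z, ‖PG (fun _ => 1) B z‖ ^ (2 * ((p : ℝ) / 2)) = ‖Zb K m L z l‖ ^ p := by
    intro z
    rw [hPG, mul_div_cancel₀ (p : ℝ) two_ne_zero, Real.rpow_natCast]
  simp only [h3] at h1
  have h4 : 0 ≤ (p * VB K m L l : ℝ) ^ ((p : ℝ) / 2) :=
    Real.rpow_nonneg (mul_nonneg hp0.le (VB_nonneg _ _ _ _)) _
  rw [integral_eq_lintegral_of_nonneg_ae (Filter.Eventually.of_forall fun z => by positivity)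
    hint.aestronglyMeasurable]
  exact ENNReal.toReal_le_of_le_ofReal h4 h1

private lemma norm_pow_le {m : ℕ} (z : Fin m → ℂ) (p : ℕ) (hp : 1 ≤ p) :
    ‖z‖ ^ p ≤ ∑ l, ‖z l‖ ^ p := by
  by_cases hm : Nonempty (Fin m)
  · obtain ⟨l, -, hl⟩ := Finset.exists_mem_eq_sup' (Finset.univ_nonempty (α := Fin m))
      fun l => ‖z l‖
    have h1 : ‖z‖ ≤ ‖z l‖ := by
      rw [pi_norm_le_iff_of_nonneg (norm_nonneg _)]
      intro i
      rw [← hl]
      exact Finset.le_sup' (fun l => ‖z l‖) (Finset.mem_univ i)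
    refine (pow_le_pow_left₀ (norm_nonneg _) h1 p).trans ?_
    exact Finset.single_le_sum (f := fun l => ‖z l‖ ^ p) (fun _ _ => by positivity)
      (Finset.mem_univ l)
  · have h1 : ‖z‖ = 0 := by
      rw [norm_eq_zero]
      funext l
      exact absurd ⟨l⟩ hm
    rw [h1, zero_pow (by omega)]
    exact Finset.sum_nonneg fun _ _ => by positivity

/-- moments of the vector -/
private lemma mom_vec (hO : Orth) (hH : Hyp) {K : ℝ} (hK : 1 < K) {m : ℕ} (hm : 1 ≤ m) (p : ℕ) :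
    (∀ L, Integrable (fun z => ‖Zb K m L z‖ ^ p) Gm) ∧
      ∃ C : ℝ, ∀ L, ∫ z, ‖Zb K m L z‖ ^ p ∂Gm ≤ C := by
  rcases Nat.eq_zero_or_pos p with hp | hp
  · subst hp
    simp only [pow_zero]
    exact ⟨fun L => integrable_const _, 1, fun L => by simp⟩
  · have hsum : ∀ L, Integrable (fun z => ∑ l : Fin m, ‖Zb K m L z l‖ ^ p) Gm := fun L =>
      integrable_finsetSum _ fun l _ => (mom_one hO hH K m L l p hp).1
    have hint : ∀ L, Integrable (fun z => ‖Zb K m L z‖ ^ p) Gm := by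
      intro L
      refine (hsum L).mono' ?_ (Filter.Eventually.of_forall fun z => ?_)
      · exact ((Zb_cont K m L).norm.pow p).aestronglyMeasurable
      · rw [Real.norm_eq_abs, abs_of_nonneg (by positivity)]
        exact norm_pow_le _ p hp
    refine ⟨hint, ?_⟩
    have hbd : ∀ l : Fin m, ∃ C : ℝ, 0 ≤ C ∧ ∀ L, VB K m L l ≤ C := by
      intro l
      obtain ⟨C, hC⟩ := (VB_tendsto hK hm l.2).bddAbove_range
      refine ⟨max C 0, le_max_right _ _, fun L => (hC ⟨L, rfl⟩).trans (le_max_left _ _)⟩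
    choose C hC0 hC using hbd
    refine ⟨∑ l, ((p : ℝ) * C l) ^ ((p : ℝ) / 2), fun L => ?_⟩
    calc ∫ z, ‖Zb K m L z‖ ^ p ∂Gm ≤ ∫ z, ∑ l : Fin m, ‖Zb K m L z l‖ ^ p ∂Gm :=
          integral_mono (hint L) (hsum L) fun z => norm_pow_le _ p hp
      _ = ∑ l : Fin m, ∫ z, ‖Zb K m L z l‖ ^ p ∂Gm :=
          integral_finsetSum _ fun l _ => (mom_one hO hH K m L l p hp).1
      _ ≤ ∑ l, ((p : ℝ) * C l) ^ ((p : ℝ) / 2) := by
          refine Finset.sum_le_sum fun l _ => (mom_one hO hH K m L l p hp).2.trans ?_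
          refine Real.rpow_le_rpow (mul_nonneg (Nat.cast_nonneg _) (VB_nonneg _ _ _ _)) ?_
            (by positivity)
          exact mul_le_mul_of_nonneg_left (hC l L) (Nat.cast_nonneg _)

theorem pMLim (hA : OneA) (hF : ProdF) (hO : Orth) (hH : Hyp) (hgA : MT.GauA) (hgB : MT.GauB) (hLv : MT.LevyC) (hU : MT.UnifInt) : PMLim := by
  intro k B Lam w hk hw K m hK hm
  have hsg : ∀ j : Fin m, 0 ≤ MT.sg K m j := fun j => sg_nonneg hK hm j
  have hfc : Continuous (fun z : Fin m → ℂ => ‖MT.PM w K m z‖ ^ (2 * k)) :=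
    (PM_cont w K m).norm.rpow_const fun z => Or.inr (by positivity)
  obtain ⟨C, p, hCp⟩ := PM_growth w B hw.bd K m k hk
  set μ : ℕ → Measure (Fin m → ℂ) := fun L => Gm.map (Zb K m L) with hμ
  have hmeas : ∀ L, AEMeasurable (Zb K m L) Gm := fun L => (Zb_cont K m L).measurable.aemeasurable
  have hprob : ∀ L, IsProbabilityMeasure (μ L) := fun L =>
    Measure.isProbabilityMeasure_map (hmeas L)
  have hγ := hgA m (fun j => MT.sg K m j) hsg
  have hprobγ := hγ.1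
  have hmap : ∀ (L : ℕ) (f : (Fin m → ℂ) → ℝ), Continuous f →
      ∫ z, f z ∂(μ L) = ∫ z, f (Zb K m L z) ∂Gm := fun L f hf =>
    integral_map (hmeas L) hf.aestronglyMeasurable
  have hchar : ∀ ξ : Fin m → ℂ, Tendsto (fun L => ∫ z, cexp (I * ((∑ j, ξ j * z j).re : ℂ)) ∂(μ L))
      atTop (𝓝 (∫ z, cexp (I * ((∑ j, ξ j * z j).re : ℂ))
        ∂(MT.gam m fun j => MT.sg K m j))) := by
    intro ξ
    rw [hgB m (fun j => MT.sg K m j) hsg ξ]
    have h1 : ∀ L, ∫ z, cexp (I * ((∑ j, ξ j * z j).re : ℂ)) ∂(μ L) =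
        (Real.exp (-(∑ l : Fin m, ‖ξ l‖ ^ 2 * VB K m L l) / 4) : ℂ) := by
      intro L
      have hc : Continuous fun z : Fin m → ℂ => cexp (I * ((∑ j, ξ j * z j).re : ℂ)) := by
        fun_prop
      rw [hμ]
      simp only
      rw [integral_map (hmeas L) hc.aestronglyMeasurable]
      exact charf hA hF hK hm L ξ
    simp only [h1]
    have h2 : Tendsto (fun L => Real.exp (-(∑ l : Fin m, ‖ξ l‖ ^ 2 * VB K m L l) / 4)) atTop
        (𝓝 (Real.exp (-(∑ j : Fin m, ‖ξ j‖ ^ 2 * MT.sg K m j) / 4))) := by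
      refine (Real.continuous_exp.tendsto _).comp ?_
      refine Tendsto.div_const (Tendsto.neg (tendsto_finsetSum _ fun l _ => ?_)) _
      exact (VB_tendsto hK hm l.2).const_mul _
    exact (Complex.continuous_ofReal.tendsto _).comp h2
  have hint : ∀ (L q : ℕ), Integrable (fun z : Fin m → ℂ => ‖z‖ ^ q) (μ L) := by
    intro L q
    have hc2 : Continuous (fun z : Fin m → ℂ => ‖z‖ ^ q) := by fun_prop
    rw [hμ]
    exact (integrable_map_measure hc2.aestronglyMeasurable (hmeas L)).2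
      ((mom_vec hO hH hK hm q).1 L)
  refine ⟨fun L => ?_, ?_⟩
  · -- integrability
    have h1 : Integrable (fun z => |C| * (2 ^ p * (1 + ‖Zb K m L z‖ ^ p))) Gm :=
      (((integrable_const (1 : ℝ)).add ((mom_vec hO hH hK hm p).1 L)).const_mul _).const_mul _
    refine h1.mono' (hfc.comp (Zb_cont K m L)).aestronglyMeasurable
      (Filter.Eventually.of_forall fun z => ?_)
    rw [Real.norm_eq_abs]
    refine (hCp _).trans ?_
    have h0 : 0 ≤ ‖Zb K m L z‖ := norm_nonneg _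
    have h2 : (1 + ‖Zb K m L z‖) ^ p ≤ 2 ^ p * (1 + ‖Zb K m L z‖ ^ p) := by
      have h3 : 1 + ‖Zb K m L z‖ ≤ 2 * max 1 ‖Zb K m L z‖ := by
        have := le_max_left 1 ‖Zb K m L z‖
        have := le_max_right 1 ‖Zb K m L z‖
        linarith
      refine (pow_le_pow_left₀ (by linarith) h3 p).trans ?_
      rw [mul_pow]
      refine mul_le_mul_of_nonneg_left ?_ (by positivity)
      rcases le_total 1 ‖Zb K m L z‖ with h4 | h4
      · rw [max_eq_right h4]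
        linarith
      · rw [max_eq_left h4, one_pow]
        have : 0 ≤ ‖Zb K m L z‖ ^ p := by positivity
        linarith
    calc C * (1 + ‖Zb K m L z‖) ^ p ≤ |C| * (1 + ‖Zb K m L z‖) ^ p :=
          mul_le_mul_of_nonneg_right (le_abs_self C) (by positivity)
      _ ≤ |C| * (2 ^ p * (1 + ‖Zb K m L z‖ ^ p)) :=
          mul_le_mul_of_nonneg_left h2 (abs_nonneg _)
  · have h1 := hU m μ (MT.gam m fun j => MT.sg K m j) hprob hprobγ
      (hLv m μ (MT.gam m fun j => MT.sg K m j) hprob hprobγ hchar) hint hγ.2 (fun q => by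
        obtain ⟨D, hD⟩ := (mom_vec hO hH hK hm q).2
        refine ⟨D, fun L => ?_⟩
        rw [hmap L (fun z => ‖z‖ ^ q) (by fun_prop)]
        exact hD L) (fun z => ‖MT.PM w K m z‖ ^ (2 * k)) hfc ⟨C, p, hCp⟩
    refine h1.congr fun L => ?_
    exact hmap L _ hfc

end Pool.Agent.Lib.RM
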