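import Mathlib
import Pool.Agent.Lib.MP_f9aece_nt_rm.Stmts

/-!
The constants of the moments of the partial sums of zeta, module C4.

Fixed `K`. `DecA` gives `C`; for `m` and all large `Y` and measures with `MVR ν Y X η`: `∫ ‖SW‖^(2k) ≤ C`, `∫ ‖SW - PM (GB)‖^(2k) ≤ C (1/m)^(2k)`, `∫ ‖PM (GB)‖^(2k)` is within `ε'` of
the Gaussian integral (`DecM`), `∫ ‖SW‖^(2k)` within `ε'` of `g` (`MT.Dec`). `PowIneq` (`s = 2k`, `η`): `|∫ ‖SW‖^s - ∫ ‖PM‖^s| ≤ η C + C' C (1/m)^s` (integrability: bounded continuous functions of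
`t` under a probability measure, copy `compare`, `cb_SW` etc. from `mt/T19DecLimit.lean`). Choose `η`, then `m0`, then one measure: `MS.UnifMVP` (uniform measure on a long interval) and
`MVP → MVR` (as in `mt/T19DecLimit.lean`, which is the model for this row).
-/

set_option autoImplicit false

namespace Pool.Agent.Lib.RM

open MeasureTheory ProbabilityTheory Set Filter Topology Complex
open scoped ComplexConjugate
open Pool.Agent.Lib.MP_f9aece_nt (DP ev Smo)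
open Pool.Agent.Lib.MT (SW PM GB gam sg)
open Pool.Agent.Lib.MS (un)

private theorem dl_ev_bd (f : DP) : ∃ C : ℝ, ∀ t : ℝ, ‖ev t f‖ ≤ C := by
  refine ⟨∑ a ∈ f.coeff.support, |f.coeff a|, fun t => ?_⟩
  rw [Pool.Agent.Lib.MP_f9aece_nt.ev_apply]
  refine (norm_sum_le _ _).trans (Finset.sum_le_sum fun a _ => ?_)
  rw [norm_mul, Complex.norm_real, Real.norm_eq_abs]
  rcases Nat.eq_zero_or_pos a with rfl | ha
  · have h : ((0 : ℕ) : ℂ) ^ (-(1 / 2 + I * t : ℂ)) = 0 := by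
      rw [Nat.cast_zero, Complex.zero_cpow]
      intro h
      have := congrArg Complex.re h
      simp at this
    rw [h, norm_zero, mul_zero]
    exact abs_nonneg _
  · rw [Complex.norm_natCast_cpow_of_pos ha]
    have h : (a : ℝ) ^ (-(1 / 2 + I * t : ℂ)).re ≤ 1 := by
      apply Real.rpow_le_one_of_one_le_of_nonpos
      · exact_mod_cast ha
      · simp
    exact mul_le_of_le_one_right (abs_nonneg _) h

/-- continuous and bounded -/
private def CB (F : ℝ → ℂ) : Prop := Continuous F ∧ ∃ C : ℝ, ∀ t, ‖F t‖ ≤ C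

private theorem CB_ev (f : DP) : CB (fun t => ev t f) :=
  ⟨Pool.Agent.Lib.MP_f9aece_nt.continuous_ev f, dl_ev_bd f⟩

private theorem CB_add {F G : ℝ → ℂ} (hF : CB F) (hG : CB G) : CB (fun t => F t + G t) := by
  obtain ⟨h1, C, hC⟩ := hF
  obtain ⟨h2, D, hD⟩ := hG
  exact ⟨h1.add h2, C + D, fun t => (norm_add_le _ _).trans (add_le_add (hC t) (hD t))⟩

private theorem CB_sub {F G : ℝ → ℂ} (hF : CB F) (hG : CB G) : CB (fun t => F t - G t) := by
  obtain ⟨h1, C, hC⟩ := hF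
  obtain ⟨h2, D, hD⟩ := hG
  exact ⟨h1.sub h2, C + D, fun t => (norm_sub_le _ _).trans (add_le_add (hC t) (hD t))⟩

private theorem CB_const_mul (c : ℂ) {F : ℝ → ℂ} (hF : CB F) : CB (fun t => c * F t) := by
  obtain ⟨h1, C, hC⟩ := hF
  refine ⟨continuous_const.mul h1, ‖c‖ * C, fun t => ?_⟩
  rw [norm_mul]
  exact mul_le_mul_of_nonneg_left (hC t) (norm_nonneg _)

private theorem CB_SW (w : ℝ → ℂ) (p0 : ℕ) (Y L : ℝ) : CB (fun t => SW w p0 Y L t) :=
  CB_add (CB_ev _) (CB_const_mul I (CB_ev _))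

private theorem dl_PM_cont (w : ℝ → ℂ) (K : ℝ) (m : ℕ) : Continuous (PM w K m) := by
  unfold PM
  fun_prop

private theorem CB_PM (w : ℝ → ℂ) (K : ℝ) (m : ℕ) (Y : ℝ) :
    CB (fun t => PM w K m (GB K m Y t)) := by
  have h1 : Continuous fun t : ℝ => GB K m Y t :=
    continuous_pi fun j => Pool.Agent.Lib.MP_f9aece_nt.continuous_ev _
  refine ⟨(dl_PM_cont w K m).comp h1, ?_⟩
  have h2 : ∀ j : Fin m, ∃ C : ℝ, ∀ t : ℝ, ‖GB K m Y t j‖ ≤ C := fun j => dl_ev_bd _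
  choose C hC using h2
  have h3 : ∀ t : ℝ, GB K m Y t ∈ Metric.closedBall (0 : Fin m → ℂ) (∑ j, |C j|) := by
    intro t
    rw [mem_closedBall_zero_iff]
    refine (pi_norm_le_iff_of_nonneg (Finset.sum_nonneg fun j _ => abs_nonneg _)).2 fun j => ?_
    refine (hC j t).trans ((le_abs_self _).trans ?_)
    exact Finset.single_le_sum (f := fun j => |C j|) (fun j _ => abs_nonneg _) (Finset.mem_univ j)
  obtain ⟨D, hD⟩ := (isCompact_closedBall (0 : Fin m → ℂ) (∑ j, |C j|)).exists_bound_of_continuousOn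
    (dl_PM_cont w K m).continuousOn
  exact ⟨D, fun t => hD _ (h3 t)⟩

private theorem CB_int {F : ℝ → ℂ} (hF : CB F) {s : ℝ} (hs : 0 < s) (ν : Measure ℝ)
    [IsProbabilityMeasure ν] : Integrable (fun t => ‖F t‖ ^ s) ν := by
  obtain ⟨h1, C, hC⟩ := hF
  refine (integrable_const (C ^ s)).mono' ?_ ?_
  · exact (h1.norm.rpow_const fun t => Or.inr hs.le).aestronglyMeasurable
  · refine Eventually.of_forall fun t => ?_
    rw [Real.norm_eq_abs, abs_of_nonneg (Real.rpow_nonneg (norm_nonneg _) _)]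
    exact Real.rpow_le_rpow (norm_nonneg _) (hC t) hs.le

/-- one good measure -/
private theorem good_ex (h0 : MS.UnifMVP) (n : ℕ) : ∃ (ν : Measure ℝ) (Y X η : ℝ),
    (n : ℝ) + 1 ≤ Y ∧ Real.exp (((n : ℝ) + 1) * Y) ≤ X ∧ 0 ≤ η ∧ η * ((n : ℝ) + 1) ≤ 1 ∧
    MT.MVR ν Y X η := by
  obtain ⟨X, hX⟩ : ∃ X, X = Real.exp (((n : ℝ) + 1) * ((n : ℝ) + 1)) := ⟨_, rfl⟩
  have hn : (0 : ℝ) ≤ n := Nat.cast_nonneg _
  have hX1 : 1 ≤ X := by
    rw [hX]
    exact Real.one_le_exp (by positivity)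
  obtain ⟨T, hT⟩ : ∃ T, T = 2 * X ^ 2 * ((n : ℝ) + 1) := ⟨_, rfl⟩
  have hT0 : 0 < T := by
    rw [hT]
    positivity
  have hη : 2 * X ^ 2 / T = 1 / ((n : ℝ) + 1) := by
    rw [hT]
    field_simp
  have hM := h0 0 T X hT0 hX1
  refine ⟨un 0 T, (n : ℝ) + 1, X, 2 * X ^ 2 / T, le_rfl, hX.symm.le, ?_, ?_, ?_⟩
  · positivity
  · rw [hη, one_div_mul_cancel (by positivity)]
  · refine ⟨hM.prob, fun P Q hP hQ => hM.mv P Q ?_ ?_⟩
    · intro a ha
      exact ⟨Nat.one_le_iff_ne_zero.2 (hP a ha).1.1, (hP a ha).2⟩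
    · intro a ha
      exact ⟨Nat.one_le_iff_ne_zero.2 (hQ a ha).1.1, (hQ a ha).2⟩

theorem decPM (hM : MT.DecM) (hA : MT.DecA) (hI : MT.PowIneq) (hU : MS.UnifMVP) : DecPM := by
  intro k B Lam w hk hw K g hK hDec ε hε
  have hk2 : 0 < 2 * k := by positivity
  obtain ⟨C, hC0, hC⟩ := hA k B Lam w hk hw K hK
  obtain ⟨Cη, hCη0, hCη⟩ := hI (2 * k) (ε / (4 * (C + 1))) hk2 (by positivity)
  -- the choice of m
  have hlim : Tendsto (fun m : ℕ => Cη * (C * (1 / (m : ℝ)) ^ (2 * k))) atTop (𝓝 0) := by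
    have hl1 : Tendsto (fun m : ℕ => (1 / (m : ℝ)) ^ (2 * k)) atTop (𝓝 0) := by
      have := (tendsto_one_div_atTop_nhds_zero_nat (𝕜 := ℝ)).rpow_const
        (p := 2 * k) (Or.inr hk2.le)
      rwa [Real.zero_rpow hk2.ne'] at this
    have := (hl1.const_mul C).const_mul Cη
    simpa using this
  have hev := (hlim.eventually_le_const (show (0 : ℝ) < ε / 4 by positivity)).and
    (eventually_ge_atTop 1)
  obtain ⟨m0, hm0⟩ := eventually_atTop.1 hev
  refine ⟨m0, fun m hmm => ?_⟩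
  obtain ⟨hm1, hm⟩ := hm0 m hmm
  obtain ⟨N1, hN1, hA⟩ := hC m hm
  obtain ⟨N2, hN2, hD⟩ := hM k B Lam w hk hw K m hK hm (ε / 4) (by positivity)
  obtain ⟨N3, hN3, hE⟩ := hDec (ε / 4) (by positivity)
  obtain ⟨n, hn⟩ := exists_nat_ge (max (max N1 N2) N3)
  obtain ⟨ν, Y, X, η, i1, i2, i3, i4, i5⟩ := good_ex hU n
  have hn0 : (0 : ℝ) ≤ n := Nat.cast_nonneg _
  have hY : 0 ≤ Y := by linarith
  have hn1 : N1 ≤ n := ((le_max_left _ _).trans (le_max_left _ _)).trans hn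
  have hn2 : N2 ≤ n := ((le_max_right _ _).trans (le_max_left _ _)).trans hn
  have hn3 : N3 ≤ n := (le_max_right _ _).trans hn
  obtain ⟨a1, a2⟩ := hA ν Y X η (by linarith)
    ((Real.exp_le_exp.2 (mul_le_mul_of_nonneg_right (by linarith) hY)).trans i2) i3
    ((mul_le_mul_of_nonneg_left (by linarith) i3).trans i4) i5
  have a3 := hD ν Y X η (by linarith)
    ((Real.exp_le_exp.2 (mul_le_mul_of_nonneg_right (by linarith) hY)).trans i2) i3
    ((mul_le_mul_of_nonneg_left (by linarith) i3).trans i4) i5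
  have a4 := hE ν Y X η (by linarith)
    ((Real.exp_le_exp.2 (mul_le_mul_of_nonneg_right (by linarith) hY)).trans i2) i3
    ((mul_le_mul_of_nonneg_left (by linarith) i3).trans i4) i5
  have hpr := i5.prob
  have e1 := CB_int (CB_SW w 0 Y (K * Y)) hk2 ν
  have e2 := CB_int (CB_PM w K m Y) hk2 ν
  have e3 := CB_int (CB_sub (CB_SW w 0 Y (K * Y)) (CB_PM w K m Y)) hk2 ν
  have b1 : |∫ t, ‖SW w 0 Y (K * Y) t‖ ^ (2 * k) ∂ν - ∫ t, ‖PM w K m (GB K m Y t)‖ ^ (2 * k) ∂ν|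
      ≤ ε / (4 * (C + 1)) * C + Cη * (C * (1 / (m : ℝ)) ^ (2 * k)) := by
    rw [← integral_sub e1 e2]
    refine (abs_integral_le_integral_abs).trans ?_
    have b2 : ∫ t, |‖SW w 0 Y (K * Y) t‖ ^ (2 * k) - ‖PM w K m (GB K m Y t)‖ ^ (2 * k)| ∂ν ≤
        ∫ t, (ε / (4 * (C + 1)) * ‖SW w 0 Y (K * Y) t‖ ^ (2 * k) +
          Cη * ‖SW w 0 Y (K * Y) t - PM w K m (GB K m Y t)‖ ^ (2 * k)) ∂ν := by
      refine integral_mono (e1.sub e2).abs ((e1.const_mul _).add (e3.const_mul _)) fun t => ?_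
      exact hCη _ _
    refine b2.trans ?_
    rw [integral_add (e1.const_mul _) (e3.const_mul _), integral_const_mul, integral_const_mul]
    exact add_le_add (mul_le_mul_of_nonneg_left a1 (by positivity))
      (mul_le_mul_of_nonneg_left a2 hCη0)
  have b3 : ε / (4 * (C + 1)) * C ≤ ε / 4 := by
    have : ε / (4 * (C + 1)) * C = ε / 4 * (C / (C + 1)) := by
      field_simp
    rw [this]
    refine mul_le_of_le_one_right (by positivity) ?_
    rw [div_le_one (by positivity)]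
    linarith
  rw [abs_le] at b1 a3 a4 ⊢
  constructor
  · linarith [b1.2, a3.1, a4.1]
  · linarith [b1.1, a3.2, a4.2]

end Pool.Agent.Lib.RM
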