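import Mathlib
import Pool.Agent.Lib.MP_f9aece_nt_rm.Stmts

/-!
The constants of the moments of the partial sums of zeta, module C5: the limit of the rough part of
the Gaussian model.
-/

set_option autoImplicit false

namespace Pool.Agent.Lib.RM

open MeasureTheory ProbabilityTheory Set Filter Topology Complex
open scoped ComplexConjugate

namespace C5

private lemma cont_pow {F : (ℕ → ℂ) → ℂ} (hF : Continuous F) {k : ℝ} (hk : 0 < k) :
    Continuous fun z => ‖F z‖ ^ (2 * k) :=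
  hF.norm.rpow_const fun _ => Or.inr (by positivity)

private lemma int_of_MM {F : (ℕ → ℂ) → ℂ} (hF : Continuous F) {k c : ℝ} (hk : 0 < k) (hc : 0 ≤ c)
    (h : MM k F ≤ ENNReal.ofReal c) :
    Integrable (fun z => ‖F z‖ ^ (2 * k)) Gm ∧ ∫ z, ‖F z‖ ^ (2 * k) ∂Gm ≤ c := by
  have h0 : ∀ z, 0 ≤ ‖F z‖ ^ (2 * k) := fun z => by positivity
  have hm : AEStronglyMeasurable (fun z => ‖F z‖ ^ (2 * k)) Gm :=
    (cont_pow hF hk).aestronglyMeasurable
  constructor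
  · refine ⟨hm, ?_⟩
    rw [hasFiniteIntegral_iff_ofReal (Eventually.of_forall h0)]
    exact lt_of_le_of_lt h ENNReal.ofReal_lt_top
  · rw [integral_eq_lintegral_of_nonneg_ae (Eventually.of_forall h0) hm]
    exact ENNReal.toReal_le_of_le_ofReal hc h

private lemma cont_PMZ (w : ℝ → ℂ) (K : ℝ) (m L : ℕ) :
    Continuous fun z => MT.PM w K m (Zb K m L z) := by
  unfold MT.PM Zb
  refine continuous_finsetSum _ fun r _ => continuous_const.mul ?_
  refine continuous_finsetSum _ fun j _ => continuous_const.mul ?_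
  refine continuous_finsetProd _ fun i _ => ?_
  refine continuous_finsetSum _ fun l _ => ?_
  exact (continuous_apply l).div_const _

end C5

open C5

theorem rLim (h2 : RPM) (h3 : PMLim) (h4 : DecPM) (hI : MT.PowIneq) (hO : Orth) : RLim := by
  intro k B Lam w hk hw K g hK hg
  have hs' : 0 < 2 * k := by linarith
  obtain ⟨C, hC, hR⟩ := h2 k B Lam w hk hw K hK
  rw [Metric.tendsto_atTop]
  intro ε hε
  obtain ⟨η, hη⟩ : ∃ η : ℝ, η = ε / (8 * (C + 1)) := ⟨_, rfl⟩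
  have hη0 : 0 < η := by rw [hη]; positivity
  obtain ⟨C', hC', hpow⟩ := hI (2 * k) η hs' hη0
  obtain ⟨m0, hm0⟩ := h4 k B Lam w hk hw K g hK hg (ε / 8) (by positivity)
  obtain ⟨m1, hm1⟩ : ∃ m1 : ℕ, ∀ m : ℕ, m1 ≤ m → C' * (C * (1 / (m : ℝ)) ^ (2 * k)) ≤ ε / 8 := by
    have h5 : Tendsto (fun m : ℕ => C' * (C * (1 / (m : ℝ)) ^ (2 * k))) atTop
        (𝓝 (C' * (C * 0 ^ (2 * k)))) := by
      refine Tendsto.const_mul _ (Tendsto.const_mul _ ?_)
      exact tendsto_one_div_atTop_nhds_zero_nat.rpow_const (Or.inr hs'.le)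
    rw [Real.zero_rpow hs'.ne', mul_zero, mul_zero] at h5
    obtain ⟨m1, hm1⟩ := (Metric.tendsto_atTop.mp h5) (ε / 8) (by positivity)
    refine ⟨m1, fun m hm => ?_⟩
    have := hm1 m hm
    rw [Real.dist_eq, sub_zero] at this
    exact (le_abs_self _).trans this.le
  obtain ⟨m, hmd⟩ : ∃ m : ℕ, m = max 1 (max m0 m1) := ⟨_, rfl⟩
  have hma : 1 ≤ m := by rw [hmd]; exact le_max_left _ _
  have hmb : m0 ≤ m := by rw [hmd]; exact (le_max_left _ _).trans (le_max_right _ _)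
  have hmc : m1 ≤ m := by rw [hmd]; exact (le_max_right _ _).trans (le_max_right _ _)
  obtain ⟨hint, hlim⟩ := h3 k B Lam w hk hw K m hK hma
  obtain ⟨L1, hL1⟩ := (Metric.tendsto_atTop.mp hlim) (ε / 8) (by positivity)
  refine ⟨max L1 ⌈K⌉₊, fun L hL => ?_⟩
  have hLK : K ≤ L := (Nat.le_ceil K).trans (by exact_mod_cast (le_max_right _ _).trans hL)
  obtain ⟨hR1, hR2⟩ := hR m L hma hLK
  have hcS := continuous_SG (fun n => w ((n : ℝ) / L)) (Finset.Ioc ⌊(L : ℝ) / K⌋₊ L) L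
  obtain ⟨i1, b1⟩ := int_of_MM hcS hk hC hR1
  have hcd : Continuous fun z => SG (fun n => w ((n : ℝ) / L)) (Finset.Ioc ⌊(L : ℝ) / K⌋₊ L) L z
    - MT.PM w K m (Zb K m L z) := hcS.sub (cont_PMZ w K m L)
  obtain ⟨i2, b2⟩ := int_of_MM hcd hk (by positivity) hR2
  have i3 := hint L
  have h8 := hL1 L ((le_max_left _ _).trans hL)
  rw [Real.dist_eq] at h8 ⊢
  have h9 := hm0 m hmb
  have h10 := hm1 m hmc
  obtain ⟨IS, hIS⟩ : ∃ x, x = ∫ z, ‖SG (fun n => w ((n : ℝ) / L)) (Finset.Ioc ⌊(L : ℝ) / K⌋₊ L) L z‖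
    ^ (2 * k) ∂Gm := ⟨_, rfl⟩
  obtain ⟨IP, hIP⟩ : ∃ x, x = ∫ z, ‖MT.PM w K m (Zb K m L z)‖ ^ (2 * k) ∂Gm := ⟨_, rfl⟩
  obtain ⟨ID, hID⟩ : ∃ x, x = ∫ z, ‖SG (fun n => w ((n : ℝ) / L)) (Finset.Ioc ⌊(L : ℝ) / K⌋₊ L) L z
    - MT.PM w K m (Zb K m L z)‖ ^ (2 * k) ∂Gm := ⟨_, rfl⟩
  obtain ⟨G, hGd⟩ : ∃ x, x = ∫ z, ‖MT.PM w K m z‖ ^ (2 * k) ∂(MT.gam m fun j => MT.sg K m j) :=
    ⟨_, rfl⟩
  have c1 : |IS - IP| ≤ η * IS + C' * ID := by
    rw [hIS, hIP, hID, ← integral_sub i1 i3, ← integral_const_mul, ← integral_const_mul,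
      ← integral_add (i1.const_mul _) (i2.const_mul _)]
    refine (abs_integral_le_integral_abs).trans ?_
    exact integral_mono (i1.sub i3).abs ((i1.const_mul _).add (i2.const_mul _)) fun z => hpow _ _
  rw [← hIS] at b1 ⊢
  rw [← hID] at b2
  rw [← hIP, ← hGd] at h8
  rw [← hGd] at h9
  have h11 : η * IS ≤ ε / 8 := by
    calc η * IS ≤ η * (C + 1) := mul_le_mul_of_nonneg_left (by linarith) hη0.le
      _ = ε / 8 := by rw [hη]; field_simp
  have h12 : C' * ID ≤ C' * (C * (1 / (m : ℝ)) ^ (2 * k)) := mul_le_mul_of_nonneg_left b2 hC'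
  have h13 := abs_sub_le IS IP g
  have h14 := abs_sub_le IP G g
  linarith

end Pool.Agent.Lib.RM
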