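import Mathlib
import Pool.Agent.Lib.MP_f9aece_nt_rm.StmtsG

/-!
The constants of the moments of the partial sums of zeta, module C8.

`c n = a n` with `a n = ∑ ee α z` over `α` with `α 0 = 0`, `dg α = n` (finite set, e.g. `(bx (Finset.Icc 1 n) (n + 1)).filter (dg · = n)`;
any larger box gives the same filter). `a 0 = 1`, `(n + 1) a (n + 1) = ∑_(j ≤ n) √(j+1) z_(j+1) a (n - j)`: `n a n = ∑_α ∑_j j α_j ee α z` and
`j α_j x_j^(α_j)/α_j! = (j x_j) x_j^(α_j - 1)/(α_j - 1)!` with `x_j = z_j/√j`, `j x_j = √j z_j`: bijection `α = α' + δ_j`. Strong induction gives `c = a`. Then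
`SG (1_(≤ L)) (Icc 1 L) L z = ∑_(n ≤ L) a n` (sum over the fibres of `dg`; for `dg α = n ≤ L`, `α 0 = 0`: support in `Icc 1 L`, entries `≤ L`, `mul_le_dg`).
-/

set_option autoImplicit false

namespace Pool.Agent.Lib.RM

open MeasureTheory ProbabilityTheory Set Filter Topology Complex
open scoped ComplexConjugate

/-- one factor, truncated -/
private noncomputable def c8P (x : ℕ → ℂ) (L j : ℕ) : Polynomial ℂ :=
  ∑ a ∈ Finset.range (L + 1), Polynomial.C (x j ^ a / (a.factorial : ℂ)) * Polynomial.X ^ (j * a)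

private lemma c8_prod (z : ℕ → ℂ) (L : ℕ) (D : Finset ℕ) :
    ∏ j ∈ D, c8P (fun j => z j / (Real.sqrt j : ℂ)) L j
      = ∑ α ∈ bx D (L + 1), Polynomial.C (ee α z) * Polynomial.X ^ dg α := by
  unfold c8P
  rw [← sum_bx_prod D (L + 1) fun j a =>
    Polynomial.C ((z j / (Real.sqrt j : ℂ)) ^ a / (a.factorial : ℂ)) * Polynomial.X ^ (j * a)]
  refine Finset.sum_congr rfl fun α hα => ?_
  have hs := (mem_bx.mp hα).1
  rw [Finset.prod_mul_distrib, ee_eq_prod hs, map_prod, Finset.prod_pow_eq_pow_sum]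
  congr 2
  unfold dg
  exact (Finsupp.sum_of_support_subset _ hs _ (fun j _ => by simp)).symm

private lemma c8_der (x : ℕ → ℂ) (L j : ℕ) :
    Polynomial.X * Polynomial.derivative (c8P x L j)
      = Polynomial.C ((j : ℂ) * x j) * Polynomial.X ^ j
        * (c8P x L j - Polynomial.C (x j ^ L / (L.factorial : ℂ)) * Polynomial.X ^ (j * L)) := by
  have h1 : c8P x L j - Polynomial.C (x j ^ L / (L.factorial : ℂ)) * Polynomial.X ^ (j * L)
      = ∑ a ∈ Finset.range L, Polynomial.C (x j ^ a / (a.factorial : ℂ)) * Polynomial.X ^ (j * a) := by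
    unfold c8P
    rw [Finset.sum_range_succ]
    ring
  rw [h1]
  unfold c8P
  rw [Polynomial.derivative_sum, Finset.mul_sum, Finset.sum_range_succ', Finset.mul_sum]
  have h0 : Polynomial.X * Polynomial.derivative
      (Polynomial.C (x j ^ 0 / (Nat.factorial 0 : ℂ)) * Polynomial.X ^ (j * 0)) = 0 := by
    simp
  rw [h0, add_zero]
  refine Finset.sum_congr rfl fun a _ => ?_
  rw [Polynomial.derivative_C_mul_X_pow]
  rcases Nat.eq_zero_or_pos j with hj | hj
  · subst hj
    simp
  · have h2 : j * (a + 1) = (j * (a + 1) - 1) + 1 := by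
      have : 0 < j * (a + 1) := Nat.mul_pos hj (Nat.succ_pos a)
      omega
    have h3 : (Polynomial.X : Polynomial ℂ) * (Polynomial.C (x j ^ (a + 1) / (((a + 1).factorial : ℕ) : ℂ)
        * ((j * (a + 1) : ℕ) : ℂ)) * Polynomial.X ^ (j * (a + 1) - 1))
        = Polynomial.C (x j ^ (a + 1) / (((a + 1).factorial : ℕ) : ℂ)
        * ((j * (a + 1) : ℕ) : ℂ)) * Polynomial.X ^ (j * (a + 1)) := by
      have h2' : (Polynomial.X : Polynomial ℂ) ^ (j * (a + 1))
          = Polynomial.X ^ (j * (a + 1) - 1) * Polynomial.X := by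
        conv_lhs => rw [h2]
        rw [pow_succ]
      rw [h2']
      ring
    rw [h3]
    have h4 : x j ^ (a + 1) / (((a + 1).factorial : ℕ) : ℂ) * ((j * (a + 1) : ℕ) : ℂ)
        = ((j : ℂ) * x j) * (x j ^ a / ((a.factorial : ℕ) : ℂ)) := by
      rw [Nat.factorial_succ]
      have h5 : ((a.factorial : ℕ) : ℂ) ≠ 0 := by exact_mod_cast Nat.factorial_ne_zero a
      have h6 : ((a : ℂ) + 1) ≠ 0 := by exact_mod_cast Nat.succ_ne_zero a
      push_cast
      field_simp
      ring
    rw [h4, Polynomial.C_mul, mul_add, pow_add, mul_one]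
    ring

private lemma c8_rec (x : ℕ → ℂ) (L : ℕ) (n : ℕ) (hn : n + 1 ≤ L) :
    ((n : ℂ) + 1) * (∏ j ∈ Finset.Icc 1 L, c8P x L j).coeff (n + 1)
      = ∑ j ∈ Finset.range (n + 1), (((j : ℂ) + 1) * x (j + 1))
        * (∏ j ∈ Finset.Icc 1 L, c8P x L j).coeff (n - j) := by
  classical
  set F := ∏ j ∈ Finset.Icc 1 L, c8P x L j with hF
  have h1 : (Polynomial.X * Polynomial.derivative F).coeff (n + 1) = ((n : ℂ) + 1) * F.coeff (n + 1) := by
    rw [Polynomial.coeff_X_mul, Polynomial.coeff_derivative]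
    ring
  rw [← h1, hF, Polynomial.derivative_prod_finset, Finset.mul_sum, Polynomial.finsetSum_coeff]
  have h2 : ∀ j ∈ Finset.Icc 1 L,
      (Polynomial.X * ((∏ i ∈ (Finset.Icc 1 L).erase j, c8P x L i)
        * Polynomial.derivative (c8P x L j))).coeff (n + 1)
      = if j ≤ n + 1 then ((j : ℂ) * x j) * F.coeff (n + 1 - j) else 0 := by
    intro j hj
    have hj1 : 1 ≤ j := (Finset.mem_Icc.mp hj).1
    have h3 : Polynomial.X * ((∏ i ∈ (Finset.Icc 1 L).erase j, c8P x L i)
        * Polynomial.derivative (c8P x L j))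
        = Polynomial.C ((j : ℂ) * x j) * (F * Polynomial.X ^ j)
          - (∏ i ∈ (Finset.Icc 1 L).erase j, c8P x L i) * (Polynomial.C ((j : ℂ) * x j)
            * Polynomial.C (x j ^ L / (L.factorial : ℂ))) * Polynomial.X ^ (j + j * L) := by
      have h4 : F = (∏ i ∈ (Finset.Icc 1 L).erase j, c8P x L i) * c8P x L j := by
        rw [hF, mul_comm, Finset.mul_prod_erase _ _ hj]
      calc Polynomial.X * ((∏ i ∈ (Finset.Icc 1 L).erase j, c8P x L i)
            * Polynomial.derivative (c8P x L j))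
          = (∏ i ∈ (Finset.Icc 1 L).erase j, c8P x L i)
            * (Polynomial.X * Polynomial.derivative (c8P x L j)) := by ring
        _ = _ := by
          rw [c8_der, h4, pow_add]
          ring
    rw [h3, Polynomial.coeff_sub, Polynomial.coeff_C_mul, Polynomial.coeff_mul_X_pow',
      Polynomial.coeff_mul_X_pow']
    have h5 : ¬ (j + j * L ≤ n + 1) := by
      have : 1 * L ≤ j * L := Nat.mul_le_mul_right L hj1
      omega
    rw [if_neg h5, sub_zero]
    split_ifs <;> simp
  rw [Finset.sum_congr rfl h2, ← Finset.sum_filter]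
  have h6 : (Finset.Icc 1 L).filter (fun j => j ≤ n + 1) = (Finset.range (n + 1)).map
      ⟨fun j => j + 1, fun a b h => by simpa using h⟩ := by
    ext j
    simp only [Finset.mem_filter, Finset.mem_Icc, Finset.mem_map, Finset.mem_range]
    constructor
    · rintro ⟨⟨h7, h8⟩, h9⟩
      refine ⟨j - 1, by omega, ?_⟩
      show j - 1 + 1 = j
      omega
    · rintro ⟨i, hi, h7⟩
      have h8 : i + 1 = j := h7
      omega
  rw [h6, Finset.sum_map]
  refine Finset.sum_congr rfl fun j hj => ?_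
  have h10 : n + 1 - (j + 1) = n - j := by omega
  show (((j + 1 : ℕ) : ℂ) * x (j + 1)) * F.coeff (n + 1 - (j + 1)) = _
  rw [h10]
  push_cast
  ring

private lemma c8_zero (x : ℕ → ℂ) (L : ℕ) : (∏ j ∈ Finset.Icc 1 L, c8P x L j).coeff 0 = 1 := by
  rw [Polynomial.coeff_zero_prod]
  refine Finset.prod_eq_one fun j hj => ?_
  have hj1 : 1 ≤ j := (Finset.mem_Icc.mp hj).1
  unfold c8P
  rw [Polynomial.finsetSum_coeff, Finset.sum_eq_single 0]
  · simp
  · intro a _ ha
    rw [Polynomial.coeff_C_mul, Polynomial.coeff_X_pow, if_neg, mul_zero]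
    intro h
    have : 0 < j * a := Nat.mul_pos hj1 (Nat.pos_of_ne_zero ha)
    omega
  · intro h
    exact absurd (Finset.mem_range.mpr (Nat.succ_pos L)) h

theorem rec : Rec := by
  intro c z hc0 hrec L
  set x : ℕ → ℂ := fun j => z j / (Real.sqrt j : ℂ) with hx
  have hxj : ∀ j : ℕ, ((j : ℂ) + 1) * x (j + 1) = (Real.sqrt ((j : ℝ) + 1) : ℂ) * z (j + 1) := by
    intro j
    have h1 : (0 : ℝ) < (j : ℝ) + 1 := by positivity
    have h2 : ((Real.sqrt ((j : ℝ) + 1) : ℝ) : ℂ) ≠ 0 := by
      exact_mod_cast (Real.sqrt_pos.mpr h1).ne'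
    have h3 : ((Real.sqrt ((j : ℝ) + 1) : ℝ) : ℂ) * ((Real.sqrt ((j : ℝ) + 1) : ℝ) : ℂ)
        = (j : ℂ) + 1 := by
      rw [← Complex.ofReal_mul, Real.mul_self_sqrt h1.le]
      push_cast
      ring
    simp only [hx]
    push_cast
    rw [mul_div_assoc', div_eq_iff h2, ← h3]
    ring
  set F := ∏ j ∈ Finset.Icc 1 L, c8P x L j with hF
  have key : ∀ n, n ≤ L → F.coeff n = c n := by
    intro n
    induction n using Nat.strong_induction_on with
    | _ n ih =>
      intro hn
      rcases n with _ | n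
      · rw [hF, c8_zero, hc0]
      · have h1 := c8_rec x L n hn
        have h2 : ((n : ℂ) + 1) ≠ 0 := by exact_mod_cast Nat.succ_ne_zero n
        refine mul_left_cancel₀ h2 ?_
        rw [hF, h1, hrec]
        refine Finset.sum_congr rfl fun j hj => ?_
        rw [hxj, ← hF, ih (n - j) (by omega) (by omega)]
  have hsum : F = ∑ α ∈ bx (Finset.Icc 1 L) (L + 1), Polynomial.C (ee α z) * Polynomial.X ^ dg α :=
    c8_prod z L _
  unfold SG PG
  calc ∑ n ∈ Finset.range (L + 1), c n = ∑ n ∈ Finset.range (L + 1), F.coeff n :=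
        Finset.sum_congr rfl fun n hn => (key n (by have := Finset.mem_range.mp hn; omega)).symm
    _ = ∑ n ∈ Finset.range (L + 1), ∑ α ∈ bx (Finset.Icc 1 L) (L + 1),
          (if n = dg α then ee α z else 0) := by
        refine Finset.sum_congr rfl fun n _ => ?_
        rw [hsum, Polynomial.finsetSum_coeff]
        refine Finset.sum_congr rfl fun α _ => ?_
        rw [Polynomial.coeff_C_mul, Polynomial.coeff_X_pow]
        split_ifs <;> simp
    _ = ∑ α ∈ bx (Finset.Icc 1 L) (L + 1), (if dg α ≤ L then 1 else 0) * ee α z := by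
        rw [Finset.sum_comm]
        refine Finset.sum_congr rfl fun α _ => ?_
        rw [Finset.sum_ite_eq']
        by_cases h : dg α ≤ L
        · rw [if_pos (Finset.mem_range.mpr (by omega)), if_pos h, one_mul]
        · rw [if_neg (fun h' => h (by have := Finset.mem_range.mp h'; omega)), if_neg h, zero_mul]

end Pool.Agent.Lib.RM
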