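import Mathlib
import Pool.Agent.Lib.MP_f9aece_nt_rm.Stmts
import Pool.Agent.Lib.MP_f9aece_nt_ms.Coeffs
import Pool.Agent.Lib.MP_f9aece_nt_nl.G

/-!
The constants of the moments of the partial sums of zeta, module D1.

`M0` from `MertC`. `VLimX M0` is what the proof of `mt/T28VLim.lean` shows (copy it). `M1 = M0 + ∑_p (-log (1 - 1/p) - 1/p)` (sum over `Nat.Primes`, summable: `≤ C/p^2`). `ArLim`: `NL.F0 k Kb p0 1 = ∏_(p ∈ Psm p0) Fl k Kb (p^(-1))`,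
tends to `∏ Fi k (1/p)` as `Kb → ∞` (`NL.Fl_le_Fi`, `NL.Fi_sub_Fl_le` in `nl/O1.lean`); `log Fi k (1/p) = gl k (1/p) - k^2 log (1 - 1/p)` (`NL.gl`), so `∏_(p ≤ p0) Fi k (1/p) exp (k^2 (M0 - ∑_(p ≤ p0) 1/p)) =
exp (∑_(p ≤ p0) gl k (1/p) + k^2 (M0 + ∑_(p ≤ p0) (-log (1 - 1/p) - 1/p)))`, which tends to `exp (∑_p gl k (1/p) + k^2 M1) = ak k exp (k^2 M1)` as `p0 → ∞` (`NL.ak_eq`, `NL.summable_gl` with `N = ⌈k⌉₊` in `nl/Q.lean`;
partial sums over `p ≤ p0` of a summable family over `Nat.Primes` converge).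
-/

set_option autoImplicit false

namespace Pool.Agent.Lib.RM

open MeasureTheory ProbabilityTheory Set Filter Topology Complex
open scoped ComplexConjugate

open Pool.Agent.Lib.MP_f9aece_nt (VV)
open Pool.Agent.Lib.MP_f9aece_nt_h97 (Psm)

private lemma d1_V {A : MS.Par} (hA : A.Ok) :
    A.V 0 = VV (MP_f9aece_nt_h6.Pall A.Y A.p0) := by
  have hp0 : 1 ≤ A.p0 := by have := hA.hp; omega
  unfold MS.Par.V J4.Vs
  rw [Nat.Ico_zero_eq_range]
  have h2 := MP_f9aece_nt_h6.sum_VV_Sg (p0 := A.p0) hA.hY (Nat.cast_nonneg A.v : (0 : ℝ) ≤ A.v) A.J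
  rw [MP_f9aece_nt_h6.biUnion_eq_Pall hp0 (by rw [← J4.Yg_eq]; exact hA.hJ.1)] at h2
  rw [← h2]
  exact Finset.sum_congr rfl fun g _ => by rw [J4.Sg_eq]

private lemma d1_split {p0 : ℕ} {Y : ℝ} (h : (p0 : ℝ) ≤ Real.exp Y) :
    VV (MP_f9aece_nt_h6.Pall Y p0) =
      ∑ p ∈ (Finset.Icc 1 ⌊Real.exp Y⌋₊).filter Nat.Prime, (p : ℝ)⁻¹ -
        ∑ p ∈ (Finset.Icc 1 p0).filter Nat.Prime, (p : ℝ)⁻¹ := by
  have hf : p0 ≤ ⌊Real.exp Y⌋₊ := Nat.le_floor h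
  have hdisj : Disjoint ((Finset.Icc 1 p0).filter Nat.Prime) (MP_f9aece_nt_h6.Pall Y p0) := by
    rw [Finset.disjoint_left]
    intro p hp hp'
    have h1 := (Finset.mem_Icc.1 (Finset.mem_filter.1 hp).1).2
    have h2 := (MP_f9aece_nt_h6.mem_Pall.1 hp').2.2
    omega
  have hun : (Finset.Icc 1 ⌊Real.exp Y⌋₊).filter Nat.Prime =
      (Finset.Icc 1 p0).filter Nat.Prime ∪ MP_f9aece_nt_h6.Pall Y p0 := by
    ext p
    rw [Finset.mem_union, Finset.mem_filter, Finset.mem_filter, MP_f9aece_nt_h6.mem_Pall,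
      Finset.mem_Icc, Finset.mem_Icc]
    constructor
    · rintro ⟨⟨h1, h2⟩, h3⟩
      by_cases h4 : p ≤ p0
      · exact Or.inl ⟨⟨h1, h4⟩, h3⟩
      · exact Or.inr ⟨⟨h1, h2⟩, h3, by omega⟩
    · rintro (⟨⟨h1, h2⟩, h3⟩ | ⟨⟨h1, h2⟩, h3, h4⟩)
      · exact ⟨⟨h1, h2.trans hf⟩, h3⟩
      · exact ⟨⟨h1, h2⟩, h3⟩
  rw [hun, Finset.sum_union hdisj]
  unfold VV
  ring

private lemma d1_vlim {M : ℝ} (hM : Tendsto (fun Y : ℝ =>
    ∑ p ∈ (Finset.Icc 1 ⌊Real.exp Y⌋₊).filter Nat.Prime, (p : ℝ)⁻¹ - Real.log Y) atTop (𝓝 M)) :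
    VLimX M := by
  intro p0 hp0 ε hε
  obtain ⟨N, hN⟩ := Filter.eventually_atTop.1 ((Metric.tendsto_nhds.1 hM) ε hε)
  refine ⟨max (max 1 N) (Real.log p0), (le_max_left _ _).trans (le_max_left _ _), ?_⟩
  intro A hA hAp hY
  subst hAp
  have h1 : N ≤ A.Y := ((le_max_right _ _).trans (le_max_left _ _)).trans hY
  have h2 : Real.log A.p0 ≤ A.Y := (le_max_right _ _).trans hY
  have h4 : (A.p0 : ℝ) ≤ Real.exp A.Y := by
    have h5 : (0 : ℝ) < A.p0 := by exact_mod_cast hp0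
    rwa [← Real.log_le_iff_le_exp h5]
  have h5 := hN A.Y h1
  rw [Real.dist_eq] at h5
  rw [d1_V hA, d1_split h4]
  refine le_of_eq_of_le ?_ h5.le
  congr 1
  ring

/-- partial sums over the primes -/
private lemma d1_tendsto {f : ℕ → ℝ} (hf : Summable fun p : Nat.Primes => f p) :
    Tendsto (fun n : ℕ => ∑ p ∈ Psm n, f p) atTop (𝓝 (∑' p : Nat.Primes, f p)) := by
  have h1 : Summable (Set.indicator {p : ℕ | p.Prime} f) :=
    (summable_subtype_iff_indicator (s := {p : ℕ | p.Prime})).1 hf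
  have h3 : ∑' p : Nat.Primes, f p = ∑' n, Set.indicator {p : ℕ | p.Prime} f n :=
    tsum_subtype {p : ℕ | p.Prime} f
  rw [h3]
  have h4 := h1.hasSum.tendsto_sum_nat.comp (tendsto_add_atTop_nat 1)
  refine h4.congr fun n => ?_
  simp only [Function.comp_apply]
  symm
  have h5 : ∑ p ∈ Psm n, f p = ∑ p ∈ Psm n, Set.indicator {p : ℕ | p.Prime} f p := by
    refine Finset.sum_congr rfl fun p hp => ?_
    have h6 : p.Prime := (Finset.mem_filter.1 hp).2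
    rw [Set.indicator_of_mem (show p ∈ {p : ℕ | p.Prime} from h6)]
  rw [h5]
  refine Finset.sum_subset (fun p hp => ?_) fun p hp hp' => ?_
  · have h6 := (Finset.mem_Ioc.1 (Finset.mem_filter.1 hp).1).2
    exact Finset.mem_range.2 (by omega)
  · refine Set.indicator_of_notMem (fun h6 : p.Prime => hp' ?_) _
    have h7 := Finset.mem_range.1 hp
    exact Finset.mem_filter.2 ⟨Finset.mem_Ioc.2 ⟨h6.pos, by omega⟩, h6⟩

private noncomputable def rr (p : ℕ) : ℝ := -Real.log (1 - (p : ℝ)⁻¹) - (p : ℝ)⁻¹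

private lemma summable_rr : Summable fun p : Nat.Primes => rr p := by
  refine Summable.of_norm_bounded (g := fun p : Nat.Primes => 2 * (((p : ℕ) : ℝ))⁻¹ ^ 2)
    (NL.summable_prime_inv_sq.mul_left _) fun p => ?_
  have h1 := NL.prime_inv_le p.2
  have h0 : 0 ≤ (((p : ℕ) : ℝ))⁻¹ := by positivity
  unfold rr
  generalize (((p : ℕ) : ℝ))⁻¹ = x at h0 h1
  have h2 := Real.abs_log_sub_add_sum_range_le (x := x) (by rw [abs_of_nonneg h0]; linarith) 1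
  rw [Finset.sum_range_one, abs_of_nonneg h0] at h2
  have h3 : x ^ (1 + 1) / (1 - x) ≤ 2 * x ^ 2 := by
    rw [div_le_iff₀ (by linarith)]
    have h5 := mul_nonneg (sq_nonneg x) (by linarith : (0 : ℝ) ≤ 1 / 2 - x)
    have h6 : 2 * x ^ 2 * (1 - x) - x ^ (1 + 1) = 2 * (x ^ 2 * (1 / 2 - x)) := by ring
    refine sub_nonneg.1 ?_
    rw [h6]
    exact mul_nonneg zero_le_two h5
  have h4 : ‖-Real.log (1 - x) - x‖ = |x ^ (0 + 1) / (((0 : ℕ) : ℝ) + 1) + Real.log (1 - x)| := by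
    rw [Real.norm_eq_abs, ← abs_neg]
    congr 1
    simp
  rw [h4]
  exact h2.trans h3

private lemma d1_ar {M0 : ℝ} : ArLim M0 (M0 + ∑' p : Nat.Primes, rr p) := by
  intro k ε hk hε
  obtain ⟨N, hN⟩ : ∃ N, N = ⌈k⌉₊ := ⟨_, rfl⟩
  have hN1 : 1 ≤ N := by
    rw [hN]
    exact Nat.ceil_pos.2 hk
  have hkN : k ≤ N := by
    rw [hN]
    exact Nat.le_ceil k
  have hk0 := hk.le
  obtain ⟨E, hE⟩ : ∃ E : ℕ → ℝ, E = fun p0 =>
    Real.exp (k ^ 2 * (M0 - ∑ p ∈ (Finset.Icc 1 p0).filter Nat.Prime, (p : ℝ)⁻¹)) := ⟨_, rfl⟩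
  obtain ⟨G, hG⟩ : ∃ G : ℕ → ℝ, G = fun p0 => ∏ p ∈ Psm p0, NL.Fi k ((p : ℝ)⁻¹) := ⟨_, rfl⟩
  have hP : ∀ n : ℕ, (Finset.Icc 1 n).filter Nat.Prime = Psm n := by
    intro n
    ext p
    unfold Psm
    rw [Finset.mem_filter, Finset.mem_filter, Finset.mem_Icc, Finset.mem_Ioc]
    constructor
    · rintro ⟨⟨h1, h2⟩, h3⟩
      exact ⟨⟨by omega, h2⟩, h3⟩
    · rintro ⟨⟨h1, h2⟩, h3⟩
      exact ⟨⟨by omega, h2⟩, h3⟩
  have hpr : ∀ n : ℕ, ∀ p ∈ Psm n, p.Prime := fun n p hp => (Finset.mem_filter.1 hp).2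
  have c1 : Tendsto (fun p0 => G p0 * E p0) atTop (𝓝 (AI (M0 + ∑' p : Nat.Primes, rr p) k)) := by
    have h1 : ∀ p0, G p0 * E p0 = Real.exp (∑ p ∈ Psm p0, NL.gl k ((p : ℝ)⁻¹) +
        k ^ 2 * ∑ p ∈ Psm p0, rr p + k ^ 2 * M0) := by
      intro p0
      have h2 : G p0 = Real.exp (∑ p ∈ Psm p0, Real.log (NL.Fi k ((p : ℝ)⁻¹))) := by
        rw [hG, Real.exp_sum]
        refine Finset.prod_congr rfl fun p hp => ?_
        have h3 := NL.one_le_Fi hN1 hk0 hkN (q := (p : ℝ)⁻¹) (by positivity)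
          (NL.prime_inv_le (hpr p0 p hp))
        rw [Real.exp_log (by linarith)]
      rw [h2, hE]
      simp only
      rw [hP, ← Real.exp_add]
      congr 1
      have h4 : ∑ p ∈ Psm p0, Real.log (NL.Fi k ((p : ℝ)⁻¹)) =
          ∑ p ∈ Psm p0, NL.gl k ((p : ℝ)⁻¹) + k ^ 2 * ∑ p ∈ Psm p0, rr p +
            k ^ 2 * ∑ p ∈ Psm p0, (p : ℝ)⁻¹ := by
        rw [Finset.mul_sum, Finset.mul_sum, ← Finset.sum_add_distrib, ← Finset.sum_add_distrib]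
        refine Finset.sum_congr rfl fun p _ => ?_
        unfold NL.gl rr
        ring
      rw [h4]
      ring
    have h5 : AI (M0 + ∑' p : Nat.Primes, rr p) k = Real.exp (∑' p : Nat.Primes,
        NL.gl k (((p : ℕ) : ℝ)⁻¹) + k ^ 2 * ∑' p : Nat.Primes, rr p + k ^ 2 * M0) := by
      unfold AI
      rw [NL.ak_eq hN1 hk0 hkN, ← Real.exp_add]
      congr 1
      ring
    rw [h5]
    refine Tendsto.congr (fun p0 => (h1 p0).symm) ?_
    refine (Real.continuous_exp.tendsto _).comp ?_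
    have h6 := d1_tendsto (f := fun p => NL.gl k ((p : ℝ)⁻¹))
      (NL.summable_gl hN1 hk0 hkN (q := fun p : Nat.Primes => (((p : ℕ) : ℝ))⁻¹)
        (fun p => by positivity) fun p => le_rfl)
    have h7 := d1_tendsto summable_rr
    exact (h6.add (h7.const_mul _)).add_const _
  have c2 : ∀ p0, Tendsto (fun Kb => NL.F0 k Kb p0 1 * E p0) atTop (𝓝 (G p0 * E p0)) := by
    intro p0
    refine Tendsto.mul_const _ ?_
    rw [hG]
    unfold NL.F0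
    refine tendsto_finset_prod _ fun p hp => ?_
    have h8 := (NL.summable_Fi hN1 hk0 hkN (q := (p : ℝ)⁻¹) (by positivity)
      (NL.prime_inv_le (hpr p0 p hp))).hasSum.tendsto_sum_nat.comp (tendsto_add_atTop_nat 1)
    refine h8.congr fun Kb => ?_
    rw [Real.rpow_neg_one]
    rfl
  have h9 := Filter.eventually_atTop.1 ((Metric.tendsto_nhds.1 c1) (ε / 2) (half_pos hε))
  obtain ⟨p1, hp1⟩ := h9
  refine ⟨p1, fun p0 hp0 => ?_⟩
  obtain ⟨K1, hK1⟩ := Filter.eventually_atTop.1 ((Metric.tendsto_nhds.1 (c2 p0)) (ε / 2)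
    (half_pos hε))
  refine ⟨K1, fun Kb hKb => ?_⟩
  have h10 := hp1 p0 hp0
  have h11 := hK1 Kb hKb
  rw [Real.dist_eq] at h10 h11
  have h12 : E p0 = Real.exp (k ^ 2 * (M0 - ∑ p ∈ (Finset.Icc 1 p0).filter Nat.Prime,
    (p : ℝ)⁻¹)) := by rw [hE]
  rw [← h12]
  have h13 := abs_add_le (NL.F0 k Kb p0 1 * E p0 - G p0 * E p0)
    (G p0 * E p0 - AI (M0 + ∑' p : Nat.Primes, rr p) k)
  rw [sub_add_sub_cancel] at h13
  linarith

theorem constX (h3 : MT.MertC) : ConstX := by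
  obtain ⟨M, hM⟩ := h3
  exact ⟨M, _, d1_vlim hM, d1_ar⟩

end Pool.Agent.Lib.RM
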