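import Mathlib
import Pool.Agent.Lib.MP_f9aece_nt_rm.Stmts
import Pool.Agent.Lib.MP_f9aece_nt_ms.Coeffs
import Pool.Agent.Lib.MP_f9aece_nt_nl.G

/-!
The constants of the moments of the partial sums of zeta, module D2.

Size of the main term, with the constant.
-/

set_option autoImplicit false

namespace Pool.Agent.Lib.RM

open MeasureTheory ProbabilityTheory Set Filter Topology Complex
open scoped ComplexConjugate
open scoped ArithmeticFunction.Omega
open Pool.Agent.Lib.MP_f9aece_nt (DP pair BK K1 ev PP VV Smo expo)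
open Pool.Agent.Lib.MP_f9aece_nt_h97 (Psm Dsm evs)
open Pool.Agent.Lib.NL (pt B0)
open Pool.Agent.Lib.J4 (En V2)
open Pool.Agent.Lib.MS (Len MVP Par RW TZ Cut un zr ex hq af ZS)
open Pool.Agent.Lib.MT (Std SmallOk sz Dec Mn)

/-- coefficient of the local factor at one -/
private lemma d2_Lk (k : ℝ) (K p : ℕ) (hp : p.Prime) : af (NL.Lk k K p) 1 = 1 := by
  unfold NL.Lk
  rw [MS.af_sum_apply, Finset.sum_eq_single 0]
  · rw [MS.af_apply _ one_ne_zero, pow_zero, MonoidAlgebra.coeff_single, Finsupp.single_apply,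
      if_pos rfl]
    simp [NL.bk]
  · intro i _ hi
    rw [MS.af_apply _ one_ne_zero, MonoidAlgebra.coeff_single, Finsupp.single_apply, if_neg]
    intro h
    rcases Nat.pow_eq_one.1 h with h1 | h1
    · exact hp.one_lt.ne' h1
    · exact hi h1
  · intro h
    exact absurd (Finset.mem_range.mpr (Nat.succ_pos K)) h

private lemma d2_B0 (k : ℝ) (K p0 : ℕ) : (B0 k K p0).coeff 1 = 1 := by
  rw [← MS.af_apply _ one_ne_zero, NL.B0, MS.af_prod]
  have h : ∀ S : Finset ℕ, (∀ p ∈ S, p.Prime) → (∏ p ∈ S, af (NL.Lk k K p)) 1 = 1 := by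
    intro S
    classical
    induction S using Finset.induction_on with
    | empty =>
      intro _
      rw [Finset.prod_empty]
      exact ArithmeticFunction.one_one
    | insert a s ha ih =>
      intro hS
      rw [Finset.prod_insert ha, ArithmeticFunction.mul_apply_one,
        d2_Lk k K a (hS a (Finset.mem_insert_self a s)),
        ih fun p hp => hS p (Finset.mem_insert_of_mem hp), one_mul]
  exact h _ fun p hp => (Finset.mem_filter.mp hp).2

private lemma d2_En (k : ℝ) (K p0 : ℕ) : 1 ≤ En (B0 k K p0) := by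
  unfold En
  rw [MP_f9aece_nt.BK_K1_eq, MP_f9aece_nt.pair_def]
  have h1 : (1 : ℕ) ∈ (B0 k K p0).coeff.support := by
    rw [Finsupp.mem_support_iff, d2_B0]
    exact one_ne_zero
  refine le_trans (le_of_eq ?_) (Finset.single_le_sum (fun n _ => ?_) h1)
  · rw [d2_B0]
    simp
  · have h2 : (0 : ℝ) ≤ (n : ℝ)⁻¹ := by positivity
    have h3 := mul_self_nonneg ((B0 k K p0).coeff n)
    nlinarith

private lemma d2_std {q v p0 : ℕ} {N N' : ℝ} {A : Par} {L X η : ℝ} {ν : Measure ℝ}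
    (h : Std q v p0 N A L X η ν) (h0 : 0 ≤ N') (h' : N' ≤ N) : Std q v p0 N' A L X η ν :=
  ⟨h.hq, h.hv, h.hp, h.ok, h'.trans h.hL, h.hY, h.mvp,
    (Real.exp_le_exp.2 (mul_le_mul_of_nonneg_right h' ((h0.trans h').trans h.hL))).trans h.hX,
    h.η0, (mul_le_mul_of_nonneg_left h' h.η0).trans h.ηN⟩

private lemma d2_num {x I S e ε : ℝ} (hS : 0 ≤ S) (he : 0 < e) (he1 : e ≤ 1) (h3 : 3 * e ≤ ε)
    (hx1 : x ≤ (1 + e) * S) (hx2 : (1 - e) * S ≤ x) (hI1 : I ≤ (1 + e) * x)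
    (hI2 : (1 - e) * x ≤ I) : |I - S| ≤ ε * S := by
  rw [abs_le]
  constructor
  · have h4 : (1 - e) * ((1 - e) * S) ≤ (1 - e) * x := mul_le_mul_of_nonneg_left hx2 (by linarith)
    nlinarith [mul_nonneg (mul_nonneg he.le he.le) hS, mul_nonneg (sub_nonneg.2 h3) hS,
      mul_nonneg he.le hS]
  · have h4 : (1 + e) * x ≤ (1 + e) * ((1 + e) * S) := mul_le_mul_of_nonneg_left hx1 (by linarith)
    nlinarith [mul_nonneg (mul_nonneg he.le (sub_nonneg.2 he1)) hS,
      mul_nonneg (sub_nonneg.2 h3) hS]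

theorem mainX {M0 M1 : ℝ} (hV : VLimX M0) (hA : ArLim M0 M1) (h32 : MT.MainUp) (h33 : MT.MainLow) : MainX M1 := by
  intro q k ε hq hk0 hqk hkq hε
  set e : ℝ := min 1 (ε / 9) with he
  have he0 : 0 < e := lt_min one_pos (by linarith)
  have he1 : e ≤ 1 := min_le_left _ _
  have he3 : 3 * e ≤ ε / 3 := by
    have := min_le_right (1 : ℝ) (ε / 9)
    linarith
  have hAI : 0 < AI M1 k := mul_pos (NL.ak_pos hq hk0.le hkq) (Real.exp_pos _)
  obtain ⟨δ₁, p₁, v₁, hδ₁, hp₁, hv₁, H1⟩ := h32 q k e hq hk0 hqk hkq he0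
  obtain ⟨δ₂, p₂, v₂, hδ₂, hp₂, hv₂, H2⟩ := h33 q k e hq hk0 hqk hkq he0
  obtain ⟨pA, HA⟩ := hA k (e * AI M1 k) hk0 (mul_pos he0 hAI)
  refine ⟨max (max p₁ p₂) pA, hp₁.trans ((le_max_left _ _).trans (le_max_left _ _)),
    fun p0 hp0 => ?_⟩
  have hp01 : p₁ ≤ p0 := ((le_max_left _ _).trans (le_max_left _ _)).trans hp0
  have hp02 : p₂ ≤ p0 := ((le_max_right _ _).trans (le_max_left _ _)).trans hp0
  obtain ⟨K1A, hK1A⟩ := HA p0 ((le_max_right _ _).trans hp0)
  obtain ⟨Kb1, hKb1⟩ := NL.smallPt q p0 (min δ₁ δ₂) (lt_min hδ₁ hδ₂)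
  set Kb : ℕ := max Kb1 K1A with hKb
  have hok : ∀ t : ℝ, |‖evs (pt 0 t) (B0 k Kb p0)‖ ^ 2 * ‖evs (pt 0 t) (Dsm p0)‖ ^ (2 * k) - 1|
      ≤ min δ₁ δ₂ := fun t => hKb1 Kb (le_max_left _ _) k hk0.le hkq 0 t le_rfl
  have hok1 : SmallOk k δ₁ p0 Kb := fun t => (hok t).trans (min_le_left _ _)
  have hok2 : SmallOk k δ₂ p0 Kb := fun t => (hok t).trans (min_le_right _ _)
  set M : ℝ := M0 - ∑ p ∈ (Finset.Icc 1 p0).filter Nat.Prime, (p : ℝ)⁻¹ with hMdef
  have hM := hV p0 (by omega)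
  have hEn := d2_En k Kb p0
  have hF : En (B0 k Kb p0) = NL.F0 k Kb p0 1 := by
    rw [← NL.small_K1s le_rfl, MP_f9aece_nt_h85.K1s_one]
    rfl
  have hclose : |En (B0 k Kb p0) * Real.exp (k ^ 2 * M) - AI M1 k| ≤ e * AI M1 k := by
    rw [hF]
    exact hK1A Kb (le_max_right _ _)
  refine ⟨max v₁ v₂, hv₁.trans (le_max_left _ _), fun v hv w g hg hD => ?_⟩
  obtain ⟨N₁, hN₁, H1'⟩ := H1 p0 v Kb hp01 ((le_max_left _ _).trans hv) hok1 w g hg hD
  obtain ⟨N₂, hN₂, H2'⟩ := H2 p0 v Kb hp02 ((le_max_right _ _).trans hv) hok2 w g hg hD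
  have hk2 : 0 < k ^ 2 := by positivity
  obtain ⟨N₃, hN₃, H3⟩ := hM (Real.log (1 + e) / k ^ 2)
    (div_pos (Real.log_pos (by linarith)) hk2)
  refine ⟨max (max N₁ N₂) (N₃ * Real.exp (2 * v)),
    hN₁.trans ((le_max_left _ _).trans (le_max_left _ _)), fun A L X η ν hS => ?_⟩
  have hS1 := d2_std hS (zero_le_one.trans hN₁) ((le_max_left _ _).trans (le_max_left _ _))
  have hS2 := d2_std hS (zero_le_one.trans hN₂) ((le_max_right _ _).trans (le_max_left _ _))
  have hI1 := H1' A L X η ν hS1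
  have hI2 := H2' A L X η ν hS2
  have hL3 : N₃ * Real.exp (2 * v) ≤ L := (le_max_right _ _).trans hS.hL
  have hL0 : 0 < L := lt_of_lt_of_le (mul_pos (zero_lt_one.trans_le hN₃) (Real.exp_pos _)) hL3
  have hY3 : N₃ ≤ A.Y := by
    rw [hS.hY, Real.exp_neg, ← div_eq_mul_inv, le_div_iff₀ (Real.exp_pos _)]
    exact hL3
  have hV := H3 A hS.ok hS.hp hY3
  have hlogY : Real.log A.Y = Real.log L - 2 * v := by
    rw [hS.hY, Real.log_mul hL0.ne' (Real.exp_pos _).ne', Real.log_exp]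
    ring
  set θ : ℝ := A.V 0 - Real.log A.Y - M with hθ
  have hθ1 : k ^ 2 * θ ≤ Real.log (1 + e) := by
    have h1 := (abs_le.1 hV).2
    rw [le_div_iff₀ hk2] at h1
    linarith
  have hθ2 : -Real.log (1 + e) ≤ k ^ 2 * θ := by
    have h1 := (abs_le.1 hV).1
    rw [← neg_div, div_le_iff₀ hk2] at h1
    linarith
  have hx : Real.exp (k ^ 2 * A.V 0) = Real.exp (k ^ 2 * M) * sz k v L * Real.exp (k ^ 2 * θ) := by
    unfold sz
    rw [Real.rpow_def_of_pos hL0, ← Real.exp_add, ← Real.exp_add, ← Real.exp_add]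
    congr 1
    rw [hθ, hlogY]
    ring
  have hg0 : 0 < g := zero_lt_one.trans_le hg
  have hsz : 0 < sz k v L := by
    unfold sz
    positivity
  set S : ℝ := En (B0 k Kb p0) * Real.exp (k ^ 2 * M) * g * sz k v L with hSdef
  have hSpos : 0 < S := mul_pos (mul_pos (mul_pos (by linarith) (Real.exp_pos _)) hg0) hsz
  have hxS : En (B0 k Kb p0) * g * Real.exp (k ^ 2 * A.V 0) = Real.exp (k ^ 2 * θ) * S := by
    rw [hx, hSdef]
    ring
  rw [hxS] at hI1 hI2
  have he01 : 0 < 1 + e := by linarith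
  have hu : Real.exp (k ^ 2 * θ) ≤ 1 + e := by
    rw [← Real.exp_log he01]
    exact Real.exp_le_exp.2 hθ1
  have hl : 1 - e ≤ Real.exp (k ^ 2 * θ) := by
    refine le_trans ?_ (Real.exp_le_exp.2 hθ2)
    rw [Real.exp_neg, Real.exp_log he01, ← one_div, le_div_iff₀ he01]
    nlinarith
  have hfin := d2_num hSpos.le he0 he1 he3 (mul_le_mul_of_nonneg_right hu hSpos.le)
    (mul_le_mul_of_nonneg_right hl hSpos.le) hI1 hI2
  set a : ℝ := En (B0 k Kb p0) * Real.exp (k ^ 2 * M) with ha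
  have hgs : 0 < g * sz k v L := mul_pos hg0 hsz
  have hSe : S = a * (g * sz k v L) := by rw [hSdef, mul_assoc]
  have hT : AI M1 k * g * sz k v L = AI M1 k * (g * sz k v L) := by rw [mul_assoc]
  rw [hT]
  rw [hSe] at hfin
  obtain ⟨c1, c2⟩ := abs_le.1 hclose
  obtain ⟨f1, f2⟩ := abs_le.1 hfin
  have haU : a ≤ 2 * AI M1 k := by nlinarith
  have h1 : a * (g * sz k v L) ≤ 2 * (AI M1 k * (g * sz k v L)) := by
    have := mul_le_mul_of_nonneg_right haU hgs.le
    linarith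
  have h2 : a * (g * sz k v L) - AI M1 k * (g * sz k v L) ≤ e * (AI M1 k * (g * sz k v L)) := by
    have := mul_le_mul_of_nonneg_right c2 hgs.le
    linarith
  have h3 : -(e * (AI M1 k * (g * sz k v L))) ≤ a * (g * sz k v L) - AI M1 k * (g * sz k v L) := by
    have := mul_le_mul_of_nonneg_right c1 hgs.le
    linarith
  have hP : 0 < AI M1 k * (g * sz k v L) := mul_pos hAI hgs
  have he4 : e * (AI M1 k * (g * sz k v L)) ≤ ε / 3 * (AI M1 k * (g * sz k v L)) :=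
    mul_le_mul_of_nonneg_right (by linarith) hP.le
  have h5 : ε / 3 * (a * (g * sz k v L)) ≤ ε / 3 * (2 * (AI M1 k * (g * sz k v L))) :=
    mul_le_mul_of_nonneg_left h1 (by linarith)
  rw [abs_le]
  constructor <;> linarith

end Pool.Agent.Lib.RM
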