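import Mathlib
import Pool.Agent.Lib.MP_f9aece_nt_rm.Stmts
import Pool.Agent.Lib.MP_f9aece_nt_ms.Coeffs
import Pool.Agent.Lib.MP_f9aece_nt_j4.GroupsH

/-!
The constants of the moments of the partial sums of zeta, module D3.

The prime-free limit is the limit divided by the arithmetic constant.
-/

set_option autoImplicit false

namespace Pool.Agent.Lib.RM

open MeasureTheory ProbabilityTheory Set Filter Topology Complex
open scoped ComplexConjugate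
open Pool.Agent.Lib.MP_f9aece_nt (DP ev)
open Pool.Agent.Lib.MP_f9aece_nt_h97 (Dsm evs)
open Pool.Agent.Lib.NL (pt)
open Pool.Agent.Lib.MS (MVP Par ZS un)
open Pool.Agent.Lib.MT (SW Mn SmallLine Std CutC sz)

/-! ### continuity and boundedness -/

/-- continuous and bounded -/
private def CB (F : ℝ → ℂ) : Prop := Continuous F ∧ ∃ C : ℝ, 0 ≤ C ∧ ∀ t, ‖F t‖ ≤ C

private lemma norm_cpow_le (a : ℕ) (t : ℝ) : ‖(a : ℂ) ^ (-(1 / 2 + I * t : ℂ))‖ ≤ 1 := by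
  rcases Nat.eq_zero_or_pos a with rfl | ha
  · have h : (-(1 / 2 + I * t : ℂ)) ≠ 0 := by
      intro h
      have := congrArg Complex.re h
      norm_num at this
    rw [Nat.cast_zero, Complex.zero_cpow h, norm_zero]
    exact zero_le_one
  · rw [Complex.norm_natCast_cpow_of_pos ha]
    have h1 : (-(1 / 2 + I * t : ℂ)).re = -(1 / 2 : ℝ) := by simp
    rw [h1]
    exact Real.rpow_le_one_of_one_le_of_nonpos (by exact_mod_cast ha) (by norm_num)

private lemma cb_ev (f : DP) : CB (fun t => ev t f) := by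
  refine ⟨MP_f9aece_nt.continuous_ev f, ∑ a ∈ f.coeff.support, |f.coeff a|,
    Finset.sum_nonneg fun _ _ => abs_nonneg _, fun t => ?_⟩
  change ‖ev t f‖ ≤ _
  rw [MP_f9aece_nt.ev_apply]
  refine (norm_sum_le _ _).trans (Finset.sum_le_sum fun a _ => ?_)
  rw [norm_mul, Complex.norm_real, Real.norm_eq_abs]
  exact mul_le_of_le_one_right (abs_nonneg _) (norm_cpow_le a t)

private lemma CB.mul {F G : ℝ → ℂ} (hF : CB F) (hG : CB G) : CB (fun t => F t * G t) := by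
  obtain ⟨C, hC, h1⟩ := hF.2
  obtain ⟨D, hD, h2⟩ := hG.2
  refine ⟨hF.1.mul hG.1, C * D, mul_nonneg hC hD, fun t => ?_⟩
  rw [norm_mul]
  exact mul_le_mul (h1 t) (h2 t) (norm_nonneg _) hC

private lemma CB.add {F G : ℝ → ℂ} (hF : CB F) (hG : CB G) : CB (fun t => F t + G t) := by
  obtain ⟨C, hC, h1⟩ := hF.2
  obtain ⟨D, hD, h2⟩ := hG.2
  exact ⟨hF.1.add hG.1, C + D, add_nonneg hC hD, fun t =>
    (norm_add_le _ _).trans (add_le_add (h1 t) (h2 t))⟩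

private lemma CB.sub {F G : ℝ → ℂ} (hF : CB F) (hG : CB G) : CB (fun t => F t - G t) := by
  obtain ⟨C, hC, h1⟩ := hF.2
  obtain ⟨D, hD, h2⟩ := hG.2
  exact ⟨hF.1.sub hG.1, C + D, add_nonneg hC hD, fun t =>
    (norm_sub_le _ _).trans (add_le_add (h1 t) (h2 t))⟩

private lemma CB.const (c : ℂ) : CB (fun _ => c) := ⟨continuous_const, ‖c‖, norm_nonneg _, fun _ => le_rfl⟩

private lemma cb_SW (w : ℝ → ℂ) (p0 : ℕ) (Y L : ℝ) : CB (fun t => SW w p0 Y L t) :=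
  (cb_ev _).add ((CB.const I).mul (cb_ev _))

private lemma cb_ZS (w : ℝ → ℂ) (L : ℝ) : CB (fun t => ZS w L t) := by
  constructor
  · unfold MS.ZS
    refine continuous_finsetSum _ fun n hn => ?_
    have hn1 : (n : ℂ) ≠ 0 := by
      have := (Finset.mem_Icc.mp hn).1
      exact_mod_cast (by omega : n ≠ 0)
    refine continuous_const.mul ?_
    refine Continuous.const_cpow ?_ (Or.inl hn1)
    fun_prop
  · refine ⟨∑ n ∈ Finset.Icc 1 ⌊Real.exp L⌋₊, ‖w (Real.log n / L)‖,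
      Finset.sum_nonneg fun _ _ => norm_nonneg _, fun t => ?_⟩
    unfold MS.ZS
    refine (norm_sum_le _ _).trans (Finset.sum_le_sum fun a _ => ?_)
    rw [norm_mul]
    exact mul_le_of_le_one_right (norm_nonneg _) (norm_cpow_le a t)

private lemma cb_Mn (h25 : SmallLine) (w : ℝ → ℂ) (A : Par) (L : ℝ) : CB (fun t => Mn w A L t) := by
  obtain ⟨C, hC, h⟩ := h25 A.p0
  have h1 : CB (fun t => (evs (pt 0 t) (Dsm A.p0))⁻¹) := by
    refine ⟨?_, C, hC, fun t => ?_⟩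
    · have e : (fun t => (evs (pt 0 t) (Dsm A.p0))⁻¹) = fun t => (ev t (Dsm A.p0))⁻¹ := by
        funext t
        rw [(h t).1]
      rw [e]
      exact (MP_f9aece_nt.continuous_ev _).inv₀ fun t => (h t).2.1
    · change ‖(evs (pt 0 t) (Dsm A.p0))⁻¹‖ ≤ C
      rw [(h t).1]
      exact (h t).2.2
  exact (h1.mul (cb_ev _)).mul (cb_SW w 0 A.Y L)

private lemma CB.integrable {F : ℝ → ℂ} (hF : CB F) {ν : Measure ℝ} [IsProbabilityMeasure ν]
    {s : ℝ} (hs : 0 ≤ s) : Integrable (fun t => ‖F t‖ ^ s) ν := by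
  obtain ⟨C, hC, h1⟩ := hF.2
  refine Integrable.of_bound (C := C ^ s) ?_ (Eventually.of_forall fun t => ?_)
  · exact (Continuous.rpow_const hF.1.norm fun _ => Or.inr hs).aestronglyMeasurable
  · rw [Real.norm_eq_abs, abs_of_nonneg (by positivity)]
    exact Real.rpow_le_rpow (norm_nonneg _) (h1 t) hs

/-- comparison of the moments -/
private lemma compare {F G : ℝ → ℂ} (hF : CB F) (hG : CB G) {ν : Measure ℝ}
    (hν : IsProbabilityMeasure ν) {s η C : ℝ} (hs : 0 ≤ s)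
    (h : ∀ x y : ℂ, |‖x‖ ^ s - ‖y‖ ^ s| ≤ η * ‖x‖ ^ s + C * ‖x - y‖ ^ s) :
    |∫ t, ‖F t‖ ^ s ∂ν - ∫ t, ‖G t‖ ^ s ∂ν|
      ≤ η * ∫ t, ‖F t‖ ^ s ∂ν + C * ∫ t, ‖F t - G t‖ ^ s ∂ν := by
  have i1 := hF.integrable (ν := ν) hs
  have i2 := hG.integrable (ν := ν) hs
  have i3 := (hF.sub hG).integrable (ν := ν) hs
  rw [← integral_sub i1 i2, ← integral_const_mul, ← integral_const_mul,
    ← integral_add (i1.const_mul _) (i3.const_mul _)]
  refine (abs_integral_le_integral_abs).trans ?_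
  exact integral_mono (i1.sub i2).abs ((i1.const_mul _).add (i3.const_mul _)) fun t => h _ _

/-! ### good tuples -/

/-- the admissible tuples -/
private def Good (N : ℝ) (L X η : ℝ) (ν : Measure ℝ) : Prop :=
  N ≤ L ∧ MVP ν X η ∧ Real.exp (N * L) ≤ X ∧ 0 ≤ η ∧ η * N ≤ 1

private lemma Good.mono {N N' L X η : ℝ} {ν : Measure ℝ} (hN : 1 ≤ N) (hNN : N ≤ N')
    (h : Good N' L X η ν) : Good N L X η ν := by
  obtain ⟨h1, h2, h3, h4, h5⟩ := h
  have hL : 0 ≤ L := by linarith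
  refine ⟨hNN.trans h1, h2, (Real.exp_le_exp.mpr ?_).trans h3, h4, ?_⟩
  · exact mul_le_mul_of_nonneg_right hNN hL
  · exact (mul_le_mul_of_nonneg_left hNN h4).trans h5

private lemma std_of {q v p0 : ℕ} (hq : 1 ≤ q) (hv : 4 ≤ v) (hp : 1000 ≤ p0) {N L X η : ℝ}
    {ν : Measure ℝ} (hN : 1 ≤ N) (h : Good N L X η ν) : ∃ A : Par, Std q v p0 N A L X η ν := by
  obtain ⟨h1, h2, h3, h4, h5⟩ := h
  have hL : 0 < L := by linarith
  have hY : 0 < L * Real.exp (-(2 * (v : ℝ))) := by positivity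
  obtain ⟨J, hJ⟩ := J4.existsJ v p0 (by omega) (by omega) _ hY
  exact ⟨⟨q, v, p0, J, L * Real.exp (-(2 * (v : ℝ)))⟩,
    { hq := rfl, hv := rfl, hp := rfl, ok := ⟨hq, hv, hp, hY, hJ⟩, hL := h1, hY := rfl, mvp := h2,
      hX := h3, η0 := h4, ηN := h5 }⟩

private lemma good_ex (h0 : MS.UnifMVP) {N : ℝ} (hN : 1 ≤ N) :
    ∃ (L X η : ℝ) (ν : Measure ℝ), Good N L X η ν := by
  have hX : 1 ≤ Real.exp (N * N) := Real.one_le_exp (by positivity)
  have hT : 0 < 2 * Real.exp (N * N) ^ 2 * N := by positivity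
  refine ⟨N, Real.exp (N * N), 2 * Real.exp (N * N) ^ 2 / (2 * Real.exp (N * N) ^ 2 * N),
    un 0 (2 * Real.exp (N * N) ^ 2 * N), le_rfl, h0 0 _ _ hT hX, le_rfl, by positivity, ?_⟩
  have : (0 : ℝ) < Real.exp (N * N) := Real.exp_pos _
  have hN0 : (0 : ℝ) < N := by linarith
  field_simp
  exact le_rfl

theorem ellX {M1 : ℝ} (hM : MainX M1) (hE : MT.ErrTot) (hP : MT.PowIneq) (h25 : MT.SmallLine) (h0 : MS.UnifMVP) : EllX M1 := by
  intro k B Lam w hk hw hw0 c hc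
  obtain ⟨q, hqdef⟩ : ∃ q : ℕ, q = ⌈k⌉₊ := ⟨_, rfl⟩
  have hq1 : 1 ≤ q := by rw [hqdef]; exact Nat.one_le_ceil_iff.mpr hk
  have hqk : k ≤ q := by rw [hqdef]; exact Nat.le_ceil k
  have hqk' : (q : ℝ) - 1 < k := by
    have := Nat.ceil_lt_add_one hk.le
    rw [← hqdef] at this
    linarith
  have hs : 0 ≤ 2 * k := by linarith
  have hs' : 0 < 2 * k := by linarith
  -- the basic comparison for one choice of the parameters
  have key : ∀ (η1 C1 : ℝ), (∀ x y : ℂ, |‖x‖ ^ (2 * k) - ‖y‖ ^ (2 * k)|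
        ≤ η1 * ‖x‖ ^ (2 * k) + C1 * ‖x - y‖ ^ (2 * k)) → 0 ≤ C1 → ∀ (p0 v : ℕ) (ε1 ε2 a g N1 N2 : ℝ),
      1000 ≤ p0 → 4 ≤ v → 1 ≤ N1 → 1 ≤ N2 →
      (∀ (A : Par) (L X η : ℝ) (ν : Measure ℝ), Std q v p0 N1 A L X η ν → ∀ w : ℝ → ℂ, CutC B Lam w →
        ∫ t, ‖ZS w L t - Mn w A L t‖ ^ (2 * k) ∂ν
          ≤ ε1 * (L ^ (k ^ 2) * Real.exp (-(2 * k * v * (1 - (q - k)))))) →
      (∀ (A : Par) (L X η : ℝ) (ν : Measure ℝ), Std q v p0 N2 A L X η ν →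
        |∫ t, ‖Mn w A L t‖ ^ (2 * k) ∂ν - a * g * sz k v L| ≤ ε2 * (a * g * sz k v L)) →
      ∀ (L X η : ℝ) (ν : Measure ℝ), Good (max N1 N2) L X η ν → ∃ z y e : ℝ,
        z = (∫ t, ‖ZS w L t‖ ^ (2 * k) ∂ν) / L ^ (k ^ 2) ∧ 0 ≤ z ∧ 0 ≤ y ∧ 0 ≤ e ∧
        |z - y| ≤ η1 * z + C1 * e ∧
        e ≤ ε1 * Real.exp (-(2 * k * v * (1 - (q - k)))) ∧
        |y - a * g * Real.exp (-(2 * v * k ^ 2))| ≤ ε2 * (a * g * Real.exp (-(2 * v * k ^ 2))) := by
    intro η1 C1 hη hC1 p0 v ε1 ε2 a g N1 N2 hp0 hv hN1 hN2 hE hM L X η ν hg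
    have hg1 := hg.mono hN1 (le_max_left _ _)
    have hg2 := hg.mono hN2 (le_max_right _ _)
    obtain ⟨A, hA⟩ := std_of hq1 hv hp0 (hN1.trans (le_max_left _ _)) hg
    have hL0 : 0 < L := by have := hg1.1; linarith
    have hA1 : Std q v p0 N1 A L X η ν :=
      { hA with hL := hg1.1, hX := hg1.2.2.1, ηN := hg1.2.2.2.2 }
    have hA2 : Std q v p0 N2 A L X η ν :=
      { hA with hL := hg2.1, hX := hg2.2.2.1, ηN := hg2.2.2.2.2 }
    have hprob : IsProbabilityMeasure ν := hA.mvp.prob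
    have hLk : 0 < L ^ (k ^ 2) := Real.rpow_pos_of_pos hL0 _
    have c1 := compare (cb_ZS w L) (cb_Mn h25 w A L) hprob hs hη
    have c2 := hE A L X η ν hA1 w hw
    have c3 := hM A L X η ν hA2
    obtain ⟨IZ, hIZ⟩ : ∃ IZ, IZ = ∫ t, ‖ZS w L t‖ ^ (2 * k) ∂ν := ⟨_, rfl⟩
    obtain ⟨IM, hIM⟩ : ∃ IM, IM = ∫ t, ‖Mn w A L t‖ ^ (2 * k) ∂ν := ⟨_, rfl⟩
    obtain ⟨IE, hIE⟩ : ∃ IE, IE = ∫ t, ‖ZS w L t - Mn w A L t‖ ^ (2 * k) ∂ν := ⟨_, rfl⟩
    rw [← hIZ, ← hIM, ← hIE] at c1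
    rw [← hIE] at c2
    rw [← hIM] at c3
    have hIZ0 : 0 ≤ IZ := by rw [hIZ]; exact integral_nonneg fun t => by positivity
    have hIM0 : 0 ≤ IM := by rw [hIM]; exact integral_nonneg fun t => by positivity
    have hIE0 : 0 ≤ IE := by rw [hIE]; exact integral_nonneg fun t => by positivity
    rw [← hIZ]
    refine ⟨IZ / L ^ (k ^ 2), IM / L ^ (k ^ 2), IE / L ^ (k ^ 2), rfl, by positivity, by positivity,
      by positivity, ?_, ?_, ?_⟩
    · rw [← sub_div, abs_div, abs_of_pos hLk, div_le_iff₀ hLk]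
      have e : (η1 * (IZ / L ^ (k ^ 2)) + C1 * (IE / L ^ (k ^ 2))) * L ^ (k ^ 2)
          = η1 * IZ + C1 * IE := by field_simp
      rw [e]
      exact c1
    · rw [div_le_iff₀ hLk]
      calc IE ≤ _ := c2
        _ = _ := by ring
    · have e1 : IM / L ^ (k ^ 2) - a * g * Real.exp (-(2 * v * k ^ 2))
          = (IM - a * g * sz k v L) / L ^ (k ^ 2) := by
        unfold sz
        field_simp
      rw [e1, abs_div, abs_of_pos hLk, div_le_iff₀ hLk]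
      calc |IM - a * g * sz k v L| ≤ _ := c3
        _ = _ := by unfold sz; ring
  obtain ⟨a, had⟩ : ∃ a, a = AI M1 k := ⟨_, rfl⟩
  have ha : 0 < a := by
    rw [had]
    exact mul_pos (NL.ak_pos hq1 hk.le hqk) (Real.exp_pos _)
  rw [← had]
  intro ε0 hε0
  obtain ⟨δ, hδd⟩ : ∃ δ, δ = min (a * ε0) 1 := ⟨_, rfl⟩
  have hδ : 0 < δ := by rw [hδd]; exact lt_min (by positivity) one_pos
  have hδ1 : δ ≤ 1 := by rw [hδd]; exact min_le_right _ _
  have hδε : δ ≤ a * ε0 := by rw [hδd]; exact min_le_left _ _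
  obtain ⟨Fs, hFd⟩ : ∃ Fs, Fs = |c| := ⟨_, rfl⟩
  have hFs0 : 0 ≤ Fs := by rw [hFd]; exact abs_nonneg c
  have hcF : c ≤ Fs := by rw [hFd]; exact le_abs_self c
  have hη : 0 < δ / (4 * (Fs + 1)) := by positivity
  obtain ⟨C1, hC1, hC⟩ := hP (2 * k) (δ / (4 * (Fs + 1))) hs' hη
  have hεm : 0 < δ / (8 * (Fs + 2)) := by positivity
  obtain ⟨p1, hp1, hm⟩ := hM q k (δ / (8 * (Fs + 2))) hq1 hk hqk' hqk hεm
  obtain ⟨v1, hv1, hm⟩ := hm p1 le_rfl
  have hε2 : 0 < δ / (4 * (C1 + 1)) := by positivity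
  obtain ⟨v0, he⟩ := hE q k hq1 hk hqk' hqk p1 hp1 B Lam (δ / (4 * (C1 + 1))) hε2
  obtain ⟨N3, hN3, hlim⟩ := hc (δ / 4) (by positivity)
  refine ⟨max v0 v1, fun v hv g hg1 hg2 => ?_⟩
  have hv0 : v0 ≤ v := (le_max_left _ _).trans hv
  have hv1' : v1 ≤ v := (le_max_right _ _).trans hv
  have hv4 : 4 ≤ v := hv1.trans hv1'
  obtain ⟨N1, hN1, hE1⟩ := he v hv0
  obtain ⟨N2, hN2, hM2⟩ := hm v hv1' w g hg1 hg2
  rw [← had] at hM2
  have hk1 := key _ C1 hC hC1 p1 v _ _ a g N1 N2 hp1 hv4 hN1 hN2 hE1 hM2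
  obtain ⟨m, hmd⟩ : ∃ m, m = a * g * Real.exp (-(2 * v * k ^ 2)) := ⟨_, rfl⟩
  have hm0 : 0 < m := by rw [hmd]; positivity
  obtain ⟨L, X, η, ν, hg⟩ := good_ex h0 (hN3.trans (le_max_left N3 (max N1 N2)))
  obtain ⟨z, y, e, hz, hz0, hy0, he0, i1, i2, i3⟩ := hk1 L X η ν
    (hg.mono (hN1.trans (le_max_left _ _)) (le_max_right _ _))
  obtain ⟨g1, g2, g3, g4, g5⟩ := hg.mono hN3 (le_max_left _ _)
  have hL : 0 < L := by linarith
  have hLk : 0 < L ^ (k ^ 2) := Real.rpow_pos_of_pos hL _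
  have hzc : |z - c| ≤ δ / 4 := by
    have h := hlim L X η ν g1 g2 g3 g4 g5
    have e1 : z - c = ((∫ t, ‖ZS w L t‖ ^ (2 * k) ∂ν) - c * L ^ (k ^ 2)) / L ^ (k ^ 2) := by
      rw [hz]
      field_simp
    rw [e1, abs_div, abs_of_pos hLk, div_le_iff₀ hLk]
    exact h
  rw [← hmd] at i3
  have hgs : z ≤ Fs + 1 := by
    have := (abs_le.mp hzc).2
    linarith
  have hexp : Real.exp (-(2 * k * v * (1 - (q - k)))) ≤ 1 := by
    rw [Real.exp_le_one_iff]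
    have : 0 ≤ 1 - ((q : ℝ) - k) := by linarith
    have : 0 ≤ 2 * k * v * (1 - (q - k)) := by positivity
    linarith
  have i4 : e ≤ δ / (4 * (C1 + 1)) := i2.trans (mul_le_of_le_one_right hε2.le hexp)
  have i5 : C1 * e ≤ δ / 4 := by
    calc C1 * e ≤ C1 * (δ / (4 * (C1 + 1))) := mul_le_mul_of_nonneg_left i4 hC1
      _ = δ / 4 * (C1 / (C1 + 1)) := by field_simp
      _ ≤ δ / 4 * 1 := by
        refine mul_le_mul_of_nonneg_left ?_ (by positivity)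
        rw [div_le_one (by positivity)]
        linarith
      _ = δ / 4 := mul_one _
  have i6 : δ / (4 * (Fs + 1)) * z ≤ δ / 4 := by
    calc δ / (4 * (Fs + 1)) * z ≤ δ / (4 * (Fs + 1)) * (Fs + 1) :=
          mul_le_mul_of_nonneg_left (by linarith) hη.le
      _ = δ / 4 := by field_simp
  have i7 : |z - y| ≤ δ / 2 := by linarith
  have i8 : y ≤ Fs + 2 := by
    have := (abs_le.mp i7).1
    linarith
  have hsmall : δ / (8 * (Fs + 2)) ≤ 1 / 16 := by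
    rw [div_le_div_iff₀ (by positivity) (by norm_num)]
    nlinarith
  have i9 : m ≤ 2 * (Fs + 2) := by
    have h := (abs_le.mp i3).1
    have h' : δ / (8 * (Fs + 2)) * m ≤ 1 / 16 * m := mul_le_mul_of_nonneg_right hsmall hm0.le
    linarith
  have i10 : δ / (8 * (Fs + 2)) * m ≤ δ / 4 := by
    calc δ / (8 * (Fs + 2)) * m ≤ δ / (8 * (Fs + 2)) * (2 * (Fs + 2)) :=
          mul_le_mul_of_nonneg_left (by linarith) hεm.le
      _ = δ / 4 := by field_simp; norm_num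
  have i11 : |m - c| ≤ |m - y| + |y - c| := abs_sub_le m y c
  have i12 : |y - c| ≤ |y - z| + |z - c| := abs_sub_le y z c
  rw [abs_sub_comm m y] at i11
  rw [abs_sub_comm y z] at i12
  have i13 : |m - c| ≤ a * ε0 := by linarith
  have e2 : g * Real.exp (-(2 * v * k ^ 2)) - c / a = (m - c) / a := by
    rw [hmd]
    field_simp
  rw [e2, abs_div, abs_of_pos ha, div_le_iff₀ ha]
  linarith

end Pool.Agent.Lib.RM
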