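import Mathlib
import Pool.Agent.Lib.MP_f9aece_nt_rm.Stmts
import Pool.Agent.Lib.MP_f9aece_nt_ms.Coeffs

/-!
The constants of the moments of the partial sums of zeta, module D5: the second moment.
-/

set_option autoImplicit false

namespace Pool.Agent.Lib.RM

open MeasureTheory ProbabilityTheory Set Filter Topology Complex
open scoped ComplexConjugate
open Pool.Agent.Lib.MP_f9aece_nt (DP pair BK K1 ev)
open Pool.Agent.Lib.J4 (En)
open Pool.Agent.Lib.MS (MVP TZ ZS un)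

namespace D5

/-! ### the weight -/

/-- the real weight -/
private noncomputable def w (x : ℝ) : ℝ := 1 - rp (1 / 2) x

private lemma wc_eq (x : ℝ) : wc (1 / 2) x = (w x : ℂ) := rfl

private lemma rp_nonneg (τ x : ℝ) : 0 ≤ rp τ x := le_max_left _ _

private lemma rp_le_one (τ x : ℝ) : rp τ x ≤ 1 := max_le zero_le_one (min_le_left _ _)

private lemma w_nonneg (x : ℝ) : 0 ≤ w x := by
  unfold w
  linarith [rp_le_one (1 / 2) x]

private lemma w_le_one (x : ℝ) : w x ≤ 1 := by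
  unfold w
  linarith [rp_nonneg (1 / 2) x]

private lemma w_zero {x : ℝ} (hx : 1 ≤ x) : w x = 0 := by
  unfold w rp
  have h1 : 1 ≤ (x - (1 - 1 / 2)) / (1 / 2) := by
    rw [le_div_iff₀ (by norm_num)]
    linarith
  rw [min_eq_left h1, max_eq_right zero_le_one, sub_self]

private lemma w_one {x : ℝ} (hx : x ≤ 1 / 2) : w x = 1 := by
  unfold w rp
  have h1 : (x - (1 - 1 / 2)) / (1 / 2) ≤ 0 :=
    div_nonpos_of_nonpos_of_nonneg (by linarith) (by norm_num)
  rw [max_eq_left ((min_le_right _ _).trans h1), sub_zero]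

private lemma w_lip (x y : ℝ) : |w x - w y| ≤ 2 * |x - y| := by
  unfold w rp
  have h1 : |max 0 (min 1 ((x - (1 - 1 / 2)) / (1 / 2))) - max 0 (min 1 ((y - (1 - 1 / 2)) / (1 / 2)))|
      ≤ |min 1 ((x - (1 - 1 / 2)) / (1 / 2)) - min 1 ((y - (1 - 1 / 2)) / (1 / 2))| := by
    have h := abs_max_sub_max_le_max 0 (min 1 ((x - (1 - 1 / 2)) / (1 / 2))) 0
      (min 1 ((y - (1 - 1 / 2)) / (1 / 2)))
    rwa [sub_self, abs_zero, max_eq_right (abs_nonneg (min 1 ((x - (1 - 1 / 2)) / (1 / 2))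
      - min 1 ((y - (1 - 1 / 2)) / (1 / 2))))] at h
  have h2 : |min 1 ((x - (1 - 1 / 2)) / (1 / 2)) - min 1 ((y - (1 - 1 / 2)) / (1 / 2))|
      ≤ |(x - (1 - 1 / 2)) / (1 / 2) - (y - (1 - 1 / 2)) / (1 / 2)| := by
    have h := abs_min_sub_min_le_max 1 ((x - (1 - 1 / 2)) / (1 / 2)) 1
      ((y - (1 - 1 / 2)) / (1 / 2))
    rwa [sub_self, abs_zero, max_eq_right (abs_nonneg ((x - (1 - 1 / 2)) / (1 / 2)
      - (y - (1 - 1 / 2)) / (1 / 2)))] at h
  have h3 : |(x - (1 - 1 / 2)) / (1 / 2) - (y - (1 - 1 / 2)) / (1 / 2)| = 2 * |x - y| := by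
    rw [← sub_div, abs_div, abs_of_pos (by norm_num : (0 : ℝ) < 1 / 2)]
    rw [show x - (1 - 1 / 2) - (y - (1 - 1 / 2)) = x - y by ring]
    ring
  rw [show 1 - max 0 (min 1 ((x - (1 - 1 / 2)) / (1 / 2)))
      - (1 - max 0 (min 1 ((y - (1 - 1 / 2)) / (1 / 2))))
      = -(max 0 (min 1 ((x - (1 - 1 / 2)) / (1 / 2)))
        - max 0 (min 1 ((y - (1 - 1 / 2)) / (1 / 2)))) by ring, abs_neg]
  linarith

/-- the square of the weight -/
private noncomputable def f (L x : ℝ) : ℝ := w (x / L) ^ 2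

private lemma f_nonneg (L x : ℝ) : 0 ≤ f L x := sq_nonneg _

private lemma f_le_one (L x : ℝ) : f L x ≤ 1 := by
  unfold f
  exact pow_le_one₀ (w_nonneg _) (w_le_one _)

private lemma f_zero {L x : ℝ} (hL : 0 < L) (hx : L ≤ x) : f L x = 0 := by
  unfold f
  rw [w_zero ((one_le_div hL).mpr hx)]
  norm_num

private lemma f_one {L x : ℝ} (hL : 0 < L) (hx : 2 * x ≤ L) : f L x = 1 := by
  unfold f
  rw [w_one (by rw [div_le_iff₀ hL]; linarith), one_pow]

private lemma f_lip {L : ℝ} (hL : 0 < L) (x y : ℝ) : |f L x - f L y| ≤ 4 / L * |x - y| := by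
  unfold f
  have h1 := w_lip (x / L) (y / L)
  have h2 := w_le_one (x / L)
  have h3 := w_le_one (y / L)
  have h4 := w_nonneg (x / L)
  have h5 := w_nonneg (y / L)
  have e : w (x / L) ^ 2 - w (y / L) ^ 2 = (w (x / L) - w (y / L)) * (w (x / L) + w (y / L)) := by
    ring
  have e2 : |x / L - y / L| = 1 / L * |x - y| := by
    rw [← sub_div, abs_div, abs_of_pos hL]
    ring
  rw [e, abs_mul, abs_of_nonneg (by linarith : 0 ≤ w (x / L) + w (y / L))]
  rw [e2] at h1
  calc |w (x / L) - w (y / L)| * (w (x / L) + w (y / L))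
      ≤ 2 * (1 / L * |x - y|) * 2 := mul_le_mul h1 (by linarith) (by linarith) (by positivity)
    _ = _ := by ring

private lemma f_cont {L : ℝ} (hL : 0 < L) : Continuous (f L) := by
  have h : LipschitzWith (Real.toNNReal (4 / L)) (f L) := by
    refine LipschitzWith.of_dist_le_mul fun x y => ?_
    rw [Real.dist_eq, Real.dist_eq, Real.coe_toNNReal _ (by positivity)]
    exact f_lip hL x y
  exact h.continuous

/-- one step -/
private lemma step {L : ℝ} (hL : 0 < L) {a b : ℝ} (hab : a ≤ b) :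
    |(∫ x in a..b, f L x) - f L a * (b - a)| ≤ 4 / L * (b - a) ^ 2 := by
  have hc := f_cont hL
  have e : (∫ x in a..b, f L x) - f L a * (b - a) = ∫ x in a..b, (f L x - f L a) := by
    rw [intervalIntegral.integral_sub (hc.intervalIntegrable _ _)
      (continuous_const.intervalIntegrable _ _), intervalIntegral.integral_const, smul_eq_mul]
    ring
  rw [e, ← Real.norm_eq_abs]
  refine (intervalIntegral.norm_integral_le_of_norm_le_const (C := 4 / L * (b - a)) ?_).trans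
    (le_of_eq ?_)
  · intro x hx
    rw [uIoc_of_le hab] at hx
    rw [Real.norm_eq_abs]
    refine (f_lip hL x a).trans ?_
    rw [abs_of_nonneg (by linarith [hx.1])]
    have : x - a ≤ b - a := by linarith [hx.2]
    gcongr
  · rw [abs_of_nonneg (by linarith)]
    ring

/-- the integral -/
private noncomputable def F (L y : ℝ) : ℝ := ∫ x in (0 : ℝ)..y, f L x

private lemma F_sub {L : ℝ} (hL : 0 < L) (a b : ℝ) : F L b - F L a = ∫ x in a..b, f L x := by
  unfold F
  rw [intervalIntegral.integral_interval_sub_left ((f_cont hL).intervalIntegrable _ _)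
    ((f_cont hL).intervalIntegrable _ _)]

private lemma F_const {L y : ℝ} (hL : 0 < L) (hy : L ≤ y) : F L y = F L L := by
  have h := F_sub hL L y
  have h0 : ∫ x in L..y, f L x = 0 := by
    rw [intervalIntegral.integral_congr (g := fun _ => (0 : ℝ)) fun x hx => ?_]
    · simp
    · rw [uIcc_of_le hy] at hx
      exact f_zero hL hx.1
  linarith

/-- sums over the natural numbers -/
private lemma sum_nat {L : ℕ} (hL : 1 ≤ L) :
    |(∑ m ∈ Finset.range (L + 1), f L m) - F L L| ≤ 4 := by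
  have hL0 : (0 : ℝ) < L := by exact_mod_cast hL
  have h1 : ∀ n : ℕ, |(∑ m ∈ Finset.range n, f L m) - F L n| ≤ (n : ℝ) * (4 / (L : ℝ)) := by
    intro n
    induction n with
    | zero => simp [F]
    | succ n ih =>
      have h2 := step hL0 (a := n) (b := (n : ℝ) + 1) (by linarith)
      rw [← F_sub hL0] at h2
      rw [Finset.sum_range_succ]
      push_cast
      have e : (n : ℝ) + 1 - n = 1 := by ring
      rw [e] at h2
      rw [one_pow, mul_one, mul_one] at h2
      rw [abs_le] at h2 ih ⊢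
      constructor <;> linarith [h2.1, h2.2, ih.1, ih.2]
  have h3 := h1 L
  rw [Finset.sum_range_succ, f_zero hL0 le_rfl, add_zero]
  refine h3.trans (le_of_eq ?_)
  field_simp

private lemma sum_inv_sq (M : ℕ) : ∑ n ∈ Finset.Icc 1 M, 1 / (n : ℝ) ^ 2 ≤ 2 := by
  rcases Nat.eq_zero_or_pos M with rfl | hM
  · norm_num
  have h : ∑ n ∈ Finset.Icc 1 M, 1 / (n : ℝ) ^ 2 ≤ 2 - 1 / (M : ℝ) := by
    induction M, hM using Nat.le_induction with
    | base => norm_num
    | succ M hM ih =>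
      rw [Finset.sum_Icc_succ_top (by omega)]
      push_cast
      have hM0 : (0 : ℝ) < M := by exact_mod_cast hM
      have h1 : 1 / ((M : ℝ) + 1) ^ 2 ≤ 1 / (M : ℝ) - 1 / ((M : ℝ) + 1) := by
        rw [div_sub_div _ _ hM0.ne' (by positivity), div_le_div_iff₀ (by positivity) (by positivity)]
        nlinarith
      linarith
  have : 0 ≤ 1 / (M : ℝ) := by positivity
  linarith

/-- sums over the integers with logarithms -/
private lemma sum_log {L : ℕ} (hL : 1 ≤ L) :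
    |(∑ n ∈ Finset.Icc 1 ⌊Real.exp L⌋₊, f L (Real.log n) * (n : ℝ)⁻¹) - F L L| ≤ 10 := by
  have hL0 : (0 : ℝ) < L := by exact_mod_cast hL
  have hL1 : (1 : ℝ) ≤ L := by exact_mod_cast hL
  have hone : ∀ n : ℕ, 1 ≤ n → |f L (Real.log n) * (n : ℝ)⁻¹
      - (F L (Real.log ((n : ℝ) + 1)) - F L (Real.log n))| ≤ 5 * (1 / (n : ℝ) ^ 2) := by
    intro n hn
    have hn0 : (0 : ℝ) < n := by exact_mod_cast hn
    obtain ⟨d, hd⟩ : ∃ d, d = Real.log ((n : ℝ) + 1) - Real.log n := ⟨_, rfl⟩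
    have hd1 : d = Real.log (((n : ℝ) + 1) / n) := by
      rw [hd, Real.log_div (by positivity) hn0.ne']
    have hd0 : 0 ≤ d := by
      rw [hd]
      have := Real.log_le_log hn0 (by linarith : (n : ℝ) ≤ n + 1)
      linarith
    have hdu : d ≤ (n : ℝ)⁻¹ := by
      rw [hd1]
      have h := Real.log_le_sub_one_of_pos (x := ((n : ℝ) + 1) / n) (by positivity)
      refine h.trans (le_of_eq ?_)
      field_simp
      ring
    have hdl : (n : ℝ)⁻¹ - 1 / (n : ℝ) ^ 2 ≤ d := by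
      rw [hd1]
      have h := Real.one_sub_inv_le_log_of_pos (x := ((n : ℝ) + 1) / n) (by positivity)
      refine le_trans ?_ h
      rw [inv_div]
      have h3 : 1 - (n : ℝ) / (n + 1) = 1 / (n + 1) := by field_simp; ring
      rw [h3, sub_le_iff_le_add, ← one_div, div_add_div _ _ (by positivity) (by positivity),
        div_le_div_iff₀ hn0 (by positivity)]
      nlinarith
    have h2 := step hL0 (a := Real.log n) (b := Real.log ((n : ℝ) + 1)) (by linarith)
    rw [← F_sub hL0, ← hd] at h2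
    have h4 : 4 / (L : ℝ) * d ^ 2 ≤ 4 * (1 / (n : ℝ) ^ 2) := by
      have h5 : 4 / (L : ℝ) ≤ 4 := div_le_self (by norm_num) hL1
      have h6 : d ^ 2 ≤ 1 / (n : ℝ) ^ 2 := by
        have h7 : d ^ 2 ≤ ((n : ℝ)⁻¹) ^ 2 := pow_le_pow_left₀ hd0 hdu 2
        rwa [inv_pow, ← one_div] at h7
      calc 4 / (L : ℝ) * d ^ 2 ≤ 4 * d ^ 2 := mul_le_mul_of_nonneg_right h5 (sq_nonneg d)
        _ ≤ _ := by linarith
    have h8 : |f L (Real.log n) * (n : ℝ)⁻¹ - f L (Real.log n) * d| ≤ 1 / (n : ℝ) ^ 2 := by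
      rw [← mul_sub, abs_mul, abs_of_nonneg (f_nonneg _ _), abs_of_nonneg (by linarith)]
      calc f L (Real.log n) * ((n : ℝ)⁻¹ - d) ≤ 1 * ((n : ℝ)⁻¹ - d) :=
            mul_le_mul_of_nonneg_right (f_le_one _ _) (by linarith)
        _ ≤ _ := by linarith
    have h9 := abs_sub_le (f L (Real.log n) * (n : ℝ)⁻¹) (f L (Real.log n) * d)
      (F L (Real.log ((n : ℝ) + 1)) - F L (Real.log n))
    rw [abs_sub_comm (f L (Real.log n) * d)] at h9
    linarith
  have hsum : ∀ M : ℕ, |(∑ n ∈ Finset.Icc 1 M, f L (Real.log n) * (n : ℝ)⁻¹)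
      - F L (Real.log ((M : ℝ) + 1))| ≤ 5 * ∑ n ∈ Finset.Icc 1 M, 1 / (n : ℝ) ^ 2 := by
    intro M
    induction M with
    | zero => simp [F]
    | succ M ih =>
      rw [Finset.sum_Icc_succ_top (by omega), Finset.sum_Icc_succ_top (by omega)]
      have h := hone (M + 1) (by omega)
      push_cast at h ⊢
      rw [abs_le] at h ih ⊢
      constructor <;> linarith [h.1, h.2, ih.1, ih.2]
  have h1 := hsum ⌊Real.exp L⌋₊
  have h2 : (L : ℝ) ≤ Real.log ((⌊Real.exp L⌋₊ : ℝ) + 1) := by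
    rw [Real.le_log_iff_exp_le (by positivity)]
    exact (Nat.lt_floor_add_one _).le
  rw [F_const hL0 h2] at h1
  have h3 := sum_inv_sq ⌊Real.exp L⌋₊
  linarith

/-! ### the integers -/

private lemma coeff_TZ (L : ℝ) (n : ℕ) : (TZ w L).coeff n
    = if n ∈ Finset.Icc 1 ⌊Real.exp L⌋₊ then w (Real.log n / L) else 0 := by
  unfold MS.TZ
  rw [MonoidAlgebra.coeff_sum, Finsupp.finsetSum_apply]
  simp only [MonoidAlgebra.coeff_single, Finsupp.single_apply]
  rw [Finset.sum_ite_eq']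

private lemma en_TZ (L : ℝ) : En (TZ w L)
    = ∑ n ∈ Finset.Icc 1 ⌊Real.exp L⌋₊, f L (Real.log n) * (n : ℝ)⁻¹ := by
  unfold J4.En
  rw [MP_f9aece_nt.BK_K1_eq, MP_f9aece_nt.pair_def]
  rw [Finset.sum_subset (s₂ := Finset.Icc 1 ⌊Real.exp L⌋₊)]
  · refine Finset.sum_congr rfl fun n hn => ?_
    rw [coeff_TZ, if_pos hn]
    unfold f
    ring
  · intro n hn
    rw [Finsupp.mem_support_iff, coeff_TZ] at hn
    by_contra h
    exact hn (if_neg h)
  · intro n _ hn
    rw [Finsupp.notMem_support_iff] at hn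
    rw [hn, zero_mul]

private lemma ev_TZ (L t : ℝ) : ev t (TZ w L) = ZS (wc (1 / 2)) L t := by
  unfold MS.TZ MS.ZS
  rw [map_sum]
  exact Finset.sum_congr rfl fun n _ => MP_f9aece_nt.ev_single t n (w (Real.log n / L))

private lemma zs_moment {ν : Measure ℝ} {L X η : ℝ} (hν : MVP ν X η) (hX : Real.exp L ≤ X) :
    |(∫ t, ‖ZS (wc (1 / 2)) L t‖ ^ (2 * (1 : ℝ)) ∂ν) - En (TZ w L)| ≤ η * En (TZ w L) := by
  have hlen : MS.Len X (TZ w L) := by
    intro n hn
    rw [coeff_TZ] at hn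
    have h : n ∈ Finset.Icc 1 ⌊Real.exp L⌋₊ := by
      by_contra h
      exact hn (if_neg h)
    rw [Finset.mem_Icc] at h
    exact ⟨h.1, ((Nat.le_floor_iff (Real.exp_pos _).le).mp h.2).trans hX⟩
  have h := hν.mv (TZ w L) (TZ w L) hlen hlen
  have e1 : ∀ t, ev t (TZ w L) * conj (ev t (TZ w L))
      = ((‖ZS (wc (1 / 2)) L t‖ ^ (2 * (1 : ℝ)) : ℝ) : ℂ) := by
    intro t
    rw [ev_TZ, Complex.mul_conj, Complex.normSq_eq_norm_sq, mul_one]
    norm_cast
  simp only [e1] at h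
  have e2 : ∫ t, ((‖ZS (wc (1 / 2)) L t‖ ^ (2 * (1 : ℝ)) : ℝ) : ℂ) ∂ν
      = ((∫ t, ‖ZS (wc (1 / 2)) L t‖ ^ (2 * (1 : ℝ)) ∂ν : ℝ) : ℂ) := integral_ofReal
  rw [e2, ← Complex.ofReal_sub, Complex.norm_real, Real.norm_eq_abs] at h
  have hE : 0 ≤ En (TZ w L) := by
    rw [en_TZ]
    exact Finset.sum_nonneg fun n _ => mul_nonneg (f_nonneg _ _) (by positivity)
  rw [Real.sqrt_mul_self hE] at h
  exact h

/-! ### the Gaussian side -/

private lemma zero_of_mem {L M : ℕ} {α : ℕ →₀ ℕ} (h : α ∈ bx (Finset.Icc 1 L) M) : α 0 = 0 := by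
  by_contra h0
  have := (mem_bx.mp h).1 (Finsupp.mem_support_iff.mpr h0)
  simp at this

/-- the sum of the weights of degree `n` -/
private noncomputable def e (L n : ℕ) : ℝ :=
  ∑ α ∈ (bx (Finset.Icc 1 L) (L + 1)).filter (fun α => dg α = n), ww 1 α

private lemma e_eq {L n : ℕ} (h : n ≤ L) : e L n = e n n := by
  unfold e
  refine Finset.sum_congr ?_ fun _ _ => rfl
  ext α
  rw [Finset.mem_filter, Finset.mem_filter, mem_bx, mem_bx]
  constructor
  · rintro ⟨⟨h1, -⟩, h3⟩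
    refine ⟨⟨fun j hj => ?_, fun j hj => ?_⟩, h3⟩
    · have h4 := h1 hj
      have h5 := mul_le_dg α j
      have h6 : 1 ≤ α j := Nat.one_le_iff_ne_zero.mpr (Finsupp.mem_support_iff.mp hj)
      rw [Finset.mem_Icc] at h4 ⊢
      refine ⟨h4.1, ?_⟩
      nlinarith
    · have h5 := mul_le_dg α j
      rw [Finset.mem_Icc] at hj
      nlinarith
  · rintro ⟨⟨h1, h2⟩, h3⟩
    refine ⟨⟨fun j hj => ?_, fun j hj => ?_⟩, h3⟩
    · have h4 := h1 hj
      rw [Finset.mem_Icc] at h4 ⊢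
      omega
    · have h5 := mul_le_dg α j
      rw [Finset.mem_Icc] at hj
      nlinarith

private lemma sum_e (h8 : Rec) (L : ℕ) : ∑ n ∈ Finset.range (L + 1), e L n = (L : ℝ) + 1 := by
  have hz : ∀ j : ℕ, ((1 / Real.sqrt j : ℝ) : ℂ) / (Real.sqrt j : ℂ) = (((1 : ℝ) / j : ℝ) : ℂ) := by
    intro j
    rw [← Complex.ofReal_div, div_div, Real.mul_self_sqrt (Nat.cast_nonneg j)]
  have hee : ∀ α : ℕ →₀ ℕ, ee α (fun j => ((1 / Real.sqrt j : ℝ) : ℂ)) = ((ww 1 α : ℝ) : ℂ) := by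
    intro α
    unfold ee ww Finsupp.prod
    push_cast
    refine Finset.prod_congr rfl fun j _ => ?_
    have := hz j
    push_cast at this
    rw [this]
  have h := h8 (fun _ => 1) (fun j => ((1 / Real.sqrt j : ℝ) : ℂ)) rfl (fun n => ?_) L
  · rw [Finset.sum_const, Finset.card_range, nsmul_eq_mul, mul_one] at h
    unfold SG PG at h
    simp only [hee] at h
    have h1 : ∑ α ∈ bx (Finset.Icc 1 L) (L + 1), (if dg α ≤ L then ww 1 α else 0) = (L : ℝ) + 1 := by
      have h2 : ((∑ α ∈ bx (Finset.Icc 1 L) (L + 1), (if dg α ≤ L then ww 1 α else 0) : ℝ) : ℂ)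
          = (((L : ℝ) + 1 : ℝ) : ℂ) := by
        push_cast at h ⊢
        rw [h]
        refine Finset.sum_congr rfl fun α _ => ?_
        split_ifs
        · rw [one_mul]
        · rw [zero_mul, Complex.ofReal_zero]
      exact_mod_cast h2
    rw [← h1, ← Finset.sum_filter]
    unfold e
    rw [← Finset.sum_fiberwise_of_maps_to (s := (bx (Finset.Icc 1 L) (L + 1)).filter fun α => dg α ≤ L)
      (t := Finset.range (L + 1)) (g := dg)]
    · refine Finset.sum_congr rfl fun n hn => ?_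
      refine Finset.sum_congr ?_ fun _ _ => rfl
      ext α
      rw [Finset.mem_range] at hn
      simp only [Finset.mem_filter]
      constructor
      · rintro ⟨h3, h4⟩
        exact ⟨⟨h3, by omega⟩, h4⟩
      · rintro ⟨⟨h3, h4⟩, h5⟩
        exact ⟨h3, h5⟩
    · intro α hα
      have := (Finset.mem_filter.mp hα).2
      rw [Finset.mem_range]
      omega
  · rw [mul_one]
    have h3 : ∀ j ∈ Finset.range (n + 1), (Real.sqrt ((j : ℝ) + 1) : ℂ)
        * ((1 / Real.sqrt ((j + 1 : ℕ) : ℝ) : ℝ) : ℂ) * 1 = 1 := by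
      intro j _
      have h4 : Real.sqrt ((j : ℝ) + 1) ≠ 0 := (Real.sqrt_pos.mpr (by positivity)).ne'
      rw [mul_one, Nat.cast_add, Nat.cast_one, ← Complex.ofReal_mul, mul_one_div_cancel h4,
        Complex.ofReal_one]
    rw [Finset.sum_congr rfl h3, Finset.sum_const, Finset.card_range, nsmul_eq_mul, mul_one]
    push_cast
    ring

private lemma e_one (h8 : Rec) {L n : ℕ} (h : n ≤ L) : e L n = 1 := by
  rw [e_eq h]
  have h1 : ∀ m : ℕ, ∑ i ∈ Finset.range (m + 1), e i i = (m : ℝ) + 1 := by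
    intro m
    rw [← sum_e h8 m]
    refine Finset.sum_congr rfl fun i hi => ?_
    rw [Finset.mem_range] at hi
    exact (e_eq (by omega)).symm
  rcases Nat.eq_zero_or_pos n with rfl | hn
  · have := h1 0
    simpa using this
  · obtain ⟨m, rfl⟩ : ∃ m, n = m + 1 := ⟨n - 1, by omega⟩
    have h2 := h1 (m + 1)
    rw [Finset.sum_range_succ, h1 m] at h2
    push_cast at h2
    linarith

private lemma gauss (hO : Orth) (h8 : Rec) {L : ℕ} (hL : 1 ≤ L) :
    ∫ z, ‖SG (fun n => wc (1 / 2) ((n : ℝ) / L)) (Finset.Icc 1 L) L z‖ ^ (2 * (1 : ℝ)) ∂Gm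
      = ∑ m ∈ Finset.range (L + 1), f L m := by
  have hL0 : (0 : ℝ) < L := by exact_mod_cast hL
  have h := (hO (bx (Finset.Icc 1 L) (L + 1)) fun α hα => zero_of_mem hα).2
    (fun α => wc (1 / 2) ((dg α : ℝ) / L)) (fun α => wc (1 / 2) ((dg α : ℝ) / L))
  have e1 : ∀ z, PG (fun α => wc (1 / 2) ((dg α : ℝ) / L)) (bx (Finset.Icc 1 L) (L + 1)) z
      * conj (PG (fun α => wc (1 / 2) ((dg α : ℝ) / L)) (bx (Finset.Icc 1 L) (L + 1)) z)
      = ((‖SG (fun n => wc (1 / 2) ((n : ℝ) / L)) (Finset.Icc 1 L) L z‖ ^ (2 * (1 : ℝ)) : ℝ) : ℂ) := by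
    intro z
    unfold SG
    rw [Complex.mul_conj, Complex.normSq_eq_norm_sq, mul_one]
    norm_cast
  simp only [e1] at h
  have e2 : ∫ z, ((‖SG (fun n => wc (1 / 2) ((n : ℝ) / L)) (Finset.Icc 1 L) L z‖ ^ (2 * (1 : ℝ)) : ℝ) : ℂ)
      ∂Gm = ((∫ z, ‖SG (fun n => wc (1 / 2) ((n : ℝ) / L)) (Finset.Icc 1 L) L z‖ ^ (2 * (1 : ℝ)) ∂Gm : ℝ) : ℂ) :=
    integral_ofReal
  rw [e2] at h
  have h1 : ∫ z, ‖SG (fun n => wc (1 / 2) ((n : ℝ) / L)) (Finset.Icc 1 L) L z‖ ^ (2 * (1 : ℝ)) ∂Gm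
      = ∑ α ∈ bx (Finset.Icc 1 L) (L + 1), f L (dg α) * ww 1 α := by
    have h2 : ((∫ z, ‖SG (fun n => wc (1 / 2) ((n : ℝ) / L)) (Finset.Icc 1 L) L z‖ ^ (2 * (1 : ℝ)) ∂Gm : ℝ) : ℂ)
        = ((∑ α ∈ bx (Finset.Icc 1 L) (L + 1), f L (dg α) * ww 1 α : ℝ) : ℂ) := by
      rw [h]
      push_cast
      refine Finset.sum_congr rfl fun α _ => ?_
      rw [wc_eq, Complex.conj_ofReal]
      unfold f
      push_cast
      ring
    exact_mod_cast h2
  rw [h1, ← Finset.sum_filter_add_sum_filter_not (bx (Finset.Icc 1 L) (L + 1)) (fun α => dg α ≤ L)]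
  have h3 : ∑ α ∈ (bx (Finset.Icc 1 L) (L + 1)).filter (fun α => ¬ dg α ≤ L), f L (dg α) * ww 1 α
      = 0 := by
    refine Finset.sum_eq_zero fun α hα => ?_
    have h4 := (Finset.mem_filter.mp hα).2
    rw [f_zero hL0 (by exact_mod_cast (by omega : L ≤ dg α)), zero_mul]
  rw [h3, add_zero]
  rw [← Finset.sum_fiberwise_of_maps_to (s := (bx (Finset.Icc 1 L) (L + 1)).filter fun α => dg α ≤ L)
    (t := Finset.range (L + 1)) (g := dg)]
  · refine Finset.sum_congr rfl fun n hn => ?_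
    rw [Finset.mem_range] at hn
    have h5 : ∑ α ∈ ((bx (Finset.Icc 1 L) (L + 1)).filter fun α => dg α ≤ L).filter
        (fun α => dg α = n), f L (dg α) * ww 1 α = f L n * e L n := by
      unfold e
      rw [Finset.mul_sum]
      refine Finset.sum_congr ?_ fun α hα => ?_
      · ext α
        simp only [Finset.mem_filter]
        constructor
        · rintro ⟨⟨h3, h4⟩, h5⟩
          exact ⟨h3, h5⟩
        · rintro ⟨h3, h4⟩
          exact ⟨⟨h3, by omega⟩, h4⟩
      · rw [(Finset.mem_filter.mp hα).2]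
    rw [h5, e_one h8 (by omega), mul_one]
  · intro α hα
    have := (Finset.mem_filter.mp hα).2
    rw [Finset.mem_range]
    omega

private lemma sum_low {L : ℕ} (hL : 1 ≤ L) : (L : ℝ) / 2 ≤ ∑ m ∈ Finset.range (L + 1), f L m := by
  have hL0 : (0 : ℝ) < L := by exact_mod_cast hL
  have h1 : ∑ m ∈ Finset.range (L / 2 + 1), f L m ≤ ∑ m ∈ Finset.range (L + 1), f L m :=
    Finset.sum_le_sum_of_subset_of_nonneg (Finset.range_mono (by omega)) fun m _ _ => f_nonneg _ _
  have h2 : ∑ m ∈ Finset.range (L / 2 + 1), f L m = ((L / 2 + 1 : ℕ) : ℝ) := by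
    rw [Finset.sum_congr rfl fun m hm => f_one hL0 ?_]
    · rw [Finset.sum_const, Finset.card_range, nsmul_eq_mul, mul_one]
    · rw [Finset.mem_range] at hm
      have : 2 * m ≤ L := by omega
      exact_mod_cast this
  have h3 : (L : ℝ) / 2 ≤ ((L / 2 + 1 : ℕ) : ℝ) := by
    have : L ≤ 2 * (L / 2 + 1) := by omega
    have h4 : (L : ℝ) ≤ 2 * ((L / 2 + 1 : ℕ) : ℝ) := by exact_mod_cast this
    linarith
  linarith

private lemma good (h0 : MS.UnifMVP) {N L : ℝ} (hN : 1 ≤ N) (hL : 0 ≤ L) :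
    MVP (un 0 (2 * Real.exp (N * L) ^ 2 * N)) (Real.exp (N * L)) (1 / N) := by
  have hX : 1 ≤ Real.exp (N * L) := Real.one_le_exp (by positivity)
  have hT : 0 < 2 * Real.exp (N * L) ^ 2 * N := by positivity
  have h := h0 0 _ _ hT hX
  have e1 : 2 * Real.exp (N * L) ^ 2 / (2 * Real.exp (N * L) ^ 2 * N) = 1 / N := by
    have h1 : (0 : ℝ) < Real.exp (N * L) := Real.exp_pos _
    have h2 : (0 : ℝ) < N := by linarith
    field_simp
  rwa [e1] at h

end D5

open D5

theorem oneEq (hO : Orth) (h0 : MS.UnifMVP) (h8 : Rec) : OneEq := by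
  intro c h hc hh
  unfold GLm at hh
  have hh1 : Tendsto (fun L : ℕ => (∑ m ∈ Finset.range (L + 1), f L m) / (L : ℝ)) atTop (𝓝 h) := by
    refine hh.congr' ?_
    filter_upwards [eventually_ge_atTop 1] with L hL
    rw [gauss hO h8 hL, one_pow, Real.rpow_one]
  have hpos : 1 / 2 ≤ h := by
    refine ge_of_tendsto hh1 ?_
    filter_upwards [eventually_ge_atTop 1] with L hL
    have hL0 : (0 : ℝ) < L := by exact_mod_cast hL
    rw [le_div_iff₀ hL0]
    have := sum_low hL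
    linarith
  have heq : c = h := by
    refine eq_of_forall_dist_le fun ε hε => ?_
    obtain ⟨N, hN, hc1⟩ := hc (ε / 8) (by positivity)
    obtain ⟨L1, hL1⟩ := (Metric.tendsto_atTop.mp hh1) (ε / 8) (by positivity)
    obtain ⟨N', hN'⟩ : ∃ N' : ℝ, N' = max N (8 * (|h| + ε) / ε + 1) := ⟨_, rfl⟩
    have hNN : N ≤ N' := by rw [hN']; exact le_max_left _ _
    have hN1 : 1 ≤ N' := hN.trans hNN
    have hN2 : 8 * (|h| + ε) / ε ≤ N' := by
      rw [hN']
      exact (by linarith : 8 * (|h| + ε) / ε ≤ 8 * (|h| + ε) / ε + 1).trans (le_max_right _ _)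
    obtain ⟨L, hLd⟩ : ∃ L : ℕ, L = max (max 1 L1) (max ⌈N'⌉₊ ⌈112 / ε⌉₊) := ⟨_, rfl⟩
    have hLa : 1 ≤ L := by rw [hLd]; exact (le_max_left _ _).trans (le_max_left _ _)
    have hLb : L1 ≤ L := by rw [hLd]; exact (le_max_right _ _).trans (le_max_left _ _)
    have hLc : N' ≤ L := by
      refine (Nat.le_ceil N').trans ?_
      rw [hLd]
      exact_mod_cast (le_max_left _ _).trans (le_max_right _ _)
    have hLe : 112 / ε ≤ L := by
      refine (Nat.le_ceil _).trans ?_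
      rw [hLd]
      exact_mod_cast (le_max_right _ _).trans (le_max_right _ _)
    have hL0 : (0 : ℝ) < L := by exact_mod_cast hLa
    have hν := good h0 hN1 hL0.le
    have h1 := hc1 L (Real.exp (N' * L)) (1 / N') _ (hNN.trans hLc) hν
      (Real.exp_le_exp.mpr (mul_le_mul_of_nonneg_right hNN hL0.le)) (by positivity)
      (by rw [one_div_mul_eq_div, div_le_one (by linarith)]; exact hNN)
    have h2 := zs_moment hν (Real.exp_le_exp.mpr (by
      calc (L : ℝ) = 1 * L := (one_mul _).symm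
        _ ≤ N' * L := mul_le_mul_of_nonneg_right hN1 hL0.le))
    rw [one_pow, Real.rpow_one] at h1
    have h3 := sum_log hLa
    rw [← en_TZ] at h3
    have h4 := sum_nat hLa
    have h5 := hL1 L hLb
    rw [Real.dist_eq] at h5
    obtain ⟨A, hA⟩ : ∃ A, A = ∫ t, ‖ZS (wc (1 / 2)) L t‖ ^ (2 * (1 : ℝ))
      ∂(un 0 (2 * Real.exp (N' * L) ^ 2 * N')) := ⟨_, rfl⟩
    obtain ⟨E, hE⟩ : ∃ E, E = En (TZ w L) := ⟨_, rfl⟩
    obtain ⟨G, hG⟩ : ∃ G, G = ∑ m ∈ Finset.range (L + 1), f L m := ⟨_, rfl⟩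
    rw [← hA] at h1 h2
    rw [← hE] at h2 h3
    rw [← hG] at h4 h5
    have h6 : |E - G| ≤ 14 := by
      have := abs_sub_le E (F L L) G
      rw [abs_sub_comm (F L L) G] at this
      linarith
    have h7 : |G - h * L| ≤ ε / 8 * L := by
      have e1 : G - h * L = (G / L - h) * L := by field_simp
      rw [e1, abs_mul, abs_of_pos hL0]
      exact mul_le_mul_of_nonneg_right h5.le hL0.le
    have h8 : 14 ≤ ε / 8 * L := by
      rw [div_le_iff₀ hε] at hLe
      linarith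
    have h9 : E ≤ (|h| + ε) * L := by
      have h10 := (abs_le.mp h6).2
      have h11 := (abs_le.mp h7).2
      have h12 := mul_le_mul_of_nonneg_right (le_abs_self h) hL0.le
      nlinarith
    have h10 : 1 / N' * E ≤ ε / 8 * L := by
      have h11 : 1 / N' * (|h| + ε) ≤ ε / 8 := by
        rw [div_le_iff₀ hε] at hN2
        rw [one_div_mul_eq_div, div_le_iff₀ (by linarith)]
        linarith
      calc 1 / N' * E ≤ 1 / N' * ((|h| + ε) * L) :=
            mul_le_mul_of_nonneg_left h9 (by positivity)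
        _ = 1 / N' * (|h| + ε) * L := by ring
        _ ≤ _ := mul_le_mul_of_nonneg_right h11 hL0.le
    have h11 : |c * L - h * L| ≤ ε * L := by
      rw [abs_le] at h1 h2 h6 h7 ⊢
      constructor <;> nlinarith [h1.1, h1.2, h2.1, h2.2, h6.1, h6.2, h7.1, h7.2]
    rw [← sub_mul, abs_mul, abs_of_pos hL0] at h11
    rw [Real.dist_eq]
    exact le_of_mul_le_mul_right h11 hL0
  exact ⟨heq, by rw [heq]; linarith⟩

end Pool.Agent.Lib.RM
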