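import Mathlib
import Pool.Agent.Lib.MP_f9aece_nt_rm.Stmts
import Pool.Agent.Lib.MP_f9aece_nt_ps.Defs

/-!
The constants of the moments of the partial sums of zeta: the final step.
-/

set_option autoImplicit false

namespace Pool.Agent.Lib.RM

open MeasureTheory ProbabilityTheory Set Filter Topology Complex
open scoped ComplexConjugate
open Pool.Agent.Lib.MS (MVP un ZS)

/-- the law over intervals, with a given constant -/
def IntLaw (k c : ℝ) : Prop := ∀ ε : ℝ, 0 < ε → ∃ C : ℝ, 0 < C ∧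
  ∀ L T : ℝ, C ≤ L → 1 ≤ T → C * L ≤ Real.log T → ∀ x : ℝ,
  |T⁻¹ * (∫ t in x..(x + T), ‖ZS (fun _ => 1) L t‖ ^ (2 * k)) - c * L ^ (k ^ 2)| ≤ ε * L ^ (k ^ 2)

/-- the final theorem: the constant is the arithmetic factor times the constant of the Gaussian
model -/
def Final : Prop := ∀ k : ℝ, 0 < k → ∃ g : ℝ, 0 < g ∧ GLm k (fun L n => if n ≤ L then 1 else 0) g ∧
  IntLaw k (NL.ak k * g)

private theorem fin_int (x : ℝ) {T : ℝ} (hT : 0 < T) (f : ℝ → ℝ) :
    ∫ t, f t ∂(un x T) = T⁻¹ * ∫ t in x..(x + T), f t := by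
  unfold MS.un
  rw [integral_smul_measure, ENNReal.toReal_inv, ENNReal.toReal_ofReal hT.le,
    intervalIntegral.integral_of_le (by linarith), integral_Icc_eq_integral_Ioc, smul_eq_mul]

private theorem intLaw_of_NT (hU : MS.UnifMVP) {k c : ℝ} (h : NT k (fun _ => 1) c) : IntLaw k c := by
  intro ε hε
  obtain ⟨N, hN1, hN⟩ := h ε hε
  refine ⟨4 * N, by linarith, fun L T hL hT hLT x => ?_⟩
  have hT0 : 0 < T := by linarith
  have hTe : T = Real.exp (Real.log T) := (Real.exp_log hT0).symm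
  have hX : T ^ (1 / 4 : ℝ) = Real.exp (Real.log T / 4) := by
    rw [Real.rpow_def_of_pos hT0]
    congr 1
    ring
  have hX1 : 1 ≤ T ^ (1 / 4 : ℝ) := Real.one_le_rpow hT (by norm_num)
  have hlog : 16 * N ^ 2 ≤ Real.log T := by nlinarith
  have hη : 2 * (T ^ (1 / 4 : ℝ)) ^ 2 / T = 2 * Real.exp (-(Real.log T / 2)) := by
    have e1 : (T ^ (1 / 4 : ℝ)) ^ 2 = Real.exp (Real.log T / 2) := by
      rw [hX, ← Real.exp_nat_mul]
      congr 1
      push_cast
      ring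
    have e2 : T = Real.exp (Real.log T / 2) * Real.exp (Real.log T / 2) := by
      rw [← Real.exp_add]
      rw [add_halves]
      exact hTe
    rw [e1, Real.exp_neg]
    have e3 : Real.exp (Real.log T / 2) ≠ 0 := (Real.exp_pos _).ne'
    have e4 : 2 * Real.exp (Real.log T / 2) / T =
        2 * Real.exp (Real.log T / 2) / (Real.exp (Real.log T / 2) *
          Real.exp (Real.log T / 2)) := by rw [← e2]
    rw [e4]
    field_simp
  have key := hN L (T ^ (1 / 4 : ℝ)) (2 * (T ^ (1 / 4 : ℝ)) ^ 2 / T) (un x T) (by linarith)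
    (hU x T _ hT0 hX1) ?_ ?_ ?_
  · rwa [fin_int x hT0] at key
  · rw [hX, Real.exp_le_exp]
    nlinarith
  · positivity
  · rw [hη]
    have e5 : 2 * N ≤ Real.exp (Real.log T / 2) := by
      have := Real.add_one_le_exp (Real.log T / 2)
      nlinarith
    rw [Real.exp_neg, mul_comm, ← mul_assoc, mul_comm N 2, ← div_eq_mul_inv,
      div_le_one (Real.exp_pos _)]
    exact e5

private theorem intLaw_unique {k c c' : ℝ} (h : IntLaw k c) (h' : IntLaw k c') : c = c' := by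
  refine eq_of_forall_dist_le fun ε hε => ?_
  obtain ⟨C, hC, h⟩ := h (ε / 2) (by positivity)
  obtain ⟨C', hC', h'⟩ := h' (ε / 2) (by positivity)
  set D : ℝ := max C C' with hD
  have hCD : C ≤ D := le_max_left _ _
  have hCD' : C' ≤ D := le_max_right _ _
  have hD0 : 0 < D := by linarith
  have hT : 1 ≤ Real.exp (D * D) := Real.one_le_exp (by positivity)
  have h1 := h D (Real.exp (D * D)) hCD hT (by
    rw [Real.log_exp]
    exact mul_le_mul_of_nonneg_right hCD hD0.le) 0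
  have h2 := h' D (Real.exp (D * D)) hCD' hT (by
    rw [Real.log_exp]
    exact mul_le_mul_of_nonneg_right hCD' hD0.le) 0
  have hDk : 0 < D ^ (k ^ 2) := Real.rpow_pos_of_pos hD0 _
  rw [Real.dist_eq]
  rw [abs_sub_comm] at h1
  have h3 : |c * D ^ (k ^ 2) - c' * D ^ (k ^ 2)| ≤ ε / 2 * D ^ (k ^ 2) + ε / 2 * D ^ (k ^ 2) :=
    (abs_sub_le _ _ _).trans (add_le_add h1 h2)
  rw [← sub_mul, abs_mul, abs_of_pos hDk] at h3
  have h4 : |c - c'| * D ^ (k ^ 2) ≤ ε * D ^ (k ^ 2) := by linarith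
  exact le_of_mul_le_mul_right h4 hDk

private lemma rp_nonneg (τ x : ℝ) : 0 ≤ rp τ x := le_max_left _ _

private lemma rp_le_one (τ x : ℝ) : rp τ x ≤ 1 := max_le zero_le_one (min_le_left _ _)

private lemma rp_zero {τ : ℝ} (h0 : 0 < τ) (h1 : τ ≤ 1) : rp τ 0 = 0 := by
  unfold rp
  refine max_eq_left ((min_le_right _ _).trans ?_)
  exact div_nonpos_of_nonpos_of_nonneg (by linarith) h0.le

private lemma rp_one {τ x : ℝ} (h0 : 0 < τ) (hx : 1 ≤ x) : rp τ x = 1 := by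
  unfold rp
  have h1 : 1 ≤ (x - (1 - τ)) / τ := by
    rw [le_div_iff₀ h0]
    linarith
  rw [min_eq_left h1]
  exact max_eq_right zero_le_one

private lemma rp_lip {τ : ℝ} (h0 : 0 < τ) (x y : ℝ) : |rp τ x - rp τ y| ≤ 1 / τ * |x - y| := by
  unfold rp
  have h1 : |max 0 (min 1 ((x - (1 - τ)) / τ)) - max 0 (min 1 ((y - (1 - τ)) / τ))|
      ≤ |min 1 ((x - (1 - τ)) / τ) - min 1 ((y - (1 - τ)) / τ)| := by
    have h := abs_max_sub_max_le_max 0 (min 1 ((x - (1 - τ)) / τ)) 0 (min 1 ((y - (1 - τ)) / τ))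
    rwa [sub_self, abs_zero, max_eq_right (abs_nonneg (min 1 ((x - (1 - τ)) / τ)
      - min 1 ((y - (1 - τ)) / τ)))] at h
  have h2 : |min 1 ((x - (1 - τ)) / τ) - min 1 ((y - (1 - τ)) / τ)|
      ≤ |(x - (1 - τ)) / τ - (y - (1 - τ)) / τ| := by
    have h := abs_min_sub_min_le_max 1 ((x - (1 - τ)) / τ) 1 ((y - (1 - τ)) / τ)
    rwa [sub_self, abs_zero, max_eq_right (abs_nonneg ((x - (1 - τ)) / τ
      - (y - (1 - τ)) / τ))] at h
  refine h1.trans (h2.trans (le_of_eq ?_))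
  rw [← sub_div, abs_div, abs_of_pos h0]
  rw [show x - (1 - τ) - (y - (1 - τ)) = x - y by ring]
  ring

private lemma wc_cut {τ : ℝ} (h0 : 0 < τ) : MT.CutC 1 (1 / τ) (wc τ) where
  bd x := by
    unfold wc
    rw [Complex.norm_real, Real.norm_eq_abs, abs_of_nonneg (by linarith [rp_le_one τ x])]
    linarith [rp_nonneg τ x]
  lip x y := by
    unfold wc
    rw [← Complex.ofReal_sub, Complex.norm_real, Real.norm_eq_abs,
      show 1 - rp τ x - (1 - rp τ y) = -(rp τ x - rp τ y) by ring, abs_neg]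
    exact rp_lip h0 x y
  zero x hx := by
    unfold wc
    rw [rp_one h0 hx]
    simp

private lemma wc_zero {τ : ℝ} (h0 : 0 < τ) (h1 : τ ≤ 1) : wc τ 0 = 1 := by
  unfold wc
  rw [rp_zero h0 h1]
  simp

private lemma ak_one : NL.ak 1 = 1 := by
  unfold NL.ak
  have h : ∀ p : Nat.Primes, (1 - (((p : ℕ) : ℝ))⁻¹) ^ ((1 : ℝ) ^ 2) * NL.Fi 1 (((p : ℕ) : ℝ))⁻¹ = 1 := by
    intro p
    have h1 := NL.prime_inv_le p.2
    have h2 : 0 ≤ (((p : ℕ) : ℝ))⁻¹ := by positivity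
    rw [NL.Fi_at_one h2 h1, one_pow, Real.rpow_one, mul_inv_cancel₀ (by linarith)]
  rw [tprod_congr h]
  exact tprod_one

theorem final (hL : MT.LimEx) (hS : PS.SharpLim) (hS' : PS.SharpPos) (hU : MS.UnifMVP)
    (hC : ConstX) (hEX : ∀ M0 M1 : ℝ, VLimX M0 → ArLim M0 M1 → EllX M1) (hG : GMain)
    (hNS : NSharp) (hGS : GSharp) (hO : OneEq) : Final := by
  obtain ⟨M0, M1, hV, hA⟩ := hC
  have hE : EllX M1 := hEX M0 M1 hV hA
  -- the limits for the smoothed sums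
  have hcc : ∀ k : ℝ, 0 < k → ∃ cc : ℝ → ℝ, ∀ τ : ℝ, 0 < τ → τ ≤ 1 → NT k (wc τ) (cc τ) := by
    intro k hk
    have h1 : ∀ τ : ℝ, ∃ c : ℝ, 0 < τ → τ ≤ 1 → NT k (wc τ) c := by
      intro τ
      by_cases h : 0 < τ ∧ τ ≤ 1
      · obtain ⟨c, -, -, hc⟩ := hL k 1 (1 / τ) (wc τ) hk (wc_cut h.1) (wc_zero h.1 h.2)
        exact ⟨c, fun _ _ => hc⟩
      · exact ⟨0, fun h2 h3 => absurd ⟨h2, h3⟩ h⟩
    choose cc hcc using h1
    exact ⟨cc, hcc⟩
  have hGG : ∀ k τ c : ℝ, 0 < k → 0 < τ → τ ≤ 1 → NT k (wc τ) c →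
      GLm k (fun L n => wc τ ((n : ℝ) / L))
        (Real.exp (k ^ 2 * Real.eulerMascheroniConstant) * (c / AI M1 k)) := by
    intro k τ c hk h0 h1 h
    exact hG k 1 (1 / τ) (wc τ) hk (wc_cut h0) (wc_zero h0 h1) _
      (hE k 1 (1 / τ) (wc τ) hk (wc_cut h0) (wc_zero h0 h1) c h)
  -- the constant of Mertens
  have hM1 : M1 = Real.eulerMascheroniConstant := by
    obtain ⟨cc, hcc⟩ := hcc 1 one_pos
    have h1 := hcc (1 / 2) (by norm_num) (by norm_num)
    obtain ⟨h2, h3⟩ := hO _ _ h1 (hGG 1 (1 / 2) _ one_pos (by norm_num) (by norm_num) h1)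
    unfold AI at h2
    rw [ak_one, one_mul, one_pow, one_mul, one_mul] at h2
    have h5 := (Real.exp_pos M1).ne'
    field_simp at h2
    exact Real.exp_injective h2
  intro k hk
  obtain ⟨N, hN⟩ : ∃ N : ℕ, N = ⌈k⌉₊ := ⟨_, rfl⟩
  have hN1 : 1 ≤ N := by rw [hN]; exact Nat.one_le_ceil_iff.mpr hk
  have hNk : k ≤ N := by rw [hN]; exact Nat.le_ceil k
  have hak : 0 < NL.ak k := NL.ak_pos hN1 hk.le hNk
  obtain ⟨c, hc0, hc⟩ := hS k hk
  obtain ⟨c', hc'0, hc'⟩ := hS' k hk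
  have hcNT : NT k (fun _ => 1) c := hc
  have hcc' : c = c' := intLaw_unique (intLaw_of_NT hU hcNT) hc'
  obtain ⟨cc, hcc⟩ := hcc k hk
  have hlim := hNS k hk c hcNT cc hcc
  have hak1 : AI M1 k = NL.ak k * Real.exp (k ^ 2 * Real.eulerMascheroniConstant) := by
    unfold AI
    rw [hM1]
  refine ⟨c / NL.ak k, div_pos (hcc' ▸ hc'0) hak, ?_, ?_⟩
  · refine hGS k hk (c / NL.ak k) (fun τ => cc τ / NL.ak k) (fun τ h0 h1 => ?_) (hlim.div_const _)
    have h := hGG k τ _ hk h0 h1 (hcc τ h0 h1)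
    have e : Real.exp (k ^ 2 * Real.eulerMascheroniConstant) * (cc τ / AI M1 k) = cc τ / NL.ak k := by
      rw [hak1]
      have h5 := (Real.exp_pos (k ^ 2 * Real.eulerMascheroniConstant)).ne'
      field_simp
    rwa [e] at h
  · rw [mul_div_cancel₀ _ hak.ne']
    exact intLaw_of_NT hU hcNT

end Pool.Agent.Lib.RM
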