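import Pool.Agent.Lib.MP_f9aece_nt_ps.All
import Pool.Agent.Lib.MP_f9aece_nt_rm.A1
import Pool.Agent.Lib.MP_f9aece_nt_rm.A2
import Pool.Agent.Lib.MP_f9aece_nt_rm.A3
import Pool.Agent.Lib.MP_f9aece_nt_rm.A4
import Pool.Agent.Lib.MP_f9aece_nt_rm.A5
import Pool.Agent.Lib.MP_f9aece_nt_rm.A6
import Pool.Agent.Lib.MP_f9aece_nt_rm.A7
import Pool.Agent.Lib.MP_f9aece_nt_rm.A8
import Pool.Agent.Lib.MP_f9aece_nt_rm.A9
import Pool.Agent.Lib.MP_f9aece_nt_rm.B1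
import Pool.Agent.Lib.MP_f9aece_nt_rm.B2
import Pool.Agent.Lib.MP_f9aece_nt_rm.B3
import Pool.Agent.Lib.MP_f9aece_nt_rm.B4
import Pool.Agent.Lib.MP_f9aece_nt_rm.B5
import Pool.Agent.Lib.MP_f9aece_nt_rm.B6
import Pool.Agent.Lib.MP_f9aece_nt_rm.C1
import Pool.Agent.Lib.MP_f9aece_nt_rm.C2
import Pool.Agent.Lib.MP_f9aece_nt_rm.C3
import Pool.Agent.Lib.MP_f9aece_nt_rm.C4
import Pool.Agent.Lib.MP_f9aece_nt_rm.C5
import Pool.Agent.Lib.MP_f9aece_nt_rm.C6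
import Pool.Agent.Lib.MP_f9aece_nt_rm.C7
import Pool.Agent.Lib.MP_f9aece_nt_rm.C8
import Pool.Agent.Lib.MP_f9aece_nt_rm.D1
import Pool.Agent.Lib.MP_f9aece_nt_rm.D2
import Pool.Agent.Lib.MP_f9aece_nt_rm.D3
import Pool.Agent.Lib.MP_f9aece_nt_rm.D4
import Pool.Agent.Lib.MP_f9aece_nt_rm.D5
import Pool.Agent.Lib.MP_f9aece_nt_rm.Fin

/-!
The constants of the moments of the partial sums of zeta: everything together.
-/

set_option autoImplicit false

namespace Pool.Agent.Lib.RM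

open Pool.Agent.Lib

theorem xOrth : Orth := orth oneA oneB prodF

theorem xHyp : Hyp := hyp mulP xOrth

theorem xExpM : ExpM := expM oneA prodF

theorem xPowS : PowS := MP2.powSum

theorem xTel : Tel := tel (levBd xHyp) xExpM indL xPowS

theorem xGTail : GTail := gTail xTel (edgeLev wSum aSum) xExpM indL xHyp wSum

theorem xRLim : RLim := rLim (rPM xHyp symSum)
  (pMLim oneA prodF xOrth xHyp MT.gauA MT.gauB MT.levyC MT.unifInt)
  (decPM MT.xDecM MT.xDecA MT.powIneq MS.unifMVP) MT.powIneq xOrth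

theorem xGMain : GMain :=
  gMain MT.xDecLimit xTel (lipLev wSum aSum) xExpM indL xRLim MT.powIneq xOrth

theorem xGSharp : GSharp := gSharp xGTail MT.powIneq xOrth

theorem xMainX {M0 M1 : ℝ} (hV : VLimX M0) (hA : ArLim M0 M1) : MainX M1 := mainX hV hA
  (MT.mainUp MS.ptYoung (MS.sumE (MS.blockE MS.enW) (MS.blockP MS.enW)) MS.sumB MS.lenB
    MT.smallLine MT.xDecPhi)
  (MT.mainLow MS.lenB MT.smallLine MT.xDecPhi (MT.lowForm (MT.lowBlk MS.enW)) MT.ptLow)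

theorem xEllX {M0 M1 : ℝ} (hV : VLimX M0) (hA : ArLim M0 M1) : EllX M1 :=
  ellX (xMainX hV hA) MT.xErrTot MT.powIneq MT.smallLine MS.unifMVP

theorem xSharpLim : PS.SharpLim :=
  PS.sharpLim MT.xLimEx MT.powIneq MT.cauL MS.unifMVP PS.xTail

theorem xFinal : Final := final MT.xLimEx xSharpLim PS.xSharpPos MS.unifMVP (constX MT.mertC)
  (fun _ _ => xEllX) xGMain (nSharp PS.xTail MT.powIneq MS.unifMVP) xGSharp
  (oneEq xOrth MS.unifMVP rec)

end Pool.Agent.Lib.RM
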