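import Mathlib
import Pool.Agent.Lib.MP_f9aece_nt_rm.StmtsG

/-!
The constants of the moments of the partial sums of zeta, module B1.

With `D = Finset.Ioc ⌊y/2⌋₊ ⌊y⌋₊`, `D' = Finset.Ioc ⌊y⌋₊ L`, `D ∪ D' = Finset.Ioc ⌊y/2⌋₊ L`. For `M ≥ L + 1` put
`P_M z = ∑_(γ ∈ bx (D ∪ D') M) (u (dg γ) - u (dg (γ.filter (· ∈ D')))) ee γ z`, a `PG`. By `sum_bx_union` and `ee_add`, `dg_add`:
`P_M = SG u (D ∪ D') L - E_M SG u D' L`, `E_M = ∑_(α ∈ bx D M) ee α` (in the sums over boxes with parameter `M` instead of `L + 1` the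
additional multi-indices have `dg > L` (all `j ≥ 1`, `mul_le_dg`) and `u = 0` there; they are in the same way irrelevant in
the coefficient sum, so that `∑ ‖..‖^2 ww q = LF q u L M y`, `ww_add`). `E_M → EX D z` for every `z` as `M → ∞`: `sum_bx_ee` and the exponential series
(`NormedSpace.expSeries_div_hasSum_exp`, `Complex.exp_sum`, `tendsto_finset_prod`). `Hyp`: `MM k P_M ≤ (LF q u L M y)^k ≤ T^k`. Fatou: `lintegral_liminf_le`
with continuity of `x ↦ ENNReal.ofReal (‖x‖^(2k))` (or `lintegral_liminf_le'`, `Filter.Tendsto.liminf_eq`).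
-/

set_option autoImplicit false

namespace Pool.Agent.Lib.RM

open MeasureTheory ProbabilityTheory Set Filter Topology Complex
open scoped ComplexConjugate

private lemma b1_disj {D D' : Finset ℕ} (h : Disjoint D D') {α β : ℕ →₀ ℕ} (hα : α.support ⊆ D)
    (hβ : β.support ⊆ D') : Disjoint α.support β.support :=
  Finset.disjoint_of_subset_left hα (Finset.disjoint_of_subset_right hβ h)

private lemma b1_filter {D D' : Finset ℕ} (h : Disjoint D D') {α β : ℕ →₀ ℕ} (hα : α.support ⊆ D)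
    (hβ : β.support ⊆ D') : (α + β).filter (· ∈ D') = β := by
  ext j
  rw [Finsupp.filter_apply, Finsupp.add_apply]
  split_ifs with hj
  · have h4 : α j = 0 := by
      by_contra h5
      exact (Finset.disjoint_left.mp h (hα (Finsupp.mem_support_iff.mpr h5))) hj
    rw [h4, zero_add]
  · by_contra h5
    exact hj (hβ (Finsupp.mem_support_iff.mpr (Ne.symm h5)))

private lemma b1_filter' {D D' : Finset ℕ} (h : Disjoint D D') {α β : ℕ →₀ ℕ} (hα : α.support ⊆ D)
    (hβ : β.support ⊆ D') : (α + β).filter (· ∈ D) = α := by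
  rw [add_comm]
  exact b1_filter h.symm hβ hα

/-- the multi-indices `α + β` -/
private noncomputable def BM (D D' : Finset ℕ) (M L : ℕ) : Finset (ℕ →₀ ℕ) :=
  (bx D M ×ˢ bx D' (L + 1)).image fun p => p.1 + p.2

private lemma sum_BM {R : Type} [AddCommMonoid R] {D D' : Finset ℕ} (h : Disjoint D D') (M L : ℕ)
    (F : (ℕ →₀ ℕ) → R) :
    ∑ γ ∈ BM D D' M L, F γ = ∑ α ∈ bx D M, ∑ β ∈ bx D' (L + 1), F (α + β) := by
  unfold BM
  rw [Finset.sum_image, Finset.sum_product]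
  rintro ⟨α, β⟩ hp ⟨α', β'⟩ hp' he
  obtain ⟨h1, h2⟩ := Finset.mem_product.mp (Finset.mem_coe.mp hp)
  obtain ⟨h3, h4⟩ := Finset.mem_product.mp (Finset.mem_coe.mp hp')
  rw [mem_bx] at h1 h2 h3 h4
  have he' : α + β = α' + β' := he
  have h5 := b1_filter h h1.1 h2.1
  have h6 := b1_filter' h h1.1 h2.1
  rw [he', b1_filter h h3.1 h4.1] at h5
  rw [he', b1_filter' h h3.1 h4.1] at h6
  exact Prod.ext h6.symm h5.symm

private lemma b1_exp (D : Finset ℕ) (z : ℕ → ℂ) :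
    Tendsto (fun M : ℕ => ∑ α ∈ bx D M, ee α z) atTop (𝓝 (EX D z)) := by
  have h1 : EX D z = ∏ j ∈ D, cexp (z j / (Real.sqrt j : ℂ)) := by
    unfold EX
    rw [Complex.exp_sum]
  rw [h1]
  simp only [sum_bx_ee]
  refine tendsto_finsetProd _ fun j _ => ?_
  have h2 := (NormedSpace.expSeries_div_hasSum_exp (𝔸 := ℂ) (z j / (Real.sqrt j : ℂ))).tendsto_sum_nat
  rwa [← Complex.exp_eq_exp_ℂ] at h2

private lemma b1_SG {u : ℕ → ℂ} {L : ℕ} (hu : ∀ n, L < n → u n = 0) {D D' : Finset ℕ}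
    (h : Disjoint D D') (hD : ∀ j ∈ D, 1 ≤ j) {M : ℕ} (hM : L + 1 ≤ M) (z : ℕ → ℂ) :
    SG u (D ∪ D') L z = ∑ α ∈ bx D M, ∑ β ∈ bx D' (L + 1), u (dg α + dg β) * (ee α z * ee β z) := by
  unfold SG PG
  rw [sum_bx_union h]
  have h1 : ∀ α ∈ bx D (L + 1), ∑ β ∈ bx D' (L + 1), u (dg (α + β)) * ee (α + β) z =
      ∑ β ∈ bx D' (L + 1), u (dg α + dg β) * (ee α z * ee β z) := by
    intro α hα
    refine Finset.sum_congr rfl fun β hβ => ?_
    rw [mem_bx] at hα hβ
    rw [dg_add, ee_add (b1_disj h hα.1 hβ.1)]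
  rw [Finset.sum_congr rfl h1]
  refine Finset.sum_subset ?_ ?_
  · intro α hα
    rw [mem_bx] at hα ⊢
    exact ⟨hα.1, fun j hj => (hα.2 j hj).trans_le hM⟩
  · intro α hα hα'
    rw [mem_bx] at hα hα'
    have h2 : ∃ j ∈ D, L + 1 ≤ α j := by
      by_contra h3
      push Not at h3
      exact hα' ⟨hα.1, fun j hj => by have := h3 j hj; omega⟩
    obtain ⟨j, hj, hjL⟩ := h2
    have h3 : L < dg α := by
      have h4 := mul_le_dg α j
      have h5 := Nat.mul_le_mul (hD j hj) hjL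
      omega
    refine Finset.sum_eq_zero fun β _ => ?_
    rw [hu _ (by omega), zero_mul]

theorem levBd (hH : Hyp) : LevBd := by
  intro q k hq hk hkq u L y T hu hy hyL hT
  set D := Finset.Ioc ⌊y / 2⌋₊ ⌊y⌋₊ with hD
  set D' := Finset.Ioc ⌊y⌋₊ L with hD'
  have hdisj : Disjoint D D' := by
    rw [Finset.disjoint_left]
    intro j h1 h2
    rw [hD, Finset.mem_Ioc] at h1
    rw [hD', Finset.mem_Ioc] at h2
    omega
  have hfl : ⌊y / 2⌋₊ ≤ ⌊y⌋₊ := Nat.floor_le_floor (by linarith)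
  have hfL : ⌊y⌋₊ ≤ L := Nat.floor_le_of_le hyL
  have hun : D ∪ D' = Finset.Ioc ⌊y / 2⌋₊ L := by
    rw [hD, hD']
    exact Finset.Ioc_union_Ioc_eq_Ioc hfl hfL
  have hD1 : ∀ j ∈ D, 1 ≤ j := by
    intro j hj
    rw [hD, Finset.mem_Ioc] at hj
    omega
  have hD1' : ∀ j ∈ D', 1 ≤ j := by
    intro j hj
    rw [hD', Finset.mem_Ioc] at hj
    omega
  rw [← hun]
  -- the approximations
  let f : (ℕ →₀ ℕ) → ℂ := fun γ => u (dg γ) - u (dg (γ.filter (· ∈ D')))
  have hf : ∀ M : ℕ, ∀ α ∈ bx D M, ∀ β ∈ bx D' (L + 1),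
      f (α + β) = u (dg α + dg β) - u (dg β) := by
    intro M α hα β hβ
    rw [mem_bx] at hα hβ
    show u (dg (α + β)) - u (dg ((α + β).filter (· ∈ D'))) = _
    rw [b1_filter hdisj hα.1 hβ.1, dg_add]
  have h0 : ∀ M, ∀ γ ∈ BM D D' M L, γ 0 = 0 := by
    intro M γ hγ
    unfold BM at hγ
    rw [Finset.mem_image] at hγ
    obtain ⟨⟨α, β⟩, hp, rfl⟩ := hγ
    obtain ⟨h1, h2⟩ := Finset.mem_product.mp hp
    rw [mem_bx] at h1 h2
    have h3 : α 0 = 0 := by
      by_contra h5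
      have := hD1 0 (h1.1 (Finsupp.mem_support_iff.mpr h5))
      omega
    have h4 : β 0 = 0 := by
      by_contra h5
      have := hD1' 0 (h2.1 (Finsupp.mem_support_iff.mpr h5))
      omega
    show (α + β) 0 = 0
    rw [Finsupp.add_apply, h3, h4]
  have hbd : ∀ M, MM k (PG f (BM D D' M L)) ≤ ENNReal.ofReal (T ^ k) := by
    intro M
    refine (hH q k hq hk hkq (BM D D' M L) f (h0 M)).trans (ENNReal.ofReal_le_ofReal ?_)
    have h1 : ∑ γ ∈ BM D D' M L, ‖f γ‖ ^ 2 * ww q γ = LF q u L M y := by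
      rw [sum_BM hdisj]
      unfold LF
      refine Finset.sum_congr rfl fun α hα => Finset.sum_congr rfl fun β hβ => ?_
      rw [hf M α hα β hβ]
      rw [mem_bx] at hα hβ
      rw [ww_add (b1_disj hdisj hα.1 hβ.1)]
    rw [h1]
    refine Real.rpow_le_rpow ?_ (hT M) hk.le
    rw [← h1]
    exact Finset.sum_nonneg fun γ _ => mul_nonneg (by positivity) (ww_nonneg (Nat.cast_nonneg q) γ)
  have hlim : ∀ z : ℕ → ℂ, Tendsto (fun M : ℕ => PG f (BM D D' M L) z) atTop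
      (𝓝 (SG u (D ∪ D') L z - EX D z * SG u D' L z)) := by
    intro z
    have h1 : Tendsto (fun M : ℕ => SG u (D ∪ D') L z - (∑ α ∈ bx D M, ee α z) * SG u D' L z)
        atTop (𝓝 (SG u (D ∪ D') L z - EX D z * SG u D' L z)) :=
      ((b1_exp D z).mul_const _).const_sub _
    refine h1.congr' ?_
    filter_upwards [eventually_ge_atTop (L + 1)] with M hM
    rw [b1_SG hu hdisj hD1 hM z]
    have h2 : PG f (BM D D' M L) z = ∑ α ∈ bx D M, ∑ β ∈ bx D' (L + 1),
        (u (dg α + dg β) - u (dg β)) * (ee α z * ee β z) := by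
      unfold PG
      rw [sum_BM hdisj]
      refine Finset.sum_congr rfl fun α hα => Finset.sum_congr rfl fun β hβ => ?_
      rw [hf M α hα β hβ]
      rw [mem_bx] at hα hβ
      rw [ee_add (b1_disj hdisj hα.1 hβ.1)]
    rw [h2]
    unfold SG PG
    rw [Finset.sum_mul_sum, ← Finset.sum_sub_distrib]
    refine Finset.sum_congr rfl fun α _ => ?_
    rw [← Finset.sum_sub_distrib]
    exact Finset.sum_congr rfl fun β _ => by ring
  -- Fatou
  have hcont : ∀ M, Measurable fun z => ENNReal.ofReal (‖PG f (BM D D' M L) z‖ ^ (2 * k)) := by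
    intro M
    have h1 : Continuous fun z => ‖PG f (BM D D' M L) z‖ ^ (2 * k) :=
      (continuous_PG f (BM D D' M L)).norm.rpow_const fun _ => Or.inr (by positivity)
    exact h1.measurable.ennreal_ofReal
  have h2 : ∀ z : ℕ → ℂ, liminf (fun M : ℕ => ENNReal.ofReal (‖PG f (BM D D' M L) z‖ ^ (2 * k)))
      atTop = ENNReal.ofReal (‖SG u (D ∪ D') L z - EX D z * SG u D' L z‖ ^ (2 * k)) := by
    intro z
    refine Tendsto.liminf_eq ?_
    have h3 : Continuous fun x : ℂ => ENNReal.ofReal (‖x‖ ^ (2 * k)) :=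
      ENNReal.continuous_ofReal.comp
        (continuous_norm.rpow_const fun _ => Or.inr (by positivity))
    exact (h3.tendsto _).comp (hlim z)
  unfold MM
  calc ∫⁻ z, ENNReal.ofReal (‖SG u (D ∪ D') L z - EX D z * SG u D' L z‖ ^ (2 * k)) ∂Gm
      = ∫⁻ z, liminf (fun M : ℕ => ENNReal.ofReal (‖PG f (BM D D' M L) z‖ ^ (2 * k))) atTop ∂Gm :=
        lintegral_congr fun z => (h2 z).symm
    _ ≤ liminf (fun M : ℕ => ∫⁻ z, ENNReal.ofReal (‖PG f (BM D D' M L) z‖ ^ (2 * k)) ∂Gm) atTop :=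
        lintegral_liminf_le hcont
    _ ≤ limsup (fun M : ℕ => ∫⁻ z, ENNReal.ofReal (‖PG f (BM D D' M L) z‖ ^ (2 * k)) ∂Gm) atTop :=
        liminf_le_limsup
    _ ≤ ENNReal.ofReal (T ^ k) := by
        refine limsup_le_iSup.trans (iSup_le fun M => ?_)
        exact hbd M

end Pool.Agent.Lib.RM
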