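import Mathlib
import Pool.Agent.Lib.MP_f9aece_nt_rm.Stmts

/-!
The constants of the moments of the partial sums of zeta, module C6: the Gaussian model with a
Lipschitz weight.
-/

set_option autoImplicit false

namespace Pool.Agent.Lib.RM

open MeasureTheory ProbabilityTheory Set Filter Topology Complex
open scoped ComplexConjugate

namespace C6

private lemma cont_pow {F : (ℕ → ℂ) → ℂ} (hF : Continuous F) {k : ℝ} (hk : 0 < k) :
    Continuous fun z => ‖F z‖ ^ (2 * k) :=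
  hF.norm.rpow_const fun _ => Or.inr (by positivity)

/-- integrability and bound from a bound for the moment -/
private lemma int_of_MM {F : (ℕ → ℂ) → ℂ} (hF : Continuous F) {k c : ℝ} (hk : 0 < k) (hc : 0 ≤ c)
    (h : MM k F ≤ ENNReal.ofReal c) :
    Integrable (fun z => ‖F z‖ ^ (2 * k)) Gm ∧ ∫ z, ‖F z‖ ^ (2 * k) ∂Gm ≤ c := by
  have h0 : ∀ z, 0 ≤ ‖F z‖ ^ (2 * k) := fun z => by positivity
  have hm : AEStronglyMeasurable (fun z => ‖F z‖ ^ (2 * k)) Gm :=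
    (cont_pow hF hk).aestronglyMeasurable
  constructor
  · refine ⟨hm, ?_⟩
    rw [hasFiniteIntegral_iff_ofReal (Eventually.of_forall h0)]
    exact lt_of_le_of_lt h ENNReal.ofReal_lt_top
  · rw [integral_eq_lintegral_of_nonneg_ae (Eventually.of_forall h0) hm]
    exact ENNReal.toReal_le_of_le_ofReal hc h

private lemma MM_eq {F : (ℕ → ℂ) → ℂ} {k : ℝ} (h : Integrable (fun z => ‖F z‖ ^ (2 * k)) Gm) :
    MM k F = ENNReal.ofReal (∫ z, ‖F z‖ ^ (2 * k) ∂Gm) := by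
  unfold MM
  rw [ofReal_integral_eq_lintegral_ofReal h (Eventually.of_forall fun z => by positivity)]

private lemma int_SG (hO : Orth) (u : ℕ → ℂ) (D : Finset ℕ) (hD : 0 ∉ D) (L : ℕ) {k : ℝ}
    (hk : 0 < k) : Integrable (fun z => ‖SG u D L z‖ ^ (2 * k)) Gm := by
  refine (hO (bx D (L + 1)) fun α hα => ?_).1 (fun α => u (dg α)) (2 * k) (by positivity)
  by_contra h
  exact hD ((mem_bx.mp hα).1 (Finsupp.mem_support_iff.mpr h))

/-- the moment of the product -/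
private lemma MM_mul (hI : IndL) {k : ℝ} (n L : ℕ) (u : ℕ → ℂ) (hk : 0 < k) :
    MM k (fun z => EX (Finset.Icc 1 n) z * SG u (Finset.Ioc n L) L z)
      = MM k (EX (Finset.Icc 1 n)) * MM k (SG u (Finset.Ioc n L) L) := by
  have hdis : Disjoint (Finset.Icc 1 n) (Finset.Ioc n L) := by
    rw [Finset.disjoint_left]
    intro j h1 h2
    have := (Finset.mem_Icc.mp h1).2
    have := (Finset.mem_Ioc.mp h2).1
    omega
  have h := hI (Finset.Icc 1 n) (Finset.Ioc n L)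
    (fun z => ENNReal.ofReal (‖EX (Finset.Icc 1 n) z‖ ^ (2 * k)))
    (fun z => ENNReal.ofReal (‖SG u (Finset.Ioc n L) L z‖ ^ (2 * k))) hdis
    (ENNReal.measurable_ofReal.comp (cont_pow (continuous_EX _) hk).measurable)
    (ENNReal.measurable_ofReal.comp (cont_pow (continuous_SG _ _ _) hk).measurable)
    (fun x y hxy => by
      have := dependsOn_EX (Finset.Icc 1 n) hxy
      simp only [this])
    (fun x y hxy => by
      have := dependsOn_SG u (Finset.Ioc n L) L hxy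
      simp only [this])
  unfold MM
  rw [← h]
  refine lintegral_congr fun z => ?_
  rw [norm_mul, Real.mul_rpow (norm_nonneg _) (norm_nonneg _),
    ENNReal.ofReal_mul (by positivity)]

private lemma harm (n : ℕ) : ∑ j ∈ Finset.Icc 1 n, (1 : ℝ) / j = (harmonic n : ℝ) := by
  rw [harmonic_eq_sum_Icc]
  push_cast
  exact Finset.sum_congr rfl fun j _ => by rw [one_div]

/-- the limit of the exponential factor -/
private lemma lim_exp (k K : ℝ) (hk : 0 < k) (hK : 1 < K) :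
    Tendsto (fun L : ℕ => Real.exp (k ^ 2 * ∑ j ∈ Finset.Icc 1 ⌊(L : ℝ) / K⌋₊, (1 : ℝ) / j)
      / (L : ℝ) ^ (k ^ 2)) atTop
      (𝓝 (Real.exp (k ^ 2 * Real.eulerMascheroniConstant) * (1 / K) ^ (k ^ 2))) := by
  have hK0 : 0 < K := by linarith
  have h1 : Tendsto (fun L : ℕ => ⌊(L : ℝ) / K⌋₊) atTop atTop :=
    tendsto_nat_floor_atTop.comp (tendsto_natCast_atTop_atTop.atTop_div_const hK0)
  have h2 : Tendsto (fun L : ℕ => Real.exp (k ^ 2 * ((harmonic ⌊(L : ℝ) / K⌋₊ : ℝ)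
      - Real.log ⌊(L : ℝ) / K⌋₊))) atTop (𝓝 (Real.exp (k ^ 2 * Real.eulerMascheroniConstant))) :=
    (Real.continuous_exp.tendsto _).comp
      ((Real.tendsto_harmonic_sub_log.comp h1).const_mul (k ^ 2))
  have h3 : Tendsto (fun L : ℕ => ((⌊(L : ℝ) / K⌋₊ : ℝ) / L) ^ (k ^ 2)) atTop
      (𝓝 ((1 / K) ^ (k ^ 2))) := by
    have h4 : Tendsto (fun x : ℝ => (⌊(1 / K) * x⌋₊ : ℝ) / x) atTop (𝓝 (1 / K)) :=
      tendsto_nat_floor_mul_div_atTop (by positivity)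
    have h5 := h4.comp tendsto_natCast_atTop_atTop
    have h6 : Tendsto (fun L : ℕ => (⌊(L : ℝ) / K⌋₊ : ℝ) / L) atTop (𝓝 (1 / K)) := by
      refine h5.congr fun L => ?_
      simp only [Function.comp_apply]
      rw [one_div_mul_eq_div]
    exact h6.rpow_const (Or.inr (by positivity))
  refine (h2.mul h3).congr' ?_
  have h7 : ∀ᶠ L : ℕ in atTop, 1 ≤ ⌊(L : ℝ) / K⌋₊ := h1.eventually_ge_atTop 1
  filter_upwards [h7, eventually_gt_atTop 0] with L hL hL0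
  have hn : (0 : ℝ) < (⌊(L : ℝ) / K⌋₊ : ℝ) := by exact_mod_cast hL
  have hL0' : (0 : ℝ) < L := by exact_mod_cast hL0
  rw [harm, Real.div_rpow hn.le hL0'.le, mul_div_assoc', Real.rpow_def_of_pos hn, ← Real.exp_add]
  congr 2
  ring

end C6

open C6

theorem gMain (hD : MT.DecLimit) (hT : Tel) (h2 : LipLev) (h4 : ExpM) (hI : IndL) (hR : RLim)
    (hP : MT.PowIneq) (hO : Orth) : GMain := by
  intro k B Lam w hk hw hw0 l hl
  obtain ⟨q, hqdef⟩ : ∃ q : ℕ, q = ⌈k⌉₊ := ⟨_, rfl⟩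
  have hq1 : 1 ≤ q := by rw [hqdef]; exact Nat.one_le_ceil_iff.mpr hk
  have hqk : k ≤ q := by rw [hqdef]; exact Nat.le_ceil k
  have hqk' : (q : ℝ) - 1 < k := by
    have := Nat.ceil_lt_add_one hk.le
    rw [← hqdef] at this
    linarith
  have hs' : 0 < 2 * k := by linarith
  have hδ : 0 < k * (k - q + 1) := mul_pos hk (by linarith)
  have hLam : 0 ≤ Lam := by
    have := (norm_nonneg _).trans (hw.lip 1 0)
    simpa using this
  obtain ⟨C1, hC1, hlev⟩ := h2 q Lam w hq1 hLam hw.lip hw.zero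
  obtain ⟨C2, hC2, htel⟩ := hT q k hq1 hk hqk' hqk
  have hC10 : 0 ≤ C1 := by linarith
  have hC1k : 0 < C1 ^ k := Real.rpow_pos_of_pos (by linarith) _
  -- one level
  have key : ∀ (η C' : ℝ), 0 ≤ C' → (∀ x y : ℂ, |‖x‖ ^ (2 * k) - ‖y‖ ^ (2 * k)|
        ≤ η * ‖x‖ ^ (2 * k) + C' * ‖x - y‖ ^ (2 * k)) → ∀ K : ℝ, 1 < K → ∀ L : ℕ, K ≤ L →
      ∃ a : ℝ, a = Real.exp (k ^ 2 * ∑ j ∈ Finset.Icc 1 ⌊(L : ℝ) / K⌋₊, (1 : ℝ) / j)
          / (L : ℝ) ^ (k ^ 2) * ∫ z, ‖SG (fun n => w ((n : ℝ) / L)) (Finset.Ioc ⌊(L : ℝ) / K⌋₊ L) L z‖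
            ^ (2 * k) ∂Gm ∧
        |(∫ z, ‖SG (fun n => w ((n : ℝ) / L)) (Finset.Icc 1 L) L z‖ ^ (2 * k) ∂Gm)
          / (L : ℝ) ^ (k ^ 2) - a| ≤ η * a + C' * (C2 * C1 ^ k * (1 / K) ^ (k * (k - q + 1))) := by
    intro η C' hC' hη K hK L hL
    have hK0 : 0 < K := by linarith
    have hL0 : (0 : ℝ) < L := by linarith
    have hLk : 0 < (L : ℝ) ^ (k ^ 2) := Real.rpow_pos_of_pos hL0 _
    obtain ⟨n, hn⟩ : ∃ n : ℕ, n = ⌊(L : ℝ) / K⌋₊ := ⟨_, rfl⟩
    obtain ⟨u, hu⟩ : ∃ u : ℕ → ℂ, u = fun n : ℕ => w ((n : ℝ) / L) := ⟨_, rfl⟩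
    have hu0 : ∀ n, L < n → u n = 0 := by
      intro m hm
      rw [hu]
      refine hw.zero _ ?_
      rw [le_div_iff₀ hL0, one_mul]
      exact_mod_cast hm.le
    have e1 : (L : ℝ) / K / L = 1 / K := by field_simp
    have hy1 : 1 ≤ (L : ℝ) / K := by rwa [le_div_iff₀ hK0, one_mul]
    have hyL : (L : ℝ) / K ≤ L := div_le_self hL0.le hK.le
    have ht := htel u L ((L : ℝ) / K) C1 hu0 hy1 hyL hC10 (fun M y h1 h2 => by
      rw [hu]
      exact hlev L M y h1 (h2.trans hyL))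
    rw [e1, ← hn] at ht
    rw [← hn, ← hu]
    have hE := h4 k n hk
    have i1 : Integrable (fun z => ‖SG u (Finset.Icc 1 L) L z‖ ^ (2 * k)) Gm :=
      int_SG hO u _ (by simp) L hk
    have i2 : Integrable (fun z => ‖SG u (Finset.Ioc n L) L z‖ ^ (2 * k)) Gm :=
      int_SG hO u _ (by simp) L hk
    have m2 := MM_mul hI n L u hk
    rw [hE, MM_eq i2, ← ENNReal.ofReal_mul (Real.exp_pos _).le] at m2
    have hc1 : Continuous (fun z => EX (Finset.Icc 1 n) z * SG u (Finset.Ioc n L) L z) :=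
      (continuous_EX _).mul (continuous_SG _ _ _)
    have hR0 : 0 ≤ ∫ z, ‖SG u (Finset.Ioc n L) L z‖ ^ (2 * k) ∂Gm :=
      integral_nonneg fun z => by positivity
    have i3 := (int_of_MM hc1 hk (by positivity) m2.le).1
    have m3 : ∫ z, ‖EX (Finset.Icc 1 n) z * SG u (Finset.Ioc n L) L z‖ ^ (2 * k) ∂Gm
        = Real.exp (k ^ 2 * ∑ j ∈ Finset.Icc 1 n, (1 : ℝ) / j)
          * ∫ z, ‖SG u (Finset.Ioc n L) L z‖ ^ (2 * k) ∂Gm := by
      rw [MM_eq i3] at m2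
      exact (ENNReal.ofReal_eq_ofReal_iff (integral_nonneg fun z => by positivity)
        (by positivity)).mp m2
    have hc2 : Continuous (fun z => SG u (Finset.Icc 1 L) L z
        - EX (Finset.Icc 1 n) z * SG u (Finset.Ioc n L) L z) := (continuous_SG _ _ _).sub hc1
    have hb0 : 0 ≤ C2 * C1 ^ k * ((L : ℝ) ^ (k ^ 2) * (1 / K) ^ (k * (k - q + 1))) := by positivity
    obtain ⟨i4, m4⟩ := int_of_MM hc2 hk hb0 ht
    refine ⟨_, rfl, ?_⟩
    obtain ⟨IS, hIS⟩ : ∃ x, x = ∫ z, ‖SG u (Finset.Icc 1 L) L z‖ ^ (2 * k) ∂Gm := ⟨_, rfl⟩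
    obtain ⟨IR, hIR⟩ : ∃ x, x = ∫ z, ‖SG u (Finset.Ioc n L) L z‖ ^ (2 * k) ∂Gm := ⟨_, rfl⟩
    obtain ⟨IE, hIE⟩ : ∃ x, x = ∫ z, ‖EX (Finset.Icc 1 n) z * SG u (Finset.Ioc n L) L z‖ ^ (2 * k) ∂Gm :=
      ⟨_, rfl⟩
    obtain ⟨ID, hID⟩ : ∃ x, x = ∫ z, ‖SG u (Finset.Icc 1 L) L z
        - EX (Finset.Icc 1 n) z * SG u (Finset.Ioc n L) L z‖ ^ (2 * k) ∂Gm := ⟨_, rfl⟩
    have c1 : |IE - IS| ≤ η * IE + C' * ID := by
      rw [hIE, hIS, hID, ← integral_sub i3 i1, ← integral_const_mul, ← integral_const_mul,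
        ← integral_add (i3.const_mul _) (i4.const_mul _)]
      refine (abs_integral_le_integral_abs).trans ?_
      refine integral_mono (i3.sub i1).abs ((i3.const_mul _).add (i4.const_mul _)) fun z => ?_
      have := hη (EX (Finset.Icc 1 n) z * SG u (Finset.Ioc n L) L z) (SG u (Finset.Icc 1 L) L z)
      rwa [norm_sub_rev (EX (Finset.Icc 1 n) z * SG u (Finset.Ioc n L) L z)] at this
    rw [← hID] at m4
    rw [← hIE, ← hIR] at m3
    rw [← hIS, ← hIR]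
    have e2 : Real.exp (k ^ 2 * ∑ j ∈ Finset.Icc 1 n, (1 : ℝ) / j) / (L : ℝ) ^ (k ^ 2) * IR
        = IE / (L : ℝ) ^ (k ^ 2) := by
      rw [m3]
      ring
    rw [e2, ← sub_div, abs_div, abs_of_pos hLk, div_le_iff₀ hLk, abs_sub_comm]
    calc |IE - IS| ≤ η * IE + C' * ID := c1
      _ ≤ η * IE + C' * (C2 * C1 ^ k * ((L : ℝ) ^ (k ^ 2) * (1 / K) ^ (k * (k - q + 1)))) := by
          gcongr
      _ = _ := by field_simp
  -- the limit
  unfold GLm
  obtain ⟨T, hTd⟩ : ∃ T : ℝ, T = Real.exp (k ^ 2 * Real.eulerMascheroniConstant) * l := ⟨_, rfl⟩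
  rw [← hTd, Metric.tendsto_atTop]
  intro ε hε
  obtain ⟨η, hη⟩ : ∃ η : ℝ, η = ε / (8 * (|T| + 1)) := ⟨_, rfl⟩
  have hT1 : 0 < |T| + 1 := by positivity
  have hη0 : 0 < η := by rw [hη]; positivity
  obtain ⟨C', hC', hpow⟩ := hP (2 * k) η hs' hη0
  -- choice of the level
  have hG0 : 0 < Real.exp (k ^ 2 * Real.eulerMascheroniConstant) := Real.exp_pos _
  obtain ⟨v1, hv1⟩ := hl (min (ε / 8) (1 / 2) / Real.exp (k ^ 2 * Real.eulerMascheroniConstant))
    (by positivity)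
  obtain ⟨v2, hv2⟩ : ∃ v2 : ℕ, ∀ v : ℕ, v2 ≤ v →
      C' * (C2 * C1 ^ k * (1 / Real.exp (2 * v)) ^ (k * (k - q + 1))) ≤ ε / 8 := by
    have h5 : Tendsto (fun v : ℕ => C' * (C2 * C1 ^ k * (1 / Real.exp (2 * v)) ^ (k * (k - q + 1))))
        atTop (𝓝 (C' * (C2 * C1 ^ k * 0 ^ (k * (k - q + 1))))) := by
      refine Tendsto.const_mul _ (Tendsto.const_mul _ ?_)
      refine Tendsto.rpow_const ?_ (Or.inr hδ.le)
      have h6 : Tendsto (fun v : ℕ => Real.exp (-(2 * (v : ℝ)))) atTop (𝓝 0) := by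
        refine Real.tendsto_exp_atBot.comp ?_
        refine tendsto_neg_atTop_atBot.comp ?_
        exact tendsto_natCast_atTop_atTop.const_mul_atTop (by norm_num)
      refine h6.congr fun v => ?_
      rw [Real.exp_neg, one_div]
    rw [Real.zero_rpow hδ.ne', mul_zero, mul_zero] at h5
    have h7 := (Metric.tendsto_atTop.mp h5) (ε / 8) (by positivity)
    obtain ⟨v2, hv2⟩ := h7
    refine ⟨v2, fun v hv => ?_⟩
    have := hv2 v hv
    rw [Real.dist_eq, sub_zero] at this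
    exact (le_abs_self _).trans this.le
  obtain ⟨v, hvd⟩ : ∃ v : ℕ, v = max 1 (max v1 v2) := ⟨_, rfl⟩
  have hva : 1 ≤ v := by rw [hvd]; exact le_max_left _ _
  have hvb : v1 ≤ v := by rw [hvd]; exact (le_max_left _ _).trans (le_max_right _ _)
  have hvc : v2 ≤ v := by rw [hvd]; exact (le_max_right _ _).trans (le_max_right _ _)
  obtain ⟨K, hKd⟩ : ∃ K : ℝ, K = Real.exp (2 * v) := ⟨_, rfl⟩
  have hK : 1 < K := by
    rw [hKd, Real.one_lt_exp_iff]
    have : (1 : ℝ) ≤ v := by exact_mod_cast hva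
    linarith
  have hK0 : 0 < K := by linarith
  obtain ⟨g, hg1, hg2⟩ := hD k B Lam w hk hw K hK
  rw [hw0, norm_one, Real.one_rpow] at hg1
  have hgl := hv1 v hvb g hg1 (by rw [← hKd]; exact hg2)
  have hlim := (lim_exp k K hk hK).mul (hR k B Lam w hk hw K g hK hg2)
  obtain ⟨A, hAd⟩ : ∃ A : ℝ, A = Real.exp (k ^ 2 * Real.eulerMascheroniConstant)
    * (1 / K) ^ (k ^ 2) * g := ⟨_, rfl⟩
  have hAT : |A - T| ≤ min (ε / 8) (1 / 2) := by
    have e3 : (1 / K) ^ (k ^ 2) = Real.exp (-(2 * v * k ^ 2)) := by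
      rw [hKd, one_div, ← Real.exp_neg, ← Real.exp_mul]
      congr 1
      ring
    have e4 : A - T = Real.exp (k ^ 2 * Real.eulerMascheroniConstant)
        * (g * Real.exp (-(2 * v * k ^ 2)) - l) := by
      rw [hAd, hTd, e3]
      ring
    rw [e4, abs_mul, abs_of_pos hG0]
    calc _ ≤ Real.exp (k ^ 2 * Real.eulerMascheroniConstant) * (min (ε / 8) (1 / 2)
        / Real.exp (k ^ 2 * Real.eulerMascheroniConstant)) := mul_le_mul_of_nonneg_left hgl hG0.le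
      _ = _ := by field_simp
  rw [← hAd] at hlim
  obtain ⟨L1, hL1⟩ := (Metric.tendsto_atTop.mp hlim) (min (ε / 8) (1 / 2)) (by positivity)
  refine ⟨max L1 ⌈K⌉₊, fun L hL => ?_⟩
  have hLK : K ≤ L := (Nat.le_ceil K).trans (by exact_mod_cast (le_max_right _ _).trans hL)
  have h8 := hL1 L ((le_max_left _ _).trans hL)
  obtain ⟨a, ha, h9⟩ := key η C' hC' hpow K hK L hLK
  rw [← ha, Real.dist_eq] at h8
  have h10 := hv2 v hvc
  rw [← hKd] at h10
  have h11 : |a - A| ≤ ε / 8 := h8.le.trans (min_le_left _ _)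
  have h12 : |a - A| ≤ 1 / 2 := h8.le.trans (min_le_right _ _)
  have h13 : |A - T| ≤ ε / 8 := hAT.trans (min_le_left _ _)
  have h14 : |A - T| ≤ 1 / 2 := hAT.trans (min_le_right _ _)
  have h15 : a ≤ |T| + 1 := by
    have h16 := (abs_le.mp h12).2
    have h17 := (abs_le.mp h14).2
    have h18 := le_abs_self T
    linarith
  have h16 : η * a ≤ ε / 8 := by
    calc η * a ≤ η * (|T| + 1) := mul_le_mul_of_nonneg_left h15 hη0.le
      _ = ε / 8 := by rw [hη]; field_simp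
  rw [Real.dist_eq]
  have h17 := abs_sub_le ((∫ z, ‖SG (fun n => w ((n : ℝ) / L)) (Finset.Icc 1 L) L z‖ ^ (2 * k) ∂Gm)
    / (L : ℝ) ^ (k ^ 2)) a T
  have h18 := abs_sub_le a A T
  linarith

end Pool.Agent.Lib.RM
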